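import Pool.Agent.Lib.D12.A2Defs
import Pool.Agent.Lib.D13.Coext

/-!
# MP_5dcbc3_ag, type (4,3,3,2), levels 1, 3, 4, 4: independent `a`'s
-/

set_option autoImplicit false

namespace Pool.Agent.Lib.D12.A43

open Matrix Pool.Agent.Lib.Q5dc Pool.Agent.Lib.D7 Pool.Agent.Lib.D8 Pool.Agent.Lib.D13

variable {k : Type*} [Field k] {ρ : ℕ → ℕ}
  {Y Y' : Matrix (Fin 4) (Fin 4) k} {B B' : Matrix (Fin 4) (Fin 3) k} {g g' : Fin 4 → k}

/-- three linear equations in four unknowns -/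
theorem exists_ker (a b c : Fin 4 → k) : ∃ p : Fin 4 → k, p ≠ 0 ∧ ∑ i, p i * a i = 0 ∧
    ∑ i, p i * b i = 0 ∧ ∑ i, p i * c i = 0 := by
  have h1 := Matrix.exists_mulVec_eq_zero_iff (M := Matrix.of ![a, b, c, 0])
  have h2 : (Matrix.of ![a, b, c, 0]).det = 0 := Matrix.det_eq_zero_of_row_eq_zero 3 fun j => by simp
  obtain ⟨p, hp, hp'⟩ := h1.2 h2
  refine ⟨p, hp, ?_, ?_, ?_⟩
  · have h := congrFun hp' 0
    simpa [Matrix.mulVec, dotProduct, mul_comm] using h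
  · have h := congrFun hp' 1
    simpa [Matrix.mulVec, dotProduct, mul_comm] using h
  · have h := congrFun hp' 2
    simpa [Matrix.mulVec, dotProduct, mul_comm] using h

theorem vecMul_X43 (f0 : k) (f1 : Fin 3 → k) (f2 f3 : Fin 4 → k) :
    vT f0 f1 f2 f3 ᵥ* X43 k = vT (f1 0) (fun j => f2 j.castSucc) f3 0 := by
  rw [vecMul_TT]
  refine vT_ext ?_ (fun j => ?_) (fun j => ?_) (fun _ => rfl)
  · simp [Matrix.one_apply]
  · simp [Matrix.one_apply]
  · simp [Matrix.one_apply]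

/-- the functionals `ψ` -/
theorem exists_psi4 (y3 : Y 3 0 = 0) (z3 : Y' 3 0 = 0)
    (hT : MaxR ρ ![X43 k, TT Y B g, TT Y' B' g']) (ha : Y 1 0 ≠ 0 ∨ Y 2 0 ≠ 0) :
    ∃ (p : Fin 4 → k) (f f' : Fin 3 → k) (q q' r r' : Fin 4 → k), p ≠ 0 ∧
      vT 0 0 0 p ᵥ* TT Y B g = vT 0 f q r ᵥ* X43 k ∧
      vT 0 0 0 p ᵥ* TT Y' B' g' = vT 0 f' q' r' ᵥ* X43 k ∧
      vT 0 f q r ᵥ* TT Y' B' g' = vT 0 f' q' r' ᵥ* TT Y B g := by
  have hrel := relOf y3 z3 hT
  -- the three equations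
  obtain ⟨p, hp, p1, p2, p3⟩ := exists_ker (fun i => (Y * Y' - Y' * Y) i 3)
    (fun i => ∑ j : Fin 3, (B i j * Y' j.castSucc 1 - B' i j * Y j.castSucc 1) +
      ∑ j, (Y i j * B' j 1 - Y' i j * B j 1))
    (fun i => ∑ j : Fin 3, (B i j * Y' j.castSucc 2 - B' i j * Y j.castSucc 2) +
      ∑ j, (Y i j * B' j 2 - Y' i j * B j 2))
  set q : Fin 4 → k := ![∑ i, p i * B i 0, ∑ i, p i * B i 1, ∑ i, p i * B i 2, 0] with hq
  set q' : Fin 4 → k := ![∑ i, p i * B' i 0, ∑ i, p i * B' i 1, ∑ i, p i * B' i 2, 0] with hq'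
  set r : Fin 4 → k := fun j => ∑ i, p i * Y i j with hr
  set r' : Fin 4 → k := fun j => ∑ i, p i * Y' i j with hr'
  obtain ⟨t1, t2, ht⟩ : ∃ t1 t2, (∑ i, p i * g i) * Y' 0 0 + ∑ i, q i * B' i 0 + ∑ i, r i * g' i =
      (∑ i, p i * g' i) * Y 0 0 + t1 * Y 1 0 + t2 * Y 2 0 + ∑ i, q' i * B i 0 +
        ∑ i, r' i * g i := by
    rcases ha with ha | ha
    · refine ⟨((∑ i, p i * g i) * Y' 0 0 + ∑ i, q i * B' i 0 + ∑ i, r i * g' i -
        (∑ i, p i * g' i) * Y 0 0 - ∑ i, q' i * B i 0 - ∑ i, r' i * g i) / Y 1 0, 0, ?_⟩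
      field_simp
      ring
    · refine ⟨0, ((∑ i, p i * g i) * Y' 0 0 + ∑ i, q i * B' i 0 + ∑ i, r i * g' i -
        (∑ i, p i * g' i) * Y 0 0 - ∑ i, q' i * B i 0 - ∑ i, r' i * g i) / Y 2 0, ?_⟩
      field_simp
      ring
  refine ⟨p, ![∑ i, p i * g i, 0, 0], ![∑ i, p i * g' i, t1, t2], q, q', r, r', hp, ?_, ?_, ?_⟩
  · rw [vecMul_TT, vecMul_X43]
    refine vT_ext ?_ (fun j => ?_) (fun j => ?_) (fun _ => rfl)
    · simp
    · fin_cases j <;> simp [hq]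
    · simp [hr]
  · rw [vecMul_TT, vecMul_X43]
    refine vT_ext ?_ (fun j => ?_) (fun j => ?_) (fun _ => rfl)
    · simp
    · fin_cases j <;> simp [hq']
    · simp [hr']
  · rw [vecMul_TT, vecMul_TT]
    have c0 : (Fin.castSucc 0 : Fin 4) = 0 := rfl
    have c1 : (Fin.castSucc 1 : Fin 4) = 1 := rfl
    have c2 : (Fin.castSucc 2 : Fin 4) = 2 := rfl
    have a0 := fun i => hrel.1 i 0
    have a1 := fun i => hrel.1 i 1
    have a2 := fun i => hrel.1 i 2
    have b := hrel.2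
    simp only [Matrix.mul_apply, Fin.sum_univ_four, Fin.sum_univ_three, c0, c1, c2] at a0 a1 a2 b
    simp only [Matrix.sub_apply, Matrix.mul_apply, Fin.sum_univ_four, Fin.sum_univ_three, c0, c1,
      c2] at p1 p2 p3 ht
    refine vT_ext ?_ (fun j => ?_) (fun j => ?_) (fun _ => rfl)
    · simp only [Fin.sum_univ_four, Fin.sum_univ_three, Matrix.cons_val_zero,
        Matrix.cons_val_one, Matrix.cons_val, c0, c1, c2, zero_mul, add_zero]
      exact ht
    · have hj : j = 0 ∨ j = 1 ∨ j = 2 := by fin_cases j <;> simp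
      obtain rfl | rfl | rfl := hj
      · simp [Fin.sum_univ_four, hq, hq', hr, hr']
        linear_combination p 0 * b 0 + p 1 * b 1 + p 2 * b 2 + p 3 * b 3
      · simp [Fin.sum_univ_four, hq, hq', hr, hr']
        linear_combination p2
      · simp [Fin.sum_univ_four, hq, hq', hr, hr']
        linear_combination p3
    · have hj : j = 0 ∨ j = 1 ∨ j = 2 ∨ j = 3 := by fin_cases j <;> simp
      obtain rfl | rfl | rfl | rfl := hj
      · simp [Fin.sum_univ_four, hr, hr']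
        linear_combination p 0 * a0 0 + p 1 * a0 1 + p 2 * a0 2 + p 3 * a0 3
      · simp [Fin.sum_univ_four, hr, hr']
        linear_combination p 0 * a1 0 + p 1 * a1 1 + p 2 * a1 2 + p 3 * a1 3
      · simp [Fin.sum_univ_four, hr, hr']
        linear_combination p 0 * a2 0 + p 1 * a2 1 + p 2 * a2 2 + p 3 * a2 3
      · simp [Fin.sum_univ_four, hr, hr']
        linear_combination p1

theorem TT3_e0 (Y1 Y2 Y3 : Matrix (Fin 4) (Fin 4) k) (B1 B2 B3 : Matrix (Fin 4) (Fin 3) k)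
    (g1 g2 g3 p : Fin 4 → k) :
    vT 0 0 0 p ⬝ᵥ (TT Y1 B1 g1 * TT Y2 B2 g2 * TT Y3 B3 g3) *ᵥ vT 1 0 0 0 =
      ∑ i, p i * ∑ j, Y1 i j * ∑ l : Fin 3, Y2 j l.castSucc * Y3 l.castSucc 0 := by
  rw [← Matrix.mulVec_mulVec, ← Matrix.mulVec_mulVec, TT_mulVec, TT_mulVec, TT_mulVec, vT_dot]
  simp [dotProduct]

/-- levels 1, 3, 4, 4, independent `a`'s -/
theorem no_A2ind [Infinite k] [CharZero k] (hT : MaxR ρ ![X43 k, TT Y B g, TT Y' B' g'])
    (h4 : ρ 4 = 0) (y3 : Y 3 0 = 0) (z3 : Y' 3 0 = 0)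
    (hi : Y 1 0 * Y' 2 0 - Y 2 0 * Y' 1 0 ≠ 0)
    (hP : Y 3 1 ≠ 0 ∨ Y 3 2 ≠ 0 ∨ Y' 3 1 ≠ 0 ∨ Y' 3 2 ≠ 0) : False := by
  have ha : Y 1 0 ≠ 0 ∨ Y 2 0 ≠ 0 := by
    by_contra h
    push Not at h
    exact hi (by rw [h.1, h.2]; ring)
  obtain ⟨p, f, f', q, q', r, r', hp, e1, e2, e12⟩ := exists_psi4 y3 z3 hT ha
  obtain ⟨w, hw, w1, w2, w3⟩ := exists_ker p r r'
  have hc := coext4 hT h4 (ψ := ![vT 0 0 0 p, vT 0 f q r, vT 0 f' q' r']) (g := vT 0 0 0 w)
    (fun h => hw (funext fun i => congrFun h (.inr (.inr (.inr i)))))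
    (fun i => by
      fin_cases i
      all_goals
        show TT _ _ _ *ᵥ vT 0 0 0 w = 0
        rw [TT_mulVec, ← vT_zero]
        refine vT_ext rfl (fun _ => ?_) (fun _ => ?_) (fun _ => ?_) <;> simp)
    (fun i => by
      have hs : ∀ a b : Fin 4 → k, a ⬝ᵥ b = ∑ i, b i * a i := fun a b => by
        rw [dotProduct_comm]; rfl
      fin_cases i
      · show vT 0 0 0 p ⬝ᵥ vT 0 0 0 w = 0
        rw [vT_dot, hs p w, w1]; simp
      · show vT 0 f q r ⬝ᵥ vT 0 0 0 w = 0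
        rw [vT_dot, hs r w, w2]; simp
      · show vT 0 f' q' r' ⬝ᵥ vT 0 0 0 w = 0
        rw [vT_dot, hs r' w, w3]; simp)
    (fun i j => by
      fin_cases i <;> fin_cases j
      · rfl
      · exact e1
      · exact e2
      · exact e1.symm
      · rfl
      · exact e12
      · exact e2.symm
      · exact e12.symm
      · rfl)
  have hd : ∀ j l m, vT 0 0 0 p ⬝ᵥ ((![X43 k, TT Y B g, TT Y' B' g'] : Fin 3 → _) j *
      (![X43 k, TT Y B g, TT Y' B' g'] : Fin 3 → _) l *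
      (![X43 k, TT Y B g, TT Y' B' g'] : Fin 3 → _) m) *ᵥ vT 1 0 0 0 = 0 := by
    intro j l m
    have h := congrArg (fun v => v ⬝ᵥ (vT 1 0 0 0 : IA → k)) (hc 0 j l m)
    simp only [zero_dotProduct] at h
    rwa [← Matrix.dotProduct_mulVec] at h
  have c0 : (Fin.castSucc 0 : Fin 4) = 0 := rfl
  have c1 : (Fin.castSucc 1 : Fin 4) = 1 := rfl
  have c2 : (Fin.castSucc 2 : Fin 4) = 2 := rfl
  have d000 := hd 0 0 0
  have d001 := hd 0 0 1
  have d002 := hd 0 0 2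
  have d101 := hd 1 0 1
  have d102 := hd 1 0 2
  have d201 := hd 2 0 1
  have d202 := hd 2 0 2
  simp only [Matrix.cons_val_zero, Matrix.cons_val_one, Matrix.cons_val, TT3_e0,
    Fin.sum_univ_four, Fin.sum_univ_three, c0, c1, c2] at d000 d001 d002 d101 d102 d201 d202
  simp [Matrix.one_apply, y3, z3] at d000 d001 d002 d101 d102 d201 d202
  have q1 : p 1 = 0 := by
    refine (mul_eq_zero.1 ?_).resolve_right hi
    rw [d000] at d001 d002
    linear_combination Y' 2 0 * d001 - Y 2 0 * d002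
  have q2 : p 2 = 0 := by
    refine (mul_eq_zero.1 ?_).resolve_right hi
    rw [d000] at d001 d002
    linear_combination Y 1 0 * d002 - Y' 1 0 * d001
  have q3 : p 3 ≠ 0 := by
    intro h
    apply hp
    funext i
    fin_cases i
    exacts [d000, q1, q2, h]
  rw [d000, q1, q2] at d101 d102 d201 d202
  simp only [zero_mul, zero_add] at d101 d102 d201 d202
  have d101 := (mul_eq_zero.1 d101).resolve_left q3
  have d102 := (mul_eq_zero.1 d102).resolve_left q3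
  have d201 := (mul_eq_zero.1 d201).resolve_left q3
  have d202 := (mul_eq_zero.1 d202).resolve_left q3
  rcases hP with h | h | h | h
  · refine mul_ne_zero h hi ?_
    linear_combination Y' 2 0 * d101 - Y 2 0 * d102
  · refine mul_ne_zero h hi ?_
    linear_combination Y 1 0 * d102 - Y' 1 0 * d101
  · refine mul_ne_zero h hi ?_
    linear_combination Y' 2 0 * d201 - Y 2 0 * d202
  · refine mul_ne_zero h hi ?_
    linear_combination Y 1 0 * d202 - Y' 1 0 * d201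

end Pool.Agent.Lib.D12.A43
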