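import Pool.Agent.Lib.D12.A2Dep
import Pool.Agent.Lib.D12.A2Ind

/-!
# MP_5dcbc3_ag, type (4,3,3,2), levels 1, 3, 4, 4
-/

set_option autoImplicit false

namespace Pool.Agent.Lib.D12.A43

open Matrix Pool.Agent.Lib.Q5dc Pool.Agent.Lib.D7 Pool.Agent.Lib.D8 Pool.Agent.Lib.D13

variable {k : Type*} [Field k] {ρ : ℕ → ℕ}
  {Y Y' : Matrix (Fin 4) (Fin 4) k} {B B' : Matrix (Fin 4) (Fin 3) k} {g g' : Fin 4 → k}

/-- levels 1, 3, 4, 4, dependent `a`'s -/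
theorem no_A2d [IsAlgClosed k] [CharZero k]
    (hT : MaxR ρ ![X43 k, TT Y B g, TT Y' B' g']) (h3 : ρ 3 ≤ 1) (h4 : ρ 4 = 0)
    (y0 : ∀ i, Y i 0 = if i = 1 then 1 else 0) (z0 : ∀ i, Y' i 0 = 0)
    (hP : Y 3 1 ≠ 0 ∨ Y 3 2 ≠ 0 ∨ Y' 3 2 ≠ 0) : False :=
  no_A2dep (fun hT y3 z3 hi hP => no_A2ind hT h4 y3 z3 hi hP) hT h3 h4 y0 z0 hP

/-- the same, `a' = 0`, `a = (0, u, v)` -/
theorem no_A2e [IsAlgClosed k] [CharZero k]
    (hT : MaxR ρ ![X43 k, TT Y B g, TT Y' B' g']) (h3 : ρ 3 ≤ 1) (h4 : ρ 4 = 0)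
    (y0 : Y 0 0 = 0) (y3 : Y 3 0 = 0) (ha : Y 1 0 ≠ 0 ∨ Y 2 0 ≠ 0) (z0 : ∀ i, Y' i 0 = 0)
    (hP : Y 3 1 ≠ 0 ∨ Y 3 2 ≠ 0 ∨ Y' 3 1 ≠ 0 ∨ Y' 3 2 ≠ 0) : False := by
  have key : ∀ (G G' : Matrix (Fin 4) (Fin 4) k), G * G' = 1 →
      (∀ j : Fin 3, G' 3 j.castSucc = 0) → (∀ j : Fin 3, G 3 j.castSucc = 0) →
      (∀ i, G' i 0 = if i = 0 then 1 else 0) → (∀ i, G' i 1 = Y i 0) → G 3 3 = 1 →
      Y 1 0 * G' 2 2 - Y 2 0 * G' 1 2 ≠ 0 → False := by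
    intro G G' h1 g3' g3 g0 g1 h33 hdet
    have hb := baseG h1 g3' g3 g0 y3 (z0 3) hT
    have h2 : G' * G = 1 := mul_eq_one_comm.1 h1
    have c0 : ∀ (M : Matrix (Fin 4) (Fin 4) k) i, (M * G') i 0 = M i 0 := by
      intro M i
      simp [Matrix.mul_apply, g0]
    have g30 := g3 0
    have g31 := g3 1
    have g32 := g3 2
    have g30' := g3' 0
    have g31' := g3' 1
    have g32' := g3' 2
    rw [show (Fin.castSucc 0 : Fin 4) = 0 from rfl] at g30 g30'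
    rw [show (Fin.castSucc 1 : Fin 4) = 1 from rfl] at g31 g31'
    rw [show (Fin.castSucc 2 : Fin 4) = 2 from rfl] at g32 g32'
    have y0' : ∀ i, (G * Y * G') i 0 = if i = 1 then 1 else 0 := by
      intro i
      rw [c0]
      have h := congrFun (congrFun h1 i) 1
      rw [Matrix.mul_apply] at h ⊢
      simp only [g1] at h
      rw [h, Matrix.one_apply]
    have z0' : ∀ i, (G * Y' * G') i 0 = 0 := by
      intro i
      rw [c0, Matrix.mul_apply]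
      simp [z0]
    have z1' := (rel_cols y0' z0' hb).1
    have e : ∀ (M : Matrix (Fin 4) (Fin 4) k) (j : Fin 4), M 3 0 = 0 → G' 3 j = 0 →
        (G * M * G') 3 j = M 3 1 * G' 1 j + M 3 2 * G' 2 j := by
      intro M j h0 hj
      rw [mul_assoc, Matrix.mul_apply, Fin.sum_univ_four, g30, g31, g32, h33, zero_mul, zero_mul,
        zero_mul, zero_add, zero_add, zero_add, one_mul, Matrix.mul_apply, Fin.sum_univ_four, h0,
        hj]
      ring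
    refine no_A2d hb h3 h4 y0' z0' ?_
    by_contra hcon
    push Not at hcon
    have f1 := e Y 1 y3 g31'
    have f2 := e Y 2 y3 g32'
    have f3 := e Y' 1 (z0 3) g31'
    have f4 := e Y' 2 (z0 3) g32'
    rw [hcon.1, g1, g1] at f1
    rw [hcon.2.1] at f2
    rw [z1', g1, g1] at f3
    rw [hcon.2.2] at f4
    rcases hP with h | h | h | h
    · refine mul_ne_zero h hdet ?_
      linear_combination Y 2 0 * f2 - G' 2 2 * f1
    · refine mul_ne_zero h hdet ?_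
      linear_combination G' 1 2 * f1 - Y 1 0 * f2
    · refine mul_ne_zero h hdet ?_
      linear_combination Y 2 0 * f4 - G' 2 2 * f3
    · refine mul_ne_zero h hdet ?_
      linear_combination G' 1 2 * f3 - Y 1 0 * f4
  by_cases h1 : Y 1 0 = 0
  · have h2 := ha.resolve_left (not_not.2 h1)
    refine key !![1, 0, 0, 0; 0, 0, (Y 2 0)⁻¹, 0; 0, 1, 0, 0; 0, 0, 0, 1]
      !![1, 0, 0, 0; 0, 0, 1, 0; 0, Y 2 0, 0, 0; 0, 0, 0, 1] ?_ (fun j => ?_) (fun j => ?_)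
      (fun i => ?_) (fun i => ?_) (by simp) (by simp [h1, h2])
    · ext i j
      fin_cases i <;> fin_cases j <;> simp [Matrix.mul_apply, Fin.sum_univ_four, h2]
    · fin_cases j <;> simp
    · fin_cases j <;> simp
    · fin_cases i <;> simp
    · fin_cases i <;> simp [y0, y3, h1]
  · refine key !![1, 0, 0, 0; 0, (Y 1 0)⁻¹, 0, 0; 0, -(Y 2 0 * (Y 1 0)⁻¹), 1, 0; 0, 0, 0, 1]
      !![1, 0, 0, 0; 0, Y 1 0, 0, 0; 0, Y 2 0, 1, 0; 0, 0, 0, 1] ?_ (fun j => ?_) (fun j => ?_)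
      (fun i => ?_) (fun i => ?_) (by simp) (by simp [h1])
    · ext i j
      fin_cases i <;> fin_cases j <;> simp [Matrix.mul_apply, Fin.sum_univ_four, h1]
    · fin_cases j <;> simp
    · fin_cases j <;> simp
    · fin_cases i <;> simp
    · fin_cases i <;> simp [y0, y3]

/-- levels 1, 3, 4, 4 -/
theorem no_A2 [IsAlgClosed k] [CharZero k]
    (hT : MaxR ρ ![X43 k, TT Y B g, TT Y' B' g']) (h3 : ρ 3 ≤ 1) (h4 : ρ 4 = 0)
    (y3 : Y 3 0 = 0) (z3 : Y' 3 0 = 0)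
    (ha : Y 1 0 ≠ 0 ∨ Y 2 0 ≠ 0 ∨ Y' 1 0 ≠ 0 ∨ Y' 2 0 ≠ 0)
    (hP : Y 3 1 ≠ 0 ∨ Y 3 2 ≠ 0 ∨ Y' 3 1 ≠ 0 ∨ Y' 3 2 ≠ 0) : False := by
  by_cases hi : Y 1 0 * Y' 2 0 - Y 2 0 * Y' 1 0 = 0
  swap
  · exact no_A2ind hT h4 y3 z3 hi hP
  -- the first vector is not zero
  have key : ∀ {Y Y' : Matrix (Fin 4) (Fin 4) k} {B B' : Matrix (Fin 4) (Fin 3) k}
      {g g' : Fin 4 → k}, MaxR ρ ![X43 k, TT Y B g, TT Y' B' g'] → Y 3 0 = 0 → Y' 3 0 = 0 →
      Y 1 0 * Y' 2 0 - Y 2 0 * Y' 1 0 = 0 → (Y 1 0 ≠ 0 ∨ Y 2 0 ≠ 0) →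
      (Y 3 1 ≠ 0 ∨ Y 3 2 ≠ 0 ∨ Y' 3 1 ≠ 0 ∨ Y' 3 2 ≠ 0) → False := by
    intro Y Y' B B' g g' hT y3 z3 hi ha hP
    obtain ⟨c, hc1, hc2⟩ : ∃ c, Y' 1 0 = c * Y 1 0 ∧ Y' 2 0 = c * Y 2 0 := by
      by_cases h1 : Y 1 0 = 0
      · have h2 := ha.resolve_left (not_not.2 h1)
        rw [h1, zero_mul, zero_sub, neg_eq_zero] at hi
        refine ⟨Y' 2 0 / Y 2 0, ?_, ?_⟩
        · rw [h1, mul_zero]
          exact (mul_eq_zero.1 hi).resolve_left h2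
        · field_simp
      · refine ⟨Y' 1 0 / Y 1 0, ?_, ?_⟩
        · field_simp
        · field_simp
          linear_combination hi
    -- the change of the basis of the pencil
    have h1 : MaxR ρ ![X43 k, TT Y B g, TT Y' B' g' - c • TT Y B g] := by
      refine MaxR.change3 hT (mem1 _ _ _) (sub_mem (mem2 _ _ _)
        (SMulMemClass.smul_mem _ (mem1 _ _ _))) (mem1 _ _ _) ?_
      have h := add_mem (mem2 (X43 k) (TT Y B g) (TT Y' B' g' - c • TT Y B g))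
        (SMulMemClass.smul_mem c (mem1 (X43 k) (TT Y B g) (TT Y' B' g' - c • TT Y B g)))
      rwa [sub_add_cancel] at h
    rw [TT_smul, TT_sub] at h1
    have h2 := sub3 h1 (Y 0 0) 0 0 ((Y' - c • Y) 0 0) 0 0
    refine no_A2e h2 h3 h4 (by simp) (by simp [y3]) ?_ (fun i => ?_) ?_
    · simpa using ha
    · fin_cases i
      · simp
      · simp [hc1]
      · simp [hc2]
      · simp [y3, z3]
    · by_contra hcon
      push Not at hcon
      simp at hcon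
      obtain ⟨q1, q2, q3, q4⟩ := hcon
      rw [q1, mul_zero, sub_zero] at q3
      rw [q2, mul_zero, sub_zero] at q4
      rcases hP with h | h | h | h
      exacts [h q1, h q2, h q3, h q4]
  by_cases ha1 : Y 1 0 = 0 ∧ Y 2 0 = 0
  · refine key (MaxR.swap hT) z3 y3 (by linear_combination -hi) ?_ ?_
    · rcases ha with h | h | h | h
      · exact absurd ha1.1 h
      · exact absurd ha1.2 h
      · exact Or.inl h
      · exact Or.inr h
    · tauto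
  · refine key hT y3 z3 hi ?_ hP
    by_contra hcon
    push Not at hcon
    exact ha1 hcon

end Pool.Agent.Lib.D12.A43
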