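import Pool.Agent.Lib.D13.Axis

/-!
# MP_5dcbc3_ag, type (4,3,3,2), case (A2): levels of dimensions 1, 3, 4, 4

`V0 = <e0>`, `V1 = <x e0, a, h>`, `V2 = <x^2 e0, x a, x h, w>`, `V3 = <x^3 e0, x^2 a, x^2 h, x w>`;
`TT Y B g`: `Y : V2 -> V3`, `Y : V1 -> V2` (first three columns), `V0 -> V1` (first column of `Y`, whose last
entry is assumed to be zero), `B : V1 -> V3`, `V0 -> V2` (first column of `B`), `g : V0 -> V3`.
`TT 1 0 0` is the Jordan matrix.
-/

set_option autoImplicit false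

namespace Pool.Agent.Lib.D12.A43

open Matrix Pool.Agent.Lib.Q5dc Pool.Agent.Lib.D7 Pool.Agent.Lib.D8 Pool.Agent.Lib.D13

/-- indices: levels of dimensions 1, 3, 4, 4 -/
abbrev IA : Type := Unit ⊕ Fin 3 ⊕ Fin 4 ⊕ Fin 4

variable {k : Type*} [Field k] {ρ : ℕ → ℕ}

/-- the matrices commuting with the Jordan matrix of type `(4,3,3,2)` which raise the level -/
def TT (Y : Matrix (Fin 4) (Fin 4) k) (B : Matrix (Fin 4) (Fin 3) k) (g : Fin 4 → k) :
    Matrix IA IA k :=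
  Matrix.of fun i j => match i, j with
    | .inr (.inl i), .inl _ => Y i.castSucc 0
    | .inr (.inr (.inl i)), .inl _ => B i 0
    | .inr (.inr (.inr i)), .inl _ => g i
    | .inr (.inr (.inl i)), .inr (.inl j) => Y i j.castSucc
    | .inr (.inr (.inr i)), .inr (.inl j) => B i j
    | .inr (.inr (.inr i)), .inr (.inr (.inl j)) => Y i j
    | _, _ => 0

/-- products of two matrices `TT` -/
def SS (p : Fin 4 → k) (C : Matrix (Fin 4) (Fin 3) k) (q : Fin 4 → k) : Matrix IA IA k :=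
  Matrix.of fun i j => match i, j with
    | .inr (.inr (.inl i)), .inl _ => p i
    | .inr (.inr (.inr i)), .inl _ => q i
    | .inr (.inr (.inr i)), .inr (.inl j) => C i j
    | _, _ => 0

/-- the Jordan matrix -/
abbrev X43 (k : Type*) [Field k] : Matrix IA IA k := TT 1 0 0

section

variable (Y Y' : Matrix (Fin 4) (Fin 4) k) (B B' : Matrix (Fin 4) (Fin 3) k) (g g' : Fin 4 → k)
  (s : k)

theorem TT_mul : TT Y B g * TT Y' B' g' =
    SS (fun i => ∑ j : Fin 3, Y i j.castSucc * Y' j.castSucc 0)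
      (Matrix.of fun i j => (Y * Y') i j.castSucc)
      (fun i => ∑ j : Fin 3, B i j * Y' j.castSucc 0 + ∑ j, Y i j * B' j 0) := by
  ext i j
  rcases i with i | i | i | i <;> rcases j with j | j | j | j <;>
    simp [TT, SS, Matrix.mul_apply, Fintype.sum_sum_type]

theorem SS_inj {p p' : Fin 4 → k} {C C' : Matrix (Fin 4) (Fin 3) k} {q q' : Fin 4 → k} :
    SS p C q = SS p' C' q' ↔ p = p' ∧ C = C' ∧ q = q' := by
  constructor
  · intro h
    have H := fun i j => congrFun (congrFun h i) j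
    exact ⟨funext fun i => H (.inr (.inr (.inl i))) (.inl ()),
      by ext i j; exact H (.inr (.inr (.inr i))) (.inr (.inl j)),
      funext fun i => H (.inr (.inr (.inr i))) (.inl ())⟩
  · rintro ⟨rfl, rfl, rfl⟩
    rfl

theorem TT_add : TT Y B g + TT Y' B' g' = TT (Y + Y') (B + B') (g + g') := by
  ext i j
  rcases i with i | i | i | i <;> rcases j with j | j | j | j <;> simp [TT]

theorem TT_sub : TT Y B g - TT Y' B' g' = TT (Y - Y') (B - B') (g - g') := by
  ext i j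
  rcases i with i | i | i | i <;> rcases j with j | j | j | j <;> simp [TT]

theorem TT_smul : s • TT Y B g = TT (s • Y) (s • B) (s • g) := by
  ext i j
  rcases i with i | i | i | i <;> rcases j with j | j | j | j <;> simp [TT]

theorem TT_nil : IsNilpotent (TT Y B g) := by
  refine isNilpotent_of_weight _ (fun i => match i with
    | .inl _ => 0
    | .inr (.inl _) => 1
    | .inr (.inr (.inl _)) => 2
    | .inr (.inr (.inr _)) => 3) ?_
  intro i j h
  rcases i with i | i | i | i <;> rcases j with j | j | j | j <;> simp [TT] at h ⊢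

/-- the relations -/
def Rel (Y Y' : Matrix (Fin 4) (Fin 4) k) (B B' : Matrix (Fin 4) (Fin 3) k) : Prop :=
  (∀ i (j : Fin 3), (Y * Y') i j.castSucc = (Y' * Y) i j.castSucc) ∧
  ∀ i, ∑ j : Fin 3, B i j * Y' j.castSucc 0 + ∑ j, Y i j * B' j 0 =
    ∑ j : Fin 3, B' i j * Y j.castSucc 0 + ∑ j, Y' i j * B j 0

variable {Y Y' B B' g g'}

theorem TT_comm (h : Y 3 0 = 0) (h' : Y' 3 0 = 0) :
    TT Y B g * TT Y' B' g' = TT Y' B' g' * TT Y B g ↔ Rel Y Y' B B' := by
  rw [TT_mul, TT_mul, SS_inj]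
  constructor
  · rintro ⟨-, h2, h3⟩
    exact ⟨fun i j => congrFun (congrFun h2 i) j, fun i => congrFun h3 i⟩
  · rintro ⟨h2, h3⟩
    refine ⟨?_, ?_, funext h3⟩
    · funext i
      have h4 := h2 i 0
      rw [Matrix.mul_apply, Matrix.mul_apply, Fin.sum_univ_castSucc (n := 3),
        Fin.sum_univ_castSucc (n := 3)] at h4
      have e1 : Y (Fin.last 3) (Fin.castSucc 0) = 0 := h
      have e2 : Y' (Fin.last 3) (Fin.castSucc 0) = 0 := h'
      rw [e1, e2, mul_zero, mul_zero, add_zero, add_zero] at h4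
      exact h4
    · ext i j
      exact h2 i j

theorem X43_comm (h : Y 3 0 = 0) : X43 k * TT Y B g = TT Y B g * X43 k := by
  rw [TT_comm (by simp) h]
  refine ⟨fun i j => by rw [mul_one, one_mul], fun i => ?_⟩
  simp [Matrix.one_apply]

theorem cnTT (h : Y 3 0 = 0) (h' : Y' 3 0 = 0) (hr : Rel Y Y' B B') :
    CN ![X43 k, TT Y B g, TT Y' B' g'] :=
  cn3 (X43_comm h) (X43_comm h') ((TT_comm h h').2 hr) (TT_nil ..) (TT_nil ..) (TT_nil ..)

theorem relOf (h : Y 3 0 = 0) (h' : Y' 3 0 = 0) (hT : MaxR ρ ![X43 k, TT Y B g, TT Y' B' g']) :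
    Rel Y Y' B B' := (TT_comm h h').1 (hT.cn.1 1 2)

end

/-! ### vectors -/

/-- vectors -/
def vT (f0 : k) (f1 : Fin 3 → k) (f2 f3 : Fin 4 → k) : IA → k :=
  Sum.elim (fun _ => f0) (Sum.elim f1 (Sum.elim f2 f3))

theorem vT_zero : vT (0 : k) 0 0 0 = 0 := by
  funext i
  rcases i with i | i | i | i <;> simp [vT]

omit [Field k] in
theorem vT_ext {f0 f0' : k} {f1 f1' : Fin 3 → k} {f2 f2' f3 f3' : Fin 4 → k}
    (h0 : f0 = f0') (h1 : ∀ i, f1 i = f1' i) (h2 : ∀ i, f2 i = f2' i) (h3 : ∀ i, f3 i = f3' i) :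
    vT f0 f1 f2 f3 = vT f0' f1' f2' f3' := by
  funext i
  rcases i with i | i | i | i <;> simp [vT, h0, h1, h2, h3]

theorem vT_add (f0 f0' : k) (f1 f1' : Fin 3 → k) (f2 f2' f3 f3' : Fin 4 → k) :
    vT f0 f1 f2 f3 + vT f0' f1' f2' f3' = vT (f0 + f0') (f1 + f1') (f2 + f2') (f3 + f3') := by
  funext i
  rcases i with i | i | i | i <;> simp [vT]

theorem vT_smul (s f0 : k) (f1 : Fin 3 → k) (f2 f3 : Fin 4 → k) :
    s • vT f0 f1 f2 f3 = vT (s * f0) (s • f1) (s • f2) (s • f3) := by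
  funext i
  rcases i with i | i | i | i <;> simp [vT]

theorem vT_dot (f0 f0' : k) (f1 f1' : Fin 3 → k) (f2 f2' f3 f3' : Fin 4 → k) :
    vT f0 f1 f2 f3 ⬝ᵥ vT f0' f1' f2' f3' = f0 * f0' + f1 ⬝ᵥ f1' + f2 ⬝ᵥ f2' + f3 ⬝ᵥ f3' := by
  simp [vT, dotProduct, Fintype.sum_sum_type, add_assoc]

theorem TT_mulVec (Y : Matrix (Fin 4) (Fin 4) k) (B : Matrix (Fin 4) (Fin 3) k) (g : Fin 4 → k)
    (f0 : k) (f1 : Fin 3 → k) (f2 f3 : Fin 4 → k) :
    TT Y B g *ᵥ vT f0 f1 f2 f3 = vT 0 (fun i => Y i.castSucc 0 * f0)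
      (fun i => B i 0 * f0 + ∑ j : Fin 3, Y i j.castSucc * f1 j)
      (fun i => g i * f0 + ∑ j, B i j * f1 j + ∑ j, Y i j * f2 j) := by
  funext i
  rcases i with i | i | i | i <;>
    simp [TT, vT, Matrix.mulVec, dotProduct, Fintype.sum_sum_type, add_assoc]

theorem vecMul_TT (Y : Matrix (Fin 4) (Fin 4) k) (B : Matrix (Fin 4) (Fin 3) k) (g : Fin 4 → k)
    (f0 : k) (f1 : Fin 3 → k) (f2 f3 : Fin 4 → k) :
    vT f0 f1 f2 f3 ᵥ* TT Y B g = vT (∑ i, f1 i * Y i.castSucc 0 + ∑ i, f2 i * B i 0 + ∑ i, f3 i * g i)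
      (fun j => ∑ i, f2 i * Y i j.castSucc + ∑ i, f3 i * B i j)
      (fun j => ∑ i, f3 i * Y i j) 0 := by
  funext i
  rcases i with i | i | i | i <;>
    simp [TT, vT, Matrix.vecMul, dotProduct, Fintype.sum_sum_type, add_assoc]

/-! ### polynomials in the Jordan matrix -/

/-- the inclusion `H -> F` -/
def io (k : Type*) [Field k] : Matrix (Fin 4) (Fin 3) k :=
  Matrix.of fun i j => if i = j.castSucc then 1 else 0

/-- the vector `x^i e0` -/
def e1 (k : Type*) [Field k] : Fin 4 → k := fun i => if i = 0 then 1 else 0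

theorem X43_sq : X43 k * X43 k = TT 0 (io k) 0 := by
  rw [TT_mul]
  ext i j
  rcases i with i | i | i | i <;> rcases j with j | j | j | j <;>
    simp [SS, TT, io, Matrix.one_apply]

theorem X43_cube : X43 k * X43 k * X43 k = TT 0 0 (e1 k) := by
  rw [X43_sq, TT_mul]
  ext i j
  rcases i with i | i | i | i <;> rcases j with j | j | j | j <;>
    simp [SS, TT, io, e1, Matrix.one_apply]

theorem X43_four : X43 k ^ 4 = 0 := by
  have h : X43 k ^ 4 = X43 k * X43 k * X43 k * X43 k := by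
    rw [pow_succ, pow_succ, pow_two]
  rw [h, X43_cube, TT_mul]
  ext i j
  rcases i with i | i | i | i <;> rcases j with j | j | j | j <;>
    simp [SS]

/-- changes of `y, z` by polynomials in `x` -/
theorem sub3 {Y Y' : Matrix (Fin 4) (Fin 4) k} {B B' : Matrix (Fin 4) (Fin 3) k}
    {g g' : Fin 4 → k} (hT : MaxR ρ ![X43 k, TT Y B g, TT Y' B' g']) (l l2 l3 l' l2' l3' : k) :
    MaxR ρ ![X43 k, TT (Y - l • 1) (B - l2 • io k) (g - l3 • e1 k),
      TT (Y' - l' • 1) (B' - l2' • io k) (g' - l3' • e1 k)] := by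
  have key : ∀ (Y : Matrix (Fin 4) (Fin 4) k) (B : Matrix (Fin 4) (Fin 3) k) (g : Fin 4 → k)
      (l l2 l3 : k), TT (Y - l • 1) (B - l2 • io k) (g - l3 • e1 k) = TT Y B g - (l • X43 k +
        l2 • (X43 k * X43 k) + l3 • (X43 k * X43 k * X43 k)) := by
    intro Y B g l l2 l3
    rw [X43_cube, X43_sq, TT_smul, TT_smul, TT_smul, TT_add, TT_add, TT_sub]
    congr 1
    · simp
    · simp
    · simp
  rw [key, key]
  have hp : ∀ (B C : Matrix IA IA k) (l l2 l3 : k), l • X43 k +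
        l2 • (X43 k * X43 k) + l3 • (X43 k * X43 k * X43 k) ∈ adj ![X43 k, B, C] := by
    intro B C l l2 l3
    have h0 := mem0 (X43 k) B C
    exact add_mem (add_mem (SMulMemClass.smul_mem _ h0) (SMulMemClass.smul_mem _ (mul_mem h0 h0)))
      (SMulMemClass.smul_mem _ (mul_mem (mul_mem h0 h0) h0))
  refine MaxR.change3 hT (sub_mem (mem1 _ _ _) (hp (TT Y B g) (TT Y' B' g') l l2 l3))
    (sub_mem (mem2 _ _ _) (hp (TT Y B g) (TT Y' B' g') l' l2' l3')) ?_ ?_
  · have h1 := add_mem (mem1 (X43 k) (TT Y B g - (l • X43 k +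
        l2 • (X43 k * X43 k) + l3 • (X43 k * X43 k * X43 k))) (TT Y' B' g' - (l' • X43 k +
        l2' • (X43 k * X43 k) + l3' • (X43 k * X43 k * X43 k)))) (hp _ _ l l2 l3)
    rwa [sub_add_cancel] at h1
  · have h1 := add_mem (mem2 (X43 k) (TT Y B g - (l • X43 k +
        l2 • (X43 k * X43 k) + l3 • (X43 k * X43 k * X43 k))) (TT Y' B' g' - (l' • X43 k +
        l2' • (X43 k * X43 k) + l3' • (X43 k * X43 k * X43 k)))) (hp _ _ l' l2' l3')
    rwa [sub_add_cancel] at h1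

end Pool.Agent.Lib.D12.A43
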