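import Pool.Agent.Lib.D12.A2Red

/-!
# MP_5dcbc3_ag, type (4,3,3,2), levels 1, 3, 4, 4: dependent `a`'s, the end
-/

set_option autoImplicit false

namespace Pool.Agent.Lib.D12.A43

open Matrix Pool.Agent.Lib.Q5dc Pool.Agent.Lib.D7 Pool.Agent.Lib.D8 Pool.Agent.Lib.D13

variable {k : Type*} [Field k] {ρ : ℕ → ℕ}
  {Y Y' : Matrix (Fin 4) (Fin 4) k} {B B' : Matrix (Fin 4) (Fin 3) k} {g g' : Fin 4 → k}

theorem colOf {G G' : Matrix (Fin 4) (Fin 4) k} (h1 : G * G' = 1) (j : Fin 4) (c : Fin 4 → k)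
    (h : ∀ i, ∑ a, Y i a * G' a j = ∑ a, G' i a * c a) : ∀ i, (G * Y * G') i j = c i := by
  have e1 : (Y * G').col j = G' *ᵥ c := by
    funext i
    simp only [Matrix.col_apply, Matrix.mul_apply, Matrix.mulVec, dotProduct]
    exact h i
  intro i
  have e2 : (G * Y * G').col j = G *ᵥ (Y * G').col j := by
    funext i
    simp only [Matrix.col_apply, Matrix.mul_assoc, Matrix.mulVec, dotProduct]
    rw [Matrix.mul_apply]
  rw [e1, Matrix.mulVec_mulVec, h1, Matrix.one_mulVec] at e2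
  exact congrFun e2 i

/-- base change matrix -/
def Gm (u v a b c p : k) : Matrix (Fin 4) (Fin 4) k :=
  !![1, 0, u, a; 0, 1, v, b; 0, 0, 1, c; 0, 0, 0, p]

/-- its inverse -/
def Gi (u v a b c p : k) : Matrix (Fin 4) (Fin 4) k :=
  !![1, 0, -u, (u * c - a) / p; 0, 1, -v, (v * c - b) / p; 0, 0, 1, -c / p; 0, 0, 0, 1 / p]

theorem Gi_mul (u v a b c p : k) (hp : p ≠ 0) : Gi u v a b c p * Gm u v a b c p = 1 := by
  ext i j
  fin_cases i <;> fin_cases j <;> simp [Gi, Gm, Matrix.mul_apply, Fin.sum_univ_four, hp]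
  · ring
  · ring

theorem baseGm (u v a b c p : k) (hp : p ≠ 0) (hY : Y 3 0 = 0) (hY' : Y' 3 0 = 0)
    (hT : MaxR ρ ![X43 k, TT Y B g, TT Y' B' g']) :
    ∃ (B1 B1' : Matrix (Fin 4) (Fin 3) k) (g1 g1' : Fin 4 → k),
    MaxR ρ ![X43 k, TT (Gi u v a b c p * Y * Gm u v a b c p) B1 g1,
      TT (Gi u v a b c p * Y' * Gm u v a b c p) B1' g1'] :=
  ⟨_, _, _, _, baseG (Gi_mul u v a b c p hp) (fun j => by fin_cases j <;> simp [Gm])
    (fun j => by fin_cases j <;> simp [Gi]) (fun i => by fin_cases i <;> simp [Gm]) hY hY' hT⟩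

/-- case I.1, the raise -/
theorem I1R [Infinite k] (hT : MaxR ρ ![X43 k, TT Y B g, TT Y' B' g']) (h4 : ρ 4 = 0)
    (y0 : ∀ i, Y i 0 = if i = 1 then 1 else 0) (z0 : ∀ i, Y' i 0 = 0)
    (z2 : ∀ i, Y' i 2 = if i = 3 then 1 else 0) (h31 : Y 3 1 ≠ 0) (l f : k)
    (e1 : Y 0 1 + l * Y 1 1 + f * Y 2 1 = l ^ 2) (e2 : Y 0 2 + l * Y 1 2 + f * Y 2 2 = l * f)
    (hl : (Y 1 1 - 2 * l) * (Y 2 2 - l) - Y 2 1 * (Y 1 2 - f) ≠ 0) : False := by
  obtain ⟨z1, r2, r3⟩ := rel_cols y0 z0 hT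
  have hrel := ((rel_a (B := B) (B' := B') y0 z0).1 (relOf (by rw [y0]; simp) (z0 3) hT)).2
  have z3 : ∀ i, i ≠ 3 → Y' i 3 = 0 := by
    intro i hi
    have h := r2 i
    rw [z2, if_neg hi, zero_mul, zero_add] at h
    exact (mul_eq_zero.1 h).resolve_right h31
  have y3 : ∀ i, i ≠ 3 → Y i 3 = 0 := by
    intro i hi
    have h := r3 i
    rw [z2, if_neg hi, zero_mul, z3 i hi, zero_mul, zero_add] at h
    simpa [z2] using h
  set D := (Y 1 1 - 2 * l) * (Y 2 2 - l) - Y 2 1 * (Y 1 2 - f) with hD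
  set A := B 0 0 + l * B 1 0 + f * B 2 0 with hA
  set A1 := B 0 1 + l * B 1 1 + f * B 2 1 with hA1
  set A2 := B 0 2 + l * B 1 2 + f * B 2 2 with hA2
  set l2' := B' 0 0 + l * B' 1 0 + f * B' 2 0 with hl2'
  set xw := l2' * f - (B' 0 2 + l * B' 1 2 + f * B' 2 2) with hxw
  set R1 := - A1 - xw * Y 3 1 + (Y 1 1 - l) * A with hR1
  set R2 := - A2 - xw * Y 3 2 + Y 1 2 * A with hR2
  -- the linear equations
  obtain ⟨l2, xh, q1, q2⟩ : ∃ l2 xh, (Y 1 1 - 2 * l) * l2 + Y 2 1 * xh = R1 ∧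
      (Y 1 2 - f) * l2 + (Y 2 2 - l) * xh = R2 := by
    refine ⟨((Y 2 2 - l) * R1 - Y 2 1 * R2) / D, ((Y 1 1 - 2 * l) * R2 - (Y 1 2 - f) * R1) / D,
      ?_, ?_⟩
    · field_simp
      rw [hD]
      ring
    · field_simp
      rw [hD]
      ring
  have y01 : Y 1 0 = 1 := by rw [y0]; simp
  have y00 : Y 0 0 = 0 := by rw [y0]; simp
  have y02 : Y 2 0 = 0 := by rw [y0]; simp
  have y03 : Y 3 0 = 0 := by rw [y0]; simp
  refine raise1 hT h4 l l2 l2' ![1, l, f, 0] ![0, l2 - A, xh, xw] (by simp) (fun j => ?_)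
    (fun j => ?_) (fun j => ?_) (fun j => ?_) ![0, 0, 0, 1] (by simp [Fin.sum_univ_four])
    (fun h => by simpa using congrFun h 3)
  · fin_cases j
    · simp [Fin.sum_univ_four, y00, y01, y02, y03]
    · simp [Fin.sum_univ_four]
      linear_combination e1
    · simp [Fin.sum_univ_four]
      linear_combination e2
    · simp [Fin.sum_univ_four, y3]
  · fin_cases j
    · simp [z0]
    · simp [z1]
    · simp [z2]
    · simp [Fin.sum_univ_four, z3]
  · fin_cases j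
    · simp [Fin.sum_univ_four, y00, y01, y02, y03]
      ring
    · simp [Fin.sum_univ_four]
      linear_combination q1
    · simp [Fin.sum_univ_four]
      linear_combination q2
  · fin_cases j
    · simp [Fin.sum_univ_four, z0]
      ring
    · simp [Fin.sum_univ_four, z1]
      have t0 := hrel 0
      have t1 := hrel 1
      have t2 := hrel 2
      simp [Fin.sum_univ_four, y00, y01, y02, z0, z1, z2, z3, y3] at t0 t1 t2
      rw [t0, t1, t2]
      linear_combination B' 1 0 * e1 + B' 2 0 * e2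
    · simp [Fin.sum_univ_four, z2]
      ring

theorem finite_lin {a b : k} (hb : b ≠ 0) : {s : k | a + b * s = 0}.Finite := by
  have h := finite_quad (k := k) (a := a) (b := b) (c := 0) (Or.inr (Or.inl hb))
  simpa using h

/-- case I.1 with a root different from `Y 2 2` -/
theorem I1A [Infinite k] (hT : MaxR ρ ![X43 k, TT Y B g, TT Y' B' g']) (h4 : ρ 4 = 0)
    (y0 : ∀ i, Y i 0 = if i = 1 then 1 else 0) (z0 : ∀ i, Y' i 0 = 0)
    (z2 : ∀ i, Y' i 2 = if i = 3 then 1 else 0) (h31 : Y 3 1 ≠ 0) (l : k) (hl : l ≠ Y 2 2)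
    (hr : (l - Y 2 2) * (l ^ 2 - Y 1 1 * l - Y 0 1) = Y 2 1 * (Y 1 2 * l + Y 0 2)) : False := by
  have hl' : l - Y 2 2 ≠ 0 := sub_ne_zero.2 hl
  obtain ⟨z1, r2, r3⟩ := rel_cols y0 z0 hT
  set f := (Y 0 2 + l * Y 1 2) / (l - Y 2 2) with hf
  set R : Matrix (Fin 4) (Fin 4) k := Matrix.of fun i j =>
    if j = 1 then (if i = 0 then -l else if i = 1 then 1 else 0) else 0 with hR
  obtain ⟨s, hs, B1, h1⟩ := deformYY y0 z0 hT R 0 (fun i => by simp [hR]) (fun i => rfl)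
    (fun i j => by
      have e1 : (Fin.castSucc 2 : Fin 4) = 2 := rfl
      fin_cases j
      · simp [Matrix.mul_apply, hR, z0]
      · simp [Matrix.mul_apply, hR, Fin.sum_univ_four, z0, z1]
      · simp [Matrix.mul_apply, hR, z2]) (fun i j => by simp)
    (finite_lin (a := (Y 1 1 - 2 * l) * (Y 2 2 - l) - Y 2 1 * (Y 1 2 - f))
      (b := Y 2 2 - l) (sub_ne_zero.2 hl.symm))
  rw [smul_zero, add_zero] at h1
  refine I1R h1 h4 (fun i => by simp [hR, y0]) z0 z2 (by simpa [hR] using h31) l f ?_ ?_ ?_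
  · simp [hR]
    have e1 : f * Y 2 1 = l ^ 2 - Y 1 1 * l - Y 0 1 := by
      rw [hf, div_mul_eq_mul_div, div_eq_iff hl']
      linear_combination -hr
    linear_combination e1
  · simp [hR]
    rw [hf]
    field_simp
    ring
  · intro h
    apply hs
    simp [hR] at h
    show _ + (Y 2 2 - l) * s = 0
    linear_combination h

/-- case I.1 -/
theorem caseI1 [IsAlgClosed k] [Infinite k] (hT : MaxR ρ ![X43 k, TT Y B g, TT Y' B' g'])
    (h4 : ρ 4 = 0) (y0 : ∀ i, Y i 0 = if i = 1 then 1 else 0) (z0 : ∀ i, Y' i 0 = 0)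
    (h31 : Y 3 1 ≠ 0) (h32 : Y' 3 2 ≠ 0) : False := by
  -- normal form with `w = Y' h`
  have nf : ∀ {Y Y' : Matrix (Fin 4) (Fin 4) k} {B B' : Matrix (Fin 4) (Fin 3) k}
      {g g' : Fin 4 → k}, MaxR ρ ![X43 k, TT Y B g, TT Y' B' g'] →
      (∀ i, Y i 0 = if i = 1 then 1 else 0) → (∀ i, Y' i 0 = 0) →
      (∀ i, Y' i 2 = if i = 3 then 1 else 0) → Y 3 1 ≠ 0 → Y 1 1 ≠ 2 * Y 2 2 → False := by
    intro Y Y' B B' g g' hT y0 z0 z2 h31 hne
    by_cases h0 : Y 2 1 * (Y 1 2 * Y 2 2 + Y 0 2) = 0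
    · -- `Y 2 2` is a root
      obtain ⟨l, m, e1, e2⟩ := exists_roots (Y 1 1) (- Y 0 1 - Y 2 1 * Y 1 2)
      have key : ∀ l, l ^ 2 - Y 1 1 * l - Y 0 1 - Y 2 1 * Y 1 2 = 0 → l = Y 2 2 := by
        intro l h
        by_contra hl
        refine I1A hT h4 y0 z0 z2 h31 l hl ?_
        linear_combination (l - Y 2 2) * h - h0
      have h5 := key l (by linear_combination l * e1 - e2)
      have h6 := key m (by linear_combination m * e1 - e2)
      rw [h5, h6] at e1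
      apply hne
      rw [← e1]
      ring
    · obtain ⟨l, hl⟩ := IsAlgClosed.exists_root
        ((Polynomial.X - Polynomial.C (Y 2 2)) * (Polynomial.X ^ 2 - Polynomial.C (Y 1 1) *
          Polynomial.X - Polynomial.C (Y 0 1)) - Polynomial.C (Y 2 1) * (Polynomial.C (Y 1 2) *
          Polynomial.X + Polynomial.C (Y 0 2)) : Polynomial k) (by
        have : ((Polynomial.X - Polynomial.C (Y 2 2)) * (Polynomial.X ^ 2 - Polynomial.C (Y 1 1) *
          Polynomial.X - Polynomial.C (Y 0 1)) - Polynomial.C (Y 2 1) * (Polynomial.C (Y 1 2) *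
          Polynomial.X + Polynomial.C (Y 0 2)) : Polynomial k).degree = 3 := by
          compute_degree!
        rw [this]
        decide)
      rw [Polynomial.IsRoot.def] at hl
      simp at hl
      have hl1 : l ≠ Y 2 2 := by
        intro h
        apply h0
        rw [h] at hl
        linear_combination -hl
      exact I1A hT h4 y0 z0 z2 h31 l hl1 (by linear_combination hl)
  obtain ⟨z1, r2, r3⟩ := rel_cols y0 z0 hT
  obtain ⟨B1, B1', g1, g1', h1⟩ := baseGm 0 0 (Y' 0 2) (Y' 1 2) (Y' 2 2) (Y' 3 2) h32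
    (by rw [y0]; simp) (z0 3) hT
  have hinv := Gi_mul 0 0 (Y' 0 2) (Y' 1 2) (Y' 2 2) (Y' 3 2) h32
  set G := Gi 0 0 (Y' 0 2) (Y' 1 2) (Y' 2 2) (Y' 3 2) with hG
  set G' := Gm 0 0 (Y' 0 2) (Y' 1 2) (Y' 2 2) (Y' 3 2) with hG'
  have a0 : ∀ i, (G * Y * G') i 0 = if i = 1 then 1 else 0 :=
    colOf hinv 0 _ fun i => by
      fin_cases i <;> simp [hG', Gm, Fin.sum_univ_four, y0]
  have b0 : ∀ i, (G * Y' * G') i 0 = 0 :=
    colOf hinv 0 _ fun i => by
      fin_cases i <;> simp [hG', Gm, Fin.sum_univ_four, z0]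
  have b2 : ∀ i, (G * Y' * G') i 2 = if i = 3 then 1 else 0 :=
    colOf hinv 2 _ fun i => by
      fin_cases i <;> simp [hG', Gm, Fin.sum_univ_four]
  have a31 : (G * Y * G') 3 1 ≠ 0 := by
    have : (G * Y * G') 3 1 = Y 3 1 / Y' 3 2 := by
      simp [hG, hG', Gm, Gi, Matrix.mul_apply, Fin.sum_univ_four, Matrix.vecMul, dotProduct]
      ring
    rw [this]
    exact div_ne_zero h31 h32
  by_cases hne : (G * Y * G') 1 1 = 2 * (G * Y * G') 2 2
  · -- deform
    set R : Matrix (Fin 4) (Fin 4) k := Matrix.of fun i j =>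
      if j = 1 ∧ i = 1 then 1 else 0 with hR
    obtain ⟨z1', -, -⟩ := rel_cols a0 b0 h1
    obtain ⟨s, hs, B2, h2⟩ := deformYY a0 b0 h1 R 0 (fun i => by simp [hR]) (fun i => rfl)
      (fun i j => by
        have e1 : (Fin.castSucc 2 : Fin 4) = 2 := rfl
        generalize G * Y' * G' = Y2 at b0 b2 z1'
        fin_cases j
        · simp [Matrix.mul_apply, hR, b0]
        · simp [Matrix.mul_apply, hR, z1']
        · simp [Matrix.mul_apply, hR, b2]) (fun i j => by simp) (Set.finite_singleton (0 : k))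
    have hs0 : s ≠ 0 := hs
    rw [smul_zero, add_zero] at h2
    refine nf h2 (fun i => by simp [hR, a0]) b0 b2 (by simpa [hR] using a31) ?_
    simp [hR, hne, hs0]
  · exact nf h1 a0 b0 b2 a31 hne

/-- case I.2 in normal form, the raise -/
theorem I2R [IsAlgClosed k] [Infinite k] (hT : MaxR ρ ![X43 k, TT Y B g, TT Y' B' g'])
    (h4 : ρ 4 = 0) (n2 θ : k) (hθ : θ ≠ 0)
    (y0 : ∀ i, Y i 0 = if i = 1 then 1 else 0) (y1 : ∀ i, Y i 1 = if i = 3 then 1 else 0)
    (y2 : ∀ i, Y i 2 = if i = 2 then n2 else 0) (z0 : ∀ i, Y' i 0 = 0)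
    (z2 : ∀ i, Y' i 2 = if i = 2 then θ else 0) (z3 : ∀ i, Y' i 3 = 0) (hQ : Y 2 3 ≠ 0) :
    False := by
  obtain ⟨z1, -, -⟩ := rel_cols y0 z0 hT
  have hrel := ((rel_a (B := B) (B' := B') y0 z0).1 (relOf (by rw [y0]; simp) (z0 3) hT)).2
  obtain ⟨l, hl⟩ := IsAlgClosed.exists_root
    (Polynomial.X ^ 3 - Polynomial.C (Y 3 3) * Polynomial.X ^ 2 - Polynomial.C (Y 1 3) *
      Polynomial.X - Polynomial.C (Y 0 3) : Polynomial k) (by
    have : (Polynomial.X ^ 3 - Polynomial.C (Y 3 3) * Polynomial.X ^ 2 - Polynomial.C (Y 1 3) *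
      Polynomial.X - Polynomial.C (Y 0 3) : Polynomial k).degree = 3 := by
      compute_degree!
    rw [this]
    decide)
  rw [Polynomial.IsRoot.def] at hl
  simp at hl
  set f3 : Fin 4 → k := ![1, l, 0, l ^ 2] with hf3
  set A0 := B 0 0 + l * B 1 0 + l ^ 2 * B 3 0 with hA0
  set A1 := B 0 1 + l * B 1 1 + l ^ 2 * B 3 1 with hA1
  set c := B 0 2 + l * B 1 2 + l ^ 2 * B 3 2 with hc
  set c' := B' 0 2 + l * B' 1 2 + l ^ 2 * B' 3 2 with hc'
  set l2' := B' 0 0 + l * B' 1 0 + l ^ 2 * B' 3 0 with hl2'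
  set uh := c' / θ with huh
  set uw := (c - (n2 - l) * uh) / Y 2 3 with huw
  set ua := (l - Y 3 3) * uw with hua
  set ue := l * ua - Y 1 3 * uw with hue
  refine raise2 hT h4 l l2' c c' f3 ![0, -A0, 0, l * (-A0) - A1] ![ue, ua, uh, uw] (by simp [hf3])
    (by simp [hf3]) (fun j => ?_) (fun j => ?_) (fun j => ?_) (fun j => ?_) (by rw [y0]; simp)
    (z0 2) (fun i => ?_) (fun i => ?_)
  · fin_cases j
    · simp [hf3, y0]
    · simp [hf3, y1]
      ring
    · simp [hf3, y2]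
    · simp [hf3, Fin.sum_univ_four]
      linear_combination -hl
  · fin_cases j
    · simp [z0]
    · simp [z1]
    · simp [hf3, z2]
    · simp [z3]
  · fin_cases j
    · simp [hf3, Fin.sum_univ_four, y0, dh3]
      ring
    · simp [hf3, Fin.sum_univ_four, y1, dh3]
      ring
    · simp [hf3, Fin.sum_univ_four, y2, dh3]
      ring
  · fin_cases j
    · simp [hf3, Fin.sum_univ_four, z0, dh3]
      ring
    · simp [hf3, Fin.sum_univ_four, z1, dh3]
      have t0 := hrel 0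
      have t1 := hrel 1
      have t3 := hrel 3
      simp [Fin.sum_univ_four, y0, y1, y2, z0, z1, z2, z3] at t0 t1 t3
      rw [t0, t1, t3]
      linear_combination (-B' 3 0) * hl
    · simp [hf3, Fin.sum_univ_four, z2, dh3]
      ring
  · fin_cases i
    · simp [Fin.sum_univ_four, y0, y1, y2, dh4]
      rw [hue, hua]
      linear_combination (-uw) * hl
    · simp [Fin.sum_univ_four, y0, y1, y2, dh4]
      rw [hue]
      ring
    · simp [Fin.sum_univ_four, y0, y1, y2, dh4]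
      rw [huw]
      field_simp
      ring
    · simp [Fin.sum_univ_four, y0, y1, y2, dh4]
      rw [hua]
      ring
  · fin_cases i <;> simp [Fin.sum_univ_four, z0, z1, z2, z3, dh4]
    rw [huh]
    field_simp

/-- case I.2 -/
theorem caseI2 [IsAlgClosed k] [Infinite k] (hT : MaxR ρ ![X43 k, TT Y B g, TT Y' B' g'])
    (h4 : ρ 4 = 0) (y0 : ∀ i, Y i 0 = if i = 1 then 1 else 0) (z0 : ∀ i, Y' i 0 = 0)
    (h31 : Y 3 1 ≠ 0) (h32 : Y' 3 2 = 0) (h22 : Y' 2 2 ≠ 0) : False := by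
  obtain ⟨z1, r2, r3⟩ := rel_cols y0 z0 hT
  have hz3 : ∀ i, Y' i 3 = - (Y 2 1 / Y 3 1) * Y' i 2 := by
    intro i
    field_simp
    linear_combination r2 i
  set n2 := Y 2 2 - Y 3 2 * Y 2 1 / Y 3 1 with hn2
  have r4 : ∀ i, ∑ j, Y i j * Y' j 2 = n2 * Y' i 2 := by
    intro i
    rw [r3, hz3, hn2]
    ring
  obtain ⟨B1, B1', g1, g1', h1⟩ := baseGm (Y' 0 2 / Y' 2 2) (Y' 1 2 / Y' 2 2) (Y 0 1) (Y 1 1)
    (Y 2 1) (Y 3 1) h31 (by rw [y0]; simp) (z0 3) hT
  have hinv := Gi_mul (Y' 0 2 / Y' 2 2) (Y' 1 2 / Y' 2 2) (Y 0 1) (Y 1 1) (Y 2 1) (Y 3 1) h31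
  set G := Gi (Y' 0 2 / Y' 2 2) (Y' 1 2 / Y' 2 2) (Y 0 1) (Y 1 1) (Y 2 1) (Y 3 1) with hG
  set G' := Gm (Y' 0 2 / Y' 2 2) (Y' 1 2 / Y' 2 2) (Y 0 1) (Y 1 1) (Y 2 1) (Y 3 1) with hG'
  have c2 : ∀ i, G' i 2 = Y' i 2 / Y' 2 2 := by
    intro i
    fin_cases i <;> simp [hG', Gm, h32, h22]
  have c3 : ∀ i, G' i 3 = Y i 1 := by
    intro i
    fin_cases i <;> simp [hG', Gm]
  have a0 : ∀ i, (G * Y * G') i 0 = if i = 1 then 1 else 0 :=
    colOf hinv 0 _ fun i => by
      fin_cases i <;> simp [hG', Gm, Fin.sum_univ_four, y0]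
  have a1 : ∀ i, (G * Y * G') i 1 = if i = 3 then 1 else 0 :=
    colOf hinv 1 _ fun i => by
      simp [c3]
      simp [hG', Gm, Fin.sum_univ_four]
  have a2 : ∀ i, (G * Y * G') i 2 = if i = 2 then n2 else 0 :=
    colOf hinv 2 _ fun i => by
      simp [c2]
      have := r4 i
      rw [Fin.sum_univ_four] at this ⊢
      field_simp
      linear_combination this
  have b0 : ∀ i, (G * Y' * G') i 0 = 0 :=
    colOf hinv 0 _ fun i => by
      fin_cases i <;> simp [hG', Gm, Fin.sum_univ_four, z0]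
  have b2 : ∀ i, (G * Y' * G') i 2 = if i = 2 then Y' 2 2 else 0 :=
    colOf hinv 2 _ fun i => by
      simp [c2]
      rw [Fin.sum_univ_four, z0, z1, h32]
      field_simp
      ring
  have b3 : ∀ i, (G * Y' * G') i 3 = 0 :=
    colOf hinv 3 _ fun i => by
      simp [c3]
      rw [Fin.sum_univ_four, z0, z1]
      linear_combination r2 i
  by_cases hQ : (G * Y * G') 2 3 = 0
  · set R : Matrix (Fin 4) (Fin 4) k := Matrix.of fun i j =>
      if j = 3 ∧ i = 2 then 1 else 0 with hR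
    obtain ⟨s, hs, B2, h2⟩ := deformYY a0 b0 h1 R 0 (fun i => by simp [hR]) (fun i => rfl)
      (fun i j => by
        have b1 := (rel_cols a0 b0 h1).1
        generalize G * Y' * G' = Y2 at b0 b1 b2
        have e1 : (Fin.castSucc 2 : Fin 4) = 2 := rfl
        fin_cases j
        · simp [Matrix.mul_apply, hR, b0]
        · simp [Matrix.mul_apply, hR, b1]
        · simp [Matrix.mul_apply, hR, b2]) (fun i j => by simp) (Set.finite_singleton (0 : k))
    have hs0 : s ≠ 0 := hs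
    rw [smul_zero, add_zero] at h2
    refine I2R h2 h4 n2 (Y' 2 2) h22 (fun i => by simp [hR, a0]) (fun i => by simp [hR, a1])
      (fun i => by simp [hR, a2]) b0 b2 b3 ?_
    simp [hR, hQ, hs0]
  · exact I2R h1 h4 n2 (Y' 2 2) h22 a0 a1 a2 b0 b2 b3 hQ

/-- levels 1, 3, 4, 4, dependent `a`'s -/
theorem no_A2dep [IsAlgClosed k] [Infinite k]
    (hind : ∀ {Y Y' : Matrix (Fin 4) (Fin 4) k} {B B' : Matrix (Fin 4) (Fin 3) k}
      {g g' : Fin 4 → k}, MaxR ρ ![X43 k, TT Y B g, TT Y' B' g'] → Y 3 0 = 0 → Y' 3 0 = 0 →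
      Y 1 0 * Y' 2 0 - Y 2 0 * Y' 1 0 ≠ 0 →
      (Y 3 1 ≠ 0 ∨ Y 3 2 ≠ 0 ∨ Y' 3 1 ≠ 0 ∨ Y' 3 2 ≠ 0) → False)
    (hT : MaxR ρ ![X43 k, TT Y B g, TT Y' B' g']) (h3 : ρ 3 ≤ 1) (h4 : ρ 4 = 0)
    (y0 : ∀ i, Y i 0 = if i = 1 then 1 else 0) (z0 : ∀ i, Y' i 0 = 0)
    (hP : Y 3 1 ≠ 0 ∨ Y 3 2 ≠ 0 ∨ Y' 3 2 ≠ 0) : False := by
  obtain ⟨z1, r2, r3⟩ := rel_cols y0 z0 hT
  by_cases h31 : Y 3 1 = 0
  · by_cases h21 : Y 2 1 = 0
    · exact caseII2 hT h3 y0 z0 h21 h31 (hP.resolve_left (not_not.2 h31))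
    · -- `Y' = 0`
      have z2 : ∀ i, Y' i 2 = 0 := by
        intro i
        have h := r2 i
        rw [h31, mul_zero, add_zero] at h
        exact (mul_eq_zero.1 h).resolve_right h21
      have h32 : Y 3 2 ≠ 0 :=
        (hP.resolve_left (not_not.2 h31)).resolve_right (not_not.2 (z2 3))
      have z3 : ∀ i, Y' i 3 = 0 := by
        intro i
        have h := r3 i
        simp only [z2, mul_zero, Finset.sum_const_zero, zero_mul, zero_add] at h
        exact (mul_eq_zero.1 h.symm).resolve_right h32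
      have hY' : Y' = 0 := by
        ext i j
        fin_cases j
        exacts [z0 i, z1 i, z2 i, z3 i]
      rw [hY'] at hT
      exact caseZ hind hT y0 (Or.inr ⟨h21, h32⟩)
  · by_cases h32 : Y' 3 2 = 0
    · by_cases h22 : Y' 2 2 = 0
      · -- `Y' = 0`
        have hz3 : ∀ i, Y' i 3 = - (Y 2 1 / Y 3 1) * Y' i 2 := by
          intro i
          field_simp
          linear_combination r2 i
        have t : ∀ i, Y i 0 * Y' 0 2 + Y i 1 * Y' 1 2 =
            (Y 2 2 - Y 3 2 * Y 2 1 / Y 3 1) * Y' i 2 := by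
          intro i
          have h := r3 i
          rw [Fin.sum_univ_four, h22, h32, mul_zero, mul_zero, add_zero, add_zero, hz3] at h
          rw [h]
          ring
        have t3 := t 3
        rw [h32, mul_zero, y0, if_neg (by decide), zero_mul, zero_add] at t3
        have h12 : Y' 1 2 = 0 := (mul_eq_zero.1 t3).resolve_left h31
        have t1 := t 1
        rw [h12, mul_zero, mul_zero, y0, if_pos rfl, one_mul, add_zero] at t1
        have z2 : ∀ i, Y' i 2 = 0 := by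
          intro i
          fin_cases i
          exacts [t1, h12, h22, h32]
        have hY' : Y' = 0 := by
          ext i j
          fin_cases j
          · exact z0 i
          · exact z1 i
          · exact z2 i
          · show Y' i 3 = 0
            rw [hz3, z2, mul_zero]
        rw [hY'] at hT
        exact caseZ hind hT y0 (Or.inl h31)
      · exact caseI2 hT h4 y0 z0 h31 h32 h22
    · exact caseI1 hT h4 y0 z0 h31 h32

end Pool.Agent.Lib.D12.A43
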