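import Pool.Agent.Lib.D12.A2Defs

/-!
# MP_5dcbc3_ag, type (4,3,3,2), levels 1, 3, 4, 4: three raises
-/

set_option autoImplicit false

namespace Pool.Agent.Lib.D12.A43

open Matrix Pool.Agent.Lib.Q5dc Pool.Agent.Lib.D7 Pool.Agent.Lib.D8 Pool.Agent.Lib.D13

variable {k : Type*} [Field k] {ρ : ℕ → ℕ}
  {Y Y' : Matrix (Fin 4) (Fin 4) k} {B B' : Matrix (Fin 4) (Fin 3) k} {g g' : Fin 4 → k}

/-- the vector `x e0` -/
def e3 (k : Type*) [Field k] : Fin 3 → k := fun i => if i = 0 then 1 else 0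

theorem X43_mulVec (f0 : k) (f1 : Fin 3 → k) (f2 f3 : Fin 4 → k) :
    X43 k *ᵥ vT f0 f1 f2 f3 = vT 0 (f0 • e3 k) (fun i => ∑ j, io k i j * f1 j) f2 := by
  rw [TT_mulVec]
  refine vT_ext rfl (fun i => ?_) (fun i => ?_) (fun i => ?_)
  · simp [e3, Matrix.one_apply]
  · simp [io, Matrix.one_apply]
  · simp [Matrix.one_apply]

theorem X43_cube_mulVec : X43 k ^ 3 *ᵥ vT 1 0 0 0 = vT 0 0 0 (e1 k) := by
  rw [pow_succ, pow_two, X43_cube, TT_mulVec]
  refine vT_ext rfl (fun i => ?_) (fun i => ?_) (fun i => ?_) <;> simp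

theorem X43_V3 (w : Fin 4 → k) : X43 k *ᵥ vT 0 0 0 w = 0 := by
  rw [TT_mulVec, ← vT_zero]
  refine vT_ext rfl (fun i => ?_) (fun i => ?_) (fun i => ?_) <;> simp

theorem TT_V3 (w : Fin 4 → k) : TT Y B g *ᵥ vT 0 0 0 w = 0 := by
  rw [TT_mulVec, ← vT_zero]
  refine vT_ext rfl (fun i => ?_) (fun i => ?_) (fun i => ?_) <;> simp

theorem vecMul_sub (Y : Matrix (Fin 4) (Fin 4) k) (B : Matrix (Fin 4) (Fin 3) k) (g : Fin 4 → k)
    (l l2 l3 f0 : k) (f1 : Fin 3 → k) (f2 f3 : Fin 4 → k) :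
    vT f0 f1 f2 f3 ᵥ* TT (Y - l • 1) (B - l2 • io k) (g - l3 • e1 k) =
      vT (∑ i, f1 i * Y i.castSucc 0 + ∑ i, f2 i * B i 0 + ∑ i, f3 i * g i -
          l * f1 0 - l2 * f2 0 - l3 * f3 0)
      (fun j => ∑ i, f2 i * Y i j.castSucc + ∑ i, f3 i * B i j - l * f2 j.castSucc -
        l2 * f3 j.castSucc)
      (fun j => ∑ i, f3 i * Y i j - l * f3 j) 0 := by
  rw [vecMul_TT]
  refine vT_ext ?_ (fun j => ?_) (fun j => ?_) (fun _ => rfl)
  · simp [io, e1, Fin.sum_univ_four, Fin.sum_univ_three, mul_sub, Matrix.one_apply]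
    ring
  · simp only [Matrix.sub_apply, Matrix.smul_apply, io, Matrix.of_apply, Matrix.one_apply,
      smul_eq_mul, mul_ite, mul_one, mul_zero, mul_sub, Finset.sum_sub_distrib,
      Finset.sum_ite_eq', Finset.mem_univ, if_true]
    ring
  · simp only [Matrix.sub_apply, Matrix.smul_apply, Matrix.one_apply,
      smul_eq_mul, mul_ite, mul_one, mul_zero, mul_sub, Finset.sum_sub_distrib,
      Finset.sum_ite_eq', Finset.mem_univ, if_true]
    ring

theorem mulVec_sub (Y : Matrix (Fin 4) (Fin 4) k) (B : Matrix (Fin 4) (Fin 3) k) (g : Fin 4 → k)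
    (l l2 l3 : k) (f1 : Fin 3 → k) (f2 f3 : Fin 4 → k) :
    TT (Y - l • 1) (B - l2 • io k) (g - l3 • e1 k) *ᵥ vT 0 f1 f2 f3 =
      vT 0 0 (fun i => ∑ j : Fin 3, Y i j.castSucc * f1 j - l * (∑ j, io k i j * f1 j))
      (fun i => ∑ j, B i j * f1 j + ∑ j, Y i j * f2 j - l2 * (∑ j, io k i j * f1 j) -
        l * f2 i) := by
  rw [TT_mulVec]
  refine vT_ext rfl (fun j => ?_) (fun j => ?_) (fun j => ?_)
  · simp
  · rw [mul_zero, zero_add, Finset.mul_sum, ← Finset.sum_sub_distrib]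
    refine Finset.sum_congr rfl fun i _ => ?_
    simp only [Matrix.sub_apply, Matrix.smul_apply, Matrix.one_apply, io, Matrix.of_apply,
      smul_eq_mul]
    ring
  · have h1 : ∑ i, (Y - l • (1 : Matrix (Fin 4) (Fin 4) k)) j i * f2 i =
        ∑ i, Y j i * f2 i - l * f2 j := by
      simp only [Matrix.sub_apply, Matrix.smul_apply, Matrix.one_apply,
        smul_eq_mul, sub_mul, Finset.sum_sub_distrib, mul_ite, ite_mul, mul_one, mul_zero,
        zero_mul, Finset.sum_ite_eq, Finset.mem_univ, if_true]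
    have h2 : ∑ i, (B - l2 • io k) j i * f1 i =
        ∑ i, B j i * f1 i - l2 * ∑ i, io k j i * f1 i := by
      rw [Finset.mul_sum, ← Finset.sum_sub_distrib]
      refine Finset.sum_congr rfl fun i _ => ?_
      simp only [Matrix.sub_apply, Matrix.smul_apply, smul_eq_mul]
      ring
    rw [mul_zero, zero_add, h1, h2]
    ring

/-- raise with a rank one matrix: `f3 + f2` is an eigenfunctional -/
theorem raise1 [Infinite k] (hT : MaxR ρ ![X43 k, TT Y B g, TT Y' B' g']) (h4 : ρ 4 = 0)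
    (l l2 l2' : k) (f3 f2 : Fin 4 → k) (hf0 : f3 0 ≠ 0)
    (h1 : ∀ j, ∑ i, f3 i * Y i j = l * f3 j) (h1' : ∀ j, ∑ i, f3 i * Y' i j = 0)
    (h2 : ∀ j : Fin 3, ∑ i, f2 i * Y i j.castSucc + ∑ i, f3 i * B i j =
      l * f2 j.castSucc + l2 * f3 j.castSucc)
    (h2' : ∀ j : Fin 3, ∑ i, f2 i * Y' i j.castSucc + ∑ i, f3 i * B' i j = l2' * f3 j.castSucc)
    (w0 : Fin 4 → k) (hw0 : ∑ i, f3 i * w0 i = 0) (hw : w0 ≠ 0) : False := by
  obtain ⟨l3, hl3⟩ : ∃ l3, ∑ i, f2 i * B i 0 + ∑ i, f3 i * g i - l2 * f2 0 - l3 * f3 0 = 0 :=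
    ⟨(∑ i, f2 i * B i 0 + ∑ i, f3 i * g i - l2 * f2 0) / f3 0, by field_simp; ring⟩
  obtain ⟨l3', hl3'⟩ : ∃ l3', ∑ i, f2 i * B' i 0 + ∑ i, f3 i * g' i - l2' * f2 0 - l3' * f3 0 = 0 :=
    ⟨(∑ i, f2 i * B' i 0 + ∑ i, f3 i * g' i - l2' * f2 0) / f3 0, by field_simp; ring⟩
  have hT' := sub3 hT l l2 l3 0 l2' l3'
  refine axis hT' hT'.cn (fun i => mem_adj _ i) (g := vT 0 0 0 w0) (φ := vT 0 0 f2 f3)
    (TT_V3 _) (TT_V3 _) ?_ ?_ ?_ (vT 1 0 0 0) (q := 3) (c := 0) ?_ ?_ h4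
  · rw [vecMul_sub, ← vT_zero]
    refine vT_ext ?_ (fun j => ?_) (fun j => ?_) (fun _ => rfl)
    · simp only [Pi.zero_apply, zero_mul, Finset.sum_const_zero]
      linear_combination hl3
    · simp only [Pi.zero_apply]
      linear_combination h2 j
    · simp only [Pi.zero_apply]
      linear_combination h1 j
  · rw [vecMul_sub, ← vT_zero]
    refine vT_ext ?_ (fun j => ?_) (fun j => ?_) (fun _ => rfl)
    · simp only [Pi.zero_apply, zero_mul, Finset.sum_const_zero]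
      linear_combination hl3'
    · simp only [Pi.zero_apply]
      linear_combination h2' j
    · simp only [Pi.zero_apply]
      linear_combination h1' j
  · intro i
    cases i with
    | zero =>
      rw [pow_zero, Matrix.one_mulVec, vT_dot]
      simpa [dotProduct] using hw0
    | succ i =>
      rw [pow_succ, ← Matrix.mulVec_mulVec, X43_V3, Matrix.mulVec_zero, dotProduct_zero]
  · rw [X43_cube_mulVec, vT_dot]
    simpa [dotProduct, e1] using hf0
  · rw [pow_zero, Matrix.one_mulVec]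
    intro h0
    refine hw (funext fun i => ?_)
    simpa [vT] using congrFun h0 (.inr (.inr (.inr i)))

theorem cnK {n : Type*} [Fintype n] [DecidableEq n] {X Y1 Z1 K : Matrix n n k}
    (hcn : CN ![X, Y1, Z1]) (c1 : Y1 * K = K * Y1) (c2 : Z1 * K = K * Z1) (s : k)
    (hn : IsNilpotent (X + s • K)) : CN ![X + s • K, Y1, Z1] := by
  have h1 : X * Y1 = Y1 * X := hcn.1 0 1
  have h2 : X * Z1 = Z1 * X := hcn.1 0 2
  refine cn3 ?_ ?_ (hcn.1 1 2) hn (hcn.2 1) (hcn.2 2)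
  · rw [add_mul, mul_add, h1, smul_mul_assoc, mul_smul_comm, c1]
  · rw [add_mul, mul_add, h2, smul_mul_assoc, mul_smul_comm, c2]

/-- the coordinate `h` -/
def dh3 (k : Type*) [Field k] : Fin 3 → k := fun j => if j = 2 then 1 else 0

/-- the coordinate `h` -/
def dh4 (k : Type*) [Field k] : Fin 4 → k := fun j => if j = 2 then 1 else 0

/-- raise with a matrix of rank two, `K = w0 (x) (f3 + f2) + u (x) et` -/
theorem raise2 [Infinite k] (hT : MaxR ρ ![X43 k, TT Y B g, TT Y' B' g']) (h4 : ρ 4 = 0)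
    (l l2' c c' : k) (f3 f2 u : Fin 4 → k) (hf0 : f3 0 ≠ 0) (hf2 : f3 2 = 0)
    (h1 : ∀ j, ∑ i, f3 i * Y i j = l * f3 j) (h1' : ∀ j, ∑ i, f3 i * Y' i j = 0)
    (h2 : ∀ j : Fin 3, ∑ i, f2 i * Y i j.castSucc + ∑ i, f3 i * B i j =
      l * f2 j.castSucc + c * dh3 k j)
    (h2' : ∀ j : Fin 3, ∑ i, f2 i * Y' i j.castSucc + ∑ i, f3 i * B' i j =
      l2' * f3 j.castSucc + c' * dh3 k j)
    (hY : Y 2 0 = 0) (hY' : Y' 2 0 = 0)
    (hu : ∀ i, ∑ j, Y i j * u j = l * u i + c * dh4 k i)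
    (hu' : ∀ i, ∑ j, Y' i j * u j = c' * dh4 k i) : False := by
  obtain ⟨l3, hl3⟩ : ∃ l3, ∑ i, f2 i * B i 0 + ∑ i, f3 i * g i - l3 * f3 0 = 0 :=
    ⟨(∑ i, f2 i * B i 0 + ∑ i, f3 i * g i) / f3 0, by field_simp; ring⟩
  obtain ⟨l3', hl3'⟩ : ∃ l3', ∑ i, f2 i * B' i 0 + ∑ i, f3 i * g' i - l2' * f2 0 - l3' * f3 0 = 0 :=
    ⟨(∑ i, f2 i * B' i 0 + ∑ i, f3 i * g' i - l2' * f2 0) / f3 0, by field_simp; ring⟩
  have hT' := sub3 hT l 0 l3 0 l2' l3'
  set w : IA → k := vT 0 0 0 (dh4 k) with hw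
  set φ : IA → k := vT 0 0 f2 f3 with hφ
  set U : IA → k := vT 0 0 u 0 with hU
  set et : IA → k := vT 0 (dh3 k) 0 0 with het
  set Y1 := TT (Y - l • 1) (B - (0 : k) • io k) (g - l3 • e1 k) with hY1
  set Z1 := TT (Y' - (0 : k) • 1) (B' - l2' • io k) (g' - l3' • e1 k) with hZ1
  have a1 : φ ᵥ* Y1 = c • et := by
    rw [hφ, hY1, vecMul_sub, het, vT_smul]
    refine vT_ext ?_ (fun j => ?_) (fun j => ?_) (fun _ => by simp)
    · simp only [Pi.zero_apply, zero_mul, Finset.sum_const_zero]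
      linear_combination hl3
    · simp only [Pi.smul_apply, smul_eq_mul]
      linear_combination h2 j
    · simp only [Pi.zero_apply, Pi.smul_apply, smul_zero]
      linear_combination h1 j
  have a2 : φ ᵥ* Z1 = c' • et := by
    rw [hφ, hZ1, vecMul_sub, het, vT_smul]
    refine vT_ext ?_ (fun j => ?_) (fun j => ?_) (fun _ => by simp)
    · simp only [Pi.zero_apply, zero_mul, Finset.sum_const_zero]
      linear_combination hl3'
    · simp only [Pi.smul_apply, smul_eq_mul]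
      linear_combination h2' j
    · simp only [Pi.zero_apply, Pi.smul_apply, smul_zero]
      linear_combination h1' j
  have a3 : et ᵥ* Y1 = 0 := by
    rw [het, hY1, vecMul_sub, ← vT_zero]
    refine vT_ext ?_ (fun j => ?_) (fun j => ?_) (fun _ => rfl)
    · simp [dh3, hY]
    · simp
    · simp
  have a4 : et ᵥ* Z1 = 0 := by
    rw [het, hZ1, vecMul_sub, ← vT_zero]
    refine vT_ext ?_ (fun j => ?_) (fun j => ?_) (fun _ => rfl)
    · simp [dh3, hY']
    · simp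
    · simp
  have a5 : Y1 *ᵥ U = c • w := by
    rw [hU, hY1, mulVec_sub, hw, vT_smul]
    refine vT_ext (by simp) (fun j => by simp) (fun j => by simp) (fun j => ?_)
    simp only [Pi.zero_apply, mul_zero, Finset.sum_const_zero, Pi.smul_apply, smul_eq_mul]
    linear_combination hu j
  have a6 : Z1 *ᵥ U = c' • w := by
    rw [hU, hZ1, mulVec_sub, hw, vT_smul]
    refine vT_ext (by simp) (fun j => by simp) (fun j => by simp) (fun j => ?_)
    simp only [Pi.zero_apply, mul_zero, Finset.sum_const_zero, Pi.smul_apply, smul_eq_mul]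
    linear_combination hu' j
  have a7 : Y1 *ᵥ w = 0 := TT_V3 _
  have a8 : Z1 *ᵥ w = 0 := TT_V3 _
  set K : Matrix IA IA k := vecMulVec w φ + vecMulVec U et with hK
  have c1 : Y1 * K = K * Y1 := by
    rw [hK, mul_add, add_mul, mvm, mvm, vmm, vmm, a1, a3, a5, a7]
    ext i j
    simp [vecMulVec_apply]
  have c2 : Z1 * K = K * Z1 := by
    rw [hK, mul_add, add_mul, mvm, mvm, vmm, vmm, a2, a4, a6, a8]
    ext i j
    simp [vecMulVec_apply]
  have hn : ∀ s : k, IsNilpotent (X43 k + s • K) := by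
    intro s
    refine isNilpotent_of_weight _ (fun i => match i with
      | .inl _ => 0
      | .inr (.inl _) => 1
      | .inr (.inr (.inl _)) => 2
      | .inr (.inr (.inr i)) => if i = 2 then 4 else 3) ?_
    intro i j h
    rcases i with i | i | i | i <;> rcases j with j | j | j | j <;>
      simp [TT, hK, vecMulVec_apply, hw, hφ, hU, het, vT, dh3, dh4] at h ⊢
    · split_ifs at h <;> omega
    · intro hi
      subst hi
      right
      by_cases hj : j = 2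
      · rw [hj, hf2]
      · rw [if_neg hj] at h
        simp at h
  have hcn : ∀ s : k, CN ![X43 k + s • K, Y1 + s • (0 : Matrix IA IA k),
      Z1 + s • (0 : Matrix IA IA k)] := by
    intro s
    rw [smul_zero, add_zero, add_zero]
    exact cnK hT'.cn c1 c2 s (hn s)
  refine D8.MaxR.raise0 hT' K 0 0 hcn 4 h4 1 0 0 ?_
  refine (Set.finite_singleton (0 : k)).infinite_compl.mono fun s hs h0 => ?_
  have hs0 : s ≠ 0 := hs
  simp only [one_smul, zero_smul, smul_zero, add_zero] at h0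
  have k0 : ∀ (f0 : k) (f1 : Fin 3 → k) (q2 q3 : Fin 4 → k), (X43 k + s • K) *ᵥ vT f0 f1 q2 q3 =
      X43 k *ᵥ vT f0 f1 q2 q3 + s • ((f2 ⬝ᵥ q2 + f3 ⬝ᵥ q3) • w + (dh3 k ⬝ᵥ f1) • U) := by
    intro f0 f1 q2 q3
    rw [Matrix.add_mulVec, Matrix.smul_mulVec, hK, Matrix.add_mulVec, vmv, vmv, hφ, vT_dot, het,
      vT_dot]
    simp
  have k1 : (X43 k + s • K) *ᵥ vT 1 0 0 0 = vT 0 (e3 k) 0 0 := by
    rw [k0, X43_mulVec]
    simp only [dotProduct_zero, zero_smul, add_zero, smul_zero, one_smul]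
    refine vT_ext rfl (fun i => rfl) (fun i => ?_) (fun i => rfl)
    simp
  have k2 : (X43 k + s • K) *ᵥ vT 0 (e3 k) 0 0 = vT 0 0 (e1 k) 0 := by
    have h5 : dh3 k ⬝ᵥ e3 k = 0 := by simp [dh3, e3, dotProduct]
    rw [k0, X43_mulVec, h5]
    simp only [dotProduct_zero, zero_smul, add_zero, smul_zero]
    refine vT_ext rfl (fun i => rfl) (fun i => ?_) (fun i => rfl)
    fin_cases i <;> simp [io, e3, e1]
  have k3 : (X43 k + s • K) *ᵥ vT 0 0 (e1 k) 0 = vT 0 0 0 (e1 k) + (s * f2 0) • w := by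
    have h5 : f2 ⬝ᵥ e1 k = f2 0 := by simp [e1, dotProduct]
    rw [k0, X43_mulVec, h5]
    simp only [dotProduct_zero, zero_smul, add_zero, smul_smul]
    congr 1
    refine vT_ext rfl (fun i => rfl) (fun i => ?_) (fun i => rfl)
    simp
  have k4 : (X43 k + s • K) *ᵥ w = 0 := by
    have h5 : f3 ⬝ᵥ dh4 k = 0 := by simp [dh4, dotProduct, hf2]
    rw [hw, k0, X43_V3, h5]
    simp
  have k5 : (X43 k + s • K) *ᵥ vT 0 0 0 (e1 k) = (s * f3 0) • w := by
    have h5 : f3 ⬝ᵥ e1 k = f3 0 := by simp [e1, dotProduct]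
    rw [k0, X43_V3, h5]
    simp [smul_smul]
  have k6 : (X43 k + s • K) ^ 4 *ᵥ vT 1 0 0 0 = (s * f3 0) • w := by
    have h6 : (X43 k + s • K) ^ 4 = (X43 k + s • K) * ((X43 k + s • K) * ((X43 k + s • K) *
        (X43 k + s • K))) := by
      rw [pow_succ', pow_succ', pow_two]
    rw [h6, ← Matrix.mulVec_mulVec, ← Matrix.mulVec_mulVec, ← Matrix.mulVec_mulVec, k1, k2, k3,
      Matrix.mulVec_add, Matrix.mulVec_smul, k4, k5, smul_zero, add_zero]
  rw [h0, Matrix.zero_mulVec] at k6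
  have k7 := congrFun k6 (.inr (.inr (.inr 2)))
  simp [hw, vT, dh4, hs0, hf0] at k7

/-- the coordinate `a` -/
def a3 (k : Type*) [Field k] : Fin 3 → k := fun j => if j = 1 then 1 else 0

/-- the two functionals of the raise `raise3` -/
theorem exists_psi (Y Y' : Matrix (Fin 4) (Fin 4) k) (B' : Matrix (Fin 4) (Fin 3) k) (l : k)
    (hD : (Y 2 2 - l) * Y' 3 2 - Y 3 2 * Y' 2 2 ≠ 0) :
    ∃ (lp a b c a' b' c' : k),
      (a * Y 0 2 + l * a * Y 1 2 + b * (Y 2 2 - l) + c * Y 3 2 = 1 ∧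
      a * Y' 0 2 + l * a * Y' 1 2 + b * Y' 2 2 + c * Y' 3 2 = 0 ∧
      a * B' 0 0 + l * a * B' 1 0 + b * B' 2 0 + c * B' 3 0 - lp * a = 0) ∧
      (a' * Y 0 2 + l * a' * Y 1 2 + b' * (Y 2 2 - l) + c' * Y 3 2 = 0 ∧
      a' * Y' 0 2 + l * a' * Y' 1 2 + b' * Y' 2 2 + c' * Y' 3 2 = 1 ∧
      a' * B' 0 0 + l * a' * B' 1 0 + b' * B' 2 0 + c' * B' 3 0 - lp * a' = 0) := by
  set D := (Y 2 2 - l) * Y' 3 2 - Y 3 2 * Y' 2 2 with hDdef
  set p := Y 0 2 + l * Y 1 2 with hp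
  set q := Y' 0 2 + l * Y' 1 2 with hq
  refine ⟨(B' 0 0 + l * B' 1 0) + ((-p * Y' 3 2 + q * Y 3 2) * B' 2 0 +
    (-q * (Y 2 2 - l) + p * Y' 2 2) * B' 3 0) / D - 1,
    -(Y' 3 2 * B' 2 0 - Y' 2 2 * B' 3 0) / D,
    ((1 - -(Y' 3 2 * B' 2 0 - Y' 2 2 * B' 3 0) / D * p) * Y' 3 2 +
      -(Y' 3 2 * B' 2 0 - Y' 2 2 * B' 3 0) / D * q * Y 3 2) / D,
    (- (-(Y' 3 2 * B' 2 0 - Y' 2 2 * B' 3 0) / D) * q * (Y 2 2 - l) -
      (1 - -(Y' 3 2 * B' 2 0 - Y' 2 2 * B' 3 0) / D * p) * Y' 2 2) / D,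
    -(-Y 3 2 * B' 2 0 + (Y 2 2 - l) * B' 3 0) / D,
    (- (-(-Y 3 2 * B' 2 0 + (Y 2 2 - l) * B' 3 0) / D) * p * Y' 3 2 -
      (1 - -(-Y 3 2 * B' 2 0 + (Y 2 2 - l) * B' 3 0) / D * q) * Y 3 2) / D,
    ((Y 2 2 - l) * (1 - -(-Y 3 2 * B' 2 0 + (Y 2 2 - l) * B' 3 0) / D * q) +
      -(-Y 3 2 * B' 2 0 + (Y 2 2 - l) * B' 3 0) / D * p * Y' 2 2) / D, ⟨?_, ?_, ?_⟩, ?_, ?_, ?_⟩
  all_goals
    field_simp
    rw [hp, hq, hDdef]
    ring

/-- raise with a matrix of rank three, `K = u (x) et + (B u) (x) j1 + (B' u) (x) j2`; here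
`Y e = a`, `Y a = -l m e + (l + m) a`, `Y' e = Y' a = 0`. -/
theorem raise3 [Infinite k] (hT : MaxR ρ ![X43 k, TT Y B g, TT Y' B' g']) (h3 : ρ 3 ≤ 1)
    (l m : k) (y0 : ∀ i, Y i 0 = if i = 1 then 1 else 0) (z0 : ∀ i, Y' i 0 = 0)
    (z1 : ∀ i, Y' i 1 = 0) (y1 : ∀ i, Y i 1 = if i = 0 then - (l * m) else if i = 1 then l + m
      else 0) (hD : (Y 2 2 - l) * Y' 3 2 - Y 3 2 * Y' 2 2 ≠ 0) : False := by
  obtain ⟨lp, a, b, c, a', b', c', ⟨p1, p2, p3⟩, p1', p2', p3'⟩ := exists_psi Y Y' B' l hD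
  have hT' := sub3 hT l 0 0 0 lp 0
  set u3 : Fin 3 → k := ![-m, 1, 0] with hu3
  set P : Fin 4 → k := fun i => ∑ j, B i j * u3 j with hP
  set Q : Fin 4 → k := fun i => ∑ j, B' i j * u3 j - lp * ∑ j, io k i j * u3 j with hQ
  set psi : Fin 4 → k := ![a, l * a, b, c] with hpsi
  set psi' : Fin 4 → k := ![a', l * a', b', c'] with hpsi'
  set t : k := - ∑ i, psi i * B i 0 with ht
  set t' : k := - ∑ i, psi' i * B i 0 with ht'
  set U : IA → k := vT 0 u3 0 0 with hU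
  set Pv : IA → k := vT 0 0 0 P with hPv
  set Qv : IA → k := vT 0 0 0 Q with hQv
  set et : IA → k := vT 0 (dh3 k) 0 0 with het
  set j1 : IA → k := vT 0 (t • a3 k) psi 0 with hj1
  set j2 : IA → k := vT 0 (t' • a3 k) psi' 0 with hj2
  set Y1 := TT (Y - l • 1) (B - (0 : k) • io k) (g - (0 : k) • e1 k) with hYY
  set Z1 := TT (Y' - (0 : k) • 1) (B' - lp • io k) (g' - (0 : k) • e1 k) with hZZ
  have q1 : et ᵥ* Y1 = 0 := by
    rw [het, hYY, vecMul_sub, ← vT_zero]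
    refine vT_ext ?_ (fun j => ?_) (fun j => ?_) (fun _ => rfl)
    · simp [dh3, y0, Fin.sum_univ_three]
    · simp
    · simp
  have q2 : et ᵥ* Z1 = 0 := by
    rw [het, hZZ, vecMul_sub, ← vT_zero]
    refine vT_ext ?_ (fun j => ?_) (fun j => ?_) (fun _ => rfl)
    · simp [dh3, z0]
    · simp
    · simp
  have q3 : j1 ᵥ* Y1 = et := by
    rw [hj1, hYY, vecMul_sub, het]
    refine vT_ext ?_ (fun j => ?_) (fun j => ?_) (fun _ => rfl)
    · simp [a3, y0, ht, Fin.sum_univ_three]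
    · fin_cases j <;> simp [Fin.sum_univ_four, hpsi, y0, y1, dh3]
      · ring
      · linear_combination p1
    · simp
  have q4 : j1 ᵥ* Z1 = 0 := by
    rw [hj1, hZZ, vecMul_sub, ← vT_zero]
    refine vT_ext ?_ (fun j => ?_) (fun j => ?_) (fun _ => rfl)
    · simp [a3, z0, Fin.sum_univ_four, hpsi]
      linear_combination p3
    · fin_cases j <;> simp [Fin.sum_univ_four, hpsi, z0, z1]
      linear_combination p2
    · simp
  have q5 : j2 ᵥ* Y1 = 0 := by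
    rw [hj2, hYY, vecMul_sub, ← vT_zero]
    refine vT_ext ?_ (fun j => ?_) (fun j => ?_) (fun _ => rfl)
    · simp [a3, y0, ht', Fin.sum_univ_three]
    · fin_cases j <;> simp [Fin.sum_univ_four, hpsi', y0, y1]
      · ring
      · linear_combination p1'
    · simp
  have q6 : j2 ᵥ* Z1 = et := by
    rw [hj2, hZZ, vecMul_sub, het]
    refine vT_ext ?_ (fun j => ?_) (fun j => ?_) (fun _ => rfl)
    · simp [a3, z0, Fin.sum_univ_four, hpsi']
      linear_combination p3'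
    · fin_cases j <;> simp [Fin.sum_univ_four, hpsi', z0, z1, dh3]
      linear_combination p2'
    · simp
  have q7 : Y1 *ᵥ U = Pv := by
    rw [hU, hYY, mulVec_sub, hPv]
    refine vT_ext rfl (fun j => rfl) (fun j => ?_) (fun j => ?_)
    · fin_cases j <;> simp [Fin.sum_univ_three, hu3, y0, y1, io]
    · simp [hP]
  have q8 : Z1 *ᵥ U = Qv := by
    rw [hU, hZZ, mulVec_sub, hQv]
    refine vT_ext rfl (fun j => rfl) (fun j => ?_) (fun j => ?_)
    · fin_cases j <;> simp [Fin.sum_univ_three, hu3, z0, z1]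
    · simp [hQ]
  have q9 : Y1 *ᵥ Pv = 0 := TT_V3 _
  have q10 : Y1 *ᵥ Qv = 0 := TT_V3 _
  have q11 : Z1 *ᵥ Pv = 0 := TT_V3 _
  have q12 : Z1 *ᵥ Qv = 0 := TT_V3 _
  set K : Matrix IA IA k := vecMulVec U et + vecMulVec Pv j1 + vecMulVec Qv j2 with hK
  have v0 : ∀ f : IA → k, vecMulVec (0 : IA → k) f = 0 := by
    intro f
    ext i j
    simp [vecMulVec_apply]
  have v0' : ∀ f : IA → k, vecMulVec f (0 : IA → k) = 0 := by
    intro f
    ext i j
    simp [vecMulVec_apply]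
  have c1 : Y1 * K = K * Y1 := by
    rw [hK]
    simp only [mul_add, add_mul, mvm, vmm, q1, q3, q5, q7, q9, q10, v0, v0', add_zero, zero_add]
  have c2 : Z1 * K = K * Z1 := by
    rw [hK]
    simp only [mul_add, add_mul, mvm, vmm, q2, q4, q6, q8, q11, q12, v0, v0', add_zero, zero_add]
  have hn : ∀ s : k, IsNilpotent (X43 k + s • K) := by
    intro s
    refine isNilpotent_of_weight _ (fun i => match i with
      | .inl _ => 0
      | .inr (.inl i) => if i = 2 then 1 else 2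
      | .inr (.inr (.inl _)) => 3
      | .inr (.inr (.inr _)) => 4) ?_
    intro i j h
    rcases i with i | i | i | i <;> rcases j with j | j | j | j
    case inr.inl.inr.inl =>
      by_cases hj : j = 2
      · subst hj
        by_cases hi : i = 2
        · subst hi
          simp [TT, hK, vecMulVec_apply, hU, hPv, hQv, het, hj1, hj2, vT, dh3, hu3]
        · simp [hi] at h
      · simp [TT, hK, vecMulVec_apply, hU, hPv, hQv, het, hj1, hj2, vT, dh3, hj]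
    all_goals
      simp [TT, hK, vecMulVec_apply, hU, hPv, hQv, het, hj1, hj2, vT, dh3] at h ⊢
    all_goals
      split_ifs at h <;> omega
  have hcn : ∀ s : k, CN ![X43 k + s • K, Y1 + s • (0 : Matrix IA IA k),
      Z1 + s • (0 : Matrix IA IA k)] := by
    intro s
    rw [smul_zero, add_zero, add_zero]
    exact cnK hT'.cn c1 c2 s (hn s)
  -- the ranks
  set d0 : k := a * P 0 + a' * Q 0 with hd0
  set d1 : k := a * P 1 + a' * Q 1 with hd1
  have hfin : ({0} ∪ {s : k | 1 + (d0 + l * d1) * s + 0 * s ^ 2 = 0}).Finite :=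
    (Set.finite_singleton 0).union (finite_quad (Or.inl one_ne_zero))
  obtain ⟨s, hs, hTs⟩ := D8.MaxR.line3 hT' K 0 0 hcn hfin
  rw [Set.mem_union, not_or, Set.mem_singleton_iff, Set.mem_ofPred_eq] at hs
  obtain ⟨hs0, hs1⟩ := hs
  have hr : ((X43 k + s • K) ^ 3).rank ≤ 1 := (hTs.rank_le (mem0 _ _ _) 3).trans h3
  have hmin := minor_zero hr (.inr (.inr (.inr 0))) (.inr (.inr (.inr 1))) (.inl ())
    (.inr (.inl 2))
  have k0 : ∀ (f0 : k) (f1 : Fin 3 → k) (f2 f3 : Fin 4 → k), (X43 k + s • K) *ᵥ vT f0 f1 f2 f3 =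
      X43 k *ᵥ vT f0 f1 f2 f3 + s • ((dh3 k ⬝ᵥ f1) • U + (t * f1 1 + psi ⬝ᵥ f2) • Pv +
        (t' * f1 1 + psi' ⬝ᵥ f2) • Qv) := by
    intro f0 f1 f2 f3
    have h5 : a3 k ⬝ᵥ f1 = f1 1 := by simp [a3, dotProduct]
    rw [Matrix.add_mulVec, Matrix.smul_mulVec, hK, Matrix.add_mulVec, Matrix.add_mulVec, vmv, vmv,
      vmv, het, vT_dot, hj1, vT_dot, hj2, vT_dot, smul_dotProduct, smul_dotProduct, h5]
    simp
  have kV : ∀ f3 : Fin 4 → k, (X43 k + s • K) *ᵥ vT 0 0 0 f3 = 0 := by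
    intro f3
    rw [k0, X43_V3]
    simp
  have h6 : ∀ v, (X43 k + s • K) ^ 3 *ᵥ v = (X43 k + s • K) *ᵥ ((X43 k + s • K) *ᵥ
      ((X43 k + s • K) *ᵥ v)) := by
    intro v
    rw [Matrix.mulVec_mulVec, Matrix.mulVec_mulVec, pow_succ, pow_two]
  set u4 : Fin 4 → k := ![-m, 1, 0, 0] with hu4
  have k1 : (X43 k + s • K) ^ 3 *ᵥ vT 1 0 0 0 = vT 0 0 0 (e1 k) + s • (a • Pv + a' • Qv) := by
    have m1 : (X43 k + s • K) *ᵥ vT 1 0 0 0 = vT 0 (e3 k) 0 0 := by
      rw [k0, X43_mulVec]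
      simp only [dotProduct_zero, zero_smul, add_zero, smul_zero, one_smul, Pi.zero_apply, mul_zero]
      refine vT_ext rfl (fun i => rfl) (fun i => ?_) (fun i => rfl)
      simp
    have m2 : (X43 k + s • K) *ᵥ vT 0 (e3 k) 0 0 = vT 0 0 (e1 k) 0 := by
      have h5 : dh3 k ⬝ᵥ e3 k = 0 := by simp [dh3, e3, dotProduct]
      have h7 : e3 k 1 = 0 := by simp [e3]
      rw [k0, X43_mulVec, h5, h7]
      simp only [dotProduct_zero, zero_smul, add_zero, smul_zero, mul_zero]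
      refine vT_ext rfl (fun i => rfl) (fun i => ?_) (fun i => rfl)
      fin_cases i <;> simp [io, e3, e1]
    have m3 : (X43 k + s • K) *ᵥ vT 0 0 (e1 k) 0 = vT 0 0 0 (e1 k) + s • (a • Pv + a' • Qv) := by
      have h5 : psi ⬝ᵥ e1 k = a := by simp [e1, dotProduct, hpsi]
      have h7 : psi' ⬝ᵥ e1 k = a' := by simp [e1, dotProduct, hpsi']
      rw [k0, X43_mulVec, h5, h7]
      simp only [dotProduct_zero, zero_smul, zero_add, Pi.zero_apply, mul_zero]
      congr 1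
      refine vT_ext rfl (fun i => rfl) (fun i => ?_) (fun i => rfl)
      simp
    rw [h6, m1, m2, m3]
  have k2 : (X43 k + s • K) ^ 3 *ᵥ vT 0 (dh3 k) 0 0 = vT 0 0 0 (s • u4) +
      (s ^ 2 * (l - m)) • (a • Pv + a' • Qv) := by
    have m1 : (X43 k + s • K) *ᵥ vT 0 (dh3 k) 0 0 = vT 0 (s • u3) (dh4 k) 0 := by
      have h5 : dh3 k ⬝ᵥ dh3 k = 1 := by simp [dh3, dotProduct]
      have h7 : dh3 k 1 = 0 := by simp [dh3]
      rw [k0, X43_mulVec, h5, h7, hU]
      simp only [dotProduct_zero, zero_smul, add_zero, mul_zero, one_smul, vT_smul, vT_add]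
      refine vT_ext rfl (fun i => ?_) (fun i => ?_) (fun i => ?_)
      · simp
      · fin_cases i <;> simp [io, dh3, dh4]
      · simp
    obtain ⟨z, m2⟩ : ∃ z, (X43 k + s • K) *ᵥ vT 0 (s • u3) (dh4 k) 0 = vT 0 0 (s • u4) z := by
      have h5 : dh3 k ⬝ᵥ (s • u3) = 0 := by simp [dh3, dotProduct, hu3]
      rw [k0, X43_mulVec, h5, hPv, hQv]
      simp only [zero_smul, zero_add, vT_smul, vT_add]
      refine ⟨_, vT_ext (by simp) (fun i => by simp) (fun i => ?_) (fun i => rfl)⟩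
      fin_cases i <;> simp [io, hu3, hu4, Fin.sum_univ_three]
    have m3 : (X43 k + s • K) *ᵥ vT 0 0 (s • u4) z = vT 0 0 0 (s • u4) +
        (s ^ 2 * (l - m)) • (a • Pv + a' • Qv) := by
      have h5 : psi ⬝ᵥ (s • u4) = s * ((l - m) * a) := by
        simp [dotProduct, hpsi, hu4, Fin.sum_univ_four]
        ring
      have h7 : psi' ⬝ᵥ (s • u4) = s * ((l - m) * a') := by
        simp [dotProduct, hpsi', hu4, Fin.sum_univ_four]
        ring
      rw [k0, X43_mulVec, h5, h7]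
      simp only [dotProduct_zero, zero_smul, zero_add, Pi.zero_apply, mul_zero, smul_add, smul_smul]
      congr 1
      · refine vT_ext rfl (fun i => rfl) (fun i => ?_) (fun i => rfl)
        simp
      · congr 2 <;> ring
    rw [h6, m1, m2, m3]
  have s1 : vT 1 0 0 0 = Pi.single (M := fun _ : IA => k) (.inl ()) 1 := by
    funext i
    rcases i with i | i | i | i <;> simp [vT]
  have s2 : vT 0 (dh3 k) 0 0 = Pi.single (M := fun _ : IA => k) (.inr (.inl 2)) 1 := by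
    funext i
    rcases i with i | i | i | i <;> simp [vT, dh3, Pi.single_apply]
  rw [s1, Matrix.mulVec_single_one] at k1
  rw [s2, Matrix.mulVec_single_one] at k2
  have r1 := congrFun k1 (.inr (.inr (.inr 0)))
  have r2 := congrFun k1 (.inr (.inr (.inr 1)))
  have r3 := congrFun k2 (.inr (.inr (.inr 0)))
  have r4 := congrFun k2 (.inr (.inr (.inr 1)))
  simp only [Matrix.col_apply, Pi.add_apply, Pi.smul_apply, smul_eq_mul, hPv, hQv, vT,
    Sum.elim_inr, e1, hu4] at r1 r2 r3 r4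
  rw [r1, r2, r3, r4] at hmin
  simp at hmin
  refine hs1 (mul_left_cancel₀ hs0 ?_)
  rw [hd0, hd1]
  linear_combination hmin

end Pool.Agent.Lib.D12.A43
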