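import Pool.Agent.Lib.D12.A2R

/-!
# MP_5dcbc3_ag, type (4,3,3,2), levels 1, 3, 4, 4: dependent `a`'s
-/

set_option autoImplicit false

namespace Pool.Agent.Lib.D12.A43

open Matrix Pool.Agent.Lib.Q5dc Pool.Agent.Lib.D7 Pool.Agent.Lib.D8 Pool.Agent.Lib.D13

variable {k : Type*} [Field k] {ρ : ℕ → ℕ}
  {Y Y' : Matrix (Fin 4) (Fin 4) k} {B B' : Matrix (Fin 4) (Fin 3) k} {g g' : Fin 4 → k}

/-! ### base change -/

/-- block diagonal matrix `(1, G, G, G)` -/
def GG (G : Matrix (Fin 4) (Fin 4) k) : Matrix IA IA k :=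
  Matrix.of fun i j => match i, j with
    | .inl _, .inl _ => 1
    | .inr (.inl i), .inr (.inl j) => G i.castSucc j.castSucc
    | .inr (.inr (.inl i)), .inr (.inr (.inl j)) => G i j
    | .inr (.inr (.inr i)), .inr (.inr (.inr j)) => G i j
    | _, _ => 0

theorem sum4 (f : Fin 4 → k) : ∑ i, f i = ∑ i : Fin 3, f i.castSucc + f 3 :=
  Fin.sum_univ_castSucc f

theorem GG_mul {G G' : Matrix (Fin 4) (Fin 4) k} (h' : ∀ j : Fin 3, G' 3 j.castSucc = 0) :
    GG G * GG G' = GG (G * G') := by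
  ext i j
  rcases i with i | i | i | i <;> rcases j with j | j | j | j <;>
    simp [GG, Matrix.mul_apply, Fintype.sum_sum_type]
  rw [sum4, h', mul_zero, add_zero]

theorem GG_one : GG (1 : Matrix (Fin 4) (Fin 4) k) = 1 := by
  ext i j
  rcases i with i | i | i | i <;> rcases j with j | j | j | j <;>
    simp [GG, Matrix.one_apply]

/-- restriction to `H` -/
def rH (G : Matrix (Fin 4) (Fin 4) k) : Matrix (Fin 3) (Fin 3) k :=
  Matrix.of fun i j => G i.castSucc j.castSucc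

theorem GG_TT {G G' : Matrix (Fin 4) (Fin 4) k} (h' : ∀ j : Fin 3, G' 3 j.castSucc = 0)
    (h0 : ∀ i, G' i 0 = if i = 0 then 1 else 0) (hY : Y 3 0 = 0) :
    GG G * TT Y B g * GG G' = TT (G * Y * G') (G * B * rH G') (G *ᵥ g) := by
  ext i j
  rcases i with i | i | i | i <;> rcases j with j | j | j | j <;>
    simp [GG, TT, Matrix.mul_apply, Fintype.sum_sum_type, rH, Matrix.mulVec, dotProduct, h0]
  · rw [sum4, hY, mul_zero, add_zero]
  · symm
    rw [sum4, h', mul_zero, add_zero]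

/-- base change -/
theorem baseG {G G' : Matrix (Fin 4) (Fin 4) k} (h1 : G * G' = 1)
    (h' : ∀ j : Fin 3, G' 3 j.castSucc = 0) (h : ∀ j : Fin 3, G 3 j.castSucc = 0)
    (h0 : ∀ i, G' i 0 = if i = 0 then 1 else 0) (hY : Y 3 0 = 0) (hY' : Y' 3 0 = 0)
    (hT : MaxR ρ ![X43 k, TT Y B g, TT Y' B' g']) :
    MaxR ρ ![X43 k, TT (G * Y * G') (G * B * rH G') (G *ᵥ g),
      TT (G * Y' * G') (G * B' * rH G') (G *ᵥ g')] := by
  have h2 : G' * G = 1 := mul_eq_one_comm.1 h1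
  have e1 : GG G * GG G' = 1 := by rw [GG_mul h', h1, GG_one]
  have e2 : GG G' * GG G = 1 := by rw [GG_mul h, h2, GG_one]
  have h3 := hT.conj (GG G) (GG G') e1 e2
  have h4 : (fun i => GG G * (![X43 k, TT Y B g, TT Y' B' g'] : Fin 3 → Matrix IA IA k) i *
      GG G') = ![X43 k, TT (G * Y * G') (G * B * rH G') (G *ᵥ g),
      TT (G * Y' * G') (G * B' * rH G') (G *ᵥ g')] := by
    funext i
    fin_cases i
    · change GG G * X43 k * GG G' = X43 k
      rw [GG_TT h' h0 (by simp), mul_one, h1]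
      simp
    · exact GG_TT h' h0 hY
    · exact GG_TT h' h0 hY'
  rwa [h4] at h3

/-- the relation for the normal form `Y e = a`, `Y' e = 0` -/
theorem rel_a {Y Y' : Matrix (Fin 4) (Fin 4) k} {B B' : Matrix (Fin 4) (Fin 3) k}
    (y0 : ∀ i, Y i 0 = if i = 1 then 1 else 0) (z0 : ∀ i, Y' i 0 = 0) :
    Rel Y Y' B B' ↔ (∀ i (j : Fin 3), (Y * Y') i j.castSucc = (Y' * Y) i j.castSucc) ∧
      ∀ i, B' i 1 = ∑ j, Y i j * B' j 0 - ∑ j, Y' i j * B j 0 := by
  unfold Rel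
  refine and_congr_right fun _ => forall_congr' fun i => ?_
  have e1 : ∑ j : Fin 3, B' i j * Y j.castSucc 0 = B' i 1 := by
    simp [Fin.sum_univ_three, y0]
  have e2 : ∑ j : Fin 3, B i j * Y' j.castSucc 0 = 0 := by
    simp [z0]
  rw [e1, e2, zero_add]
  constructor
  · intro h
    rw [h, add_sub_cancel_right]
  · intro h
    rw [h, sub_add_cancel]

/-- deformation of `Y, Y'` (with the forced deformation of `B' a`) -/
theorem deformYY [Infinite k] (y0 : ∀ i, Y i 0 = if i = 1 then 1 else 0) (z0 : ∀ i, Y' i 0 = 0)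
    (hT : MaxR ρ ![X43 k, TT Y B g, TT Y' B' g']) (R R' : Matrix (Fin 4) (Fin 4) k)
    (r0 : ∀ i, R i 0 = 0) (r0' : ∀ i, R' i 0 = 0)
    (hR : ∀ i (j : Fin 3), (R * Y' + Y * R') i j.castSucc = (R' * Y + Y' * R) i j.castSucc)
    (hR2 : ∀ i (j : Fin 3), (R * R') i j.castSucc = (R' * R) i j.castSucc)
    {F : Set k} (hF : F.Finite) :
    ∃ s, s ∉ F ∧ ∃ B1 : Matrix (Fin 4) (Fin 3) k,
      MaxR ρ ![X43 k, TT (Y + s • R) B g, TT (Y' + s • R') B1 g'] := by
  have hrel := (rel_a (B := B) (B' := B') y0 z0).1 (relOf (by rw [y0]; simp) (z0 3) hT)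
  set c : Fin 4 → k := fun i => ∑ j, R i j * B' j 0 - ∑ j, R' i j * B j 0 with hc
  set D : Matrix (Fin 4) (Fin 3) k := Matrix.of fun i j => if j = 1 then c i else 0 with hD
  have hcn : ∀ s : k, CN ![X43 k, TT Y B g + s • TT R 0 0, TT Y' B' g' + s • TT R' D 0] := by
    intro s
    rw [TT_smul, TT_smul, TT_add, TT_add]
    refine cnTT (by simp [y0, r0]) (by simp [z0, r0']) ((rel_a (by simp [y0, r0])
      (by simp [z0, r0'])).2 ⟨fun i j => ?_, fun i => ?_⟩)
    · have e1 := hrel.1 i j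
      have e2 := hR i j
      have e3 := hR2 i j
      simp only [add_mul, mul_add, smul_mul_assoc, mul_smul_comm, Matrix.add_apply,
        Matrix.smul_apply, smul_eq_mul] at e1 e2 e3 ⊢
      linear_combination e1 + s * e2 + s * s * e3
    · have e1 := hrel.2 i
      simp only [Matrix.add_apply, Matrix.smul_apply, smul_eq_mul, smul_zero, hD,
        Matrix.of_apply, if_true, e1, hc]
      simp [Fin.sum_univ_four]
      ring
  obtain ⟨s, hs, h1⟩ := D8.MaxR.line2 hT _ _ hcn hF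
  refine ⟨s, hs, B' + s • D, ?_⟩
  rw [TT_smul, TT_smul, TT_add, TT_add] at h1
  simpa using h1

/-- consequences of the relations -/
theorem rel_cols (y0 : ∀ i, Y i 0 = if i = 1 then 1 else 0) (z0 : ∀ i, Y' i 0 = 0)
    (hT : MaxR ρ ![X43 k, TT Y B g, TT Y' B' g']) :
    (∀ i, Y' i 1 = 0) ∧ (∀ i, Y' i 2 * Y 2 1 + Y' i 3 * Y 3 1 = 0) ∧
    ∀ i, ∑ j, Y i j * Y' j 2 = Y' i 2 * Y 2 2 + Y' i 3 * Y 3 2 := by
  have hrel := ((rel_a (B := B) (B' := B') y0 z0).1 (relOf (by rw [y0]; simp) (z0 3) hT)).1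
  have z1 : ∀ i, Y' i 1 = 0 := by
    intro i
    have h := hrel i 0
    simp only [Matrix.mul_apply, Fin.castSucc_zero, z0, y0] at h
    simpa using h.symm
  refine ⟨z1, fun i => ?_, fun i => ?_⟩
  · have h := hrel i 1
    simp only [Matrix.mul_apply] at h
    have e1 : (Fin.castSucc 1 : Fin 4) = 1 := rfl
    rw [e1] at h
    simp only [z1, mul_zero, Finset.sum_const_zero] at h
    rw [Fin.sum_univ_four, z0, z1, zero_mul, zero_mul, zero_add, zero_add] at h
    exact h.symm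
  · have h := hrel i 2
    simp only [Matrix.mul_apply] at h
    have e1 : (Fin.castSucc 2 : Fin 4) = 2 := rfl
    rw [e1] at h
    rw [h, Fin.sum_univ_four, z0, z1, zero_mul, zero_mul, zero_add, zero_add]

/-- roots of a quadratic polynomial -/
theorem exists_roots [IsAlgClosed k] (a b : k) : ∃ l m : k, l + m = a ∧ l * m = b := by
  obtain ⟨l, hl⟩ := IsAlgClosed.exists_root
    (Polynomial.X ^ 2 - Polynomial.C a * Polynomial.X + Polynomial.C b : Polynomial k) (by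
      have : (Polynomial.X ^ 2 - Polynomial.C a * Polynomial.X + Polynomial.C b :
          Polynomial k).degree = 2 := by compute_degree!
      rw [this]
      decide)
  refine ⟨l, a - l, by ring, ?_⟩
  rw [Polynomial.IsRoot.def] at hl
  simp at hl
  linear_combination -hl

/-- case II.2 -/
theorem caseII2 [IsAlgClosed k] [Infinite k] (hT : MaxR ρ ![X43 k, TT Y B g, TT Y' B' g'])
    (h3 : ρ 3 ≤ 1) (y0 : ∀ i, Y i 0 = if i = 1 then 1 else 0) (z0 : ∀ i, Y' i 0 = 0)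
    (h21 : Y 2 1 = 0) (h31 : Y 3 1 = 0) (hP : Y 3 2 ≠ 0 ∨ Y' 3 2 ≠ 0) : False := by
  -- the case of nonzero determinant
  have key : ∀ {Y Y' : Matrix (Fin 4) (Fin 4) k} {B B' : Matrix (Fin 4) (Fin 3) k}
      {g g' : Fin 4 → k} (l m : k), MaxR ρ ![X43 k, TT Y B g, TT Y' B' g'] →
      (∀ i, Y i 0 = if i = 1 then 1 else 0) → (∀ i, Y' i 0 = 0) → Y 2 1 = 0 → Y 3 1 = 0 →
      l + m = Y 1 1 → l * m = - Y 0 1 → (Y 2 2 - l) * Y' 3 2 - Y 3 2 * Y' 2 2 = 0 := by
    intro Y Y' B B' g g' l m hT y0 z0 h21 h31 e1 e2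
    by_contra hne
    refine raise3 hT h3 l m y0 z0 (rel_cols y0 z0 hT).1 (fun i => ?_) hne
    fin_cases i
    · simp [e2]
    · simp [e1]
    · simpa using h21
    · simpa using h31
  obtain ⟨z1, -, r3⟩ := rel_cols y0 z0 hT
  by_cases h32 : Y' 3 2 = 0
  · -- deform `Y'`
    have hy : Y 3 2 ≠ 0 := hP.resolve_right (not_not.2 h32)
    set R' : Matrix (Fin 4) (Fin 4) k := Matrix.of fun i j =>
      if j = 2 then (if i = 2 then 1 else 0) else if j = 3 then
        (Y i 2 - Y 2 2 * (if i = 2 then 1 else 0)) / Y 3 2 else 0 with hR'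
    obtain ⟨s, hs, B1, h1⟩ := deformYY y0 z0 hT 0 R' (fun i => rfl) (fun i => by simp [hR'])
      (fun i j => by
        have e1 : (Fin.castSucc 2 : Fin 4) = 2 := rfl
        fin_cases j
        · simp [Matrix.mul_apply, hR', y0]
        · simp [Matrix.mul_apply, hR', Fin.sum_univ_four, h21, h31]
        · simp [Matrix.mul_apply, hR', Fin.sum_univ_four]
          field_simp
          ring) (fun i j => by simp) (Set.finite_singleton (0 : k))
    have hs0 : s ≠ 0 := hs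
    obtain ⟨l, m, e1, e2⟩ := exists_roots (Y 1 1) (- Y 0 1)
    rw [smul_zero, add_zero] at h1
    have h5 := key l m h1 y0 (fun i => by simp [z0, hR']) h21 h31 e1 e2
    have h6 : Y' 2 2 = 0 := by
      have h7 := key l m hT y0 z0 h21 h31 e1 e2
      rw [h32, mul_zero, zero_sub, neg_eq_zero] at h7
      exact (mul_eq_zero.1 h7).resolve_left hy
    simp [hR', h32, h6, hy, hs0] at h5
  · -- deform `Y`
    set R : Matrix (Fin 4) (Fin 4) k := Matrix.of fun i j =>
      if i = 1 then (if j = 1 then 1 else if j = 3 then - (Y' 1 2 / Y' 3 2) else 0) else 0 with hR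
    obtain ⟨s, hs, B1, h1⟩ := deformYY y0 z0 hT R 0 (fun i => by simp [hR]) (fun i => rfl)
      (fun i j => by
        have e1 : (Fin.castSucc 2 : Fin 4) = 2 := rfl
        fin_cases j
        · simp [Matrix.mul_apply, hR, z0]
        · simp [Matrix.mul_apply, hR, z1]
        · simp [Matrix.mul_apply, hR, Fin.sum_univ_four]
          intro _
          field_simp
          ring) (fun i j => by simp) (Set.finite_singleton (0 : k))
    have hs0 : s ≠ 0 := hs
    obtain ⟨l, m, e1, e2⟩ := exists_roots (Y 1 1 + s) (- Y 0 1)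
    obtain ⟨l', m', e1', e2'⟩ := exists_roots (Y 1 1) (- Y 0 1)
    rw [smul_zero, add_zero] at h1
    have y0' : ∀ i, (Y + s • R) i 0 = if i = 1 then 1 else 0 := fun i => by simp [hR, y0]
    have h5 := key l m h1 y0' z0 (by simp [hR, h21]) (by simp [hR, h31]) (by simpa [hR] using e1)
      (by simpa [hR] using e2)
    have h6 := key m l h1 y0' z0 (by simp [hR, h21]) (by simp [hR, h31])
      (by simpa [hR, add_comm] using e1) (by simpa [hR, mul_comm] using e2)
    have h7 := key l' m' hT y0 z0 h21 h31 e1' e2'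
    have h8 := key m' l' hT y0 z0 h21 h31 (by rw [add_comm, e1']) (by rw [mul_comm, e2'])
    simp [hR] at h5 h6
    -- all four roots are equal
    have h9 : (l + m - l' - m') * Y' 3 2 = 0 := by linear_combination h7 + h8 - h5 - h6
    have h10 := (mul_eq_zero.1 h9).resolve_right h32
    apply hs0
    linear_combination h10 - e1 + e1'

/-- case `Y' = 0`, `Y` cyclic: move to independent `a`'s -/
theorem caseZ2 [Infinite k]
    (hind : ∀ {Y Y' : Matrix (Fin 4) (Fin 4) k} {B B' : Matrix (Fin 4) (Fin 3) k}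
      {g g' : Fin 4 → k}, MaxR ρ ![X43 k, TT Y B g, TT Y' B' g'] → Y 3 0 = 0 → Y' 3 0 = 0 →
      Y 1 0 * Y' 2 0 - Y 2 0 * Y' 1 0 ≠ 0 →
      (Y 3 1 ≠ 0 ∨ Y 3 2 ≠ 0 ∨ Y' 3 1 ≠ 0 ∨ Y' 3 2 ≠ 0) → False)
    (hT : MaxR ρ ![X43 k, TT Y B g, TT 0 B' g']) (y0 : ∀ i, Y i 0 = if i = 1 then 1 else 0)
    (hD : (Y * Y) 3 1 * Y 2 1 - Y 3 1 * (Y * Y) 2 1 ≠ 0) : False := by
  set M : Matrix (Fin 4) (Fin 4) k := (Y * Y) 3 1 • (Y * Y) - Y 3 1 • (Y * Y * Y) with hM
  have hYM : Y * M = M * Y := by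
    rw [hM, mul_sub, sub_mul, mul_smul_comm, mul_smul_comm, smul_mul_assoc, smul_mul_assoc,
      ← mul_assoc, ← mul_assoc, ← mul_assoc]
  have m0 : ∀ i, (Y * Y) i 0 = Y i 1 := by
    intro i
    simp [Matrix.mul_apply, y0]
  have m1 : ∀ i, (Y * Y * Y) i 0 = (Y * Y) i 1 := by
    intro i
    rw [Matrix.mul_apply]
    simp [y0]
  have m3 : M 3 0 = 0 := by
    simp only [hM, Matrix.sub_apply, Matrix.smul_apply, smul_eq_mul, m0, m1]
    ring
  have m2 : M 2 0 = (Y * Y) 3 1 * Y 2 1 - Y 3 1 * (Y * Y) 2 1 := by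
    simp only [hM, Matrix.sub_apply, Matrix.smul_apply, smul_eq_mul, m0, m1]
  have y3 : Y 3 0 = 0 := by rw [y0]; simp
  have hrel := relOf y3 rfl hT
  set D : Matrix (Fin 4) (Fin 3) k := Matrix.of fun i j => if j = 1 then
    ∑ j : Fin 3, B i j * M j.castSucc 0 - ∑ j, M i j * B j 0 else 0 with hDD
  have hcn : ∀ s : k, CN ![X43 k, TT Y B g + s • 0, TT 0 B' g' + s • TT M D 0] := by
    intro s
    rw [smul_zero, add_zero, TT_smul, TT_add]
    refine cnTT y3 (by simp [m3]) ⟨fun i j => ?_, fun i => ?_⟩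
    · simp only [zero_add, mul_smul_comm, smul_mul_assoc, hYM]
    · have e1 := hrel.2 i
      have e2 : ∀ X : Matrix (Fin 4) (Fin 3) k, ∑ j : Fin 3, X i j * Y j.castSucc 0 = X i 1 := by
        intro X
        simp [Fin.sum_univ_three, y0]
      rw [e2] at e1 ⊢
      simp only [Matrix.add_apply, Matrix.smul_apply, smul_eq_mul, zero_add, hDD,
        Matrix.of_apply, if_true, Matrix.zero_apply, zero_mul, mul_zero,
        Finset.sum_const_zero, add_zero] at e1 ⊢
      rw [← e1]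
      simp [Fin.sum_univ_four, Fin.sum_univ_three]
      ring
  obtain ⟨s, hs, h1⟩ := D8.MaxR.line2 hT _ _ hcn (Set.finite_singleton (0 : k))
  have hs0 : s ≠ 0 := hs
  rw [smul_zero, add_zero, TT_smul, TT_add] at h1
  refine hind h1 y3 (by simp [m3]) ?_ ?_
  swap
  · by_cases h31 : Y 3 1 = 0
    · refine Or.inr (Or.inl fun h32 => hD ?_)
      rw [h31, zero_mul, sub_zero, Matrix.mul_apply, Fin.sum_univ_four, h31, h32, y0]
      simp
    · exact Or.inl h31
  have y1 : Y 1 0 = 1 := by rw [y0]; simp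
  have y2 : Y 2 0 = 0 := by rw [y0]; simp
  rw [y1, y2, one_mul, zero_mul, sub_zero, zero_add, Matrix.smul_apply, smul_eq_mul, m2]
  exact mul_ne_zero hs0 hD

/-- case `Y' = 0` -/
theorem caseZ [Infinite k]
    (hind : ∀ {Y Y' : Matrix (Fin 4) (Fin 4) k} {B B' : Matrix (Fin 4) (Fin 3) k}
      {g g' : Fin 4 → k}, MaxR ρ ![X43 k, TT Y B g, TT Y' B' g'] → Y 3 0 = 0 → Y' 3 0 = 0 →
      Y 1 0 * Y' 2 0 - Y 2 0 * Y' 1 0 ≠ 0 →
      (Y 3 1 ≠ 0 ∨ Y 3 2 ≠ 0 ∨ Y' 3 1 ≠ 0 ∨ Y' 3 2 ≠ 0) → False)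
    (hT : MaxR ρ ![X43 k, TT Y B g, TT 0 B' g']) (y0 : ∀ i, Y i 0 = if i = 1 then 1 else 0)
    (hP : Y 3 1 ≠ 0 ∨ Y 2 1 ≠ 0 ∧ Y 3 2 ≠ 0) : False := by
  have e3 : (Y * Y) 3 1 * Y 2 1 - Y 3 1 * (Y * Y) 2 1 = 0 := by
    by_contra hne
    exact caseZ2 hind hT y0 hne
  by_cases h31 : Y 3 1 = 0
  · obtain ⟨h21, h32⟩ := hP.resolve_left (not_not.2 h31)
    rw [h31, zero_mul, sub_zero, Matrix.mul_apply, Fin.sum_univ_four, h31, y0, mul_zero,
      if_neg (by decide), zero_mul, zero_add, zero_mul, zero_add, add_zero] at e3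
    exact mul_ne_zero (mul_ne_zero h32 h21) h21 e3
  · set R : Matrix (Fin 4) (Fin 4) k := Matrix.of fun i j =>
      if i = 2 ∧ j = 3 then 1 else 0 with hR
    obtain ⟨s, hs, B1, h1⟩ := deformYY y0 (fun i => rfl) hT R 0 (fun i => by simp [hR])
      (fun i => rfl) (fun i j => by simp) (fun i j => by simp) (Set.finite_singleton (0 : k))
    have hs0 : s ≠ 0 := hs
    rw [smul_zero, add_zero] at h1
    refine caseZ2 hind h1 (fun i => by simp [hR, y0]) ?_
    have q1 : ((Y + s • R) * (Y + s • R)) 3 1 = (Y * Y) 3 1 := by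
      simp [Matrix.mul_apply, Fin.sum_univ_four, hR]
    have q2 : ((Y + s • R) * (Y + s • R)) 2 1 = (Y * Y) 2 1 + s * Y 3 1 := by
      simp [Matrix.mul_apply, Fin.sum_univ_four, hR]
      ring
    have q3 : (Y + s • R) 3 1 = Y 3 1 := by simp [hR]
    have q4 : (Y + s • R) 2 1 = Y 2 1 := by simp [hR]
    rw [q1, q2, q3, q4]
    have : (Y * Y) 3 1 * Y 2 1 - Y 3 1 * ((Y * Y) 2 1 + s * Y 3 1) = - (s * Y 3 1 ^ 2) := by
      linear_combination e3
    rw [this]
    exact neg_ne_zero.2 (mul_ne_zero hs0 (pow_ne_zero 2 h31))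

end Pool.Agent.Lib.D12.A43
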