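import Pool.Agent.Lib.D7.Api
import Pool.Agent.Lib.D8.UtilB

/-!
# MP_5dcbc3_ag: block matrices commuting with a Jordan matrix of type `(4^e)`

Basis: four copies `E_0, E_1, E_2, E_3` of `k^e`; the Jordan matrix `A = J4` maps
`E_0 -> E_1 -> E_2 -> E_3 -> 0`.
-/

set_option autoImplicit false

namespace Pool.Agent.Lib.D12

open Matrix Pool.Agent.Lib.Q5dc Pool.Agent.Lib.D7 Pool.Agent.Lib.D8

/-- indices: four levels -/
abbrev I4 (e : ℕ) : Type := Fin e ⊕ Fin e ⊕ Fin e ⊕ Fin e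

variable {k : Type*} [Field k] {e : ℕ}

/-- `x N + x^2 M + x^3 Q`, where `x` is the shift of the levels -/
def L4 (N M Q : Matrix (Fin e) (Fin e) k) : Matrix (I4 e) (I4 e) k :=
  Matrix.of fun i j => match i, j with
    | .inr (.inl i), .inl j => N i j
    | .inr (.inr (.inl i)), .inl j => M i j
    | .inr (.inr (.inr i)), .inl j => Q i j
    | .inr (.inr (.inl i)), .inr (.inl j) => N i j
    | .inr (.inr (.inr i)), .inr (.inl j) => M i j
    | .inr (.inr (.inr i)), .inr (.inr (.inl j)) => N i j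
    | _, _ => 0

/-- the Jordan matrix -/
def J4 (k : Type*) [Field k] (e : ℕ) : Matrix (I4 e) (I4 e) k := L4 1 0 0

section

variable (N M Q N' M' Q' : Matrix (Fin e) (Fin e) k) (s : k)

theorem L4_mul : L4 N M Q * L4 N' M' Q' = L4 0 (N * N') (N * M' + M * N') := by
  ext i j
  rcases i with i | i | i | i <;> rcases j with j | j | j | j <;>
    simp [L4, Matrix.mul_apply, Fintype.sum_sum_type, add_comm]

theorem L4_add : L4 N M Q + L4 N' M' Q' = L4 (N + N') (M + M') (Q + Q') := by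
  ext i j
  rcases i with i | i | i | i <;> rcases j with j | j | j | j <;> simp [L4]

theorem L4_sub : L4 N M Q - L4 N' M' Q' = L4 (N - N') (M - M') (Q - Q') := by
  ext i j
  rcases i with i | i | i | i <;> rcases j with j | j | j | j <;> simp [L4]

theorem L4_smul : s • L4 N M Q = L4 (s • N) (s • M) (s • Q) := by
  ext i j
  rcases i with i | i | i | i <;> rcases j with j | j | j | j <;> simp [L4]

theorem L4_zero : L4 (0 : Matrix (Fin e) (Fin e) k) 0 0 = 0 := by
  ext i j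
  rcases i with i | i | i | i <;> rcases j with j | j | j | j <;> simp [L4]

theorem L4_inj : L4 N M Q = L4 N' M' Q' ↔ N = N' ∧ M = M' ∧ Q = Q' := by
  constructor
  · intro h
    have H := fun i j => congrFun (congrFun h i) j
    refine ⟨?_, ?_, ?_⟩
    · ext i j
      exact H (.inr (.inl i)) (.inl j)
    · ext i j
      exact H (.inr (.inr (.inl i))) (.inl j)
    · ext i j
      exact H (.inr (.inr (.inr i))) (.inl j)
  · rintro ⟨rfl, rfl, rfl⟩
    rfl

theorem J4_mul_L4 : J4 k e * L4 N M Q = L4 0 N M := by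
  rw [J4, L4_mul]
  simp

theorem L4_mul_J4 : L4 N M Q * J4 k e = L4 0 N M := by
  rw [J4, L4_mul]
  simp

theorem J4_comm : J4 k e * L4 N M Q = L4 N M Q * J4 k e := by
  rw [J4_mul_L4, L4_mul_J4]

theorem J4_sq : J4 k e * J4 k e = L4 0 1 0 := by
  nth_rewrite 2 [J4]
  rw [J4_mul_L4]

theorem J4_cube : J4 k e ^ 3 = L4 0 0 1 := by
  rw [pow_succ, pow_two, J4_sq, L4_mul_J4]

theorem J4_four : J4 k e ^ 4 = 0 := by
  rw [pow_succ, J4_cube, L4_mul_J4, L4_zero]

theorem J4_nil : IsNilpotent (J4 k e) := ⟨4, J4_four⟩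

/-- the relations -/
theorem L4_comm : L4 N M Q * L4 N' M' Q' = L4 N' M' Q' * L4 N M Q ↔
    N * N' = N' * N ∧ N * M' + M * N' = N' * M + M' * N := by
  rw [L4_mul, L4_mul, L4_inj]
  simp

theorem L4_nil : IsNilpotent (L4 N M Q) := by
  refine isNilpotent_of_weight _ (fun i => match i with
    | .inl _ => 0
    | .inr (.inl _) => 1
    | .inr (.inr (.inl _)) => 2
    | .inr (.inr (.inr _)) => 3) ?_
  intro i j h
  rcases i with i | i | i | i <;> rcases j with j | j | j | j <;> simp [L4] at h ⊢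

theorem cn4 (h1 : N * N' = N' * N) (h2 : N * M' + M * N' = N' * M + M' * N) :
    CN ![J4 k e, L4 N M Q, L4 N' M' Q'] :=
  cn3 (J4_comm ..) (J4_comm ..) ((L4_comm ..).2 ⟨h1, h2⟩) J4_nil (L4_nil ..) (L4_nil ..)

end

theorem max_rel {ρ : ℕ → ℕ} {N M Q N' M' Q' : Matrix (Fin e) (Fin e) k}
    (hT : MaxR ρ ![J4 k e, L4 N M Q, L4 N' M' Q']) :
    N * N' = N' * N ∧ N * M' + M * N' = N' * M + M' * N :=
  (L4_comm ..).1 (hT.cn.1 1 2)

/-! ### changes of bases -/

/-- block diagonal matrix `(g, g, g, g)` -/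
def G4 (g : Matrix (Fin e) (Fin e) k) : Matrix (I4 e) (I4 e) k :=
  Matrix.of fun i j => match i, j with
    | .inl i, .inl j => g i j
    | .inr (.inl i), .inr (.inl j) => g i j
    | .inr (.inr (.inl i)), .inr (.inr (.inl j)) => g i j
    | .inr (.inr (.inr i)), .inr (.inr (.inr j)) => g i j
    | _, _ => 0

theorem G4_mul (g g' : Matrix (Fin e) (Fin e) k) : G4 g * G4 g' = G4 (g * g') := by
  ext i j
  rcases i with i | i | i | i <;> rcases j with j | j | j | j <;>
    simp [G4, Matrix.mul_apply, Fintype.sum_sum_type]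

theorem G4_one : G4 (1 : Matrix (Fin e) (Fin e) k) = 1 := by
  ext i j
  rcases i with i | i | i | i <;> rcases j with j | j | j | j <;>
    simp [G4, Matrix.one_apply]

theorem G4_mul_L4 (g N M Q : Matrix (Fin e) (Fin e) k) :
    G4 g * L4 N M Q = L4 (g * N) (g * M) (g * Q) := by
  ext i j
  rcases i with i | i | i | i <;> rcases j with j | j | j | j <;>
    simp [G4, L4, Matrix.mul_apply, Fintype.sum_sum_type]

theorem L4_mul_G4 (g N M Q : Matrix (Fin e) (Fin e) k) :
    L4 N M Q * G4 g = L4 (N * g) (M * g) (Q * g) := by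
  ext i j
  rcases i with i | i | i | i <;> rcases j with j | j | j | j <;>
    simp [G4, L4, Matrix.mul_apply, Fintype.sum_sum_type]

theorem G4_conj (g g' N M Q : Matrix (Fin e) (Fin e) k) :
    G4 g * L4 N M Q * G4 g' = L4 (g * N * g') (g * M * g') (g * Q * g') := by
  rw [G4_mul_L4, L4_mul_G4]

theorem max_conj {ρ : ℕ → ℕ} {g g' : Matrix (Fin e) (Fin e) k} (hg : g * g' = 1)
    {N M Q N' M' Q' : Matrix (Fin e) (Fin e) k}
    (hT : MaxR ρ ![J4 k e, L4 N M Q, L4 N' M' Q']) :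
    MaxR ρ ![J4 k e, L4 (g * N * g') (g * M * g') (g * Q * g'),
      L4 (g * N' * g') (g * M' * g') (g * Q' * g')] := by
  have hg' : g' * g = 1 := mul_eq_one_comm.1 hg
  have h1 := hT.conj (G4 g) (G4 g') (by rw [G4_mul, hg, G4_one]) (by rw [G4_mul, hg', G4_one])
  have h2 : (fun i => G4 g * (![J4 k e, L4 N M Q, L4 N' M' Q'] :
      Fin 3 → Matrix (I4 e) (I4 e) k) i * G4 g') =
      ![J4 k e, L4 (g * N * g') (g * M * g') (g * Q * g'),
      L4 (g * N' * g') (g * M' * g') (g * Q' * g')] := by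
    funext i
    fin_cases i
    · change G4 g * J4 k e * G4 g' = J4 k e
      rw [J4, G4_conj, mul_one, hg]
      simp
    · exact G4_conj ..
    · exact G4_conj ..
  rwa [h2] at h1

/-! ### duality -/

/-- the involution exchanging the levels -/
def sg4 : I4 e → I4 e
  | .inl i => .inr (.inr (.inr i))
  | .inr (.inl i) => .inr (.inr (.inl i))
  | .inr (.inr (.inl i)) => .inr (.inl i)
  | .inr (.inr (.inr i)) => .inl i

/-- its permutation matrix -/
def P4 (k : Type*) [Field k] (e : ℕ) : Matrix (I4 e) (I4 e) k :=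
  Matrix.of fun i j => if i = sg4 j then 1 else 0

theorem P4_mul_P4 : P4 k e * P4 k e = 1 := by
  ext i j
  rcases i with i | i | i | i <;> rcases j with j | j | j | j <;>
    simp [P4, sg4, Matrix.mul_apply, Matrix.one_apply]

theorem P4_L4 (N M Q : Matrix (Fin e) (Fin e) k) : P4 k e * (L4 N M Q)ᵀ * P4 k e =
    L4 Nᵀ Mᵀ Qᵀ := by
  have h : P4 k e * (L4 N M Q)ᵀ = L4 Nᵀ Mᵀ Qᵀ * P4 k e := by
    ext i j
    rcases i with i | i | i | i <;> rcases j with j | j | j | j <;>
      simp [P4, sg4, L4, Matrix.mul_apply, Fintype.sum_sum_type]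
  rw [h, mul_assoc, P4_mul_P4, mul_one]

theorem max_dual {ρ : ℕ → ℕ} {N M Q N' M' Q' : Matrix (Fin e) (Fin e) k}
    (hT : MaxR ρ ![J4 k e, L4 N M Q, L4 N' M' Q']) :
    MaxR ρ ![J4 k e, L4 Nᵀ Mᵀ Qᵀ, L4 N'ᵀ M'ᵀ Q'ᵀ] := by
  have h1 := hT.transpose.conj _ _ P4_mul_P4 P4_mul_P4
  have h2 : (fun i => P4 k e * ((![J4 k e, L4 N M Q, L4 N' M' Q'] :
      Fin 3 → Matrix (I4 e) (I4 e) k) i)ᵀ * P4 k e) =
      ![J4 k e, L4 Nᵀ Mᵀ Qᵀ, L4 N'ᵀ M'ᵀ Q'ᵀ] := by
    funext i
    fin_cases i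
    · simp only [J4]
      refine (P4_L4 ..).trans ?_
      simp
    · exact P4_L4 ..
    · exact P4_L4 ..
  rwa [h2] at h1

theorem max_lin {ρ : ℕ → ℕ} (a b c d x z : k) (hd : a * d - b * c ≠ 0)
    {N M Q N' M' Q' : Matrix (Fin e) (Fin e) k}
    (hT : MaxR ρ ![J4 k e, L4 N M Q, L4 N' M' Q']) :
    MaxR ρ ![J4 k e, L4 (a • N + b • N' + x • 1) (a • M + b • M') (a • Q + b • Q'),
      L4 (c • N + d • N' + z • 1) (c • M + d • M') (c • Q + d • Q')] := by
  have h := MaxR.lin hT a b c d x 0 z 0 hd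
  have e : ∀ a b x : k, a • L4 N M Q + b • L4 N' M' Q' + x • J4 k e +
      (0 : k) • (J4 k e * J4 k e) =
      L4 (a • N + b • N' + x • 1) (a • M + b • M') (a • Q + b • Q') := by
    intro a b x
    rw [zero_smul, add_zero, J4, L4_smul, L4_smul, L4_smul, L4_add, L4_add, smul_zero, add_zero,
      add_zero]
  rw [e, e] at h
  exact h

/-! ### shape -/

/-- matrices commuting with the Jordan matrix, killed by its cube -/
theorem shape4 {X : Matrix (I4 e) (I4 e) k} (h : J4 k e * X = X * J4 k e)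
    (h3 : J4 k e ^ 3 * X = 0) : ∃ N M Q, X = L4 N M Q := by
  refine ⟨Matrix.of fun i j => X (.inr (.inl i)) (.inl j),
    Matrix.of fun i j => X (.inr (.inr (.inl i))) (.inl j),
    Matrix.of fun i j => X (.inr (.inr (.inr i))) (.inl j), ?_⟩
  rw [J4_cube] at h3
  have H := fun i j => congrFun (congrFun h i) j
  have H3 := fun i j => congrFun (congrFun h3 i) j
  have z : ∀ i j, X (.inl i) j = 0 := by
    intro i j
    have := H3 (.inr (.inr (.inr i))) j
    simpa [L4, Matrix.mul_apply, Fintype.sum_sum_type, Matrix.one_apply] using this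
  have r1 : ∀ i j, X (.inr (.inl i)) (.inr (.inl j)) = X (.inl i) (.inl j) := by
    intro i j
    have := H (.inr (.inl i)) (.inl j)
    simpa [J4, L4, Matrix.mul_apply, Fintype.sum_sum_type, Matrix.one_apply] using this.symm
  have r2 : ∀ i j, X (.inr (.inl i)) (.inr (.inr (.inl j))) = X (.inl i) (.inr (.inl j)) := by
    intro i j
    have := H (.inr (.inl i)) (.inr (.inl j))
    simpa [J4, L4, Matrix.mul_apply, Fintype.sum_sum_type, Matrix.one_apply] using this.symm
  have r3 : ∀ i j, X (.inr (.inl i)) (.inr (.inr (.inr j))) = X (.inl i) (.inr (.inr (.inl j))) := by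
    intro i j
    have := H (.inr (.inl i)) (.inr (.inr (.inl j)))
    simpa [J4, L4, Matrix.mul_apply, Fintype.sum_sum_type, Matrix.one_apply] using this.symm
  have s1 : ∀ i j, X (.inr (.inr (.inl i))) (.inr (.inl j)) = X (.inr (.inl i)) (.inl j) := by
    intro i j
    have := H (.inr (.inr (.inl i))) (.inl j)
    simpa [J4, L4, Matrix.mul_apply, Fintype.sum_sum_type, Matrix.one_apply] using this.symm
  have s2 : ∀ i j, X (.inr (.inr (.inl i))) (.inr (.inr (.inl j))) =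
      X (.inr (.inl i)) (.inr (.inl j)) := by
    intro i j
    have := H (.inr (.inr (.inl i))) (.inr (.inl j))
    simpa [J4, L4, Matrix.mul_apply, Fintype.sum_sum_type, Matrix.one_apply] using this.symm
  have s3 : ∀ i j, X (.inr (.inr (.inl i))) (.inr (.inr (.inr j))) =
      X (.inr (.inl i)) (.inr (.inr (.inl j))) := by
    intro i j
    have := H (.inr (.inr (.inl i))) (.inr (.inr (.inl j)))
    simpa [J4, L4, Matrix.mul_apply, Fintype.sum_sum_type, Matrix.one_apply] using this.symm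
  have t1 : ∀ i j, X (.inr (.inr (.inr i))) (.inr (.inl j)) = X (.inr (.inr (.inl i))) (.inl j) := by
    intro i j
    have := H (.inr (.inr (.inr i))) (.inl j)
    simpa [J4, L4, Matrix.mul_apply, Fintype.sum_sum_type, Matrix.one_apply] using this.symm
  have t2 : ∀ i j, X (.inr (.inr (.inr i))) (.inr (.inr (.inl j))) =
      X (.inr (.inr (.inl i))) (.inr (.inl j)) := by
    intro i j
    have := H (.inr (.inr (.inr i))) (.inr (.inl j))
    simpa [J4, L4, Matrix.mul_apply, Fintype.sum_sum_type, Matrix.one_apply] using this.symm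
  have t3 : ∀ i j, X (.inr (.inr (.inr i))) (.inr (.inr (.inr j))) =
      X (.inr (.inr (.inl i))) (.inr (.inr (.inl j))) := by
    intro i j
    have := H (.inr (.inr (.inr i))) (.inr (.inr (.inl j)))
    simpa [J4, L4, Matrix.mul_apply, Fintype.sum_sum_type, Matrix.one_apply] using this.symm
  ext i j
  rcases i with i | i | i | i <;> rcases j with j | j | j | j <;>
    simp [L4, z, r1, r2, r3, s1, s2, s3, t1, t2, t3]

theorem pow4_line {k : Type*} [Field k] [CharZero k] {n : Type*} [Fintype n] [DecidableEq n]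
    {A X : Matrix n n k} (hc : A * X = X * A)
    (h : ∀ t : k, (A + t • X) ^ 4 = 0) : A ^ 3 * X = 0 := by
  have h0 : A ^ 4 = 0 := by simpa using h 0
  have ex : ∀ t : k, (A + t • X) ^ 4 = A ^ 4 + (4 * t) • (A ^ 3 * X) +
      (6 * t ^ 2) • (A ^ 2 * X ^ 2) + (4 * t ^ 3) • (A * X ^ 3) + t ^ 4 • X ^ 4 := by
    intro t
    have sq : (A + t • X) * (A + t • X) = A ^ 2 + (2 * t) • (A * X) + (t ^ 2) • X ^ 2 := by
      rw [add_mul, mul_add, mul_add, smul_mul_assoc, smul_mul_assoc, mul_smul_comm, mul_smul_comm,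
        ← hc, pow_two, pow_two X]
      module
    have hc' : Commute A X := hc
    have c1 : A * X * A ^ 2 = A ^ 3 * X := by
      rw [mul_assoc, ((hc'.pow_left 2).eq).symm, ← mul_assoc, ← pow_succ']
    have c2 : A ^ 2 * (A * X) = A ^ 3 * X := by rw [← mul_assoc, ← pow_succ]
    have c3 : A * X * (A * X) = A ^ 2 * X ^ 2 := by
      rw [mul_assoc, ← mul_assoc X, ← hc, pow_two, pow_two]
      simp only [mul_assoc]
    have c4 : X ^ 2 * A ^ 2 = A ^ 2 * X ^ 2 := ((hc'.pow_pow 2 2).eq).symm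
    have c5 : A * X * X ^ 2 = A * X ^ 3 := by rw [mul_assoc, ← pow_succ']
    have c6 : X ^ 2 * (A * X) = A * X ^ 3 := by
      rw [← mul_assoc, ((hc'.pow_right 2).eq).symm, mul_assoc, ← pow_succ]
    have c7 : A ^ 2 * A ^ 2 = A ^ 4 := by rw [← pow_add]
    have c8 : X ^ 2 * X ^ 2 = X ^ 4 := by rw [← pow_add]
    have e4 : (A + t • X) ^ 4 = ((A + t • X) * (A + t • X)) * ((A + t • X) * (A + t • X)) := by
      rw [show (4 : ℕ) = 2 + 2 from rfl, pow_add, pow_two]
    rw [e4, sq]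
    simp only [add_mul, mul_add, smul_mul_assoc, mul_smul_comm, c1, c2, c3, c4, c5, c6, c7, c8]
    module
  have h1 := h 1
  have h2 := h (-1)
  have h3 := h 2
  have h4 := h (-2)
  rw [ex, h0] at h1 h2 h3 h4
  have e : (24 : k) • (A ^ 3 * X) = 0 := by
    have : (24 : k) • (A ^ 3 * X) = (8 / 2 : k) • ((0 + (4 * (1 : k)) • (A ^ 3 * X) +
      (6 * (1 : k) ^ 2) • (A ^ 2 * X ^ 2) + (4 * (1 : k) ^ 3) • (A * X ^ 3) + (1 : k) ^ 4 • X ^ 4) - (0 + (4 * (-1 : k)) • (A ^ 3 * X) +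
      (6 * (-1 : k) ^ 2) • (A ^ 2 * X ^ 2) + (4 * (-1 : k) ^ 3) • (A * X ^ 3) + (-1 : k) ^ 4 • X ^ 4)) - (1/2 : k) • ((0 + (4 * (2 : k)) • (A ^ 3 * X) +
      (6 * (2 : k) ^ 2) • (A ^ 2 * X ^ 2) + (4 * (2 : k) ^ 3) • (A * X ^ 3) + (2 : k) ^ 4 • X ^ 4) - (0 + (4 * (-2 : k)) • (A ^ 3 * X) +
      (6 * (-2 : k) ^ 2) • (A ^ 2 * X ^ 2) + (4 * (-2 : k) ^ 3) • (A * X ^ 3) + (-2 : k) ^ 4 • X ^ 4)) := by
      module
    rw [this, h1, h2, h3, h4]
    simp
  rw [smul_eq_zero] at e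
  exact e.resolve_left (by norm_num)

theorem shape4' [CharZero k] {ρ : ℕ → ℕ} {T : Fin 3 → Matrix (I4 e) (I4 e) k} (hT : MaxR ρ T)
    (h4 : ρ 4 = 0) (h0 : T 0 = J4 k e) : ∃ N M Q N' M' Q' : Matrix (Fin e) (Fin e) k,
      MaxR ρ ![J4 k e, L4 N M Q, L4 N' M' Q'] := by
  have hinf : Infinite k := CharZero.infinite k
  have key : ∀ i : Fin 3, ∃ N M Q, T i = L4 N M Q := by
    intro i
    have hc : J4 k e * T i = T i * J4 k e := by
      rw [← h0]
      exact hT.cn.1 0 i
    refine shape4 hc ?_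
    refine pow4_line hc fun t => hT.pow_eq_zero ?_ h4
    rw [← h0]
    exact add_mem (mem_adj T 0) (SMulMemClass.smul_mem t (mem_adj T i))
  obtain ⟨N, M, Q, h1⟩ := key 1
  obtain ⟨N', M', Q', h2⟩ := key 2
  refine ⟨N, M, Q, N', M', Q', ?_⟩
  rw [← h0, ← h1, ← h2]
  have e : ![T 0, T 1, T 2] = T := by
    funext i
    fin_cases i <;> rfl
  rw [e]
  exact hT

end Pool.Agent.Lib.D12
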