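import Pool.Agent.Lib.D12.GrBX
import Pool.Agent.Lib.D13.Den353

/-!
# MP_5dcbc3_ag: density theorem for block matrices of type `(3, 3, 3, 1, 1)`
-/

set_option autoImplicit false

namespace Pool.Agent.Lib.D12

open Matrix Pool.Agent.Lib.Q5dc Pool.Agent.Lib.D7 Pool.Agent.Lib.D9

theorem cl_353 {k : Type*} [Field k] [IsAlgClosed k] [CharZero k]
    {N M N' M' : Matrix (Fin 3) (Fin 3) k} {w w' : Matrix (Fin 2) (Fin 3) k}
    {th th' : Matrix (Fin 3) (Fin 2) k} (h : N * N' + th * w' = N' * N + th' * w)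
    (hinj : ∀ z : Fin 3 → k, w *ᵥ z = 0 → w' *ᵥ z = 0 → z = 0) :
    Cl ![JX k 3 0 2, BX N M 0 0 w 0 0 0 0 th 0, BX N' M' 0 0 w' 0 0 0 0 th' 0] :=
  cl_BX_of_GRD (fun al be D hc hs => D13.cl_GRD_353 rfl rfl rfl al be D hc hs)
    (by simpa using h) (by simp) (fun z _ _ h1 h2 => hinj z h1 h2)

end Pool.Agent.Lib.D12
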