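import Pool.Agent.Lib.D12.GrBX
import Pool.Agent.Lib.D13.Den354

/-!
# MP_5dcbc3_ag: density theorem for block matrices of type `(3, 3, 3, 2, 1)`
-/

set_option autoImplicit false

namespace Pool.Agent.Lib.D12

open Matrix Pool.Agent.Lib.Q5dc Pool.Agent.Lib.D7 Pool.Agent.Lib.D9

theorem cl_354 {k : Type*} [Field k] [IsAlgClosed k] [CharZero k]
    {N M N' M' : Matrix (Fin 3) (Fin 3) k} {a c a' c' : Matrix (Fin 1) (Fin 3) k}
    {w w' : Matrix (Fin 1) (Fin 3) k} {d d' : Matrix (Fin 3) (Fin 1) k}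
    {nu nu' : Matrix (Fin 1) (Fin 1) k} {th th' : Matrix (Fin 3) (Fin 1) k}
    {et et' : Matrix (Fin 1) (Fin 1) k}
    (h2 : N * N' + d * a' + th * w' = N' * N + d' * a + th' * w)
    (h3 : a * N' + nu * a' + et * w' = a' * N + nu' * a + et' * w)
    (hinj : ∀ z : Fin 3 → k, a *ᵥ z = 0 → a' *ᵥ z = 0 → w *ᵥ z = 0 → w' *ᵥ z = 0 → z = 0) :
    Cl ![JX k 3 1 1, BX N M a c w 0 d nu 0 th et, BX N' M' a' c' w' 0 d' nu' 0 th' et'] :=
  cl_BX_of_GRD (fun al be D hc hs => D13.cl_GRD_354 rfl rfl rfl al be D hc hs) h2 h3 hinj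

end Pool.Agent.Lib.D12
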