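import Pool.Agent.Lib.D9.DensX

/-!
# MP_5dcbc3_ag: all triples `T1X 6 2 r g` are limits of curvilinear triples

Exponents: `e_j`: 4, 7, 9, `q_l`: 1, 2, 3, 5, 6, 8, `f_m`: 10, 11.
-/

namespace Pool.Agent.Lib.D12

open Matrix Pool.Agent.Lib.Q5dc Pool.Agent.Lib.D7 Pool.Agent.Lib.D9

namespace Cl192Aux

/-- the exponents -/
def ex : Fin 1 ⊕ ((Fin 3 ⊕ Fin 6) ⊕ Fin 2) ≃ Fin (11 + 1) where
  toFun := Sum.elim (fun _ => 0) (Sum.elim (Sum.elim ![4, 7, 9] ![1, 2, 3, 5, 6, 8]) ![10, 11])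
  invFun := ![.inl 0,
    .inr (.inl (.inr 0)),
    .inr (.inl (.inr 1)),
    .inr (.inl (.inr 2)),
    .inr (.inl (.inl 0)),
    .inr (.inl (.inr 3)),
    .inr (.inl (.inr 4)),
    .inr (.inl (.inl 1)),
    .inr (.inl (.inr 5)),
    .inr (.inl (.inl 2)),
    .inr (.inr 0),
    .inr (.inr 1)]
  left_inv := by
    intro x
    rcases x with x | ((x | x) | x) <;> fin_cases x <;> rfl
  right_inv := by
    intro x
    fin_cases x <;> rfl

variable {k : Type*} [Field k]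

/-- the certificate -/
def Nc (v : (Fin 6 × Fin 2) ⊕ (Fin 3 × Fin 6 × Fin 2) → k) :
    Matrix (Fin (11 + 1)) (Fin (11 + 1)) k :=
  !![0, 0, 0, 0, 0, 0, 0, 0, 0, 0, 0, 0;
     0,
     0,
     0,
     -v (.inl (2, 1)) + v (.inr (2, 2, 0)),
     v (.inl (2, 0)),
     v (.inr (2, 3, 0)) - v (.inr (2, 4, 1)),
     v (.inr (2, 4, 0)),
     0,
     -1 / 2 * v (.inl (5, 1)) + v (.inr (2, 5, 0)),
     1 / 2 * v (.inl (5, 0)),
     0,
     0;
     0,
     -v (.inr (0, 4, 1)) + v (.inr (1, 1, 0)) + v (.inr (2, 0, 1)),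
     -v (.inl (1, 1)) + v (.inr (0, 4, 0)) - v (.inr (2, 0, 0)) + v (.inr (2, 1, 1)),
     v (.inr (2, 2, 1)),
     0,
     v (.inr (2, 3, 1)),
     0,
     v (.inl (4, 1)),
     -v (.inl (4, 0)) + v (.inr (2, 5, 1)),
     1 / 2 * v (.inl (5, 1)),
     0,
     0;
     0,
     -v (.inl (0, 0)) + v (.inr (1, 0, 0)),
     0,
     -v (.inr (0, 4, 0)) + v (.inr (1, 2, 0)),
     0,
     v (.inr (1, 3, 0)) - v (.inr (1, 4, 1)),
     -1 / 2 * v (.inl (3, 1)) + v (.inr (1, 4, 0)),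
     1 / 2 * v (.inl (3, 0)),
     -v (.inl (4, 1)) + v (.inr (1, 5, 0)),
     v (.inl (4, 0)),
     0,
     0;
     0,
     -v (.inl (0, 1)) + v (.inr (0, 2, 0)) + v (.inr (1, 0, 1)),
     -v (.inr (0, 3, 1)) + v (.inr (1, 1, 1)),
     -v (.inr (0, 4, 1)) + v (.inr (1, 2, 1)),
     0,
     -v (.inl (1, 0)) + v (.inr (1, 3, 1)) + v (.inr (2, 1, 0)),
     0,
     1 / 2 * v (.inl (3, 1)),
     -1 / 2 * v (.inl (3, 0)) + v (.inr (1, 5, 1)),
     0,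
     0,
     0;
     0,
     0,
     0,
     0,
     0,
     2 * v (.inl (1, 1)) + 2 * v (.inr (0, 4, 0)) - v (.inr (1, 2, 0)) - v (.inr (2, 1, 1)),
     0,
     v (.inr (1, 4, 1)),
     0,
     v (.inr (2, 4, 1)),
     0,
     0;
     0,
     0,
     0,
     0,
     0,
     v (.inr (0, 3, 0)) - v (.inr (1, 1, 0)),
     0,
     v (.inl (1, 0)) - v (.inr (2, 1, 0)),
     v (.inr (0, 5, 0)),
     0,
     0,
     0;
     0,
     0,
     0,
     0,
     0,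
     0,
     0,
     0,
     v (.inr (0, 5, 1)),
     v (.inl (2, 1)),
     0,
     0;
     0, 0, 0, 0, 0, 0, 0, 0, 0, 0, 0, 0;
     0,
     0,
     0,
     0,
     0,
     0,
     0,
     0,
     0,
     -v (.inr (0, 4, 0)) + v (.inr (2, 0, 0)),
     0,
     0;
     0,
     0,
     0,
     0,
     0,
     -v (.inr (0, 0, 0)),
     -v (.inr (0, 1, 0)),
     -v (.inr (0, 2, 0)),
     -v (.inl (0, 0)),
     -v (.inr (1, 1, 0)),
     -v (.inr (0, 4, 0)),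
     -v (.inr (2, 1, 0));
     0,
     0,
     0,
     0,
     0,
     -v (.inr (0, 0, 1)),
     -v (.inr (0, 1, 1)),
     -v (.inr (0, 2, 1)),
     -v (.inl (0, 1)),
     -v (.inr (0, 3, 1)),
     -v (.inr (0, 4, 1)),
     -v (.inl (1, 1))]

variable (v : (Fin 6 × Fin 2) ⊕ (Fin 3 × Fin 6 × Fin 2) → k)

theorem Nc_col (x : Fin (11 + 1)) : Nc v x 0 = 0 := by
  fin_cases x <;> rfl

theorem Nc_row (x : Fin (11 + 1)) : Nc v 0 x = 0 := by
  fin_cases x <;> rfl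

variable [CharZero k]

theorem Nc_tr : (Nc v).trace = 0 := by
  simp [Nc, Matrix.trace, Fin.sum_univ_succ] <;> ring

theorem Nc_r (a : Fin 6) (m : Fin 2) :
    DensX.Dv (Nc v) (DensX.Pe ex (DensX.ri a)) (DensX.Pe ex (DensX.ci a)) (DensX.Pf ex m) =
      v (.inl (a, m)) := by
  fin_cases a <;> fin_cases m <;>
    simp [DensX.Dv, DensX.Pe, DensX.Pf, DensX.ri, DensX.ci, ex, Nc] <;> ring

theorem Nc_g (i : Fin 3) (l : Fin 6) (m : Fin 2) :
    DensX.Dv (Nc v) (DensX.Pe ex i) (DensX.Pq ex l) (DensX.Pf ex m) = v (.inr (i, l, m)) := by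
  fin_cases i <;> fin_cases l <;> fin_cases m <;>
    simp [DensX.Dv, DensX.Pe, DensX.Pf, DensX.Pq, ex, Nc] <;> ring

end Cl192Aux

open Cl192Aux in
/-- all triples `T1X 6 2 r g` are limits of curvilinear triples -/
theorem cl_T192 {k : Type*} [Field k] [IsAlgClosed k] [CharZero k] (r : Fin 6 × Fin 2 → k)
    (g : Fin 3 × Fin 6 × Fin 2 → k) : Cl (T1X 6 2 r g) :=
  cl_T1X_of_cert ex rfl Nc Nc_col Nc_row (fun v => Nc_tr v) (fun v => Nc_r v) (fun v => Nc_g v) r g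

end Pool.Agent.Lib.D12
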