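import Pool.Agent.Lib.D9.DensX

/-!
# MP_5dcbc3_ag: all triples `T1X 7 1 r g` are limits of curvilinear triples

Exponents: `e_j`: 1, 3, 10, `q_l`: 2, 4, 5, 6, 7, 8, 9, `f_m`: 11.
-/

namespace Pool.Agent.Lib.D12

open Matrix Pool.Agent.Lib.Q5dc Pool.Agent.Lib.D7 Pool.Agent.Lib.D9

namespace Cl1_10_1Aux

/-- the exponents -/
def ex : Fin 1 ⊕ ((Fin 3 ⊕ Fin 7) ⊕ Fin 1) ≃ Fin (11 + 1) where
  toFun := Sum.elim (fun _ => 0) (Sum.elim (Sum.elim ![1, 3, 10] ![2, 4, 5, 6, 7, 8, 9]) ![11])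
  invFun := ![.inl 0,
    .inr (.inl (.inl 0)),
    .inr (.inl (.inr 0)),
    .inr (.inl (.inl 1)),
    .inr (.inl (.inr 1)),
    .inr (.inl (.inr 2)),
    .inr (.inl (.inr 3)),
    .inr (.inl (.inr 4)),
    .inr (.inl (.inr 5)),
    .inr (.inl (.inr 6)),
    .inr (.inl (.inl 2)),
    .inr (.inr 0)]
  left_inv := by
    intro x
    rcases x with x | ((x | x) | x) <;> fin_cases x <;> rfl
  right_inv := by
    intro x
    fin_cases x <;> rfl

variable {k : Type*} [Field k]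

/-- the certificate -/
def Nc (v : (Fin 6 × Fin 1) ⊕ (Fin 3 × Fin 7 × Fin 1) → k) :
    Matrix (Fin (11 + 1)) (Fin (11 + 1)) k :=
  !![0, 0, 0, 0, 0, 0, 0, 0, 0, 0, 0, 0;
     0,
     0,
     v (.inr (2, 0, 0)),
     v (.inl (4, 0)),
     v (.inr (2, 1, 0)),
     0,
     v (.inr (2, 3, 0)),
     0,
     v (.inr (2, 5, 0)),
     0,
     1 / 2 * v (.inl (5, 0)),
     0;
     0,
     0,
     0,
     0,
     0,
     0,
     0,
     0,
     0,
     0,
     v (.inr (2, 6, 0)),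
     0;
     0, 0, 0, 0, 0, 0, 0, 0, 0, 0, 0, 0;
     0,
     0,
     0,
     0,
     2 * v (.inl (2, 0)) - v (.inr (1, 5, 0)),
     0,
     0,
     0,
     0,
     0,
     v (.inr (2, 4, 0)),
     0;
     0,
     v (.inr (0, 3, 0)),
     0,
     0,
     0,
     0,
     0,
     0,
     0,
     0,
     0,
     0;
     0,
     0,
     0,
     0,
     0,
     0,
     0,
     0,
     0,
     0,
     v (.inr (2, 2, 0)),
     0;
     0,
     0,
     0,
     v (.inr (1, 1, 0)),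
     0,
     0,
     0,
     0,
     0,
     0,
     0,
     0;
     0,
     0,
     0,
     0,
     0,
     0,
     -v (.inr (0, 5, 0)) + v (.inr (1, 3, 0)),
     0,
     -v (.inl (2, 0)) + v (.inr (1, 5, 0)),
     v (.inr (1, 6, 0)),
     0,
     0;
     0,
     0,
     0,
     -v (.inr (0, 1, 0)) + v (.inr (1, 0, 0)),
     0,
     0,
     0,
     0,
     0,
     0,
     0,
     0;
     0,
     0,
     0,
     0,
     0,
     -v (.inl (3, 0)) + v (.inr (0, 2, 0)),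
     0,
     v (.inr (0, 4, 0)) - v (.inr (1, 2, 0)),
     0,
     v (.inr (0, 6, 0)) - v (.inr (1, 4, 0)),
     0,
     0;
     0,
     0,
     -v (.inl (0, 0)),
     -v (.inr (0, 0, 0)),
     -v (.inl (1, 0)),
     -v (.inr (0, 1, 0)),
     -v (.inl (3, 0)),
     0,
     -v (.inr (1, 2, 0)),
     -v (.inr (0, 5, 0)),
     -v (.inr (1, 4, 0)),
     -v (.inl (2, 0))]

variable (v : (Fin 6 × Fin 1) ⊕ (Fin 3 × Fin 7 × Fin 1) → k)

theorem Nc_col (x : Fin (11 + 1)) : Nc v x 0 = 0 := by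
  fin_cases x <;> rfl

theorem Nc_row (x : Fin (11 + 1)) : Nc v 0 x = 0 := by
  fin_cases x <;> rfl

variable [CharZero k]

theorem Nc_tr : (Nc v).trace = 0 := by
  simp [Nc, Matrix.trace, Fin.sum_univ_succ] <;> ring

theorem Nc_r (a : Fin 6) (m : Fin 1) :
    DensX.Dv (Nc v) (DensX.Pe ex (DensX.ri a)) (DensX.Pe ex (DensX.ci a)) (DensX.Pf ex m) =
      v (.inl (a, m)) := by
  fin_cases a <;> fin_cases m <;>
    simp [DensX.Dv, DensX.Pe, DensX.Pf, DensX.ri, DensX.ci, ex, Nc] <;> ring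

theorem Nc_g (i : Fin 3) (l : Fin 7) (m : Fin 1) :
    DensX.Dv (Nc v) (DensX.Pe ex i) (DensX.Pq ex l) (DensX.Pf ex m) = v (.inr (i, l, m)) := by
  fin_cases i <;> fin_cases l <;> fin_cases m <;>
    simp [DensX.Dv, DensX.Pe, DensX.Pf, DensX.Pq, ex, Nc] <;> ring

end Cl1_10_1Aux

open Cl1_10_1Aux in
/-- all triples `T1X 7 1 r g` are limits of curvilinear triples -/
theorem cl_T1_10_1 {k : Type*} [Field k] [IsAlgClosed k] [CharZero k] (r : Fin 6 × Fin 1 → k)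
    (g : Fin 3 × Fin 7 × Fin 1 → k) : Cl (T1X 7 1 r g) :=
  cl_T1X_of_cert ex rfl Nc Nc_col Nc_row (fun v => Nc_tr v) (fun v => Nc_r v) (fun v => Nc_g v) r g

end Pool.Agent.Lib.D12
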