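import Pool.Agent.Lib.D10.DensH

/-!
# MP_5dcbc3_ag: all triples `TF 2 0 4 r g` are limits of curvilinear triples

Base point: `u = X ^ 4`, `X_i = X ^ 3, X ^ 1 + X ^ 4, X ^ 2`, `q = `, `f`: t^8, t^9, t^10, t^11.
-/

namespace Pool.Agent.Lib.D12

open Matrix Polynomial Pool.Agent.Lib.Q5dc Pool.Agent.Lib.D7 Pool.Agent.Lib.D9
open Pool.Agent.Lib.D9.DensX Pool.Agent.Lib.D10 Pool.Agent.Lib.D10.DensG

namespace CertTF204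

variable {k : Type*} [Field k]

/-- the exponents -/
def ex : Fin 2 ⊕ (((Fin 3 × Fin 2) ⊕ Fin 0) ⊕ Fin 4) ≃ Fin (11 + 1) where
  toFun := Sum.elim ![0, 4] (Sum.elim (Sum.elim (fun z => ![![3, 7], ![1, 5], ![2, 6]] z.1 z.2) ![]) ![8, 9, 10, 11])
  invFun := ![.inl 0, .inr (.inl (.inl (1, 0))), .inr (.inl (.inl (2, 0))), .inr (.inl (.inl (0, 0))), .inl 1, .inr (.inl (.inl (1, 1))), .inr (.inl (.inl (2, 1))), .inr (.inl (.inl (0, 1))), .inr (.inr 0), .inr (.inr 1), .inr (.inr 2), .inr (.inr 3)]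
  left_inv := by
    rintro (x | ((⟨x, y⟩ | x) | x))
    · fin_cases x <;> rfl
    · fin_cases x <;> fin_cases y <;> rfl
    · fin_cases x
    · fin_cases x <;> rfl
  right_inv := by
    intro x
    fin_cases x <;> rfl

/-- the inverse of the basis -/
def Li : Fin 2 ⊕ (((Fin 3 × Fin 2) ⊕ Fin 0) ⊕ Fin 4) → Fin (11 + 1) → k :=
  Sum.elim ![![1, 0, 0, 0, 0, 0, 0, 0, 0, 0, 0, 0], ![0, -1, 0, 0, 1, 0, 0, 0, 0, 0, 0, 0]] (Sum.elim (Sum.elim (fun z => ![![![0, 0, 0, 1, 0, 0, 0, 0, 0, 0, 0, 0], ![0, 0, 0, 0, 0, 0, 0, 1, 0, 0, 0, 0]], ![![0, 1, 0, 0, 0, 0, 0, 0, 0, 0, 0, 0], ![0, 0, 0, 0, 0, 1, 0, 0, 0, 0, 0, 0]], ![![0, 0, 1, 0, 0, 0, 0, 0, 0, 0, 0, 0], ![0, 0, 0, 0, 0, 0, 1, 0, 0, 0, 0, 0]]] z.1 z.2) ![]) ![![0, 0, 0, 0, 0, -1, 0, 0, 1, 0, 0, 0], ![0, 0, 0, 0, 0, 0, 0, 0, 0, 1, 0, 0], ![0, 0,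 0, 0, 0, 0, 0, 0, 0, 0, 1, 0], ![0, 0, 0, 0, 0, 0, 0, 0, 0, 0, 0, 1]])

/-- coordinates of the products -/
def ro : (Fin 6 × Fin 2) ⊕ (Fin 3 × Fin 0) → Fin 2 ⊕ (((Fin 3 × Fin 2) ⊕ Fin 0) ⊕ Fin 4) → k :=
  Sum.elim (fun z => ![![Sum.elim ![0, 0] (Sum.elim (Sum.elim (fun z => ![![0, 0], ![0, 0], ![0, 1]] z.1 z.2) ![]) ![0, 0, 0, 0]), Sum.elim ![0, 0] (Sum.elim (Sum.elim (fun z => ![![0, 0], ![0, 0], ![0, 0]] z.1 z.2) ![]) ![0, 0, 1, 0])], ![Sum.elim ![0, 1] (Sum.elim (Sum.elim (fun z => ![![0, 1], ![0, 0], ![0, 0]] z.1 z.2) ![]) ![0, 0, 0, 0]), Sum.elim ![0, 0] (Sum.elim (Sum.elim (fun z => ![![0, 0], ![0, 0], ![0, 0]] z.1 z.2) ![]) ![1, 0, 0, 1])], ![Sum.elim ![0, 0] (Sum.elim (Sum.elim (fun z => ![![0, 0], ![0, 1], ![0, 0]] z.1 z.2) ![]) ![-1, 0, 0, 0]), Sum.elim ![0, 0] (Sum.elim (Sum.elim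 (fun z => ![![0, 0], ![0, 0], ![0, 0]] z.1 z.2) ![]) ![0, 1, 0, 0])], ![Sum.elim ![0, 0] (Sum.elim (Sum.elim (fun z => ![![0, 0], ![0, 2], ![1, 0]] z.1 z.2) ![]) ![-1, 0, 0, 0]), Sum.elim ![0, 0] (Sum.elim (Sum.elim (fun z => ![![0, 0], ![0, 0], ![0, 1]] z.1 z.2) ![]) ![0, 2, 0, 0])], ![Sum.elim ![0, 0] (Sum.elim (Sum.elim (fun z => ![![1, 0], ![0, 0], ![0, 1]] z.1 z.2) ![]) ![0, 0, 0, 0]), Sum.elim ![0, 0] (Sum.elim (Sum.elim (fun z => ![![0, 1], ![0, 0], ![0, 0]] z.1 z.2) ![]) ![0, 0, 1, 0])], ![Sum.elim ![0, 1] (Sum.elim (Sum.elim (fun z => ![![0, 0], ![0, 0], ![0, 0]] z.1 z.2) ![]) ![0, 0, 0, 0]), Sum.elim ![0, 0] (Sum.elim (Sum.elim (fun z => ![![0, 0], ![0, 0], ![0, 0]] z.1 z.2) ![]) ![1, 0, 0, 0])]] z.1 z.2) (fun z => z.2.elim0)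

/-- remainders of the products -/
noncomputable def rr : (Fin 6 × Fin 2) ⊕ (Fin 3 × Fin 0) → k[X] :=
  Sum.elim (fun z => ![![0, 0], ![0, 0], ![0, 0], ![0, 1], ![0, 0], ![0, 0]] z.1 z.2) (fun z => z.2.elim0)

/-- a velocity -/
def uu (v : ((Fin 6 × Fin 2) ⊕ (Fin 3 × Fin 0)) × Fin 4 → k) : ℕ → k
  | 0 => -v (.inl (0, 0), 0) + 2 * v (.inl (0, 0), 3) - 2 * v (.inl (0, 1), 1) - v (.inl (5, 1), 2) - v (.inl (1, 0), 1) - v (.inl (2, 0), 2) - 2 * v (.inl (2, 1), 0) + 2 * v (.inl (2, 1), 3) + v (.inl (3, 1), 0) - v (.inl (3, 1), 3) + 2 * v (.inl (4, 0), 0) + 2 * v (.inl (4, 1), 1)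
  | 1 => 1 / 3 * v (.inl (0, 0), 1) + 1 / 3 * v (.inl (5, 0), 2) + 1 / 3 * v (.inl (5, 1), 3) - 2 / 3 * v (.inl (1, 0), 2) - 2 / 3 * v (.inl (2, 0), 0) + 1 / 3 * v (.inl (2, 0), 3) - 2 / 3 * v (.inl (2, 1), 1) + 2 / 3 * v (.inl (3, 0), 0) + 1 / 3 * v (.inl (3, 1), 1) - 1 / 3 * v (.inl (4, 0), 1)
  | 2 => -v (.inl (0, 0), 2) + 2 / 3 * v (.inl (0, 1), 3) - 1 / 3 * v (.inl (5, 0), 0) - 1 / 3 * v (.inl (5, 0), 3) + 1 / 3 * v (.inl (5, 1), 1) + 2 / 3 * v (.inl (1, 0), 0) + 1 / 3 * v (.inl (1, 0), 3) + 2 / 3 * v (.inl (2, 0), 1) - 2 / 3 * v (.inl (2, 1), 2) - 1 / 3 * v (.inl (3, 0), 1) + 1 / 3 * v (.inl (3, 1), 2) + 1 / 3 * v (.inl (4, 0), 2) - 2 / 3 * v (.inl (4, 1), 3)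
  | 3 => 1 / 3 * v (.inl (0, 0), 3) - 1 / 3 * v (.inl (5, 0), 1) + 2 / 3 * v (.inl (5, 1), 2) - 2 / 3 * v (.inl (1, 0), 1) + 2 / 3 * v (.inl (2, 0), 2) - 2 / 3 * v (.inl (2, 1), 3) + 1 / 3 * v (.inl (3, 1), 3) + 2 / 3 * v (.inl (4, 0), 0)
  | 5 => -v (.inl (5, 0), 3) - v (.inl (5, 1), 1) + v (.inl (1, 0), 3) - v (.inl (3, 0), 1) + v (.inl (4, 0), 2)
  | 6 => v (.inl (0, 0), 3) + v (.inl (5, 0), 1) - v (.inl (5, 1), 2) - v (.inl (1, 0), 1) - v (.inl (2, 0), 2)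
  | 10 => -v (.inl (5, 0), 2)
  | 11 => -v (.inl (5, 0), 3)
  | _ => 0

/-- a velocity -/
def xx (v : ((Fin 6 × Fin 2) ⊕ (Fin 3 × Fin 0)) × Fin 4 → k) : ℕ → k
  | 1 => v (.inl (0, 1), 0) - 1 / 3 * v (.inl (0, 1), 3) - 1 / 3 * v (.inl (5, 0), 0) - 1 / 3 * v (.inl (5, 0), 3) + 1 / 3 * v (.inl (5, 1), 1) - 1 / 3 * v (.inl (1, 0), 0) + 1 / 3 * v (.inl (1, 0), 3) + 2 / 3 * v (.inl (2, 0), 1) - 2 / 3 * v (.inl (2, 1), 2) - 1 / 3 * v (.inl (3, 0), 1) + 1 / 3 * v (.inl (3, 1), 2) + 1 / 3 * v (.inl (4, 0), 2) - v (.inl (4, 1), 0) + 1 / 3 * v (.inl (4, 1), 3)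
  | 4 => 1 / 2 * v (.inl (0, 1), 3) + 1 / 2 * v (.inl (5, 0), 0) + 1 / 2 * v (.inl (5, 0), 3) - 1 / 2 * v (.inl (1, 0), 3) - 1 / 2 * v (.inl (2, 0), 1) + 1 / 2 * v (.inl (3, 0), 1) - 1 / 2 * v (.inl (4, 0), 2) - 1 / 2 * v (.inl (4, 1), 3)
  | 5 => 1 / 2 * v (.inl (0, 0), 0) + 1 / 2 * v (.inl (0, 1), 1) + 1 / 2 * v (.inl (5, 0), 1) - 1 / 2 * v (.inl (5, 1), 2) - 1 / 2 * v (.inl (2, 0), 2) - 1 / 2 * v (.inl (4, 0), 0) - 1 / 2 * v (.inl (4, 1), 1)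
  | 6 => 1 / 2 * v (.inl (0, 0), 1) - 1 / 4 * v (.inl (5, 0), 2) + 1 / 4 * v (.inl (5, 1), 3) + 1 / 4 * v (.inl (2, 0), 3) + 1 / 4 * v (.inl (4, 0), 1)
  | 7 => 1 / 2 * v (.inl (0, 0), 2) + 1 / 4 * v (.inl (5, 0), 0) + 1 / 4 * v (.inl (5, 0), 3) + 1 / 4 * v (.inl (5, 1), 1) - 1 / 4 * v (.inl (1, 0), 3) + 1 / 4 * v (.inl (3, 0), 1) - 1 / 4 * v (.inl (4, 0), 2)
  | 8 => 1 / 2 * v (.inl (0, 0), 3) + 1 / 4 * v (.inl (5, 0), 1)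
  | 9 => -(1 / 2 * v (.inl (5, 0), 2)) + 1 / 2 * v (.inl (1, 0), 2) - 1 / 2 * v (.inl (4, 0), 1)
  | 10 => -(1 / 2 * v (.inl (5, 0), 3)) + 1 / 2 * v (.inl (1, 0), 3) - 1 / 2 * v (.inl (4, 0), 2)
  | 11 => -v (.inl (0, 0), 3) - v (.inl (5, 0), 1) + v (.inl (1, 0), 1) + v (.inl (2, 0), 2) - v (.inl (3, 0), 2) - v (.inl (4, 0), 3)
  | _ => 0

/-- a velocity -/
def yy (v : ((Fin 6 × Fin 2) ⊕ (Fin 3 × Fin 0)) × Fin 4 → k) : ℕ → k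
  | 1 => -(1 / 3 * v (.inl (0, 0), 1)) + 1 / 6 * v (.inl (5, 0), 2) + 1 / 2 * v (.inl (5, 1), 0) - 1 / 3 * v (.inl (5, 1), 3) + 1 / 6 * v (.inl (1, 0), 2) + 2 / 3 * v (.inl (2, 0), 0) - 1 / 3 * v (.inl (2, 0), 3) - 1 / 3 * v (.inl (2, 1), 1) - 1 / 6 * v (.inl (3, 0), 0) + 1 / 6 * v (.inl (3, 1), 1) - 1 / 6 * v (.inl (4, 0), 1)
  | 2 => 1 / 6 * v (.inl (0, 1), 3) + 1 / 6 * v (.inl (5, 0), 0) + 1 / 6 * v (.inl (5, 0), 3) + 1 / 3 * v (.inl (5, 1), 1) - 1 / 3 * v (.inl (1, 0), 0) - 1 / 6 * v (.inl (1, 0), 3) + 1 / 6 * v (.inl (2, 0), 1) - 2 / 3 * v (.inl (2, 1), 2) + 1 / 6 * v (.inl (3, 0), 1) + 1 / 3 * v (.inl (3, 1), 2) - 1 / 6 * v (.inl (4, 0), 2) - 1 / 6 * v (.inl (4, 1), 3)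
  | 3 => 1 / 2 * v (.inl (0, 0), 0) - 2 / 3 * v (.inl (0, 0), 3) + 1 / 2 * v (.inl (0, 1), 1) + 1 / 6 * v (.inl (5, 0), 1) + 1 / 6 * v (.inl (5, 1), 2) + 1 / 3 * v (.inl (1, 0), 1) + 1 / 6 * v (.inl (2, 0), 2) - 2 / 3 * v (.inl (2, 1), 3) + 1 / 3 * v (.inl (3, 1), 3) - 5 / 6 * v (.inl (4, 0), 0) - 1 / 2 * v (.inl (4, 1), 1)
  | 4 => 1 / 3 * v (.inl (0, 0), 1) - 1 / 2 * v (.inl (0, 1), 2) - 1 / 6 * v (.inl (5, 0), 2) - 1 / 4 * v (.inl (5, 1), 0) + 1 / 12 * v (.inl (5, 1), 3) + 1 / 12 * v (.inl (1, 0), 2) - 1 / 6 * v (.inl (2, 0), 0) + 1 / 12 * v (.inl (2, 0), 3) - 1 / 6 * v (.inl (2, 1), 1) - 1 / 12 * v (.inl (3, 0), 0) + 1 / 12 * v (.inl (3, 1), 1) + 1 / 6 * v (.inl (4, 0), 1) + 1 / 2 * v (.inl (4, 1), 2)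
  | 5 => 1 / 2 * v (.inl (0, 0), 2) + 3 / 4 * v (.inl (5, 0), 0) + 3 / 4 * v (.inl (5, 0), 3) - 1 / 4 * v (.inl (5, 1), 1) - 3 / 4 * v (.inl (1, 0), 3) - v (.inl (2, 0), 1) + 3 / 4 * v (.inl (3, 0), 1) - 3 / 4 * v (.inl (4, 0), 2)
  | 6 => 1 / 2 * v (.inl (0, 0), 3) + 3 / 4 * v (.inl (5, 0), 1) - v (.inl (5, 1), 2) - v (.inl (2, 0), 2)
  | 7 => -(1 / 2 * v (.inl (5, 0), 2)) + 1 / 2 * v (.inl (1, 0), 2) + 1 / 2 * v (.inl (4, 0), 1)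
  | 8 => -(1 / 2 * v (.inl (5, 0), 3)) + 1 / 2 * v (.inl (1, 0), 3) + 1 / 2 * v (.inl (4, 0), 2)
  | 10 => -(1 / 2 * v (.inl (5, 0), 2)) - 1 / 2 * v (.inl (2, 0), 3) + 1 / 2 * v (.inl (3, 0), 3) - 1 / 2 * v (.inl (4, 0), 1)
  | _ => 0

/-- a velocity -/
def zz (v : ((Fin 6 × Fin 2) ⊕ (Fin 3 × Fin 0)) × Fin 4 → k) : ℕ → k
  | 1 => 2 / 3 * v (.inl (0, 0), 3) - v (.inl (0, 1), 1) + 1 / 3 * v (.inl (5, 0), 1) - 2 / 3 * v (.inl (5, 1), 2) - 1 / 3 * v (.inl (1, 0), 1) - 2 / 3 * v (.inl (2, 0), 2) + 2 / 3 * v (.inl (2, 1), 3) - 1 / 3 * v (.inl (3, 1), 3) + 1 / 3 * v (.inl (4, 0), 0) + v (.inl (4, 1), 1)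
  | 2 => 1 / 6 * v (.inl (0, 0), 1) - 1 / 2 * v (.inl (0, 1), 2) + 5 / 12 * v (.inl (5, 0), 2) + 1 / 4 * v (.inl (5, 1), 0) - 1 / 3 * v (.inl (5, 1), 3) - 1 / 12 * v (.inl (1, 0), 2) + 1 / 6 * v (.inl (2, 0), 0) - 1 / 3 * v (.inl (2, 0), 3) + 1 / 6 * v (.inl (2, 1), 1) + 1 / 12 * v (.inl (3, 0), 0) - 1 / 12 * v (.inl (3, 1), 1) - 5 / 12 * v (.inl (4, 0), 1) + 1 / 2 * v (.inl (4, 1), 2)
  | 5 => -(1 / 2 * v (.inl (5, 0), 2)) + 1 / 2 * v (.inl (5, 1), 3) + 1 / 2 * v (.inl (2, 0), 3) + 1 / 2 * v (.inl (4, 0), 1)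
  | 6 => 1 / 2 * v (.inl (5, 0), 0) + 1 / 2 * v (.inl (5, 0), 3) + 1 / 2 * v (.inl (5, 1), 1) - 1 / 2 * v (.inl (1, 0), 3) + 1 / 2 * v (.inl (3, 0), 1) - 1 / 2 * v (.inl (4, 0), 2)
  | 7 => 1 / 2 * v (.inl (5, 0), 1)
  | 10 => -v (.inl (0, 0), 3) - v (.inl (5, 0), 1) + v (.inl (1, 0), 1) + v (.inl (2, 0), 2) - v (.inl (3, 0), 2)
  | _ => 0

/-- velocity of `f` -/
def hh (v : ((Fin 6 × Fin 2) ⊕ (Fin 3 × Fin 0)) × Fin 4 → k) : Fin 4 → Fin 4 → k :=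
  ![![-v (.inl (0, 1), 2) + 1 / 2 * v (.inl (5, 0), 2) - 1 / 2 * v (.inl (5, 1), 0) - v (.inl (5, 1), 3) + 1 / 2 * v (.inl (1, 0), 2) + v (.inl (2, 0), 0) - v (.inl (2, 0), 3) + v (.inl (2, 1), 1) - 1 / 2 * v (.inl (3, 0), 0) - 1 / 2 * v (.inl (3, 1), 1) - 1 / 2 * v (.inl (4, 0), 1) + v (.inl (4, 1), 2), -v (.inl (5, 0), 3) - 2 * v (.inl (5, 1), 1) + v (.inl (1, 0), 3) - v (.inl (3, 0), 1) + v (.inl (4, 0), 2), v (.inl (0, 0), 3) + v (.inl (5, 0), 1) - 2 * v (.inl (5, 1), 2) - v (.inl (1, 0), 1) - v (.inl (2, 0), 2), -v (.inl (5, 0), 2) + v (.inl (2, 0), 3) + v (.inl (4, 0), 1)], ![v (.inl (0, 0), 0) - v (.inl (0, 0), 3) + v (.inl (0, 1), 1) + v (.inl (5, 1), 2) + v (.inl (2, 0), 2) + v (.inl (2, 1), 0) - 2 * v (.inl (2, 1), 3) - v (.inl (3, 1), 0) + v (.inl (3, 1), 3) - v (.inl (4, 0),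 0) - v (.inl (4, 1), 1), 1 / 6 * v (.inl (0, 0), 1) - 1 / 2 * v (.inl (0, 1), 2) + 5 / 12 * v (.inl (5, 0), 2) + 1 / 4 * v (.inl (5, 1), 0) - 1 / 3 * v (.inl (5, 1), 3) - 1 / 12 * v (.inl (1, 0), 2) + 1 / 6 * v (.inl (2, 0), 0) - 1 / 3 * v (.inl (2, 0), 3) - 5 / 6 * v (.inl (2, 1), 1) + 1 / 12 * v (.inl (3, 0), 0) - 1 / 12 * v (.inl (3, 1), 1) - 5 / 12 * v (.inl (4, 0), 1) + 1 / 2 * v (.inl (4, 1), 2), 1 / 2 * v (.inl (0, 1), 3) + 1 / 2 * v (.inl (5, 0), 0) - 1 / 2 * v (.inl (5, 0), 3) - v (.inl (5, 1), 1) + 1 / 2 * v (.inl (1, 0), 3) - 1 / 2 * v (.inl (2, 0), 1) - v (.inl (2, 1), 2) - 1 / 2 * v (.inl (3, 0), 1) + 1 / 2 * v (.inl (4, 0), 2) - 1 / 2 * v (.inl (4, 1), 3), 1 / 2 * v (.inl (0, 0), 0) + v (.inl (0, 0), 3) + 1 / 2 * v (.inl (0, 1), 1) + 3 / 2 * v (.inl (5, 0), 1) - 3 / 2 * v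 (.inl (5, 1), 2) - v (.inl (1, 0), 1) - 3 / 2 * v (.inl (2, 0), 2) - v (.inl (2, 1), 3) - 1 / 2 * v (.inl (4, 0), 0) - 1 / 2 * v (.inl (4, 1), 1)], ![-v (.inl (0, 0), 2) + v (.inl (0, 1), 0) - v (.inl (5, 0), 0) - v (.inl (5, 0), 3) + v (.inl (5, 1), 1) + v (.inl (1, 0), 3) + 2 * v (.inl (2, 0), 1) - 2 * v (.inl (2, 1), 2) - v (.inl (3, 0), 1) + v (.inl (3, 1), 2) + v (.inl (4, 0), 2) - 2 * v (.inl (4, 1), 0), 1 / 3 * v (.inl (0, 0), 3) - v (.inl (0, 1), 1) - 1 / 3 * v (.inl (5, 0), 1) + 2 / 3 * v (.inl (5, 1), 2) - 2 / 3 * v (.inl (1, 0), 1) + 2 / 3 * v (.inl (2, 0), 2) - 2 / 3 * v (.inl (2, 1), 3) + 1 / 3 * v (.inl (3, 1), 3) + 2 / 3 * v (.inl (4, 0), 0), -v (.inl (0, 1), 2), v (.inl (5, 0), 0) - v (.inl (5, 1), 1) - v (.inl (2, 0), 1) - v (.inl (4, 1), 3)], ![-(1 / 3 * v (.inl (0, 0),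 1)) + v (.inl (0, 1), 2) - 1 / 3 * v (.inl (5, 0), 2) + v (.inl (5, 1), 0) + 2 / 3 * v (.inl (5, 1), 3) - 1 / 3 * v (.inl (1, 0), 2) - v (.inl (1, 1), 0) - 1 / 3 * v (.inl (2, 0), 0) + 2 / 3 * v (.inl (2, 0), 3) - 4 / 3 * v (.inl (2, 1), 1) + 1 / 3 * v (.inl (3, 0), 0) + 2 / 3 * v (.inl (3, 1), 1) + 1 / 3 * v (.inl (4, 0), 1) - v (.inl (4, 1), 2), -v (.inl (0, 0), 2) + v (.inl (0, 1), 0) + v (.inl (0, 1), 3) + 2 * v (.inl (5, 1), 1) - v (.inl (1, 1), 1) + v (.inl (2, 0), 1) - 2 * v (.inl (2, 1), 2) + v (.inl (3, 1), 2) - v (.inl (4, 1), 0) - v (.inl (4, 1), 3), v (.inl (0, 0), 0) - 1 / 3 * v (.inl (0, 0), 3) + v (.inl (0, 1), 1) + 1 / 3 * v (.inl (5, 0), 1) + 4 / 3 * v (.inl (5, 1), 2) - 1 / 3 * v (.inl (1, 0), 1) - v (.inl (1, 1), 2) + 1 / 3 * v (.inl (2, 0), 2) - 4 / 3 * v (.inl (2, 1),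 3) + 2 / 3 * v (.inl (3, 1), 3) - 2 / 3 * v (.inl (4, 0), 0) - v (.inl (4, 1), 1), 5 / 6 * v (.inl (0, 0), 1) - 1 / 2 * v (.inl (0, 1), 2) + 7 / 12 * v (.inl (5, 0), 2) - 1 / 4 * v (.inl (5, 1), 0) + 1 / 3 * v (.inl (5, 1), 3) + 1 / 12 * v (.inl (1, 0), 2) - v (.inl (1, 1), 3) - 1 / 6 * v (.inl (2, 0), 0) - 2 / 3 * v (.inl (2, 0), 3) - 1 / 6 * v (.inl (2, 1), 1) - 1 / 12 * v (.inl (3, 0), 0) + 1 / 12 * v (.inl (3, 1), 1) - 7 / 12 * v (.inl (4, 0), 1) + 1 / 2 * v (.inl (4, 1), 2)]]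

variable (v : ((Fin 6 × Fin 2) ⊕ (Fin 3 × Fin 0)) × Fin 4 → k)

theorem hL (x y : Fin 2 ⊕ (((Fin 3 × Fin 2) ⊕ Fin 0) ⊕ Fin 4)) :
    ∑ m : Fin (11 + 1), (Li x m : k) * (gTF (X ^ 4) ![X ^ 3, X ^ 1 + X ^ 4, X ^ 2] ![X ^ 7, X ^ 5 + X ^ 8, X ^ 6] ![] ![X ^ 8, X ^ 9, X ^ 10, X ^ 11] y : k[X]).coeff m =
      if x = y then 1 else 0 := by
  rcases x with x | ((⟨x, x'⟩ | x) | x) <;> rcases y with y | ((⟨y, y'⟩ | y) | y) <;>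
    fin_cases x <;> fin_cases y <;> (try fin_cases x') <;> (try fin_cases y') <;>
    simp [Li, gTF, Fin.sum_univ_succ, Polynomial.coeff_X_pow, Polynomial.coeff_one,
      Polynomial.coeff_X]

theorem hro (κ : (Fin 6 × Fin 2) ⊕ (Fin 3 × Fin 0)) : (![X ^ 3, X ^ 1 + X ^ 4, X ^ 2] : Fin 3 → k[X]) (repF 0 κ).1 *
      gTF (X ^ 4) ![X ^ 3, X ^ 1 + X ^ 4, X ^ 2] ![X ^ 7, X ^ 5 + X ^ 8, X ^ 6] ![] ![X ^ 8, X ^ 9, X ^ 10, X ^ 11] (.inr (.inl (repF 0 κ).2)) = ∑ y, Polynomial.C (ro κ y) * gTF (X ^ 4) ![X ^ 3, X ^ 1 + X ^ 4, X ^ 2] ![X ^ 7, X ^ 5 + X ^ 8, X ^ 6] ![] ![X ^ 8, X ^ 9, X ^ 10, X ^ 11] y +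
        Polynomial.X ^ (11 + 1) * rr κ := by
  rcases κ with ⟨x, y⟩ | ⟨x, y⟩ <;> fin_cases x <;> fin_cases y <;>
    simp [repF, ri, ci, ro, rr, gTF, Fin.sum_univ_succ, Fintype.sum_prod_type, map_ofNat] <;> ring

variable [CharZero k]

theorem la (l : Fin 4) (F : Fin (11 + 1) → k) : ∑ m, (Li (.inr (.inr l)) m : k) * F m =
      ![-F 5 + F 8, F 9, F 10, F 11] l := by
  fin_cases l <;> simp [Li, Fin.sum_univ_succ] <;> ring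

theorem lb (κ : (Fin 6 × Fin 2) ⊕ (Fin 3 × Fin 0)) (F : Fin 2 ⊕ (((Fin 3 × Fin 2) ⊕ Fin 0) ⊕ Fin 4) → k) : ∑ y, (ro κ y : k) * F y =
      (Sum.elim (fun z => ![![F (.inr (.inl (.inl (2, 1)))), F (.inr (.inr 2))], ![F (.inl 1) + F (.inr (.inl (.inl (0, 1)))), F (.inr (.inr 3)) + F (.inr (.inr 0))], ![F (.inr (.inl (.inl (1, 1)))) - F (.inr (.inr 0)), F (.inr (.inr 1))], ![2 * F (.inr (.inl (.inl (1, 1)))) + F (.inr (.inl (.inl (2, 0)))) - F (.inr (.inr 0)), F (.inr (.inl (.inl (2, 1)))) + 2 * F (.inr (.inr 1))], ![F (.inr (.inl (.inl (0, 0)))) + F (.inr (.inl (.inl (2, 1)))), F (.inr (.inr 2)) + F (.inr (.inl (.inl (0, 1))))], ![F (.inl 1), F (.inr (.inr 0))]] z.1 z.2) (fun z => z.2.elim0) : (Fin 6 × Fin 2) ⊕ (Fin 3 × Fin 0) → k) κ := by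
  rcases κ with ⟨x, y⟩ | ⟨x, y⟩ <;> fin_cases x <;> fin_cases y <;>
    simp [ro, Fin.sum_univ_succ, Fintype.sum_prod_type] <;> ring

theorem H (κ : (Fin 6 × Fin 2) ⊕ (Fin 3 × Fin 0)) (l : Fin 4) (U : k[X]) (V D : Fin 3 → k[X]) (W : Fin 0 → k[X])
    (hU : U = pf 11 (uu v)) (hV : ∀ i, V i = pf 11 (![xx v, yy v, zz v] i))
    (hW : ∀ l, W l = pf 11 ((![] : Fin 0 → ℕ → k) l))
    (hD : ∀ i, D i = ![X ^ 3, X ^ 1 + X ^ 4, X ^ 2] i * U + V i * (X ^ 4)) :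
      ∑ m : Fin (11 + 1), (Li (.inr (.inr l)) m : k) *
        ((V (repF 0 κ).1 * gTF (X ^ 4) ![X ^ 3, X ^ 1 + X ^ 4, X ^ 2] ![X ^ 7, X ^ 5 + X ^ 8, X ^ 6] ![] ![X ^ 8, X ^ 9, X ^ 10, X ^ 11] (.inr (.inl (repF 0 κ).2)) +
          ![X ^ 3, X ^ 1 + X ^ 4, X ^ 2] (repF 0 κ).1 * Sum.elim (fun z : Fin 3 × Fin 2 => ![V z.1, D z.1] z.2) W (repF 0 κ).2).coeff m -
          ∑ y, ro κ y * (Sum.elim ![0, U] (Sum.elim (Sum.elim (fun z : Fin 3 × Fin 2 => ![V z.1, D z.1] z.2) W)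
            (fun l => ∑ l', Polynomial.C (hh v l l') * ![X ^ 8, X ^ 9, X ^ 10, X ^ 11] l')) y).coeff m) = v (κ, l) := by
  have cu : ∀ m : ℕ, U.coeff m = if m < 11 + 1 then uu v m else 0 := fun m => by rw [hU, coeff_pf]
  have cv : ∀ (i : Fin 3) (m : ℕ), (V i).coeff m =
      if m < 11 + 1 then ![xx v, yy v, zz v] i m else 0 := fun i m => by rw [hV, coeff_pf]
  have cw : ∀ (i : Fin 0) (m : ℕ), (W i).coeff m =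
      if m < 11 + 1 then (![] : Fin 0 → ℕ → k) i m else 0 := fun i m => by rw [hW, coeff_pf]
  have cd : ∀ (i : Fin 3) (m : ℕ), (D i).coeff m = (![X ^ 3, X ^ 1 + X ^ 4, X ^ 2] i * U + V i * (X ^ 4)).coeff m :=
    fun i m => by rw [hD]
  refine (la l _).trans ?_
  simp only [lb]
  rcases κ with ⟨x, y⟩ | ⟨x, y⟩ <;> fin_cases x <;> fin_cases y <;> fin_cases l <;>
    simp [repF, ri, ci, gTF, Fin.sum_univ_succ, mul_add, add_mul, mul_sub, sub_mul,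
      Polynomial.coeff_mul_X_pow', Polynomial.coeff_X_pow_mul', Polynomial.coeff_X_pow,
      Polynomial.coeff_X, cu, cv, cw, cd] <;>
    simp [uu, xx, yy, zz, hh] <;> ring

end CertTF204

open CertTF204 in
/-- all triples `TF 2 0 4 r g` are limits of curvilinear triples -/
theorem cl_TF204 {k : Type*} [Field k] [CharZero k] (r : Fin 6 × Fin 2 × Fin 4 → k)
    (g : Fin 3 × Fin 0 × Fin 4 → k) : Cl (TF 2 0 4 r g) := by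
  refine cl_TF_of_cert (q := 0) (c := 4) (n := 11) ex (X ^ 4) ![X ^ 3, X ^ 1 + X ^ 4, X ^ 2] ![X ^ 7, X ^ 5 + X ^ 8, X ^ 6] ![] ![X ^ 8, X ^ 9, X ^ 10, X ^ 11] ?_ ?_
    Li hL ro rr hro uu (fun v => ![xx v, yy v, zz v]) (fun v => ![]) hh (fun v i => ?_)
    (fun v κ l U V D W hU hV hW hD => H v κ l U V D W hU hV hW hD) r g
  · intro i
    fin_cases i <;> simp
  · intro i
    fin_cases i <;> simp <;> ring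
  · fin_cases i <;> rfl

end Pool.Agent.Lib.D12
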