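import Pool.Agent.Lib.D10.DensH

/-!
# MP_5dcbc3_ag: all triples `TF 2 1 3 r g` are limits of curvilinear triples

Base point: `u = X ^ 2`, `X_i = X ^ 4, X ^ 5 + X ^ 6, X ^ 1`, `q = X ^ 9`, `f`: t^8, t^10, t^11.
-/

namespace Pool.Agent.Lib.D12

open Matrix Polynomial Pool.Agent.Lib.Q5dc Pool.Agent.Lib.D7 Pool.Agent.Lib.D9
open Pool.Agent.Lib.D9.DensX Pool.Agent.Lib.D10 Pool.Agent.Lib.D10.DensG

namespace CertTF213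

variable {k : Type*} [Field k]

/-- the exponents -/
def ex : Fin 2 ⊕ (((Fin 3 × Fin 2) ⊕ Fin 1) ⊕ Fin 3) ≃ Fin (11 + 1) where
  toFun := Sum.elim ![0, 2] (Sum.elim (Sum.elim (fun z => ![![4, 6], ![5, 7], ![1, 3]] z.1 z.2) ![9]) ![8, 10, 11])
  invFun := ![.inl 0, .inr (.inl (.inl (2, 0))), .inl 1, .inr (.inl (.inl (2, 1))), .inr (.inl (.inl (0, 0))), .inr (.inl (.inl (1, 0))), .inr (.inl (.inl (0, 1))), .inr (.inl (.inl (1, 1))), .inr (.inr 0), .inr (.inl (.inr 0)), .inr (.inr 1), .inr (.inr 2)]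
  left_inv := by
    rintro (x | ((⟨x, y⟩ | x) | x))
    · fin_cases x <;> rfl
    · fin_cases x <;> fin_cases y <;> rfl
    · fin_cases x <;> rfl
    · fin_cases x <;> rfl
  right_inv := by
    intro x
    fin_cases x <;> rfl

/-- the inverse of the basis -/
def Li : Fin 2 ⊕ (((Fin 3 × Fin 2) ⊕ Fin 1) ⊕ Fin 3) → Fin (11 + 1) → k :=
  Sum.elim ![![1, 0, 0, 0, 0, 0, 0, 0, 0, 0, 0, 0], ![0, 0, 1, 0, 0, 0, 0, 0, 0, 0, 0, 0]] (Sum.elim (Sum.elim (fun z => ![![![0, 0, 0, 0, 1, 0, 0, 0, 0, 0, 0, 0], ![0, 0, 0, 0, 0, -1, 1, 0, 0, 0, 0, 0]], ![![0, 0, 0, 0, 0, 1, 0, 0, 0, 0, 0, 0], ![0, 0, 0, 0, 0, 0, 0, 1, 0, 0, 0, 0]], ![![0, 1, 0, 0, 0, 0, 0, 0, 0, 0, 0, 0], ![0, 0, 0, 1, 0, 0, 0, 0, 0, 0, 0, 0]]] z.1 z.2) ![![0, 0, 0, 0, 0, 0, 0, 0, 0, 1, 0, 0]]) ![![0, 0, 0, 0, 0, 0, 0, -1, 1, 0, 0, 0], ![0,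 0, 0, 0, 0, 0, 0, 0, 0, 0, 1, 0], ![0, 0, 0, 0, 0, 0, 0, 0, 0, 0, 0, 1]])

/-- coordinates of the products -/
def ro : (Fin 6 × Fin 2) ⊕ (Fin 3 × Fin 1) → Fin 2 ⊕ (((Fin 3 × Fin 2) ⊕ Fin 1) ⊕ Fin 3) → k :=
  Sum.elim (fun z => ![![Sum.elim ![0, 0] (Sum.elim (Sum.elim (fun z => ![![0, 0], ![0, 0], ![0, 0]] z.1 z.2) ![0]) ![1, 0, 0]), Sum.elim ![0, 0] (Sum.elim (Sum.elim (fun z => ![![0, 0], ![0, 0], ![0, 0]] z.1 z.2) ![0]) ![0, 1, 0])], ![Sum.elim ![0, 0] (Sum.elim (Sum.elim (fun z => ![![0, 0], ![0, 0], ![0, 0]] z.1 z.2) ![1]) ![0, 1, 0]), Sum.elim ![0, 0] (Sum.elim (Sum.elim (fun z => ![![0, 0], ![0, 0], ![0, 0]] z.1 z.2) ![0]) ![0, 0, 1])], ![Sum.elim ![0, 0] (Sum.elim (Sum.elim (fun z => ![![0, -1], ![1, 0], ![0, 0]] z.1 z.2) ![0]) ![0, 0, 0]), Sum.elim ![0, 0] (Sum.elim (Sum.elim (fun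 z => ![![0, 0], ![0, 1], ![0, 0]] z.1 z.2) ![0]) ![-1, 0, 0])], ![Sum.elim ![0, 0] (Sum.elim (Sum.elim (fun z => ![![0, 0], ![0, 0], ![0, 0]] z.1 z.2) ![0]) ![0, 1, 2]), Sum.elim ![0, 0] (Sum.elim (Sum.elim (fun z => ![![0, 0], ![0, 0], ![0, 0]] z.1 z.2) ![0]) ![0, 0, 0])], ![Sum.elim ![0, 0] (Sum.elim (Sum.elim (fun z => ![![0, 1], ![0, 1], ![0, 0]] z.1 z.2) ![0]) ![-1, 0, 0]), Sum.elim ![0, 0] (Sum.elim (Sum.elim (fun z => ![![0, 0], ![0, 0], ![0, 0]] z.1 z.2) ![1]) ![1, 0, 0])], ![Sum.elim ![0, 1] (Sum.elim (Sum.elim (fun z => ![![0, 0], ![0, 0], ![0, 0]] z.1 z.2) ![0]) ![0, 0, 0]), Sum.elim ![0, 0] (Sum.elim (Sum.elim (fun z => ![![1, 0], ![0, 0], ![0, 0]] z.1 z.2) ![0]) ![0, 0, 0])]] z.1 z.2) (fun z => ![![Sum.elim ![0, 0] (Sum.elim (Sum.elim (fun z => ![![0, 0], ![0, 0], ![0, 0]]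 z.1 z.2) ![0]) ![0, 0, 0])], ![Sum.elim ![0, 0] (Sum.elim (Sum.elim (fun z => ![![0, 0], ![0, 0], ![0, 0]] z.1 z.2) ![0]) ![0, 0, 0])], ![Sum.elim ![0, 0] (Sum.elim (Sum.elim (fun z => ![![0, 0], ![0, 0], ![0, 0]] z.1 z.2) ![0]) ![0, 1, 0])]] z.1 z.2)

/-- remainders of the products -/
noncomputable def rr : (Fin 6 × Fin 2) ⊕ (Fin 3 × Fin 1) → k[X] :=
  Sum.elim (fun z => ![![0, 0], ![0, 1], ![0, 0], ![1, 1 + C 2 * X ^ 1 + X ^ 2], ![0, 0], ![0, 0]] z.1 z.2) (fun z => ![![X ^ 1], ![X ^ 2 + X ^ 3], ![0]] z.1 z.2)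

/-- a velocity -/
def uu (v : ((Fin 6 × Fin 2) ⊕ (Fin 3 × Fin 1)) × Fin 3 → k) : ℕ → k
  | 0 => v (.inl (0, 1), 0) + 2 * v (.inr (0, 0), 1) - 2 * v (.inr (0, 0), 2) + 2 * v (.inr (2, 0), 0)
  | 1 => -(3 / 4 * v (.inl (0, 1), 0)) + 1 / 3 * v (.inl (0, 1), 1) - 7 / 3 * v (.inr (0, 0), 1) + 5 / 6 * v (.inr (0, 0), 2) - 7 / 3 * v (.inr (2, 0), 0) - 1 / 6 * v (.inr (2, 0), 2) - 1 / 3 * v (.inl (1, 0), 0) + 1 / 2 * v (.inl (1, 1), 0) + 2 / 3 * v (.inl (1, 1), 1) - 1 / 3 * v (.inl (1, 1), 2) + 1 / 3 * v (.inl (2, 1), 0) - 1 / 4 * v (.inl (3, 0), 0) - 1 / 3 * v (.inl (3, 0), 1) + 1 / 6 * v (.inl (3, 0), 2) - 1 / 4 * v (.inl (3, 1), 1) + 1 / 3 * v (.inl (3, 1), 2) + 1 / 3 * v (.inl (4, 1), 0)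
  | 2 => v (.inl (0, 1), 1) - v (.inl (1, 0), 1)
  | 3 => v (.inl (0, 1), 2) - v (.inr (2, 0), 2)
  | 4 => 2 * v (.inl (0, 1), 2) - 2 * v (.inr (2, 0), 2) + v (.inl (2, 0), 0) - v (.inl (2, 1), 1) - v (.inl (4, 1), 1)
  | 5 => 1 / 2 * v (.inl (0, 0), 1) - v (.inl (0, 0), 2) - 1 / 2 * v (.inl (0, 1), 1) + v (.inl (0, 1), 2) + 1 / 2 * v (.inl (5, 1), 0) - 1 / 2 * v (.inr (2, 0), 2) + 1 / 2 * v (.inl (1, 0), 1) - 1 / 2 * v (.inl (1, 0), 2) + 1 / 2 * v (.inl (2, 0), 0) - 1 / 2 * v (.inl (2, 1), 0) + 1 / 2 * v (.inl (2, 1), 1) - 1 / 2 * v (.inl (2, 1), 2) + 1 / 2 * v (.inl (4, 0), 0) - 1 / 2 * v (.inl (4, 0), 1) - 1 / 2 * v (.inl (4, 1), 1) + 1 / 2 * v (.inl (4, 1), 2)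
  | 7 => -v (.inl (2, 0), 1) + v (.inl (2, 1), 2) - v (.inl (4, 0), 2)
  | 8 => -v (.inl (5, 0), 0) - v (.inl (2, 0), 1) + v (.inl (2, 1), 2) - v (.inl (4, 0), 2)
  | 9 => v (.inl (5, 1), 2)
  | 11 => -v (.inl (5, 0), 2)
  | _ => 0

/-- a velocity -/
def xx (v : ((Fin 6 × Fin 2) ⊕ (Fin 3 × Fin 1)) × Fin 3 → k) : ℕ → k
  | 1 => v (.inr (0, 0), 1) + v (.inr (2, 0), 0)
  | 2 => v (.inr (0, 0), 2)
  | 3 => 3 / 4 * v (.inl (0, 1), 0) - 4 / 3 * v (.inl (0, 1), 1) + 7 / 3 * v (.inr (0, 0), 1) - 5 / 6 * v (.inr (0, 0), 2) + 7 / 3 * v (.inr (2, 0), 0) + 2 / 3 * v (.inr (2, 0), 2) + 1 / 3 * v (.inl (1, 0), 0) + v (.inl (1, 0), 1) - 1 / 2 * v (.inl (1, 1), 0) - 2 / 3 * v (.inl (1, 1), 1) + 4 / 3 * v (.inl (1, 1), 2) - 1 / 3 * v (.inl (2, 1), 0) + 1 / 4 * v (.inl (3, 0), 0) + 1 / 3 * v (.inl (3, 0),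 1) - 2 / 3 * v (.inl (3, 0), 2) + 1 / 4 * v (.inl (3, 1), 1) - 1 / 3 * v (.inl (3, 1), 2) - 1 / 3 * v (.inl (4, 1), 0)
  | 6 => v (.inl (0, 0), 1) - v (.inl (0, 1), 1) + 5 * v (.inl (0, 1), 2) - 5 * v (.inr (2, 0), 2) + v (.inl (1, 0), 1) + 2 * v (.inl (2, 0), 0) - v (.inl (2, 1), 0) - 2 * v (.inl (2, 1), 1) + v (.inl (4, 0), 0) - 3 * v (.inl (4, 1), 1)
  | 10 => -v (.inl (5, 0), 0) - v (.inl (5, 1), 1) - v (.inl (2, 0), 1) + v (.inl (2, 1), 2) - v (.inl (4, 0), 2)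
  | _ => 0

/-- a velocity -/
def yy (v : ((Fin 6 × Fin 2) ⊕ (Fin 3 × Fin 1)) × Fin 3 → k) : ℕ → k
  | 1 => 1 / 2 * v (.inl (3, 1), 0)
  | 2 => -(1 / 4 * v (.inl (0, 1), 0)) - v (.inr (0, 0), 1) + 1 / 2 * v (.inr (0, 0), 2) - v (.inr (2, 0), 0) + 1 / 2 * v (.inl (1, 1), 0) - 1 / 4 * v (.inl (3, 0), 0) + 1 / 4 * v (.inl (3, 1), 1)
  | 3 => -(1 / 4 * v (.inl (0, 1), 0)) + 1 / 2 * v (.inr (0, 0), 2) - 1 / 2 * v (.inl (1, 1), 0) + 1 / 4 * v (.inl (3, 0), 0) + 1 / 4 * v (.inl (3, 1), 1)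
  | 4 => -(3 / 8 * v (.inl (0, 1), 0)) - 1 / 6 * v (.inl (0, 1), 1) - 5 / 6 * v (.inr (0, 0), 1) + 13 / 12 * v (.inr (0, 0), 2) - 5 / 6 * v (.inr (2, 0), 0) + 1 / 12 * v (.inr (2, 0), 2) + 1 / 6 * v (.inl (1, 0), 0) + 1 / 4 * v (.inl (1, 1), 0) - 1 / 3 * v (.inl (1, 1), 1) + 1 / 6 * v (.inl (1, 1), 2) - 1 / 6 * v (.inl (2, 1), 0) - 1 / 8 * v (.inl (3, 0), 0) + 1 / 6 * v (.inl (3, 0), 1) - 1 / 12 * v (.inl (3, 0), 2) - 1 / 8 * v (.inl (3, 1), 1) + 1 / 3 * v (.inl (3, 1), 2) - 1 / 6 * v (.inl (4, 1), 0)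
  | 5 => v (.inl (0, 1), 0) - v (.inl (0, 1), 1) + 2 * v (.inr (0, 0), 1) - v (.inr (0, 0), 2) + 2 * v (.inr (2, 0), 0) + 1 / 2 * v (.inr (2, 0), 2) + 1 / 2 * v (.inl (1, 0), 1) - v (.inl (1, 1), 1) + v (.inl (1, 1), 2) + 1 / 2 * v (.inl (3, 0), 1) - 1 / 2 * v (.inl (3, 0), 2)
  | 7 => v (.inl (0, 0), 1) - 2 * v (.inl (0, 1), 1) + 7 * v (.inl (0, 1), 2) - 7 * v (.inr (2, 0), 2) + 2 * v (.inl (1, 0), 1) + 3 * v (.inl (2, 0), 0) - 2 * v (.inl (2, 1), 0) - 3 * v (.inl (2, 1), 1) + 2 * v (.inl (4, 0), 0) - 4 * v (.inl (4, 1), 1)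
  | 8 => 5 / 4 * v (.inl (0, 0), 1) - 9 / 4 * v (.inl (0, 1), 1) + 17 / 2 * v (.inl (0, 1), 2) - 1 / 4 * v (.inl (5, 1), 0) - 33 / 4 * v (.inr (2, 0), 2) + 9 / 4 * v (.inl (1, 0), 1) - 1 / 4 * v (.inl (1, 0), 2) + 13 / 4 * v (.inl (2, 0), 0) - 9 / 4 * v (.inl (2, 1), 0) - 17 / 4 * v (.inl (2, 1), 1) + 1 / 4 * v (.inl (2, 1), 2) + 9 / 4 * v (.inl (4, 0), 0) + 1 / 4 * v (.inl (4, 0), 1) - 21 / 4 * v (.inl (4, 1), 1) + 1 / 4 * v (.inl (4, 1), 2)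
  | 9 => -(1 / 2 * v (.inl (0, 0), 2)) - 1 / 2 * v (.inl (2, 1), 1) - 1 / 2 * v (.inl (2, 1), 2) + 1 / 2 * v (.inl (4, 0), 1)
  | 10 => -v (.inl (2, 0), 1)
  | 11 => -v (.inl (5, 0), 0) - v (.inl (5, 1), 1) - 2 * v (.inl (2, 0), 1) - v (.inl (2, 0), 2) + 2 * v (.inl (2, 1), 2) - 2 * v (.inl (4, 0), 2)
  | _ => 0

/-- a velocity -/
def zz (v : ((Fin 6 × Fin 2) ⊕ (Fin 3 × Fin 1)) × Fin 3 → k) : ℕ → k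
  | 1 => -v (.inl (0, 0), 0) - 5 / 4 * v (.inl (0, 1), 0) + v (.inl (0, 1), 1) - 5 * v (.inr (0, 0), 1) + 3 / 2 * v (.inr (0, 0), 2) - 5 * v (.inr (2, 0), 0) - v (.inr (2, 0), 2) - v (.inl (1, 0), 0) - 1 / 2 * v (.inl (1, 0), 1) + 3 / 2 * v (.inl (1, 1), 0) + v (.inl (1, 1), 1) - 2 * v (.inl (1, 1), 2) - 3 / 4 * v (.inl (3, 0), 0) - 1 / 2 * v (.inl (3, 0), 1) + v (.inl (3, 0), 2) - 3 / 4 * v (.inl (3, 1), 1) + v (.inl (3, 1), 2) + v (.inl (4, 1), 0)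
  | 4 => 1 / 4 * v (.inl (0, 0), 1) - 1 / 4 * v (.inl (0, 1), 1) + 1 / 2 * v (.inl (0, 1), 2) - 1 / 4 * v (.inl (5, 1), 0) - 1 / 4 * v (.inr (2, 0), 2) + 1 / 4 * v (.inl (1, 0), 1) - 1 / 4 * v (.inl (1, 0), 2) + 1 / 4 * v (.inl (2, 0), 0) - 1 / 4 * v (.inl (2, 1), 0) - 1 / 4 * v (.inl (2, 1), 1) + 1 / 4 * v (.inl (2, 1), 2) + 1 / 4 * v (.inl (4, 0), 0) + 1 / 4 * v (.inl (4, 0), 1) - 1 / 4 * v (.inl (4, 1), 1) + 1 / 4 * v (.inl (4, 1), 2)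
  | 5 => 1 / 2 * v (.inl (0, 0), 1) - 1 / 2 * v (.inl (0, 0), 2) - 1 / 2 * v (.inl (0, 1), 1) + v (.inl (0, 1), 2) + 1 / 2 * v (.inl (5, 1), 0) - 1 / 2 * v (.inr (2, 0), 2) + 1 / 2 * v (.inl (1, 0), 1) - 1 / 2 * v (.inl (1, 0), 2) + 1 / 2 * v (.inl (2, 0), 0) - 1 / 2 * v (.inl (2, 1), 0) + 1 / 2 * v (.inl (4, 0), 0) - 1 / 2 * v (.inl (4, 1), 1) + 1 / 2 * v (.inl (4, 1), 2)
  | 9 => 1 / 2 * v (.inl (5, 0), 1)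
  | _ => 0

/-- a velocity -/
def qq0 (v : ((Fin 6 × Fin 2) ⊕ (Fin 3 × Fin 1)) × Fin 3 → k) : ℕ → k
  | 1 => -(1 / 4 * v (.inl (0, 1), 0)) - v (.inr (0, 0), 0) - v (.inr (0, 0), 1) + 1 / 2 * v (.inr (0, 0), 2) - v (.inr (1, 0), 0) + v (.inr (1, 0), 1) - v (.inr (1, 0), 2) - 2 * v (.inr (2, 0), 0) + 1 / 2 * v (.inl (1, 1), 0) - 1 / 4 * v (.inl (3, 0), 0) - 1 / 2 * v (.inl (3, 1), 0) + 1 / 4 * v (.inl (3, 1), 1)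
  | 3 => -(1 / 4 * v (.inl (0, 1), 0)) - v (.inr (0, 0), 0) - v (.inr (0, 0), 1) + 1 / 2 * v (.inr (0, 0), 2) + v (.inr (1, 0), 1) - v (.inr (1, 0), 2) - 2 * v (.inr (2, 0), 0) + 1 / 2 * v (.inl (1, 1), 0) - 1 / 4 * v (.inl (3, 0), 0) - 1 / 2 * v (.inl (3, 1), 0) + 1 / 4 * v (.inl (3, 1), 1)
  | 4 => -(1 / 4 * v (.inl (0, 1), 0)) - v (.inr (0, 0), 1) + 1 / 2 * v (.inr (0, 0), 2) + v (.inr (1, 0), 1) - v (.inr (1, 0), 2) - 2 * v (.inr (2, 0), 0) + 1 / 2 * v (.inl (1, 1), 0) - 1 / 4 * v (.inl (3, 0), 0) - 1 / 2 * v (.inl (3, 1), 0) + 1 / 4 * v (.inl (3, 1), 1)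
  | 5 => 1 / 4 * v (.inl (0, 1), 0) + v (.inr (0, 0), 1) - 1 / 2 * v (.inr (0, 0), 2) + v (.inr (1, 0), 2) + 2 * v (.inr (2, 0), 0) - 1 / 2 * v (.inl (1, 1), 0) + 1 / 4 * v (.inl (3, 0), 0) - 1 / 4 * v (.inl (3, 1), 1)
  | 6 => -v (.inr (2, 0), 0)
  | 8 => 5 / 8 * v (.inl (0, 1), 0) - 3 / 2 * v (.inl (0, 1), 1) + 1 / 2 * v (.inr (0, 0), 1) - 1 / 4 * v (.inr (0, 0), 2) + 1 / 2 * v (.inr (2, 0), 0) + 3 / 4 * v (.inr (2, 0), 2) - 1 / 2 * v (.inl (1, 0), 0) + v (.inl (1, 0), 1) + 1 / 4 * v (.inl (1, 1), 0) - v (.inl (1, 1), 1) + 3 / 2 * v (.inl (1, 1), 2) - 1 / 2 * v (.inl (2, 1), 0) - 1 / 8 * v (.inl (3, 0), 0) + 1 / 2 * v (.inl (3, 0), 1) - 3 / 4 * v (.inl (3, 0), 2) - 1 / 8 * v (.inl (3, 1), 1) - 1 / 2 * v (.inl (4, 1), 0)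
  | 9 => v (.inl (0, 0), 0) + 5 / 4 * v (.inl (0, 1), 0) - v (.inl (0, 1), 1) + 5 * v (.inr (0, 0), 1) - 3 / 2 * v (.inr (0, 0), 2) + 5 * v (.inr (2, 0), 0) + v (.inr (2, 0), 1) + v (.inr (2, 0), 2) + v (.inl (1, 0), 0) - 1 / 2 * v (.inl (1, 0), 1) - 3 / 2 * v (.inl (1, 1), 0) - v (.inl (1, 1), 1) + 2 * v (.inl (1, 1), 2) + 3 / 4 * v (.inl (3, 0), 0) + 1 / 2 * v (.inl (3, 0), 1) - v (.inl (3, 0), 2) + 3 / 4 * v (.inl (3, 1), 1) - v (.inl (3, 1), 2) - v (.inl (4, 1), 0)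
  | 11 => 2 * v (.inl (0, 0), 1) - 3 * v (.inl (0, 1), 1) + 12 * v (.inl (0, 1), 2) - 11 * v (.inr (2, 0), 2) + 3 * v (.inl (1, 0), 1) - v (.inl (1, 0), 2) + 5 * v (.inl (2, 0), 0) - 3 * v (.inl (2, 1), 0) - 5 * v (.inl (2, 1), 1) + 3 * v (.inl (4, 0), 0) - 7 * v (.inl (4, 1), 1)
  | _ => 0

/-- velocity of `f` -/
def hh (v : ((Fin 6 × Fin 2) ⊕ (Fin 3 × Fin 1)) × Fin 3 → k) : Fin 3 → Fin 3 → k :=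
  ![![-v (.inl (0, 0), 0) - 3 / 2 * v (.inl (0, 1), 0) + 8 / 3 * v (.inl (0, 1), 1) - 14 / 3 * v (.inr (0, 0), 1) + 5 / 3 * v (.inr (0, 0), 2) - 14 / 3 * v (.inr (2, 0), 0) - 4 / 3 * v (.inr (2, 0), 2) - 2 / 3 * v (.inl (1, 0), 0) - 2 * v (.inl (1, 0), 1) + v (.inl (1, 1), 0) + 4 / 3 * v (.inl (1, 1), 1) - 8 / 3 * v (.inl (1, 1), 2) + 2 / 3 * v (.inl (2, 1), 0) - 1 / 2 * v (.inl (3, 0), 0) - 2 / 3 * v (.inl (3, 0), 1) + 4 / 3 * v (.inl (3, 0), 2) - 1 / 2 * v (.inl (3, 1), 1) + 2 / 3 * v (.inl (3, 1), 2) + 2 / 3 * v (.inl (4, 1), 0), v (.inl (0, 0), 1) - 2 * v (.inl (0, 1), 1) + 10 * v (.inl (0, 1), 2) - 10 * v (.inr (2, 0), 2) + 2 * v (.inl (1, 0), 1) + 4 * v (.inl (2, 0), 0) - 2 * v (.inl (2, 1), 0) - 4 * v (.inl (2, 1), 1) + 2 * v (.inl (4, 0), 0) - 6 * v (.inl (4, 1), 1), -v (.inl (0,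 0), 2)], ![0, -v (.inl (1, 0), 1), -v (.inr (2, 0), 2)], ![-(1 / 4 * v (.inl (0, 1), 0)) + 1 / 2 * v (.inr (0, 0), 2) - 1 / 2 * v (.inl (1, 1), 0) - 1 / 4 * v (.inl (3, 0), 0) - 1 / 2 * v (.inl (3, 1), 0) + 1 / 4 * v (.inl (3, 1), 1), 5 / 8 * v (.inl (0, 1), 0) - 7 / 6 * v (.inl (0, 1), 1) + 7 / 6 * v (.inr (0, 0), 1) + 1 / 12 * v (.inr (0, 0), 2) + 7 / 6 * v (.inr (2, 0), 0) + 7 / 12 * v (.inr (2, 0), 2) + 1 / 6 * v (.inl (1, 0), 0) + v (.inl (1, 0), 1) + 1 / 4 * v (.inl (1, 1), 0) - 4 / 3 * v (.inl (1, 1), 1) + 7 / 6 * v (.inl (1, 1), 2) - 1 / 6 * v (.inl (2, 1), 0) - 1 / 8 * v (.inl (3, 0), 0) + 1 / 6 * v (.inl (3, 0), 1) - 7 / 12 * v (.inl (3, 0), 2) - 1 / 8 * v (.inl (3, 1), 1) + 1 / 3 * v (.inl (3, 1), 2) - 1 / 6 * v (.inl (4, 1), 0), v (.inl (0, 1), 0) - v (.inl (0, 1), 1) + 2 *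 v (.inr (0, 0), 1) - v (.inr (0, 0), 2) + 2 * v (.inr (2, 0), 0) + v (.inr (2, 0), 2) + 1 / 2 * v (.inl (1, 0), 1) - v (.inl (1, 1), 1) + v (.inl (1, 1), 2) + 1 / 2 * v (.inl (3, 0), 1) - v (.inl (3, 0), 2)]]

variable (v : ((Fin 6 × Fin 2) ⊕ (Fin 3 × Fin 1)) × Fin 3 → k)

theorem hL (x y : Fin 2 ⊕ (((Fin 3 × Fin 2) ⊕ Fin 1) ⊕ Fin 3)) :
    ∑ m : Fin (11 + 1), (Li x m : k) * (gTF (X ^ 2) ![X ^ 4, X ^ 5 + X ^ 6, X ^ 1] ![X ^ 6, X ^ 7 + X ^ 8, X ^ 3] ![X ^ 9] ![X ^ 8, X ^ 10, X ^ 11] y : k[X]).coeff m =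
      if x = y then 1 else 0 := by
  rcases x with x | ((⟨x, x'⟩ | x) | x) <;> rcases y with y | ((⟨y, y'⟩ | y) | y) <;>
    fin_cases x <;> fin_cases y <;> (try fin_cases x') <;> (try fin_cases y') <;>
    simp [Li, gTF, Fin.sum_univ_succ, Polynomial.coeff_X_pow, Polynomial.coeff_one,
      Polynomial.coeff_X]

theorem hro (κ : (Fin 6 × Fin 2) ⊕ (Fin 3 × Fin 1)) : (![X ^ 4, X ^ 5 + X ^ 6, X ^ 1] : Fin 3 → k[X]) (repF 1 κ).1 *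
      gTF (X ^ 2) ![X ^ 4, X ^ 5 + X ^ 6, X ^ 1] ![X ^ 6, X ^ 7 + X ^ 8, X ^ 3] ![X ^ 9] ![X ^ 8, X ^ 10, X ^ 11] (.inr (.inl (repF 1 κ).2)) = ∑ y, Polynomial.C (ro κ y) * gTF (X ^ 2) ![X ^ 4, X ^ 5 + X ^ 6, X ^ 1] ![X ^ 6, X ^ 7 + X ^ 8, X ^ 3] ![X ^ 9] ![X ^ 8, X ^ 10, X ^ 11] y +
        Polynomial.X ^ (11 + 1) * rr κ := by
  rcases κ with ⟨x, y⟩ | ⟨x, y⟩ <;> fin_cases x <;> fin_cases y <;>
    simp [repF, ri, ci, ro, rr, gTF, Fin.sum_univ_succ, Fintype.sum_prod_type, map_ofNat] <;> ring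

variable [CharZero k]

theorem la (l : Fin 3) (F : Fin (11 + 1) → k) : ∑ m, (Li (.inr (.inr l)) m : k) * F m =
      ![-F 7 + F 8, F 10, F 11] l := by
  fin_cases l <;> simp [Li, Fin.sum_univ_succ] <;> ring

theorem lb (κ : (Fin 6 × Fin 2) ⊕ (Fin 3 × Fin 1)) (F : Fin 2 ⊕ (((Fin 3 × Fin 2) ⊕ Fin 1) ⊕ Fin 3) → k) : ∑ y, (ro κ y : k) * F y =
      (Sum.elim (fun z => ![![F (.inr (.inr 0)), F (.inr (.inr 1))], ![F (.inr (.inr 1)) + F (.inr (.inl (.inr 0))), F (.inr (.inr 2))], ![-F (.inr (.inl (.inl (0, 1)))) + F (.inr (.inl (.inl (1, 0)))), F (.inr (.inl (.inl (1, 1)))) - F (.inr (.inr 0))], ![F (.inr (.inr 1)) + 2 * F (.inr (.inr 2)), 0], ![F (.inr (.inl (.inl (0, 1)))) + F (.inr (.inl (.inl (1, 1)))) - F (.inr (.inr 0)), F (.inr (.inl (.inr 0))) + F (.inr (.inr 0))], ![F (.inl 1), F (.inr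 (.inl (.inl (0, 0))))]] z.1 z.2) (fun z => ![![0], ![0], ![F (.inr (.inr 1))]] z.1 z.2) : (Fin 6 × Fin 2) ⊕ (Fin 3 × Fin 1) → k) κ := by
  rcases κ with ⟨x, y⟩ | ⟨x, y⟩ <;> fin_cases x <;> fin_cases y <;>
    simp [ro, Fin.sum_univ_succ, Fintype.sum_prod_type] <;> ring

theorem H (κ : (Fin 6 × Fin 2) ⊕ (Fin 3 × Fin 1)) (l : Fin 3) (U : k[X]) (V D : Fin 3 → k[X]) (W : Fin 1 → k[X])
    (hU : U = pf 11 (uu v)) (hV : ∀ i, V i = pf 11 (![xx v, yy v, zz v] i))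
    (hW : ∀ l, W l = pf 11 ((![qq0 v] : Fin 1 → ℕ → k) l))
    (hD : ∀ i, D i = ![X ^ 4, X ^ 5 + X ^ 6, X ^ 1] i * U + V i * (X ^ 2)) :
      ∑ m : Fin (11 + 1), (Li (.inr (.inr l)) m : k) *
        ((V (repF 1 κ).1 * gTF (X ^ 2) ![X ^ 4, X ^ 5 + X ^ 6, X ^ 1] ![X ^ 6, X ^ 7 + X ^ 8, X ^ 3] ![X ^ 9] ![X ^ 8, X ^ 10, X ^ 11] (.inr (.inl (repF 1 κ).2)) +
          ![X ^ 4, X ^ 5 + X ^ 6, X ^ 1] (repF 1 κ).1 * Sum.elim (fun z : Fin 3 × Fin 2 => ![V z.1, D z.1] z.2) W (repF 1 κ).2).coeff m -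
          ∑ y, ro κ y * (Sum.elim ![0, U] (Sum.elim (Sum.elim (fun z : Fin 3 × Fin 2 => ![V z.1, D z.1] z.2) W)
            (fun l => ∑ l', Polynomial.C (hh v l l') * ![X ^ 8, X ^ 10, X ^ 11] l')) y).coeff m) = v (κ, l) := by
  have cu : ∀ m : ℕ, U.coeff m = if m < 11 + 1 then uu v m else 0 := fun m => by rw [hU, coeff_pf]
  have cv : ∀ (i : Fin 3) (m : ℕ), (V i).coeff m =
      if m < 11 + 1 then ![xx v, yy v, zz v] i m else 0 := fun i m => by rw [hV, coeff_pf]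
  have cw : ∀ (i : Fin 1) (m : ℕ), (W i).coeff m =
      if m < 11 + 1 then (![qq0 v] : Fin 1 → ℕ → k) i m else 0 := fun i m => by rw [hW, coeff_pf]
  have cd : ∀ (i : Fin 3) (m : ℕ), (D i).coeff m = (![X ^ 4, X ^ 5 + X ^ 6, X ^ 1] i * U + V i * (X ^ 2)).coeff m :=
    fun i m => by rw [hD]
  refine (la l _).trans ?_
  simp only [lb]
  rcases κ with ⟨x, y⟩ | ⟨x, y⟩ <;> fin_cases x <;> fin_cases y <;> fin_cases l <;>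
    simp [repF, ri, ci, gTF, Fin.sum_univ_succ, mul_add, add_mul, mul_sub, sub_mul,
      Polynomial.coeff_mul_X_pow', Polynomial.coeff_X_pow_mul', Polynomial.coeff_X_pow,
      Polynomial.coeff_X, cu, cv, cw, cd] <;>
    simp [uu, xx, yy, zz, hh, qq0] <;> ring

end CertTF213

open CertTF213 in
/-- all triples `TF 2 1 3 r g` are limits of curvilinear triples -/
theorem cl_TF213 {k : Type*} [Field k] [CharZero k] (r : Fin 6 × Fin 2 × Fin 3 → k)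
    (g : Fin 3 × Fin 1 × Fin 3 → k) : Cl (TF 2 1 3 r g) := by
  refine cl_TF_of_cert (q := 1) (c := 3) (n := 11) ex (X ^ 2) ![X ^ 4, X ^ 5 + X ^ 6, X ^ 1] ![X ^ 6, X ^ 7 + X ^ 8, X ^ 3] ![X ^ 9] ![X ^ 8, X ^ 10, X ^ 11] ?_ ?_
    Li hL ro rr hro uu (fun v => ![xx v, yy v, zz v]) (fun v => ![qq0 v]) hh (fun v i => ?_)
    (fun v κ l U V D W hU hV hW hD => H v κ l U V D W hU hV hW hD) r g
  · intro i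
    fin_cases i <;> simp
  · intro i
    fin_cases i <;> simp <;> ring
  · fin_cases i <;> rfl

end Pool.Agent.Lib.D12
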