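import Pool.Agent.Lib.D10.DensH

/-!
# MP_5dcbc3_ag: all triples `TG 6 G` are limits of curvilinear triples

Base point: `u = X ^ 1`, `X_0 = X ^ 3`, `X_1 = X ^ 4`, `X_2 = X ^ 5`, `f`: t^2, t^7, t^8, t^9, t^10, t^11.
-/

namespace Pool.Agent.Lib.D12

open Matrix Polynomial Pool.Agent.Lib.Q5dc Pool.Agent.Lib.D7 Pool.Agent.Lib.D9
open Pool.Agent.Lib.D9.DensX Pool.Agent.Lib.D10 Pool.Agent.Lib.D10.DensG

namespace CertTG6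

variable {k : Type*} [Field k]

/-- the exponents -/
def ex : Fin 2 ⊕ (Fin 4 ⊕ Fin 6) ≃ Fin (11 + 1) where
  toFun := Sum.elim ![0, 1] (Sum.elim ![3, 4, 5, 6] ![2, 7, 8, 9, 10, 11])
  invFun := ![.inl 0, .inl 1, .inr (.inr 0), .inr (.inl 0), .inr (.inl 1), .inr (.inl 2), .inr (.inl 3), .inr (.inr 1), .inr (.inr 2), .inr (.inr 3), .inr (.inr 4), .inr (.inr 5)]
  left_inv := by
    intro x
    rcases x with x | (x | x) <;> fin_cases x <;> rfl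
  right_inv := by
    intro x
    fin_cases x <;> rfl

/-- the inverse of the basis -/
def Li : Fin 2 ⊕ (Fin 4 ⊕ Fin 6) → Fin (11 + 1) → k :=
  Sum.elim ![![1, 0, 0, 0, 0, 0, 0, 0, 0, 0, 0, 0], ![0, 1, 0, 0, 0, 0, 0, 0, 0, 0, 0, 0]] (Sum.elim ![![0, 0, 0, 1, 0, 0, 0, 0, 0, 0, 0, 0], ![0, 0, 0, 0, 1, 0, 0, 0, 0, 0, 0, 0], ![0, 0, 0, 0, 0, 1, 0, 0, 0, 0, 0, 0], ![0, 0, 0, 0, 0, 0, 1, 0, 0, 0, 0, 0]] ![![0, 0, 1, 0, 0, 0, 0, 0, 0, 0, 0, 0], ![0, 0, 0, 0, 0, 0, 0, 1, 0, 0, 0, 0], ![0, 0, 0, 0, 0, 0, 0, 0, 1, 0, 0, 0], ![0, 0, 0, 0, 0, 0, 0, 0, 0, 1, 0, 0], ![0, 0, 0, 0, 0, 0, 0, 0, 0, 0, 1, 0], ![0, 0, 0, 0, 0, 0, 0, 0, 0, 0, 0, 1]])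

/-- coordinates of the products -/
def ro : Fin 6 → Fin 2 ⊕ (Fin 4 ⊕ Fin 6) → k :=
  ![Sum.elim ![0, 0] (Sum.elim ![0, 0, 0, 1] ![0, 0, 0, 0, 0, 0]), Sum.elim ![0, 0] (Sum.elim ![0, 0, 0, 0] ![0, 1, 0, 0, 0, 0]), Sum.elim ![0, 0] (Sum.elim ![0, 0, 0, 0] ![0, 0, 1, 0, 0, 0]), Sum.elim ![0, 0] (Sum.elim ![0, 0, 0, 0] ![0, 0, 0, 1, 0, 0]), Sum.elim ![0, 0] (Sum.elim ![0, 0, 0, 0] ![0, 0, 0, 0, 1, 0]), Sum.elim ![0, 0] (Sum.elim ![0, 0, 0, 0] ![0, 0, 0, 0, 0, 1])]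

/-- remainders of the products -/
noncomputable def rr : Fin 6 → k[X] :=
  ![0, 0, 0, 0, 0, 0]

/-- velocity of `u` -/
def uu (v : Fin 6 × Fin 6 → k) : ℕ → k
  | _ => 0

/-- velocity of `x` -/
def xx (v : Fin 6 × Fin 6 → k) : ℕ → k
  | 4 => v (0, 1)
  | 5 => v (0, 2)
  | 6 => v (0, 3)
  | 7 => v (0, 4)
  | 8 => v (0, 5)
  | _ => 0

/-- velocity of `b` -/
def b1 (v : Fin 6 × Fin 6 → k) : k := 0

/-- velocity of `bb` -/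
def bb1 (v : Fin 6 × Fin 6 → k) : k := -v (0, 0)

/-- velocity of `f` -/
def hh (v : Fin 6 × Fin 6 → k) : Fin 6 → Fin 6 → k :=
  ![![0, 0, 0, 0, 0, 0], ![-v (1, 0), -v (1, 1), 2 * v (0, 1) - v (1, 2), 2 * v (0, 2) - v (1, 3), 2 * v (0, 3) - v (1, 4), 2 * v (0, 4) - v (1, 5)], ![-v (2, 0), -v (2, 1), -v (2, 2), 2 * v (0, 1) - v (2, 3), 2 * v (0, 2) - v (2, 4), 2 * v (0, 3) - v (2, 5)], ![-v (3, 0), -v (3, 1), -v (3, 2), -v (3, 3), 2 * v (0, 1) - v (3, 4), 2 * v (0, 2) - v (3, 5)], ![-v (4, 0), -v (4, 1), -v (4, 2), -v (4, 3), -v (4, 4), 2 * v (0, 1) - v (4, 5)], ![-v (5, 0), -(2 * v (0, 0)) - v (5, 1), -v (5, 2), -v (5, 3), -v (5, 4), -v (5, 5)]]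

theorem coeff_bu (b : k) (u : k[X]) (m : ℕ) :
    (bu b u).coeff m = if m = 0 then 0 else b * u.coeff m := by
  rw [bu, Polynomial.coeff_C_mul, Polynomial.coeff_sub, Polynomial.coeff_C]
  split_ifs with h
  · rw [h, sub_self, mul_zero]
  · rw [sub_zero]

variable (v : Fin 6 × Fin 6 → k)

theorem hL (x y : Fin 2 ⊕ (Fin 4 ⊕ Fin 6)) :
    ∑ m : Fin (11 + 1), (Li x m : k) * (gTG (X ^ 1) (X ^ 3) (X ^ 4) (X ^ 5) (X ^ 6) ![X ^ 2, X ^ 7, X ^ 8, X ^ 9, X ^ 10, X ^ 11] y : k[X]).coeff m =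
      if x = y then 1 else 0 := by
  rcases x with x | (x | x) <;> rcases y with y | (y | y) <;> fin_cases x <;> fin_cases y <;>
    simp [Li, gTG, Fin.sum_univ_succ, Polynomial.coeff_X_pow, Polynomial.coeff_one,
      Polynomial.coeff_X]

theorem hro (κ : Fin 6) : ![X ^ 3, X ^ 4, X ^ 5] (repG κ).1 * ![X ^ 3, X ^ 4, X ^ 5, X ^ 6] (repG κ).2 =
      ∑ y, Polynomial.C (ro κ y) * (gTG (X ^ 1) (X ^ 3) (X ^ 4) (X ^ 5) (X ^ 6) ![X ^ 2, X ^ 7, X ^ 8, X ^ 9, X ^ 10, X ^ 11] y : k[X]) +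
        (Polynomial.X ^ (11 + 1) * rr κ : k[X]) := by
  fin_cases κ <;> simp [repG, ro, rr, gTG, Fin.sum_univ_succ, map_ofNat] <;> ring

variable [CharZero k]

theorem H (κ : Fin 6) (l : Fin 6) (U Y D1 D2 DQ D3 : k[X]) (hU : U = pf 11 (uu v))
    (hY : Y = pf 11 (xx v)) (h1 : D1 = X ^ 3 * U + Y * X ^ 1 + (bu 0 U + bu (b1 v) (X ^ 1)))
    (h2 : D2 = (X ^ 4) * U + D1 * (X ^ 1)) (hq : DQ = D2 + (bu 0 U + bu (bb1 v) (X ^ 1)))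
    (h3 : D3 = (X ^ 5) * U + DQ * (X ^ 1)) :
      ∑ m : Fin (11 + 1), (Li (.inr (.inr l)) m : k) *
        ((![Y, D1, DQ] (repG κ).1 * ![X ^ 3, X ^ 4, X ^ 5, X ^ 6] (repG κ).2 +
          ![X ^ 3, X ^ 4, X ^ 5] (repG κ).1 * ![Y, D1, D2, D3] (repG κ).2).coeff m -
          ∑ y, ro κ y * (Sum.elim ![0, U] (Sum.elim ![Y, D1, D2, D3]
            (fun l => ∑ l', Polynomial.C (hh v l l') * ![X ^ 2, X ^ 7, X ^ 8, X ^ 9, X ^ 10, X ^ 11] l')) y).coeff m) = v (κ, l) := by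
  have cu : ∀ m : ℕ, U.coeff m = if m < 11 + 1 then uu v m else 0 := fun m => by rw [hU, coeff_pf]
  have cy : ∀ m : ℕ, Y.coeff m = if m < 11 + 1 then xx v m else 0 := fun m => by rw [hY, coeff_pf]
  have c1 : ∀ m : ℕ, D1.coeff m = (X ^ 3 * U + Y * X ^ 1 + (bu 0 U + bu (b1 v) (X ^ 1))).coeff m :=
    fun m => by rw [h1]
  have c2 : ∀ m : ℕ, D2.coeff m = ((X ^ 4) * U + D1 * (X ^ 1)).coeff m := fun m => by rw [h2]
  have cq : ∀ m : ℕ, DQ.coeff m = (D2 + (bu 0 U + bu (bb1 v) (X ^ 1))).coeff m := fun m => by rw [hq]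
  have c3 : ∀ m : ℕ, D3.coeff m = ((X ^ 5) * U + DQ * (X ^ 1)).coeff m := fun m => by rw [h3]
  have la : ∀ (l : Fin 6) (F : Fin (11 + 1) → k), ∑ m, (Li (.inr (.inr l)) m : k) * F m =
      ![F 2, F 7, F 8, F 9, F 10, F 11] l := by
    intro l F
    fin_cases l <;> simp [Li, Fin.sum_univ_succ] <;> ring
  have lb : ∀ (κ : Fin 6) (F : Fin 2 ⊕ (Fin 4 ⊕ Fin 6) → k), ∑ y, (ro κ y : k) * F y =
      ![F (.inr (.inl 3)), F (.inr (.inr 1)), F (.inr (.inr 2)), F (.inr (.inr 3)), F (.inr (.inr 4)), F (.inr (.inr 5))] κ := by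
    intro κ F
    fin_cases κ <;> simp [ro, Fin.sum_univ_succ] <;> ring
  refine (la l _).trans ?_
  simp only [lb]
  fin_cases κ <;> fin_cases l <;>
    simp [repG, Fin.sum_univ_succ, mul_add, add_mul, mul_sub, sub_mul,
      Polynomial.coeff_mul_X_pow', Polynomial.coeff_X_pow_mul', Polynomial.coeff_X_pow,
      Polynomial.coeff_X, coeff_bu, cu, cy, c1, c2, cq, c3] <;>
    simp [uu, xx, b1, bb1, hh] <;> ring

end CertTG6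

open CertTG6 in
/-- all triples `TG 6 G` are limits of curvilinear triples -/
theorem cl_TG6 {k : Type*} [Field k] [CharZero k] (G : Fin 6 × Fin 6 → k) : Cl (TG 6 G) := by
  refine cl_TG_of_cert (c := 6) (n := 11) ex (X ^ 1) (X ^ 3) (X ^ 4) (X ^ 5) (X ^ 5) (X ^ 6) 0 0 ![X ^ 2, X ^ 7, X ^ 8, X ^ 9, X ^ 10, X ^ 11] ?_ ?_ ?_ ?_ ?_
    Li hL ro rr hro uu xx b1 bb1 hh (fun v => rfl) (fun v κ l U Y D1 D2 DQ D3 hU hY h1 h2 hq h3 =>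
      H v κ l U Y D1 D2 DQ D3 hU hY h1 h2 hq h3) G
  · simp
  all_goals first | ring1 | (simp [bu]; done) | (simp [bu]; ring1)

end Pool.Agent.Lib.D12
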