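import Mathlib

/-!
Module Cyc. Every square matrix over an algebraically closed field commutes with a matrix `R`
which has a cyclic vector `v` (the vectors `R ^ j v`, `j < e`, are a basis).
-/

set_option autoImplicit false

namespace Pool.Agent.Lib.D12

open Matrix

/-- the matrix with columns `v, R v, R ^ 2 v, ...` -/
def Kry {k : Type*} [Field k] {e : ℕ} (R : Matrix (Fin e) (Fin e) k) (v : Fin e → k) :
    Matrix (Fin e) (Fin e) k :=
  Matrix.of fun i j => ((R ^ (j : ℕ)) *ᵥ v) i

namespace CycAux

open Polynomial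

/-- the algebraic core: a polynomial of degree less than the sum of the exponents cannot be
divisible by all the shifted prime powers. -/
theorem core {k : Type*} [Field k] {ι : Type*} [Fintype ι] (b : ι → k)
    (hb : Function.Injective b) (m : ι → ℕ) (q : k[X]) (hq : q ≠ 0)
    (h : ∀ i, (X - C (b i)) ^ m i ∣ q) : ∑ i, m i ≤ q.natDegree := by
  classical
  have hcop := pairwise_coprime_X_sub_C hb
  have h1 : ∏ i, (X - C (b i)) ^ m i ∣ q := by
    apply Finset.prod_dvd_of_coprime
    · intro i _ j _ hij
      exact (hcop hij).pow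
    · intro i _
      exact h i
  have h2 := natDegree_le_of_dvd h1 hq
  have h3 : (∏ i, (X - C (b i)) ^ m i).natDegree = ∑ i, m i := by
    rw [natDegree_prod_of_monic _ _ (fun i _ => (monic_X_sub_C (b i)).pow (m i))]
    apply Finset.sum_congr rfl
    intro i _
    rw [natDegree_pow, natDegree_X_sub_C, mul_one]
  omega

theorem shift {k : Type*} [Field k] (a c : k) (m : ℕ) (q : k[X])
    (h : (X - C a) ^ m ∣ q.comp (X + C c)) : (X - C (a + c)) ^ m ∣ q := by
  obtain ⟨r, hr⟩ := h
  refine ⟨r.comp (X - C c), ?_⟩
  have h1 := congrArg (fun z : k[X] => z.comp (X - C c)) hr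
  simp only [mul_comp, pow_comp, sub_comp, X_comp, C_comp] at h1
  rw [comp_assoc] at h1
  have h2 : (X + C c : k[X]).comp (X - C c) = X := by
    simp
  rw [h2, comp_X] at h1
  rw [h1]
  congr 2
  rw [C_add]
  ring

end CycAux

open Polynomial in
theorem exists_cyc {k : Type*} [Field k] [IsAlgClosed k] {e : ℕ} (N : Matrix (Fin e) (Fin e) k) :
    ∃ (R : Matrix (Fin e) (Fin e) k) (v : Fin e → k), N * R = R * N ∧ (Kry R v).det ≠ 0 := by
  classical
  set f : (Fin e → k) →ₗ[k] (Fin e → k) := Matrix.toLin' N with hf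
  have hT : Module.IsTorsion k[X] (Module.AEval k (Fin e → k) f) :=
    Module.AEval.isTorsion_of_finiteDimensional k (Fin e → k) f
  obtain ⟨ι, hι, p, hp, m, ⟨φ⟩⟩ := Module.equiv_directSum_of_isTorsion hT
  let ψ : (Module.AEval k (Fin e → k) f) ≃ₗ[k[X]] (∀ i, k[X] ⧸ (Submodule.span k[X] {p i ^ m i})) :=
    φ.trans (DirectSum.linearEquivFunOnFintype k[X] ι _)
  -- roots
  have hroot : ∀ i, ∃ a : k, Associated (p i) (X - C a) := by
    intro i
    have hdeg := IsAlgClosed.degree_eq_one_of_irreducible k (hp i)
    obtain ⟨a, ha⟩ := exists_root_of_degree_eq_one hdeg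
    refine ⟨a, ?_⟩
    have h1 : (X - C a) ∣ p i := dvd_iff_isRoot.mpr ha
    exact ((irreducible_X_sub_C a).associated_of_dvd (hp i) h1).symm
  choose a ha using hroot
  let b : ι → k := fun i => Infinite.natEmbedding k (Fintype.equivFin ι i)
  have hb : Function.Injective b := by
    intro i j hij
    have h1 := (Infinite.natEmbedding k).injective hij
    exact (Fintype.equivFin ι).injective (Fin.ext h1)
  let c : ι → k := fun i => b i - a i
  let g : (∀ i, k[X] ⧸ (Submodule.span k[X] {p i ^ m i})) →ₗ[k[X]]
      (∀ i, k[X] ⧸ (Submodule.span k[X] {p i ^ m i})) :=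
    LinearMap.pi fun i => (X + C (c i)) • LinearMap.proj i
  let pw : ℕ → (∀ i, k[X] ⧸ (Submodule.span k[X] {p i ^ m i})) :=
    fun j i => Submodule.Quotient.mk ((X + C (c i)) ^ j)
  have hg : ∀ j, g (pw j) = pw (j + 1) := by
    intro j
    funext i
    have h1 : g (pw j) i = (X + C (c i)) • pw j i := rfl
    rw [h1]
    have h2 : (X + C (c i)) • pw j i = Submodule.Quotient.mk ((X + C (c i)) • (X + C (c i)) ^ j) :=
      (Submodule.Quotient.mk_smul _ _ _).symm
    rw [h2]
    have h3 : pw (j + 1) i = Submodule.Quotient.mk ((X + C (c i)) ^ (j + 1)) := rfl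
    rw [h3, smul_eq_mul, pow_succ']
  let o : (Fin e → k) ≃ₗ[k] Module.AEval k (Fin e → k) f := Module.AEval.of k (Fin e → k) f
  let G : (Module.AEval k (Fin e → k) f) →ₗ[k[X]] (Module.AEval k (Fin e → k) f) :=
    ψ.symm.toLinearMap ∘ₗ g ∘ₗ ψ.toLinearMap
  let Rl : (Fin e → k) →ₗ[k] (Fin e → k) :=
    o.symm.toLinearMap ∘ₗ (G.restrictScalars k) ∘ₗ o.toLinearMap
  have hRl : ∀ x, Rl x = o.symm (ψ.symm (g (ψ (o x)))) := fun x => rfl
  let R : Matrix (Fin e) (Fin e) k := LinearMap.toMatrix' Rl
  have hR : ∀ x, R *ᵥ x = Rl x := by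
    intro x
    rw [← Matrix.toLin'_apply, Matrix.toLin'_toMatrix']
  have hN : ∀ x, N *ᵥ x = f x := by
    intro x
    rw [hf, Matrix.toLin'_apply]
  let v : Fin e → k := o.symm (ψ.symm (pw 0))
  have hRv : ∀ j : ℕ, (R ^ j) *ᵥ v = o.symm (ψ.symm (pw j)) := by
    intro j
    induction j with
    | zero => rw [pow_zero, Matrix.one_mulVec]
    | succ j ih =>
      rw [pow_succ', ← Matrix.mulVec_mulVec, ih, hR, hRl, LinearEquiv.apply_symm_apply,
        LinearEquiv.apply_symm_apply, hg]
  refine ⟨R, v, ?_, ?_⟩
  · have h1 : ∀ x, f (Rl x) = Rl (f x) := by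
      intro x
      have h2 : ∀ y : Module.AEval k (Fin e → k) f, f (o.symm y) = o.symm ((X : k[X]) • y) := by
        intro y
        exact (Module.AEval.of_symm_X_smul f y).symm
      have h3 : o (f x) = (X : k[X]) • o x := (Module.AEval.X_smul_of f x).symm
      have h5 : ψ.symm (g (ψ ((X : k[X]) • o x))) = (X : k[X]) • ψ.symm (g (ψ (o x))) := by
        rw [LinearEquiv.map_smul, LinearMap.map_smul, LinearEquiv.map_smul]
      rw [hRl, hRl, h2, h3, h5]
    have h4 : ∀ x, (N * R) *ᵥ x = (R * N) *ᵥ x := by
      intro x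
      rw [← Matrix.mulVec_mulVec, ← Matrix.mulVec_mulVec, hR, hN, hN, hR, h1]
    exact Matrix.mulVec_injective (funext h4)
  · intro hdet
    obtain ⟨w, hw0, hw⟩ := Matrix.exists_mulVec_eq_zero_iff.mpr hdet
    -- the polynomial
    let q : k[X] := ∑ j : Fin e, C (w j) * X ^ (j : ℕ)
    have hqc : ∀ j : Fin e, q.coeff (j : ℕ) = w j := by
      intro j
      simp only [q, finset_sum_coeff, coeff_C_mul, coeff_X_pow]
      rw [Finset.sum_eq_single j]
      · simp
      · intro i _ hij
        have : (j : ℕ) ≠ (i : ℕ) := fun h => hij (Fin.ext h.symm)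
        simp [this]
      · intro h
        exact absurd (Finset.mem_univ j) h
    have hq0 : q ≠ 0 := by
      intro h
      apply hw0
      funext j
      rw [← hqc j, h, coeff_zero, Pi.zero_apply]
    have hqd : q.natDegree < e := by
      rcases Nat.eq_zero_or_pos e with he | he
      · exfalso
        apply hw0
        funext j
        exact absurd j.2 (by omega)
      · have h1 : q.degree < (e : WithBot ℕ) := degree_sum_fin_lt w
        rw [natDegree_lt_iff_degree_lt hq0]
        exact h1
    have hsum : ∑ j : Fin e, w j • o.symm (ψ.symm (pw j)) = 0 := by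
      rw [← hw]
      funext i
      simp only [Finset.sum_apply, Pi.smul_apply, smul_eq_mul, Matrix.mulVec, dotProduct, Kry,
        Matrix.of_apply]
      apply Finset.sum_congr rfl
      intro j _
      rw [← hRv j]
      simp only [Matrix.mulVec, dotProduct]
      ring
    have hsum2 : ∑ j : Fin e, (C (w j) : k[X]) • pw j = 0 := by
      have h1 := congrArg (fun z => ψ (o z)) hsum
      simp only [map_sum, map_zero, map_smul, LinearEquiv.apply_symm_apply] at h1
      rw [← h1]
      apply Finset.sum_congr rfl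
      intro j _
      rw [← Module.AEval.C_smul f (w j) (ψ.symm (pw j)), map_smul, LinearEquiv.apply_symm_apply]
    have hdvd : ∀ i, p i ^ m i ∣ q.comp (X + C (c i)) := by
      intro i
      have h1 := congrFun hsum2 i
      rw [Finset.sum_apply, Pi.zero_apply] at h1
      have h2 : ∀ j : Fin e, ((C (w j) : k[X]) • pw j) i =
          Submodule.Quotient.mk (C (w j) * (X + C (c i)) ^ (j : ℕ)) := by
        intro j
        rfl
      simp only [h2] at h1
      have h3 : (Submodule.mkQ (Submodule.span k[X] {p i ^ m i})) (q.comp (X + C (c i))) = 0 := by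
        have h4 : q.comp (X + C (c i)) = ∑ j : Fin e, C (w j) * (X + C (c i)) ^ (j : ℕ) := by
          simp only [q, Polynomial.sum_comp, mul_comp, C_comp, pow_comp, X_comp]
        rw [h4, map_sum]
        exact h1
      rw [Submodule.mkQ_apply, Submodule.Quotient.mk_eq_zero, Submodule.mem_span_singleton] at h3
      obtain ⟨r, hr⟩ := h3
      exact ⟨r, by rw [← hr, smul_eq_mul, mul_comm]⟩
    have hcore := CycAux.core b hb m q hq0 (fun i => by
      have h1 : (X - C (a i)) ^ m i ∣ q.comp (X + C (c i)) :=
        ((ha i).symm.pow_pow).dvd.trans (hdvd i)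
      have h2 := CycAux.shift (a i) (c i) (m i) q h1
      have h3 : a i + c i = b i := by
        simp only [c]
        ring
      rw [h3] at h2
      exact h2)
    -- the dimension
    have hdim : ∑ i, m i = e := by
      have h1 : Module.finrank k (Fin e → k) =
          Module.finrank k (∀ i, k[X] ⧸ (Submodule.span k[X] {p i ^ m i})) :=
        LinearEquiv.finrank_eq (o.trans (ψ.restrictScalars k))
      rw [Module.finrank_fin_fun] at h1
      have hfin : ∀ i, Module.finrank k (k[X] ⧸ (Submodule.span k[X] {p i ^ m i})) = m i := by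
        intro i
        have h2 : Module.finrank k (k[X] ⧸ (Ideal.span {p i ^ m i})) = (p i ^ m i).natDegree :=
          finrank_quotient_span_eq_natDegree
        have h4 : (p i).natDegree = 1 := natDegree_eq_of_degree_eq_some
            (IsAlgClosed.degree_eq_one_of_irreducible k (hp i))
        have h3 : (p i ^ m i).natDegree = m i := by
          rw [natDegree_pow, h4, mul_one]
        rw [h3] at h2
        exact h2
      have hfa : Module.Finite k (∀ i, k[X] ⧸ (Submodule.span k[X] {p i ^ m i})) :=
        Module.Finite.equiv (o.trans (ψ.restrictScalars k))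
      have hfi : ∀ i, Module.Finite k (k[X] ⧸ (Submodule.span k[X] {p i ^ m i})) := by
        intro i
        exact Module.Finite.of_surjective
          (LinearMap.proj i : (∀ i, k[X] ⧸ (Submodule.span k[X] {p i ^ m i})) →ₗ[k] _)
          (LinearMap.proj_surjective i)
      rw [Module.finrank_pi_fintype] at h1
      rw [h1]
      exact Finset.sum_congr rfl (fun i _ => (hfin i).symm)
    omega

end Pool.Agent.Lib.D12
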