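import Pool.Agent.Lib.D9.BlkMap
import Pool.Agent.Lib.D13.SurjD

/-!
# MP_5dcbc3_ag: block matrices `BX` with `b = pi = 0` as triples on three levels

Levels: `E_0 | E_1, U_0, P | E_2, U_1`. If the maps `a, a', w, w'` are jointly injective then the
commutation map is onto.
-/

set_option autoImplicit false

namespace Pool.Agent.Lib.D12

open Matrix Pool.Agent.Lib.Q5dc Pool.Agent.Lib.D7 Pool.Agent.Lib.D9 Pool.Agent.Lib.D13

variable {k : Type*} [Field k] {e u p : ℕ}

/-- second level -/
abbrev Jx (e u p : ℕ) : Type := Fin e ⊕ (Fin u ⊕ Fin p)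

/-- third level -/
abbrev Lx (e u : ℕ) : Type := Fin e ⊕ Fin u

/-- the maps from the first to the second level -/
def alX (N : Matrix (Fin e) (Fin e) k) (a : Matrix (Fin u) (Fin e) k)
    (w : Matrix (Fin p) (Fin e) k) : Matrix (Jx e u p) (Fin e) k :=
  Matrix.of fun i j => match i with
    | .inl i => N i j
    | .inr (.inl i) => a i j
    | .inr (.inr i) => w i j

/-- the maps from the second to the third level -/
def beX (N : Matrix (Fin e) (Fin e) k) (a : Matrix (Fin u) (Fin e) k)
    (d : Matrix (Fin e) (Fin u) k) (nu : Matrix (Fin u) (Fin u) k) (th : Matrix (Fin e) (Fin p) k)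
    (et : Matrix (Fin u) (Fin p) k) : Matrix (Lx e u) (Jx e u p) k :=
  Matrix.of fun i j => match i, j with
    | .inl i, .inl j => N i j
    | .inl i, .inr (.inl j) => d i j
    | .inl i, .inr (.inr j) => th i j
    | .inr i, .inl j => a i j
    | .inr i, .inr (.inl j) => nu i j
    | .inr i, .inr (.inr j) => et i j

/-- the maps from the first to the third level -/
def deX (M : Matrix (Fin e) (Fin e) k) (c : Matrix (Fin u) (Fin e) k) :
    Matrix (Lx e u) (Fin e) k :=
  Matrix.of fun i j => match i with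
    | .inl i => M i j
    | .inr i => c i j

theorem beX_mul_alX (N N' : Matrix (Fin e) (Fin e) k) (a a' : Matrix (Fin u) (Fin e) k)
    (w' : Matrix (Fin p) (Fin e) k) (d : Matrix (Fin e) (Fin u) k) (nu : Matrix (Fin u) (Fin u) k)
    (th : Matrix (Fin e) (Fin p) k) (et : Matrix (Fin u) (Fin p) k) :
    beX N a d nu th et * alX N' a' w' =
      deX (N * N' + d * a' + th * w') (a * N' + nu * a' + et * w') := by
  ext i j
  rcases i with i | i <;>
    simp [beX, alX, deX, Matrix.mul_apply, Fintype.sum_sum_type, add_assoc]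

/-- the bijection of the index types -/
def eqX (e u p : ℕ) : Ix e u p ≃ Fin e ⊕ (Jx e u p ⊕ Lx e u) where
  toFun := fun i => match i with
    | .inl (.inl i) => .inl i
    | .inl (.inr (.inl i)) => .inr (.inl (.inl i))
    | .inl (.inr (.inr i)) => .inr (.inr (.inl i))
    | .inr (.inl (.inl i)) => .inr (.inl (.inr (.inl i)))
    | .inr (.inl (.inr i)) => .inr (.inr (.inr i))
    | .inr (.inr i) => .inr (.inl (.inr (.inr i)))
  invFun := fun i => match i with
    | .inl i => .inl (.inl i)
    | .inr (.inl (.inl i)) => .inl (.inr (.inl i))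
    | .inr (.inr (.inl i)) => .inl (.inr (.inr i))
    | .inr (.inl (.inr (.inl i))) => .inr (.inl (.inl i))
    | .inr (.inr (.inr i)) => .inr (.inl (.inr i))
    | .inr (.inl (.inr (.inr i))) => .inr (.inr i)
  left_inv := by rintro ((i | i | i) | ((i | i) | i)) <;> rfl
  right_inv := by rintro (i | ((i | (i | i)) | (i | i))) <;> rfl

theorem BX_eqX (N M : Matrix (Fin e) (Fin e) k) (a c : Matrix (Fin u) (Fin e) k)
    (w : Matrix (Fin p) (Fin e) k) (d : Matrix (Fin e) (Fin u) k) (nu : Matrix (Fin u) (Fin u) k)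
    (th : Matrix (Fin e) (Fin p) k) (et : Matrix (Fin u) (Fin p) k)
    {al : Fin 3 → Matrix (Jx e u p) (Fin e) k} {be : Fin 3 → Matrix (Lx e u) (Jx e u p) k}
    {D : Fin 3 → Matrix (Lx e u) (Fin e) k} {i : Fin 3} (h1 : al i = alX N a w)
    (h2 : be i = beX N a d nu th et) (h3 : D i = deX M c) :
    Matrix.reindexAlgEquiv k k (eqX e u p) (BX N M a c w 0 d nu 0 th et) =
      GR al be i + TL D i := by
  have h : ∀ x y : Ix e u p, BX N M a c w 0 d nu 0 th et x y =
      (GR al be i + TL D i : Matrix (Fin e ⊕ (Jx e u p ⊕ Lx e u)) (Fin e ⊕ (Jx e u p ⊕ Lx e u)) k)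
        (eqX e u p x) (eqX e u p y) := by
    intro x y
    rcases x with (x | x | x) | ((x | x) | x) <;> rcases y with (y | y | y) | ((y | y) | y) <;>
      simp [BX, GR, TL, eqX, h1, h2, h3, alX, beX, deX]
  ext x y
  have h4 := h ((eqX e u p).symm x) ((eqX e u p).symm y)
  rw [Equiv.apply_symm_apply, Equiv.apply_symm_apply] at h4
  rw [← h4]
  simp

/-- jointly injective maps give a left inverse -/
theorem sjX {N N' : Matrix (Fin e) (Fin e) k} {a a' : Matrix (Fin u) (Fin e) k}
    {w w' : Matrix (Fin p) (Fin e) k}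
    (hinj : ∀ z : Fin e → k, a *ᵥ z = 0 → a' *ᵥ z = 0 → w *ᵥ z = 0 → w' *ᵥ z = 0 → z = 0) :
    Sj ![alX 1 0 0, alX N a w, alX N' a' w'] := by
  classical
  intro g
  -- the joint map
  set R : Matrix ((Fin u ⊕ Fin u) ⊕ (Fin p ⊕ Fin p)) (Fin e) k :=
    Matrix.fromRows (Matrix.fromRows a a') (Matrix.fromRows w w') with hR
  have hRi : LinearMap.ker (Matrix.toLin' R) = ⊥ := by
    rw [LinearMap.ker_eq_bot']
    intro z hz
    rw [Matrix.toLin'_apply, hR, Matrix.fromRows_mulVec, Matrix.fromRows_mulVec,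
      Matrix.fromRows_mulVec] at hz
    refine hinj z ?_ ?_ ?_ ?_
    · funext i
      exact congrFun hz (.inl (.inl i))
    · funext i
      exact congrFun hz (.inl (.inr i))
    · funext i
      exact congrFun hz (.inr (.inl i))
    · funext i
      exact congrFun hz (.inr (.inr i))
  obtain ⟨Q, hQ⟩ := LinearMap.exists_leftInverse_of_injective (Matrix.toLin' R) hRi
  set t : Fin e → k := g 0 + g 2 ᵥ* N' + g 1 ᵥ* N with ht
  set q : ((Fin u ⊕ Fin u) ⊕ (Fin p ⊕ Fin p)) → k := t ᵥ* LinearMap.toMatrix' Q with hq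
  have hqR : q ᵥ* R = t := by
    have h1 : LinearMap.toMatrix' Q * R = 1 := by
      have h2 := congrArg LinearMap.toMatrix' hQ
      rw [LinearMap.toMatrix'_comp, LinearMap.toMatrix'_id, LinearMap.toMatrix'_toLin'] at h2
      exact h2
    rw [hq, Matrix.vecMul_vecMul, h1, Matrix.vecMul_one]
  have hqR' : (fun i => q (.inl (.inl i))) ᵥ* a + (fun i => q (.inl (.inr i))) ᵥ* a' +
      ((fun i => q (.inr (.inl i))) ᵥ* w + (fun i => q (.inr (.inr i))) ᵥ* w') = t := by
    rw [← hqR]
    funext j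
    simp [hR, Matrix.vecMul, dotProduct, Fintype.sum_sum_type]
  refine ⟨![0, fun i => match i with
      | .inl i => - g 2 i
      | .inr (.inl i) => q (.inl (.inr i))
      | .inr (.inr i) => q (.inr (.inr i)),
    fun i => match i with
      | .inl i => g 1 i
      | .inr (.inl i) => - q (.inl (.inl i))
      | .inr (.inr i) => - q (.inr (.inl i))], ?_⟩
  intro i
  fin_cases i
  · rw [← sub_eq_zero]
    funext j
    have h1 := congrFun hqR' j
    rw [ht] at h1
    simp only [Pi.add_apply, Matrix.vecMul, dotProduct] at h1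
    simp [alX, Matrix.vecMul, dotProduct, Fintype.sum_sum_type, Finset.sum_neg_distrib]
    linear_combination h1
  · funext j
    simp [alX, Matrix.vecMul, dotProduct, Fintype.sum_sum_type, Matrix.one_apply]
  · funext j
    simp [alX, Matrix.vecMul, dotProduct, Fintype.sum_sum_type, Matrix.one_apply]

/-- density for the block matrices from density on three levels -/
theorem cl_BX_of_GRD
    (H : ∀ (al : Fin 3 → Matrix (Jx e u p) (Fin e) k) (be : Fin 3 → Matrix (Lx e u) (Jx e u p) k)
      (D : Fin 3 → Matrix (Lx e u) (Fin e) k), (∀ i j, be i * al j = be j * al i) → Sj al →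
      Cl (fun i => GR al be i + TL D i))
    {N M N' M' : Matrix (Fin e) (Fin e) k} {a c a' c' : Matrix (Fin u) (Fin e) k}
    {w w' : Matrix (Fin p) (Fin e) k} {d d' : Matrix (Fin e) (Fin u) k}
    {nu nu' : Matrix (Fin u) (Fin u) k} {th th' : Matrix (Fin e) (Fin p) k}
    {et et' : Matrix (Fin u) (Fin p) k}
    (h2 : N * N' + d * a' + th * w' = N' * N + d' * a + th' * w)
    (h3 : a * N' + nu * a' + et * w' = a' * N + nu' * a + et' * w)
    (hinj : ∀ z : Fin e → k, a *ᵥ z = 0 → a' *ᵥ z = 0 → w *ᵥ z = 0 → w' *ᵥ z = 0 → z = 0) :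
    Cl ![JX k e u p, BX N M a c w 0 d nu 0 th et, BX N' M' a' c' w' 0 d' nu' 0 th' et'] := by
  refine BlkMapAux.cl_reindex (eqX e u p) ?_
  have key := H ![alX 1 0 0, alX N a w, alX N' a' w']
    ![beX 1 0 0 1 0 0, beX N a d nu th et, beX N' a' d' nu' th' et']
    ![deX 0 0, deX M c, deX M' c'] (by
      intro i j
      fin_cases i <;> fin_cases j <;>
        simp [beX_mul_alX, h2, h3]) (sjX hinj)
  convert key using 1
  funext i
  fin_cases i
  · exact BX_eqX 1 0 0 0 0 0 1 0 0 rfl rfl rfl
  · exact BX_eqX N M a c w d nu th et rfl rfl rfl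
  · exact BX_eqX N' M' a' c' w' d' nu' th' et' rfl rfl rfl

end Pool.Agent.Lib.D12
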