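import Pool.Agent.Lib.D12.SmoothI

/-!
Module Nak (2h; no black boxes, imports only the definitions io, XI). (1) nak: commuting square matrices with a common kernel vector have a common left kernel vector.
PROOF. Otherwise the columns of `P` and `P'` span everything. Nakayama for the commutative algebra `k[X_0, X_1]` (MvPolynomial (Fin 2) k, or the commutative ring Algebra.adjoin k {P, P'}) acting on `V = k^n` by `X_0 ↦ P`, `X_1 ↦ P'`, ideal `I = (X_0, X_1)`: `I V = V`, so
(Submodule.exists_sub_one_mem_and_smul_eq_zero_of_fg_of_le_smul) there is `r ∈ 1 + I` with `r V = 0`; but `r z = z` since `P z = P' z = 0`. Contradiction. (Alternative proof: Fitting decomposition, or induction on n.)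
(2) eig_of_R: `R ≠ 0` in the cokernel gives `z` in `E`, `ζ` in `F*` with the SAME eigenvalues.
PROOF. `I := range of R` (in E), `m = dim I ≥ 1`; `J : k^m → E` injective with range `I`, `Q : F → k^m` surjective, `R = J Q`. `Y ι R = ι R Y` gives `P` with `Y ι J = ι J P` and `Q Y = P Q` (Y maps `ι I` into itself; P = matrix of Y on I); same for `Y'` and `P'`.
`P P' = P' P`: apply the relation `Y Y' ι + Th w' = Y' Y ι + Th' w` to `J`: `w J = w' J = 0` since `w R = w' R = 0` and Q is onto. Common eigenvector (k algebraically closed, m ≥ 1): `P v = x v`, `P' v = x' v` (eigenspace of P is stable under P'), `z = J v`.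
nak for `P - x`, `P' - x'`: `ρ ≠ 0` with `ρ P = x ρ`, `ρ P' = x' ρ`; `ζ = ρ Q` (≠ 0, Q is onto), `ζ Y = ρ Q Y = ρ P Q = x ζ`, `ζ Th = 0` because `J Q Th = R Th = 0`, J injective.
-/

set_option autoImplicit false

namespace Pool.Agent.Lib.D12

open Matrix

namespace NakAux

/-- a linear functional as a vector -/
theorem functional_eq {k : Type*} [Field k] {ι : Type*} [Fintype ι] [DecidableEq ι]
    (φ : (ι → k) →ₗ[k] k) (y : ι → k) : φ y = (fun i => φ (Pi.single i 1)) ⬝ᵥ y := by
  rw [LinearMap.pi_apply_eq_sum_univ φ y]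
  unfold dotProduct
  refine Finset.sum_congr rfl fun i _ => ?_
  have : (fun j => if i = j then (1 : k) else 0) = Pi.single i 1 := by
    ext j
    by_cases h : i = j
    · subst h; simp
    · rw [if_neg h, Pi.single_eq_of_ne (Ne.symm h)]
  rw [this, smul_eq_mul, mul_comm]

theorem vecMul_functional {k : Type*} [Field k] {ι κ : Type*} [Fintype ι] [DecidableEq ι]
    [Fintype κ] [DecidableEq κ] (φ : (ι → k) →ₗ[k] k) (M : Matrix ι κ k) (j : κ) :
    ((fun i => φ (Pi.single i 1)) ᵥ* M) j = φ (M *ᵥ Pi.single j 1) := by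
  rw [functional_eq φ (M *ᵥ Pi.single j 1), dotProduct_mulVec, dotProduct_single, mul_one]

theorem functional_ne_zero {k : Type*} [Field k] {ι : Type*} [Fintype ι] [DecidableEq ι]
    {φ : (ι → k) →ₗ[k] k} (h : φ ≠ 0) : (fun i => φ (Pi.single i 1)) ≠ 0 := by
  intro h0
  apply h
  ext1
  ext
  rw [LinearMap.zero_comp, LinearMap.zero_apply, LinearMap.comp_apply]
  exact congrFun h0 _

/-- Nakayama for two commuting endomorphisms with a common kernel vector. -/
theorem nakL {k V : Type*} [Field k] [AddCommGroup V] [Module k V] [FiniteDimensional k V]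
    {f g : Module.End k V} (h : f * g = g * f) {z : V} (hz0 : z ≠ 0) (hf : f z = 0)
    (hg : g z = 0) : ∃ φ : V →ₗ[k] k, φ ≠ 0 ∧ φ ∘ₗ f = 0 ∧ φ ∘ₗ g = 0 := by
  classical
  by_cases htop : LinearMap.range f ⊔ LinearMap.range g = ⊤
  · exfalso
    set s : Set (Module.End k V) := {f, g} with hs
    have hcomm : ∀ a ∈ s, ∀ b ∈ s, a * b = b * a := by
      intro a ha b hb
      rw [hs, Set.mem_insert_iff, Set.mem_singleton_iff] at ha hb
      rcases ha with rfl | rfl <;> rcases hb with rfl | rfl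
      · rfl
      · exact h
      · exact h.symm
      · rfl
    let _ : CommRing (Algebra.adjoin k s) := Algebra.adjoinCommRingOfComm k hcomm
    set F : Algebra.adjoin k s := ⟨f, Algebra.subset_adjoin (Set.mem_insert _ _)⟩ with hF
    set G : Algebra.adjoin k s := ⟨g, Algebra.subset_adjoin (Set.mem_insert_of_mem _ rfl)⟩ with hG
    set I : Ideal (Algebra.adjoin k s) := Ideal.span {F, G} with hI
    have : Module.Finite (Algebra.adjoin k s) V :=
      Module.Finite.of_restrictScalars_finite k (Algebra.adjoin k s) V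
    have hFI : F ∈ I := Ideal.subset_span (Set.mem_insert _ _)
    have hGI : G ∈ I := Ideal.subset_span (Set.mem_insert_of_mem _ rfl)
    have hle : (⊤ : Submodule (Algebra.adjoin k s) V) ≤ I • ⊤ := by
      intro v _
      have hv : v ∈ LinearMap.range f ⊔ LinearMap.range g := by rw [htop]; trivial
      obtain ⟨a, ⟨x, rfl⟩, b, ⟨y, rfl⟩, rfl⟩ := Submodule.mem_sup.1 hv
      refine Submodule.add_mem _ ?_ ?_
      · exact Submodule.smul_mem_smul (r := F) (n := x) hFI trivial
      · exact Submodule.smul_mem_smul (r := G) (n := y) hGI trivial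
    obtain ⟨r, hr1, hr2⟩ := Submodule.exists_sub_one_mem_and_smul_eq_zero_of_fg_of_le_smul I ⊤
      Module.Finite.fg_top hle
    have hkill : ∀ t ∈ I, t • z = 0 := by
      intro t ht
      rw [hI, Ideal.mem_span_pair] at ht
      obtain ⟨a, b, rfl⟩ := ht
      have hFz : F • z = 0 := hf
      have hGz : G • z = 0 := hg
      rw [add_smul, mul_smul, mul_smul, hFz, hGz, smul_zero, smul_zero, add_zero]
    have h1 := hkill _ hr1
    rw [sub_smul, one_smul, hr2 z trivial, zero_sub, neg_eq_zero] at h1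
    exact hz0 h1
  · obtain ⟨φ, hφ, hle⟩ := Submodule.exists_le_ker_of_lt_top _ (lt_top_iff_ne_top.2 htop)
    refine ⟨φ, hφ, ?_, ?_⟩
    · ext v
      exact hle (Submodule.mem_sup_left ⟨v, rfl⟩)
    · ext v
      exact hle (Submodule.mem_sup_right ⟨v, rfl⟩)

/-- A common eigenvector. -/
theorem comm_eig {k V : Type*} [Field k] [IsAlgClosed k] [AddCommGroup V] [Module k V]
    [FiniteDimensional k V] [Nontrivial V] {f g : Module.End k V} (h : f * g = g * f) :
    ∃ (x x' : k) (v : V), v ≠ 0 ∧ f v = x • v ∧ g v = x' • v := by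
  obtain ⟨x, hx⟩ := Module.End.exists_eigenvalue f
  set W := Module.End.eigenspace f x with hW
  have hWne : W ≠ ⊥ := hx
  have : Nontrivial W := Submodule.nontrivial_iff_ne_bot.2 hWne
  have hgW : ∀ v ∈ W, g v ∈ W := by
    intro v hv
    rw [hW, Module.End.mem_eigenspace_iff] at hv ⊢
    have h1 : f (g v) = g (f v) := by
      have := congrArg (fun t : Module.End k V => t v) h
      exact this
    rw [h1, hv, map_smul]
  obtain ⟨x', hx'⟩ := Module.End.exists_eigenvalue (g.restrict hgW)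
  obtain ⟨v, hv⟩ := hx'.exists_hasEigenvector
  refine ⟨x, x', v.1, fun h0 => hv.2 (Subtype.ext h0), ?_, ?_⟩
  · exact Module.End.mem_eigenspace_iff.1 v.2
  · have h2 := hv.apply_eq_smul
    have h3 := congrArg Subtype.val h2
    exact h3

theorem comm_sub {k V : Type*} [Field k] [AddCommGroup V] [Module k V] {f g : Module.End k V}
    (h : f * g = g * f) (x x' : k) :
    (f - x • (1 : Module.End k V)) * (g - x' • (1 : Module.End k V)) =
      (g - x' • (1 : Module.End k V)) * (f - x • (1 : Module.End k V)) := by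
  ext v
  have h1 : f (g v) = g (f v) := congrArg (fun t : Module.End k V => t v) h
  simp only [Module.End.mul_apply, LinearMap.sub_apply, LinearMap.smul_apply,
    Module.End.one_apply, map_sub, map_smul, h1]
  rw [smul_sub, smul_sub, smul_comm x x' v]
  abel

end NakAux

theorem nak {k : Type*} [Field k] {n : ℕ} {P P' : Matrix (Fin n) (Fin n) k} (h : P * P' = P' * P)
    {z : Fin n → k} (hz0 : z ≠ 0) (hz : P *ᵥ z = 0) (hz' : P' *ᵥ z = 0) :
    ∃ ζ : Fin n → k, ζ ≠ 0 ∧ ζ ᵥ* P = 0 ∧ ζ ᵥ* P' = 0 := by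
  have hc : (toLin' P : Module.End k (Fin n → k)) * toLin' P' = toLin' P' * toLin' P := by
    rw [Module.End.mul_eq_comp, Module.End.mul_eq_comp, ← toLin'_mul, ← toLin'_mul, h]
  obtain ⟨φ, hφ0, hφ1, hφ2⟩ := NakAux.nakL hc hz0 hz hz'
  refine ⟨fun i => φ (Pi.single i 1), NakAux.functional_ne_zero hφ0, ?_, ?_⟩
  · ext j
    rw [NakAux.vecMul_functional]
    exact congrArg (fun t : (Fin n → k) →ₗ[k] k => t (Pi.single j 1)) hφ1
  · ext j
    rw [NakAux.vecMul_functional]
    exact congrArg (fun t : (Fin n → k) →ₗ[k] k => t (Pi.single j 1)) hφ2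

theorem eig_of_R {k : Type*} [Field k] [IsAlgClosed k] {e u p : ℕ}
    {Y Y' : Matrix (Fin e ⊕ Fin u) (Fin e ⊕ Fin u) k}
    {Th Th' : Matrix (Fin e ⊕ Fin u) (Fin p) k} {w w' : Matrix (Fin p) (Fin e) k}
    (hrel : Y * Y' * io k e u + Th * w' = Y' * Y * io k e u + Th' * w)
    {R : Matrix (Fin e) (Fin e ⊕ Fin u) k} (hR0 : R ≠ 0)
    (hY : io k e u * R * Y = Y * (io k e u * R)) (hY' : io k e u * R * Y' = Y' * (io k e u * R))
    (hTh : R * Th = 0) (hTh' : R * Th' = 0) (hw : w * R = 0) (hw' : w' * R = 0) :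
    ∃ (x x' : k) (z : Fin e → k) (ζ : Fin e ⊕ Fin u → k), z ≠ 0 ∧ ζ ≠ 0 ∧
      Y *ᵥ (io k e u *ᵥ z) = x • (io k e u *ᵥ z) ∧ Y' *ᵥ (io k e u *ᵥ z) = x' • (io k e u *ᵥ z) ∧
      w *ᵥ z = 0 ∧ w' *ᵥ z = 0 ∧ ζ ᵥ* Y = x • ζ ∧ ζ ᵥ* Y' = x' • ζ ∧ ζ ᵥ* Th = 0 ∧
      ζ ᵥ* Th' = 0 := by
  classical
  set S : Matrix (Fin e ⊕ Fin u) (Fin e ⊕ Fin u) k := io k e u * R with hS
  set σ : (Fin e ⊕ Fin u → k) →ₗ[k] (Fin e ⊕ Fin u → k) := S.mulVecLin with hσ
  set I := LinearMap.range σ with hI
  have hσa : ∀ y, σ y = S *ᵥ y := fun y => rfl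
  -- `Y` and `Y'` act on the range
  have hYI : ∀ v ∈ I, Y.mulVecLin v ∈ I := by
    rintro v ⟨y, rfl⟩
    refine ⟨Y *ᵥ y, ?_⟩
    rw [hσa, hσa, mulVecLin_apply, mulVec_mulVec, mulVec_mulVec, hY]
  have hYI' : ∀ v ∈ I, Y'.mulVecLin v ∈ I := by
    rintro v ⟨y, rfl⟩
    refine ⟨Y' *ᵥ y, ?_⟩
    rw [hσa, hσa, mulVecLin_apply, mulVec_mulVec, mulVec_mulVec, hY']
  have hcommS : Y * Y' * io k e u * R = Y' * Y * io k e u * R := by
    have h1 := congrArg (fun t => t * R) hrel
    simp only [Matrix.add_mul] at h1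
    rw [Matrix.mul_assoc Th w' R, Matrix.mul_assoc Th' w R, hw, hw', Matrix.mul_zero,
      Matrix.mul_zero, add_zero, add_zero] at h1
    exact h1
  set f : Module.End k I := (Y.mulVecLin).restrict hYI with hf
  set g : Module.End k I := (Y'.mulVecLin).restrict hYI' with hg
  have hfa : ∀ v : I, (f v : Fin e ⊕ Fin u → k) = Y *ᵥ v.1 := fun v => rfl
  have hga : ∀ v : I, (g v : Fin e ⊕ Fin u → k) = Y' *ᵥ v.1 := fun v => rfl
  have hfg : f * g = g * f := by
    ext1 v
    apply Subtype.ext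
    obtain ⟨y, hy⟩ := v.2
    rw [Module.End.mul_apply, Module.End.mul_apply, hfa, hga, hga, hfa, ← hy, hσa, mulVec_mulVec,
      mulVec_mulVec, mulVec_mulVec, mulVec_mulVec, ← Matrix.mul_assoc, ← Matrix.mul_assoc]
    exact congrArg (fun t => t *ᵥ y) hcommS
  have hS0 : S ≠ 0 := by
    intro h0
    apply hR0
    ext i j
    have h1 := congrFun (congrFun h0 (Sum.inl i)) j
    rw [hS, io, fromRows_mul, fromRows_apply_inl, Matrix.one_mul] at h1
    exact h1
  have : Nontrivial I := by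
    rw [Submodule.nontrivial_iff_ne_bot]
    intro h0
    apply hS0
    have h1 : σ = 0 := LinearMap.range_eq_bot.1 h0
    ext i j
    have h2 := congrFun (congrArg (fun t : (Fin e ⊕ Fin u → k) →ₗ[k] _ => t (Pi.single j 1)) h1) i
    rw [hσa, mulVec_single_one] at h2
    exact h2
  obtain ⟨x, x', v, hv0, hv1, hv2⟩ := NakAux.comm_eig hfg
  obtain ⟨y, hy⟩ := v.2
  have hvz : v.1 = io k e u *ᵥ (R *ᵥ y) := by
    rw [← hy, hσa, hS, mulVec_mulVec]
  have hv0' : v.1 ≠ 0 := fun h0 => hv0 (Subtype.ext h0)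
  have hc2 : (f - x • (1 : Module.End k I)) * (g - x' • (1 : Module.End k I)) =
      (g - x' • (1 : Module.End k I)) * (f - x • (1 : Module.End k I)) :=
    NakAux.comm_sub hfg x x'
  obtain ⟨φ, hφ0, hφ1, hφ2⟩ := NakAux.nakL hc2 hv0
    (by rw [LinearMap.sub_apply, hv1]; simp) (by rw [LinearMap.sub_apply, hv2]; simp)
  have hφf : ∀ a : I, φ (f a) = x * φ a := by
    intro a
    have h1 := congrArg (fun t : I →ₗ[k] k => t a) hφ1
    simp only [LinearMap.comp_apply, LinearMap.sub_apply, LinearMap.smul_apply,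
      Module.End.one_apply, map_sub, map_smul, LinearMap.zero_apply, smul_eq_mul] at h1
    exact sub_eq_zero.1 h1
  have hφg : ∀ a : I, φ (g a) = x' * φ a := by
    intro a
    have h1 := congrArg (fun t : I →ₗ[k] k => t a) hφ2
    simp only [LinearMap.comp_apply, LinearMap.sub_apply, LinearMap.smul_apply,
      Module.End.one_apply, map_sub, map_smul, LinearMap.zero_apply, smul_eq_mul] at h1
    exact sub_eq_zero.1 h1
  set ψ : (Fin e ⊕ Fin u → k) →ₗ[k] k := φ ∘ₗ σ.rangeRestrict with hψ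
  have hψ0 : ψ ≠ 0 := by
    intro h0
    apply hφ0
    ext a
    obtain ⟨y, hy⟩ := a.2
    have h1 : a = σ.rangeRestrict y := Subtype.ext hy.symm
    rw [h1]
    exact congrArg (fun t : (Fin e ⊕ Fin u → k) →ₗ[k] k => t y) h0
  have hψY : ∀ y, ψ (Y *ᵥ y) = x * ψ y := by
    intro y
    rw [hψ, LinearMap.comp_apply, LinearMap.comp_apply, ← hφf]
    congr 1
    apply Subtype.ext
    rw [hfa]
    simp only [LinearMap.codRestrict_apply, LinearMap.rangeRestrict]
    rw [hσa, hσa, mulVec_mulVec, mulVec_mulVec, hY]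
  have hψY' : ∀ y, ψ (Y' *ᵥ y) = x' * ψ y := by
    intro y
    rw [hψ, LinearMap.comp_apply, LinearMap.comp_apply, ← hφg]
    congr 1
    apply Subtype.ext
    rw [hga]
    simp only [LinearMap.codRestrict_apply, LinearMap.rangeRestrict]
    rw [hσa, hσa, mulVec_mulVec, mulVec_mulVec, hY']
  have hψT : ∀ (T : Matrix (Fin e ⊕ Fin u) (Fin p) k), R * T = 0 → ∀ c, ψ (T *ᵥ c) = 0 := by
    intro T hT c
    have h1 : σ.rangeRestrict (T *ᵥ c) = 0 := by
      apply Subtype.ext
      simp only [LinearMap.codRestrict_apply, LinearMap.rangeRestrict]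
      rw [hσa, hS, mulVec_mulVec, Matrix.mul_assoc, hT, Matrix.mul_zero, zero_mulVec]
      rfl
    rw [hψ, LinearMap.comp_apply, h1, map_zero]
  refine ⟨x, x', R *ᵥ y, fun i => ψ (Pi.single i 1), ?_, NakAux.functional_ne_zero hψ0, ?_, ?_, ?_,
    ?_, ?_, ?_, ?_, ?_⟩
  · intro h0
    apply hv0'
    rw [hvz, h0, mulVec_zero]
  · rw [← hvz, ← hfa, hv1]; rfl
  · rw [← hvz, ← hga, hv2]; rfl
  · rw [mulVec_mulVec, hw, zero_mulVec]
  · rw [mulVec_mulVec, hw', zero_mulVec]
  · ext j
    rw [NakAux.vecMul_functional, hψY, Pi.smul_apply, smul_eq_mul]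
  · ext j
    rw [NakAux.vecMul_functional, hψY', Pi.smul_apply, smul_eq_mul]
  · ext j
    rw [NakAux.vecMul_functional, hψT _ hTh]; rfl
  · ext j
    rw [NakAux.vecMul_functional, hψT _ hTh']; rfl

end Pool.Agent.Lib.D12
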