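import Pool.Agent.Lib.D12.XI

/-!
Module SplitI. Raise in case I for a split 3-block: `z` in `E`, `ζ` in `F*`, `ζ(ι z) = 1`, everything but the tails
`D, D'` is killed by `z` and by `ζ`. Put `f := ι z`, `Q := vecMulVec f ζ` (idempotent, `Y Q = 0`, `Q Y = 0`, same
for `Y'`).

(a) along the line from `C` to `XI (1 - Q) 0 0 0` the matrix `Y' + Q` becomes invertible.
(b) conjugation: `D' z = m f`, `ζ D' = m (ζ ι)`. (c) multiples of `A ^ 2`: `D' z = 0`, `ζ D' = 0`, `ζ D z = 0`.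
(d) `D z ≠ 0`. (e) raise by `K = z κ` on `E_0` and `φ ζ` on `V_2`, `κ = ζ D`, `φ = D z`.
-/

set_option autoImplicit false

namespace Pool.Agent.Lib.D12

open Matrix Pool.Agent.Lib.Q5dc Pool.Agent.Lib.D7 Pool.Agent.Lib.D9

variable {k : Type*} [Field k] {e u p : ℕ} {ρ : ℕ → ℕ}
  {Y Y' : Matrix (Fin e ⊕ Fin u) (Fin e ⊕ Fin u) k}
  {Th Th' : Matrix (Fin e ⊕ Fin u) (Fin p) k} {w w' : Matrix (Fin p) (Fin e) k}
  {D D' : Matrix (Fin e ⊕ Fin u) (Fin e) k}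

namespace SplitIAux

theorem isPoly_det {m : Type*} [Fintype m] [DecidableEq m]
    {M : k → Matrix m m k} (hM : ∀ x y, D7.IsPoly fun s => M s x y) :
    D7.IsPoly fun s => (M s).det := by
  choose p hp using hM
  refine ⟨(Matrix.of fun i j => p i j).det, fun s => ?_⟩
  rw [← Polynomial.coe_evalRingHom, RingHom.map_det]
  have e : M s = (Polynomial.evalRingHom s).mapMatrix (Matrix.of fun i j => p i j) := by
    ext i j
    exact hp i j s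
  rw [← e]

/-- blocks `E_0 → E_0`, `E_0 → F`, `F → V_2`, `E_0 → V_2`, `V_2 → V_2`, `E_0 → P`, `P → V_2` -/
def ZI (K0 : Matrix (Fin e) (Fin e) k) (n : Matrix (Fin e ⊕ Fin u) (Fin e) k)
    (m : Matrix (Fin e ⊕ Fin u) (Fin e ⊕ Fin u) k) (l : Matrix (Fin e ⊕ Fin u) (Fin e) k)
    (c : Matrix (Fin e ⊕ Fin u) (Fin e ⊕ Fin u) k) (w : Matrix (Fin p) (Fin e) k)
    (th : Matrix (Fin e ⊕ Fin u) (Fin p) k) : Matrix (Ix e u p) (Ix e u p) k :=
  Matrix.of fun i j => match i, j with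
    | .inl (.inl i), .inl (.inl j) => K0 i j
    | .inl (.inr (.inl i)), .inl (.inl j) => n (.inl i) j
    | .inr (.inl (.inl i)), .inl (.inl j) => n (.inr i) j
    | .inl (.inr (.inr i)), .inl (.inr (.inl j)) => m (.inl i) (.inl j)
    | .inl (.inr (.inr i)), .inr (.inl (.inl j)) => m (.inl i) (.inr j)
    | .inr (.inl (.inr i)), .inl (.inr (.inl j)) => m (.inr i) (.inl j)
    | .inr (.inl (.inr i)), .inr (.inl (.inl j)) => m (.inr i) (.inr j)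
    | .inl (.inr (.inr i)), .inl (.inl j) => l (.inl i) j
    | .inr (.inl (.inr i)), .inl (.inl j) => l (.inr i) j
    | .inl (.inr (.inr i)), .inl (.inr (.inr j)) => c (.inl i) (.inl j)
    | .inl (.inr (.inr i)), .inr (.inl (.inr j)) => c (.inl i) (.inr j)
    | .inr (.inl (.inr i)), .inl (.inr (.inr j)) => c (.inr i) (.inl j)
    | .inr (.inl (.inr i)), .inr (.inl (.inr j)) => c (.inr i) (.inr j)
    | .inr (.inr i), .inl (.inl j) => w i j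
    | .inl (.inr (.inr i)), .inr (.inr j) => th (.inl i) j
    | .inr (.inl (.inr i)), .inr (.inr j) => th (.inr i) j
    | _, _ => 0

theorem ZI_mul (K0 K0' : Matrix (Fin e) (Fin e) k) (n n' l l' : Matrix (Fin e ⊕ Fin u) (Fin e) k)
    (m m' c c' : Matrix (Fin e ⊕ Fin u) (Fin e ⊕ Fin u) k) (w w' : Matrix (Fin p) (Fin e) k)
    (th th' : Matrix (Fin e ⊕ Fin u) (Fin p) k) :
    ZI K0 n m l c w th * ZI K0' n' m' l' c' w' th' =
      ZI (K0 * K0') (n * K0') (c * m') (l * K0' + m * n' + c * l' + th * w') (c * c') (w * K0')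
        (c * th') := by
  ext i j
  rcases i with (i | i | i) | ((i | i) | i) <;> rcases j with (j | j | j) | ((j | j) | j) <;>
    simp only [ZI, Matrix.mul_apply, Matrix.add_apply, Fintype.sum_sum_type, Matrix.of_apply,
      zero_mul, mul_zero, Finset.sum_const_zero, add_zero, zero_add] <;> abel

theorem ZI_zero : (ZI 0 0 0 0 0 0 0 : Matrix (Ix e u p) (Ix e u p) k) = 0 := by
  ext i j
  rcases i with (i | i | i) | ((i | i) | i) <;> rcases j with (j | j | j) | ((j | j) | j) <;>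
    simp [ZI]

theorem ZI_l {l : Matrix (Fin e ⊕ Fin u) (Fin e) k}
    (h : (ZI 0 0 0 l 0 0 0 : Matrix (Ix e u p) (Ix e u p) k) = 0) : l = 0 := by
  ext i j
  rcases i with i | i
  · exact congrFun (congrFun h (.inl (.inr (.inr i)))) (.inl (.inl j))
  · exact congrFun (congrFun h (.inr (.inl (.inr i)))) (.inl (.inl j))

theorem XI_eq (Y : Matrix (Fin e ⊕ Fin u) (Fin e ⊕ Fin u) k)
    (Th : Matrix (Fin e ⊕ Fin u) (Fin p) k) (w : Matrix (Fin p) (Fin e) k)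
    (D : Matrix (Fin e ⊕ Fin u) (Fin e) k) :
    XI Y Th w D = ZI 0 (Y * io k e u) Y D 0 w Th := by
  ext i j
  rcases i with (i | i | i) | ((i | i) | i) <;> rcases j with (j | j | j) | ((j | j) | j) <;>
    simp [XI, BX, ZI, io, toBlocks₁₁, toBlocks₁₂, toBlocks₂₁, toBlocks₂₂, toRows₁, toRows₂,
      Matrix.mul_apply, Fintype.sum_sum_type, Matrix.one_apply]

theorem add_K (K0 : Matrix (Fin e) (Fin e) k) (c : Matrix (Fin e ⊕ Fin u) (Fin e ⊕ Fin u) k)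
    (s : k) : JX k e u p + s • ZI K0 0 0 0 c 0 0 =
      ZI (s • K0) (io k e u) 1 0 (s • c) 0 0 := by
  ext i j
  rcases i with (i | i | i) | ((i | i) | i) <;> rcases j with (j | j | j) | ((j | j) | j) <;>
    simp [JX, BX, ZI, io, Matrix.one_apply]

theorem sq (K0 : Matrix (Fin e) (Fin e) k) (c : Matrix (Fin e ⊕ Fin u) (Fin e ⊕ Fin u) k)
    (h0 : K0 * K0 = 0) (hc : c * c = 0) :
    (ZI K0 (io k e u) 1 0 c 0 0 : Matrix (Ix e u p) (Ix e u p) k) ^ 2 =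
      ZI 0 (io k e u * K0) c (io k e u) 0 0 0 := by
  rw [pow_two, ZI_mul, h0, hc]
  simp

theorem cube (K0 : Matrix (Fin e) (Fin e) k) (c : Matrix (Fin e ⊕ Fin u) (Fin e ⊕ Fin u) k)
    (h0 : K0 * K0 = 0) (hc : c * c = 0) :
    (ZI K0 (io k e u) 1 0 c 0 0 : Matrix (Ix e u p) (Ix e u p) k) ^ 3 =
      ZI 0 0 0 (io k e u * K0 + c * io k e u) 0 0 0 := by
  rw [pow_succ, sq K0 c h0 hc, ZI_mul, Matrix.mul_assoc, h0]
  simp

theorem nil (K0 : Matrix (Fin e) (Fin e) k) (c : Matrix (Fin e ⊕ Fin u) (Fin e ⊕ Fin u) k)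
    (h0 : K0 * K0 = 0) (hc : c * c = 0) :
    IsNilpotent (ZI K0 (io k e u) 1 0 c 0 0 : Matrix (Ix e u p) (Ix e u p) k) := by
  refine ⟨3 + 2, ?_⟩
  rw [pow_add, cube K0 c h0 hc, sq K0 c h0 hc, ZI_mul]
  simp [ZI_zero]

theorem vecMulVec_zero' {a b : Type*} (v : b → k) : vecMulVec (0 : a → k) v = 0 := by
  ext i j
  simp [vecMulVec]

theorem vecMulVec_zero {a b : Type*} (v : a → k) : vecMulVec v (0 : b → k) = 0 := by
  ext i j
  simp [vecMulVec]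

/-- (e) the raise -/
theorem raise [Infinite k] (h3 : ρ 3 = 0) {z : Fin e → k} {ζ : Fin e ⊕ Fin u → k}
    (hz : Y *ᵥ (io k e u *ᵥ z) = 0) (hz' : Y' *ᵥ (io k e u *ᵥ z) = 0)
    (hw : w *ᵥ z = 0) (hw' : w' *ᵥ z = 0)
    (hζ : ζ ᵥ* Y = 0) (hζ' : ζ ᵥ* Y' = 0) (hθ : ζ ᵥ* Th = 0) (hθ' : ζ ᵥ* Th' = 0)
    (h1 : ζ ⬝ᵥ (io k e u *ᵥ z) = 1) (hD' : D' *ᵥ z = 0) (hζD' : ζ ᵥ* D' = 0)
    (h0 : ζ ⬝ᵥ (D *ᵥ z) = 0) (hD : D *ᵥ z ≠ 0)
    (hT : MaxR ρ ![JX k e u p, XI Y Th w D, XI Y' Th' w' D']) : False := by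
  obtain ⟨K0, hK0⟩ : ∃ K0, K0 = vecMulVec z (ζ ᵥ* D) := ⟨_, rfl⟩
  obtain ⟨c, hc⟩ : ∃ c, c = vecMulVec (D *ᵥ z) ζ := ⟨_, rfl⟩
  have q0 : K0 * K0 = 0 := by
    rw [hK0, vecMulVec_mul_vecMulVec, ← Matrix.dotProduct_mulVec, h0]
    simp
  have qc : c * c = 0 := by
    rw [hc, vecMulVec_mul_vecMulVec, h0]
    simp
  have s0 : ∀ s : k, s • K0 * s • K0 = 0 := fun s => by
    rw [smul_mul_smul_comm, q0, smul_zero]
  have sc : ∀ s : k, s • c * s • c = 0 := fun s => by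
    rw [smul_mul_smul_comm, qc, smul_zero]
  have c1 : (ZI K0 0 0 0 c 0 0 : Matrix (Ix e u p) (Ix e u p) k) * XI Y Th w D =
      XI Y Th w D * ZI K0 0 0 0 c 0 0 := by
    have e1 : Y * io k e u * K0 = 0 := by
      rw [Matrix.mul_assoc, hK0, mul_vecMulVec, mul_vecMulVec, hz, vecMulVec_zero']
    have e2 : w * K0 = 0 := by rw [hK0, mul_vecMulVec, hw, vecMulVec_zero']
    have e3 : c * Y = 0 := by rw [hc, vecMulVec_mul, hζ, vecMulVec_zero]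
    have e4 : c * Th = 0 := by rw [hc, vecMulVec_mul, hθ, vecMulVec_zero]
    have e5 : c * D = D * K0 := by rw [hc, hK0, vecMulVec_mul, mul_vecMulVec]
    rw [XI_eq, ZI_mul, ZI_mul, e1, e2, e3, e4, e5]
    simp
  have c2 : (ZI K0 0 0 0 c 0 0 : Matrix (Ix e u p) (Ix e u p) k) * XI Y' Th' w' D' =
      XI Y' Th' w' D' * ZI K0 0 0 0 c 0 0 := by
    have e1 : Y' * io k e u * K0 = 0 := by
      rw [Matrix.mul_assoc, hK0, mul_vecMulVec, mul_vecMulVec, hz', vecMulVec_zero']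
    have e2 : w' * K0 = 0 := by rw [hK0, mul_vecMulVec, hw', vecMulVec_zero']
    have e3 : c * Y' = 0 := by rw [hc, vecMulVec_mul, hζ', vecMulVec_zero]
    have e4 : c * Th' = 0 := by rw [hc, vecMulVec_mul, hθ', vecMulVec_zero]
    have e5 : c * D' = 0 := by rw [hc, vecMulVec_mul, hζD', vecMulVec_zero]
    have e6 : D' * K0 = 0 := by rw [hK0, mul_vecMulVec, hD', vecMulVec_zero']
    rw [XI_eq, ZI_mul, ZI_mul, e1, e2, e3, e4, e5, e6]
    simp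
  have c3 : XI Y Th w D * XI Y' Th' w' D' = XI Y' Th' w' D' * XI Y Th w D := hT.cn.1 1 2
  refine D8.MaxR.raise0 hT (ZI K0 0 0 0 c 0 0) 0 0 (fun s => ?_) 3 h3 1 0 0 ?_
  · rw [smul_zero, add_zero, add_zero]
    refine D8.cn3 ?_ ?_ c3 ?_ (BX_nil ..) (BX_nil ..)
    · rw [add_mul, mul_add, smul_mul_assoc, mul_smul_comm, c1]
      congr 1
      exact JX_comm ..
    · rw [add_mul, mul_add, smul_mul_assoc, mul_smul_comm, c2]
      congr 1
      exact JX_comm ..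
    · rw [add_K]
      exact nil _ _ (s0 s) (sc s)
  · refine (Set.Finite.infinite_compl (Set.finite_singleton (0 : k))).mono fun s hs h => hD ?_
    rw [Set.mem_compl_iff, Set.mem_singleton_iff] at hs
    rw [one_smul, zero_smul, zero_smul, add_zero, add_zero, add_K, cube _ _ (s0 s) (sc s)] at h
    have h' := ZI_l h
    have h2 : (io k e u * s • K0 + s • c * io k e u) *ᵥ z = s • (D *ᵥ z) := by
      rw [Matrix.add_mulVec, ← Matrix.mulVec_mulVec, ← Matrix.mulVec_mulVec, Matrix.smul_mulVec,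
        Matrix.smul_mulVec, hK0, hc, vecMulVec_mulVec, vecMulVec_mulVec,
        ← Matrix.dotProduct_mulVec, h0, h1]
      simp
    rw [h', Matrix.zero_mulVec] at h2
    exact (smul_eq_zero.1 h2.symm).resolve_left hs

/-- (d) -/
theorem stepD [Infinite k] (h3 : ρ 3 = 0) (hF : 2 ≤ e + u) {z : Fin e → k}
    {ζ : Fin e ⊕ Fin u → k}
    (hz : Y *ᵥ (io k e u *ᵥ z) = 0) (hz' : Y' *ᵥ (io k e u *ᵥ z) = 0)
    (hw : w *ᵥ z = 0) (hw' : w' *ᵥ z = 0)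
    (hζ : ζ ᵥ* Y = 0) (hζ' : ζ ᵥ* Y' = 0) (hθ : ζ ᵥ* Th = 0) (hθ' : ζ ᵥ* Th' = 0)
    (h1 : ζ ⬝ᵥ (io k e u *ᵥ z) = 1) (hD' : D' *ᵥ z = 0) (hζD' : ζ ᵥ* D' = 0)
    (h0 : ζ ⬝ᵥ (D *ᵥ z) = 0)
    (hT : MaxR ρ ![JX k e u p, XI Y Th w D, XI Y' Th' w' D']) : False := by
  obtain ⟨y, hy, hy0⟩ : ∃ y : Fin e ⊕ Fin u → k, ζ ⬝ᵥ y = 0 ∧ y ≠ 0 := by
    have hc : Module.finrank k (Fin 1 → k) < Module.finrank k (Fin e ⊕ Fin u → k) := by
      rw [Module.finrank_fintype_fun_eq_card, Module.finrank_fintype_fun_eq_card]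
      simp
      omega
    obtain ⟨y, hy, hy0⟩ := Submodule.exists_mem_ne_zero_of_ne_bot
      (LinearMap.ker_ne_bot_of_finrank_lt
        (f := Matrix.mulVecLin (Matrix.of fun (_ : Fin 1) x => ζ x)) hc)
    exact ⟨y, congrFun hy 0, hy0⟩
  have hfin : {s : k | D *ᵥ z + s • y = 0}.Finite := by
    refine Set.Subsingleton.finite fun s hs t ht => ?_
    rw [Set.mem_ofPred_eq] at hs ht
    have : (s - t) • y = 0 := by
      rw [sub_smul, sub_eq_zero]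
      exact add_left_cancel (hs.trans ht.symm)
    exact sub_eq_zero.1 ((smul_eq_zero.1 this).resolve_right hy0)
  obtain ⟨s, hs, hT'⟩ := MaxR.lineI hT 0 0 0 0 0 0 (vecMulVec y (ζ ᵥ* io k e u)) 0 (fun s => by
    simp only [smul_zero, add_zero]
    exact MaxR.relI hT) hfin
  simp only [smul_zero, add_zero] at hT'
  have e1 : (D + s • vecMulVec y (ζ ᵥ* io k e u)) *ᵥ z = D *ᵥ z + s • y := by
    rw [Matrix.add_mulVec, Matrix.smul_mulVec, vecMulVec_mulVec, ← Matrix.dotProduct_mulVec, h1]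
    simp
  refine raise h3 hz hz' hw hw' hζ hζ' hθ hθ' h1 hD' hζD' ?_ ?_ hT'
  · rw [e1, dotProduct_add, dotProduct_smul, hy, h0, smul_zero, add_zero]
  · rw [e1]
    exact hs

/-- (b), (c) -/
theorem stepB [Infinite k] (h3 : ρ 3 = 0) (hF : 2 ≤ e + u) {z : Fin e → k}
    {ζ : Fin e ⊕ Fin u → k}
    (hz : Y *ᵥ (io k e u *ᵥ z) = 0) (hz' : Y' *ᵥ (io k e u *ᵥ z) = 0)
    (hw : w *ᵥ z = 0) (hw' : w' *ᵥ z = 0)
    (hζ : ζ ᵥ* Y = 0) (hζ' : ζ ᵥ* Y' = 0) (hθ : ζ ᵥ* Th = 0) (hθ' : ζ ᵥ* Th' = 0)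
    (h1 : ζ ⬝ᵥ (io k e u *ᵥ z) = 1)
    (hdet : (Y' + vecMulVec (io k e u *ᵥ z) ζ).det ≠ 0)
    (hT : MaxR ρ ![JX k e u p, XI Y Th w D, XI Y' Th' w' D']) : False := by
  obtain ⟨f, hf⟩ : ∃ f, f = io k e u *ᵥ z := ⟨_, rfl⟩
  obtain ⟨Q, hQ⟩ : ∃ Q, Q = vecMulVec f ζ := ⟨_, rfl⟩
  rw [← hf] at hz hz' h1 hdet
  rw [← hQ] at hdet
  have hQQ : Q * Q = Q := by
    rw [hQ, vecMulVec_mul_vecMulVec, h1, one_smul]
  have hYQ : Y' * Q = 0 := by rw [hQ, mul_vecMulVec, hz', vecMulVec_zero']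
  have hQY : Q * Y' = 0 := by rw [hQ, vecMulVec_mul, hζ', vecMulVec_zero]
  have hQf : Q *ᵥ f = f := by
    rw [hQ, vecMulVec_mulVec, h1]
    simp
  have hζQ : ζ ᵥ* Q = ζ := by
    rw [hQ, vecMul_vecMulVec, h1, one_smul]
  obtain ⟨R, hR1, hR2⟩ : ∃ R, R * (Y' + Q) = 1 ∧ (Y' + Q) * R = 1 :=
    ⟨(Y' + Q)⁻¹, Matrix.nonsing_inv_mul _ (isUnit_iff_ne_zero.2 hdet),
      Matrix.mul_nonsing_inv _ (isUnit_iff_ne_zero.2 hdet)⟩
  have hRQ : R * Q = Q := by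
    have : R * ((Y' + Q) * Q) = R * Q := by rw [Matrix.add_mul, hYQ, hQQ, zero_add]
    rw [← this, ← Matrix.mul_assoc, hR1, Matrix.one_mul]
  have hQR : Q * R = Q := by
    have : (Q * (Y' + Q)) * R = Q * R := by rw [Matrix.mul_add, hQY, hQQ, zero_add]
    rw [← this, Matrix.mul_assoc, hR2, Matrix.mul_one]
  have hRY : R * Y' = 1 - Q := by
    rw [← hR1, Matrix.mul_add, hRQ, add_sub_cancel_right]
  have hYR : Y' * R = 1 - Q := by
    rw [← hR2, Matrix.add_mul, hQR, add_sub_cancel_right]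
  obtain ⟨G, hG⟩ : ∃ G, G = (1 - Q) * R := ⟨_, rfl⟩
  have hGY : G * Y' = 1 - Q := by
    rw [hG, Matrix.mul_assoc, hRY, Matrix.mul_sub, Matrix.sub_mul (1 : Matrix _ _ k) Q Q, hQQ]
    simp
  have hYG : Y' * G = 1 - Q := by
    rw [hG, ← Matrix.mul_assoc, Matrix.mul_sub, hYQ, Matrix.mul_one, sub_zero, hYR]
  obtain ⟨g, hg⟩ : ∃ g, g = D' *ᵥ z := ⟨_, rfl⟩
  obtain ⟨m, hm⟩ : ∃ m, m = ζ ⬝ᵥ g := ⟨_, rfl⟩
  obtain ⟨r0, hr0⟩ : ∃ r0, r0 = ζ ᵥ* D' - m • (ζ ᵥ* io k e u) := ⟨_, rfl⟩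
  obtain ⟨r, hr⟩ : ∃ r : Fin e ⊕ Fin u → k, r = Sum.elim r0 0 := ⟨_, rfl⟩
  have hrι : r ᵥ* io k e u = r0 := by
    rw [hr, io, vecMul_fromRows]
    simp
  have hζf : (ζ ᵥ* io k e u) ⬝ᵥ z = 1 := by rw [← Matrix.dotProduct_mulVec, ← hf, h1]
  have hr0z : r0 ⬝ᵥ z = 0 := by
    rw [hr0, sub_dotProduct, smul_dotProduct, hζf, ← Matrix.dotProduct_mulVec, ← hg, ← hm]
    simp
  have hrf : r ⬝ᵥ f = 0 := by
    rw [hf, Matrix.dotProduct_mulVec, hrι, hr0z]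
  obtain ⟨L, hL⟩ : ∃ L, L = vecMulVec (G *ᵥ g) ζ - vecMulVec f (r ᵥ* G) := ⟨_, rfl⟩
  have hLY : L * Y' * io k e u = - vecMulVec f r0 := by
    rw [hL, Matrix.sub_mul, vecMulVec_mul, vecMulVec_mul, hζ', vecMulVec_zero,
      Matrix.vecMul_vecMul, hGY, Matrix.vecMul_sub, Matrix.vecMul_one, hQ, vecMul_vecMulVec, hrf,
      zero_smul, sub_zero, zero_sub, Matrix.neg_mul, vecMulVec_mul, hrι]
  have hYL : Y' * L * io k e u = vecMulVec (g - m • f) (ζ ᵥ* io k e u) := by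
    rw [hL, Matrix.mul_sub, mul_vecMulVec, mul_vecMulVec, hz', vecMulVec_zero', sub_zero,
      Matrix.mulVec_mulVec, hYG, Matrix.sub_mulVec, Matrix.one_mulVec, hQ, vecMulVec_mulVec,
      vecMulVec_mul, ← hm]
    simp
  have hT1 := MaxR.conjI hT L 0 0
  simp only [Matrix.zero_mul, Matrix.mul_zero, add_zero] at hT1
  rw [hLY, hYL] at hT1
  obtain ⟨D1, hD1⟩ : ∃ D1, D1 = D + L * Y * io k e u - Y * L * io k e u := ⟨_, rfl⟩
  obtain ⟨D2, hD2⟩ : ∃ D2, D2 = D' + - vecMulVec f r0 -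
    vecMulVec (g - m • f) (ζ ᵥ* io k e u) := ⟨_, rfl⟩
  rw [← hD1, ← hD2] at hT1
  have a1 : D2 *ᵥ z = m • f := by
    rw [hD2, Matrix.sub_mulVec, Matrix.add_mulVec, Matrix.neg_mulVec, vecMulVec_mulVec,
      vecMulVec_mulVec, hr0z, hζf, ← hg]
    simp
  have a2 : ζ ᵥ* D2 = m • (ζ ᵥ* io k e u) := by
    rw [hD2, Matrix.vecMul_sub, Matrix.vecMul_add, Matrix.vecMul_neg, vecMul_vecMulVec,
      vecMul_vecMulVec, h1, dotProduct_sub, dotProduct_smul, h1, ← hm, hr0]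
    simp
  have hT2 := MaxR.linI hT1 1 0 0 1 0 (-(ζ ⬝ᵥ (D1 *ᵥ z))) 0 (-m) (by simp)
  simp only [one_smul, zero_smul, add_zero, zero_add] at hT2
  refine stepD h3 hF (hf ▸ hz) (hf ▸ hz') hw hw' hζ hζ' hθ hθ' (hf ▸ h1) ?_ ?_ ?_ hT2
  · rw [Matrix.add_mulVec, Matrix.smul_mulVec, ← hf, a1, neg_smul, add_neg_cancel]
  · rw [Matrix.vecMul_add, Matrix.vecMul_smul, a2, neg_smul, add_neg_cancel]
  · rw [Matrix.add_mulVec, Matrix.smul_mulVec, ← hf, dotProduct_add, dotProduct_smul, h1]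
    simp

end SplitIAux

theorem no_splitI [Infinite k] (h3 : ρ 3 = 0) (hF : 2 ≤ e + u) {z : Fin e → k}
    {ζ : Fin e ⊕ Fin u → k}
    (hz : Y *ᵥ (io k e u *ᵥ z) = 0) (hz' : Y' *ᵥ (io k e u *ᵥ z) = 0)
    (hw : w *ᵥ z = 0) (hw' : w' *ᵥ z = 0)
    (hζ : ζ ᵥ* Y = 0) (hζ' : ζ ᵥ* Y' = 0) (hθ : ζ ᵥ* Th = 0) (hθ' : ζ ᵥ* Th' = 0)
    (h1 : ζ ⬝ᵥ (io k e u *ᵥ z) = 1)
    (hT : MaxR ρ ![JX k e u p, XI Y Th w D, XI Y' Th' w' D']) : False := by
  obtain ⟨Q, hQ⟩ : ∃ Q, Q = vecMulVec (io k e u *ᵥ z) ζ := ⟨_, rfl⟩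
  have hYQ : Y * Q = 0 := by
    rw [hQ, mul_vecMulVec, hz, SplitIAux.vecMulVec_zero']
  have hQY : Q * Y = 0 := by
    rw [hQ, vecMulVec_mul, hζ, SplitIAux.vecMulVec_zero]
  have hQf : Q *ᵥ (io k e u *ᵥ z) = io k e u *ᵥ z := by
    rw [hQ, vecMulVec_mulVec, h1]
    simp
  have hζQ : ζ ᵥ* Q = ζ := by
    rw [hQ, vecMul_vecMulVec, h1, one_smul]
  have hrel := MaxR.relI hT
  obtain ⟨s, hs, hT'⟩ := MaxR.lineI hT 0 ((1 - Q) - Y') 0 (-Th') 0 (-w') 0 (-D') (fun s => by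
    simp only [smul_zero, add_zero]
    have g1 : Y * (Y' + s • ((1 - Q) - Y')) * io k e u + Th * (w' + s • (-w')) =
        (1 - s) • (Y * Y' * io k e u + Th * w') + s • (Y * io k e u) - s • (Y * Q * io k e u) := by
      simp only [Matrix.mul_add, Matrix.mul_sub, Matrix.add_mul, Matrix.sub_mul, Matrix.mul_smul,
        Matrix.smul_mul, Matrix.mul_one, Matrix.mul_neg, smul_add, smul_sub, sub_smul, one_smul,
        smul_neg]
      abel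
    have g2 : (Y' + s • ((1 - Q) - Y')) * Y * io k e u + (Th' + s • (-Th')) * w =
        (1 - s) • (Y' * Y * io k e u + Th' * w) + s • (Y * io k e u) - s • (Q * Y * io k e u) := by
      simp only [Matrix.add_mul, Matrix.sub_mul, Matrix.smul_mul, Matrix.one_mul, Matrix.neg_mul,
        smul_add, smul_sub, sub_smul, one_smul, smul_neg]
      abel
    rw [g1, g2, hrel, hYQ, hQY])
    ((SplitIAux.isPoly_det (M := fun s => (Y' + s • ((1 - Q) - Y')) + Q) (fun x y =>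
      ((D7.IsPoly.const _).add (D7.IsPoly.id.mul (D7.IsPoly.const _))).add
        (D7.IsPoly.const _))).finite (s₁ := 1) (by
      have : (Y' + (1 : k) • ((1 - Q) - Y')) + Q = 1 := by
        rw [one_smul]
        abel
      rw [this, Matrix.det_one]
      exact one_ne_zero))
  simp only [smul_zero, add_zero] at hT'
  refine SplitIAux.stepB h3 hF hz ?_ hw ?_ hζ ?_ hθ ?_ h1 ?_ hT'
  · rw [Matrix.add_mulVec, Matrix.smul_mulVec, Matrix.sub_mulVec, Matrix.sub_mulVec, hz',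
      Matrix.one_mulVec, hQf]
    simp
  · rw [Matrix.add_mulVec, Matrix.smul_mulVec, Matrix.neg_mulVec, hw']
    simp
  · rw [Matrix.vecMul_add, Matrix.vecMul_smul, Matrix.vecMul_sub, Matrix.vecMul_sub, hζ',
      Matrix.vecMul_one, hζQ]
    simp
  · rw [Matrix.vecMul_add, Matrix.vecMul_smul, Matrix.vecMul_neg, hθ']
    simp
  · rw [← hQ]
    exact hs

end Pool.Agent.Lib.D12
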