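import Pool.Agent.Lib.D12.RaiseI
import Pool.Agent.Lib.D12.SplitI
import Pool.Agent.Lib.D12.Lin311
import Pool.Agent.Lib.D12.W2b
import Pool.Agent.Lib.D12.Cl354

/-!
# MP_5dcbc3_ag: type (3,3,3,2,1), case I is impossible

Among the MaxR triples `![JX, XI Y Th w D, XI Y' Th' w' D']` of case I choose one with
`rank (Om Y Y' w w')` maximal. `Om` is not injective (cl_354). If `Cok0` fails, the common
eigenvectors of `eig_of_R` are excluded by the raises `no_splitI`, `no_dpI`, except that the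
left one is the last coordinate; then a change of `nu` gives `Cok0` back. With `Cok0`,
`smooth_up` and `lin311` give a triple to which `no_W2b` applies.
-/

set_option autoImplicit false

namespace Pool.Agent.Lib.D12

open Matrix Pool.Agent.Lib.Q5dc Pool.Agent.Lib.D7 Pool.Agent.Lib.D9

namespace NoI311Aux

variable {k : Type*} [Field k]

/-- the last coordinate, as a row -/
def us (k : Type*) [Field k] : Fin 3 ⊕ Fin 1 → k := Sum.elim 0 1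

theorem us_inl (i : Fin 3) : us k (Sum.inl i) = 0 := rfl

theorem us_inr (i : Fin 1) : us k (Sum.inr i) = 1 := rfl

theorem us_io : us k ᵥ* io k 3 1 = 0 := by
  funext j
  simp [us, io, Matrix.vecMul, dotProduct, Fintype.sum_sum_type]

theorem vecMul_io (v : Fin 3 ⊕ Fin 1 → k) : v ᵥ* io k 3 1 = fun j => v (Sum.inl j) := by
  funext j
  simp [io, Matrix.vecMul, dotProduct, Fintype.sum_sum_type, Matrix.one_apply]

theorem io_mulVec (z : Fin 3 → k) : io k 3 1 *ᵥ z = Sum.elim z 0 := by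
  funext j
  rcases j with j | j <;>
    simp [io, Matrix.mulVec, dotProduct, Matrix.one_apply]

theorem io_ne {z : Fin 3 → k} (hz : z ≠ 0) : io k 3 1 *ᵥ z ≠ 0 := by
  intro h
  apply hz
  funext j
  have h1 := congrFun h (Sum.inl j)
  rw [io_mulVec] at h1
  exact h1

/-- the matrix with one entry 1, at the last place -/
def E1 (k : Type*) [Field k] : Matrix (Fin 3 ⊕ Fin 1) (Fin 3 ⊕ Fin 1) k :=
  vecMulVec (us k) (us k)

theorem E1_mul (Y : Matrix (Fin 3 ⊕ Fin 1) (Fin 3 ⊕ Fin 1) k) :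
    E1 k * Y = vecMulVec (us k) (us k ᵥ* Y) := by
  rw [E1, Matrix.vecMulVec_mul]

theorem E1_io : E1 k * io k 3 1 = 0 := by
  rw [E1, Matrix.vecMulVec_mul, us_io]
  ext i j
  simp [vecMulVec]

theorem us_E1 : us k ᵥ* E1 k = us k := by
  funext j
  rcases j with j | j <;>
    simp [us, E1, vecMulVec, Matrix.vecMul, dotProduct, Fintype.sum_sum_type]

theorem E1_mulVec_io (z : Fin 3 → k) : E1 k *ᵥ (io k 3 1 *ᵥ z) = 0 := by
  rw [Matrix.mulVec_mulVec, E1_io, Matrix.zero_mulVec]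

theorem Om_mulVec_eq {e u p : ℕ} {Y Y' : Matrix (Fin e ⊕ Fin u) (Fin e ⊕ Fin u) k}
    {w w' : Matrix (Fin p) (Fin e) k} {z : Fin e → k} (h1 : Y.toBlocks₂₁ *ᵥ z = 0)
    (h2 : Y'.toBlocks₂₁ *ᵥ z = 0) (h3 : w *ᵥ z = 0) (h4 : w' *ᵥ z = 0) :
    Om Y Y' w w' *ᵥ z = 0 := by
  rw [Om]
  funext i
  rcases i with (i | i) | (i | i)
  · exact congrFun h1 i
  · exact congrFun h2 i
  · exact congrFun h3 i
  · exact congrFun h4 i

theorem Om_congr {e u p : ℕ} {Y Y' Z Z' : Matrix (Fin e ⊕ Fin u) (Fin e ⊕ Fin u) k}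
    {w w' : Matrix (Fin p) (Fin e) k} (h1 : Y.toBlocks₂₁ = Z.toBlocks₂₁)
    (h2 : Y'.toBlocks₂₁ = Z'.toBlocks₂₁) : Om Y Y' w w' = Om Z Z' w w' := by
  rw [Om, Om, h1, h2]

section

variable {ρ : ℕ → ℕ}
    {Y Y' : Matrix (Fin 3 ⊕ Fin 1) (Fin 3 ⊕ Fin 1) k}
    {Th Th' : Matrix (Fin 3 ⊕ Fin 1) (Fin 1) k} {w w' : Matrix (Fin 1) (Fin 3) k}
    {D D' : Matrix (Fin 3 ⊕ Fin 1) (Fin 3) k}

theorem shift (hT : MaxR ρ ![JX k 3 1 1, XI Y Th w D, XI Y' Th' w' D']) (x x' : k) :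
    MaxR ρ ![JX k 3 1 1, XI (Y - x • 1) Th w D, XI (Y' - x' • 1) Th' w' D'] := by
  have h := MaxR.linI hT 1 0 0 1 (-x) 0 (-x') 0 (by simp)
  simp only [one_smul, zero_smul, add_zero, zero_add, neg_smul, ← sub_eq_add_neg] at h
  exact h

theorem h1_of [IsAlgClosed k] [CharZero k]
    (hT : MaxR ρ ![JX k 3 1 1, XI Y Th w D, XI Y' Th' w' D']) :
    ∃ z : Fin 3 → k, z ≠ 0 ∧ Om Y Y' w w' *ᵥ z = 0 := by
  by_contra hc
  push Not at hc
  obtain ⟨-, r2, r3, -, -, -, -⟩ := (BX_comm ..).1 (hT.cn.1 1 2)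
  simp only [Matrix.zero_mul, add_zero] at r2 r3
  refine hT.ncl (cl_354 r2 r3 ?_)
  intro z h1 h2 h3 h4
  by_contra hz
  exact hc z hz (Om_mulVec_eq h1 h2 h3 h4)

theorem h2_of [Infinite k] (h3 : ρ 3 = 0)
    (hT : MaxR ρ ![JX k 3 1 1, XI Y Th w D, XI Y' Th' w' D'])
    (x x' : k) (z : Fin 3 → k) (φ : Fin 3 ⊕ Fin 1 → k) (ψ : Fin 1 → k) (hz0 : z ≠ 0)
    (hz : Y *ᵥ (io k 3 1 *ᵥ z) = x • (io k 3 1 *ᵥ z))
    (hz' : Y' *ᵥ (io k 3 1 *ᵥ z) = x' • (io k 3 1 *ᵥ z))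
    (h1 : φ ᵥ* ((Y - x • 1) * io k 3 1) + ψ ᵥ* w = 0)
    (h2 : φ ᵥ* ((Y' - x' • 1) * io k 3 1) + ψ ᵥ* w' = 0)
    (h0 : φ ⬝ᵥ (io k 3 1 *ᵥ z) = 0) : φ ᵥ* io k 3 1 = 0 := by
  by_contra hφ
  refine no_dpI h3 (z := z) (φ := φ) (ψ := ψ) ?_ ?_ h1 h2 h0 hz0 hφ (shift hT x x')
  · rw [Matrix.sub_mulVec, hz, Matrix.smul_mulVec, Matrix.one_mulVec, sub_self]
  · rw [Matrix.sub_mulVec, hz', Matrix.smul_mulVec, Matrix.one_mulVec, sub_self]

/-- the exceptional position when the cokernel is not zero -/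
theorem bad [IsAlgClosed k] (h3 : ρ 3 = 0)
    (hT : MaxR ρ ![JX k 3 1 1, XI Y Th w D, XI Y' Th' w' D']) (hC : ¬ Cok0 Y Y' Th Th' w w') :
    ∃ (x x' : k) (z : Fin 3 → k), z ≠ 0 ∧ Y *ᵥ (io k 3 1 *ᵥ z) = x • (io k 3 1 *ᵥ z) ∧
      us k ᵥ* Y = x • us k ∧ us k ᵥ* Y' = x' • us k := by
  have : Infinite k := IsAlgClosed.instInfinite
  rw [Cok0] at hC
  push Not at hC
  obtain ⟨R, hY, hY', hTh, hTh', hw, hw', hR0⟩ := hC
  obtain ⟨x, x', z, ζ, hz0, hζ0, e1, e2, e3, e4, e5, e6, e7, e8⟩ :=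
    eig_of_R (MaxR.relI hT) hR0 hY hY' hTh hTh' hw hw'
  have hS := shift hT x x'
  have f1 : (Y - x • 1) *ᵥ (io k 3 1 *ᵥ z) = 0 := by
    rw [Matrix.sub_mulVec, e1, Matrix.smul_mulVec, Matrix.one_mulVec, sub_self]
  have f2 : (Y' - x' • 1) *ᵥ (io k 3 1 *ᵥ z) = 0 := by
    rw [Matrix.sub_mulVec, e2, Matrix.smul_mulVec, Matrix.one_mulVec, sub_self]
  have g1 : ζ ᵥ* (Y - x • 1) = 0 := by
    rw [Matrix.vecMul_sub, e5, Matrix.vecMul_smul, Matrix.vecMul_one, sub_self]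
  have g2 : ζ ᵥ* (Y' - x' • 1) = 0 := by
    rw [Matrix.vecMul_sub, e6, Matrix.vecMul_smul, Matrix.vecMul_one, sub_self]
  by_cases hζ : ζ ⬝ᵥ (io k 3 1 *ᵥ z) = 0
  · have hi : ζ ᵥ* io k 3 1 = 0 := by
      by_contra hφ
      refine no_dpI h3 (z := z) (φ := ζ) (ψ := 0) f1 f2 ?_ ?_ hζ hz0 hφ hS
      · rw [← Matrix.vecMul_vecMul, g1, Matrix.zero_vecMul, Matrix.zero_vecMul, add_zero]
      · rw [← Matrix.vecMul_vecMul, g2, Matrix.zero_vecMul, Matrix.zero_vecMul, add_zero]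
    have hζe : ζ = ζ (Sum.inr 0) • us k := by
      funext i
      rcases i with i | i
      · have h := congrFun hi i
        rw [vecMul_io] at h
        simp only [Pi.smul_apply, us_inl, smul_zero]
        exact h
      · rw [Subsingleton.elim i 0]
        simp [us_inr]
    have hc : ζ (Sum.inr 0) ≠ 0 := by
      intro h
      apply hζ0
      rw [hζe, h, zero_smul]
    refine ⟨x, x', z, hz0, e1, ?_, ?_⟩
    · rw [hζe, Matrix.smul_vecMul, smul_comm] at e5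
      exact smul_right_injective _ hc e5
    · rw [hζe, Matrix.smul_vecMul, smul_comm] at e6
      exact smul_right_injective _ hc e6
  · exfalso
    refine no_splitI h3 (by norm_num) (z := z) (ζ := (ζ ⬝ᵥ (io k 3 1 *ᵥ z))⁻¹ • ζ) f1 f2 e3 e4
      ?_ ?_ ?_ ?_ ?_ hS
    · rw [Matrix.smul_vecMul, g1, smul_zero]
    · rw [Matrix.smul_vecMul, g2, smul_zero]
    · rw [Matrix.smul_vecMul, e7, smul_zero]
    · rw [Matrix.smul_vecMul, e8, smul_zero]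
    · rw [smul_dotProduct, smul_eq_mul, inv_mul_cancel₀ hζ]

theorem finite_eig (Y : Matrix (Fin 3 ⊕ Fin 1) (Fin 3 ⊕ Fin 1) k) (x : k) :
    {s : k | ∃ v : Fin 3 ⊕ Fin 1 → k, v ≠ 0 ∧ Y *ᵥ v = (x + s) • v}.Finite := by
  have h : Set.Finite {μ : k | Module.End.HasEigenvalue (Matrix.toLin' Y) μ} :=
    Module.End.finite_hasEigenvalue _
  refine (h.preimage (f := fun s => x + s) (fun a _ b _ hab => add_left_cancel hab)).subset ?_
  rintro s ⟨v, hv0, hv⟩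
  refine Module.End.hasEigenvalue_of_hasEigenvector (x := v) ⟨?_, hv0⟩
  rw [Module.End.mem_eigenspace_iff, Matrix.toLin'_apply, hv]

/-- without loss of generality `Cok0` -/
theorem get_cok [IsAlgClosed k] (h3 : ρ 3 = 0)
    (hT : MaxR ρ ![JX k 3 1 1, XI Y Th w D, XI Y' Th' w' D']) :
    ∃ Z : Matrix (Fin 3 ⊕ Fin 1) (Fin 3 ⊕ Fin 1) k, Z.toBlocks₂₁ = Y.toBlocks₂₁ ∧
      MaxR ρ ![JX k 3 1 1, XI Z Th w D, XI Y' Th' w' D'] ∧ Cok0 Z Y' Th Th' w w' := by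
  have : Infinite k := IsAlgClosed.instInfinite
  by_cases hC : Cok0 Y Y' Th Th' w w'
  · exact ⟨Y, rfl, hT, hC⟩
  obtain ⟨x, x', z, -, -, e2, e3⟩ := bad h3 hT hC
  obtain ⟨s, hs, h⟩ := MaxR.lineI hT (E1 k) 0 0 0 0 0 0 0 (by
    intro s
    have hr := MaxR.relI hT
    have a1 : E1 k * Y' * io k 3 1 = 0 := by
      rw [E1_mul, e3, Matrix.vecMulVec_mul, Matrix.smul_vecMul, us_io, smul_zero]
      ext i j
      simp [vecMulVec]
    have a2 : Y' * E1 k * io k 3 1 = 0 := by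
      rw [Matrix.mul_assoc, E1_io, Matrix.mul_zero]
    simp only [smul_zero, add_zero]
    rw [Matrix.add_mul, Matrix.add_mul, Matrix.mul_add, Matrix.add_mul, Matrix.smul_mul,
      Matrix.smul_mul, Matrix.mul_smul, Matrix.smul_mul, a1, a2, smul_zero, add_zero, add_zero]
    exact hr) (finite_eig Y x)
  simp only [smul_zero, add_zero] at h
  refine ⟨Y + s • E1 k, ?_, h, ?_⟩
  · ext i j
    simp [toBlocks₂₁, E1, vecMulVec, us]
  · by_contra hC'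
    obtain ⟨x1, x1', z1, hz1, f1, f2, -⟩ := bad h3 h hC'
    apply hs
    rw [Matrix.vecMul_add, e2, Matrix.vecMul_smul, us_E1, ← add_smul] at f2
    have f3 := congrFun f2 (Sum.inr 0)
    simp only [Pi.smul_apply, us_inr, smul_eq_mul, mul_one] at f3
    refine ⟨io k 3 1 *ᵥ z1, io_ne hz1, ?_⟩
    rw [Matrix.add_mulVec, Matrix.smul_mulVec, E1_mulVec_io, smul_zero, add_zero, ← f3] at f1
    exact f1

theorem mulVec_blk {z : Fin 3 → k} (h : Y *ᵥ (io k 3 1 *ᵥ z) = 0) :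
    Y.toBlocks₁₁ *ᵥ z = 0 := by
  funext i
  have h1 := congrFun h (Sum.inl i)
  rw [io_mulVec] at h1
  simp only [Matrix.mulVec, dotProduct, Fintype.sum_sum_type, Sum.elim_inl, Sum.elim_inr,
    Pi.zero_apply, mul_zero, Finset.sum_const_zero, add_zero] at h1
  exact h1

theorem XI_BX (h1 : Y.toBlocks₂₁ = 0) (h2 : Th.toRows₂ = 0) :
    XI Y Th w D = BX Y.toBlocks₁₁ D.toRows₁ 0 D.toRows₂ w 0 Y.toBlocks₁₂ Y.toBlocks₂₂ 0
      Th.toRows₁ 0 := by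
  rw [XI, h1, h2]

/-- the last step: the position given by `lin311` (already shifted) -/
theorem last [CharZero k] (h3 : ρ 3 = 0)
    (hT : MaxR ρ ![JX k 3 1 1, XI Y Th w D, XI Y' Th' w' D']) {z ζ : Fin 3 → k}
    (hz : Y *ᵥ (io k 3 1 *ᵥ z) = 0) (hz' : Y' *ᵥ (io k 3 1 *ᵥ z) = 0)
    (hw : w *ᵥ z = 0) (hw' : w' *ᵥ z = 0) (ha : Y.toBlocks₂₁ = 0) (ha' : Y'.toBlocks₂₁ = 0)
    (ht : Th.toRows₂ = 0) (ht' : Th'.toRows₂ = 0)
    (hζ : ζ ᵥ* Y.toBlocks₁₁ = 0) (hζ' : ζ ᵥ* Y'.toBlocks₁₁ = 0)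
    (hθ : ζ ᵥ* Th.toRows₁ = 0) (hθ' : ζ ᵥ* Th'.toRows₁ = 0) (h1 : ζ ⬝ᵥ z = 1)
    (hδ : Y (Sum.inr 0) (Sum.inr 0) * (ζ ᵥ* Y'.toBlocks₁₂) 0 -
      Y' (Sum.inr 0) (Sum.inr 0) * (ζ ᵥ* Y.toBlocks₁₂) 0 ≠ 0) : False := by
  set nu := Y (Sum.inr 0) (Sum.inr 0) with hnu
  set nu' := Y' (Sum.inr 0) (Sum.inr 0) with hnu'
  set d := (ζ ᵥ* Y.toBlocks₁₂) 0 with hd
  set d' := (ζ ᵥ* Y'.toBlocks₁₂) 0 with hd'
  have h := MaxR.linI hT d' (-d) (-nu') nu 0 0 0 0 (by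
    intro h0
    apply hδ
    linear_combination h0)
  simp only [zero_smul, add_zero] at h
  have b1 : (d' • Y + (-d) • Y').toBlocks₂₁ = 0 := by
    have : (d' • Y + (-d) • Y').toBlocks₂₁ = d' • Y.toBlocks₂₁ + (-d) • Y'.toBlocks₂₁ := rfl
    rw [this, ha, ha', smul_zero, smul_zero, add_zero]
  have b2 : ((-nu') • Y + nu • Y').toBlocks₂₁ = 0 := by
    have : ((-nu') • Y + nu • Y').toBlocks₂₁ = (-nu') • Y.toBlocks₂₁ + nu • Y'.toBlocks₂₁ := rfl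
    rw [this, ha, ha', smul_zero, smul_zero, add_zero]
  have b3 : (d' • Th + (-d) • Th').toRows₂ = 0 := by
    have : (d' • Th + (-d) • Th').toRows₂ = d' • Th.toRows₂ + (-d) • Th'.toRows₂ := rfl
    rw [this, ht, ht', smul_zero, smul_zero, add_zero]
  have b4 : ((-nu') • Th + nu • Th').toRows₂ = 0 := by
    have : ((-nu') • Th + nu • Th').toRows₂ = (-nu') • Th.toRows₂ + nu • Th'.toRows₂ := rfl
    rw [this, ht, ht', smul_zero, smul_zero, add_zero]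
  have b5 : ((-nu') • Y + nu • Y').toBlocks₂₂ = 0 := by
    ext i j
    rw [Subsingleton.elim i 0, Subsingleton.elim j 0]
    show -nu' * nu + nu * nu' = 0
    ring
  rw [XI_BX b1 b3, XI_BX b2 b4, b5] at h
  have c1 := mulVec_blk hz
  have c2 := mulVec_blk hz'
  have k1 : ∀ a b : k, (a • Y + b • Y').toBlocks₁₁ = a • Y.toBlocks₁₁ + b • Y'.toBlocks₁₁ :=
    fun a b => rfl
  have k2 : ∀ a b : k, (a • Th + b • Th').toRows₁ = a • Th.toRows₁ + b • Th'.toRows₁ :=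
    fun a b => rfl
  have k3 : ∀ a b : k, (a • Y + b • Y').toBlocks₁₂ = a • Y.toBlocks₁₂ + b • Y'.toBlocks₁₂ :=
    fun a b => rfl
  refine no_W2b h3 (z := z) (ζ := ζ) ?_ ?_ ?_ ?_ ?_ ?_ ?_ ?_ h1 ?_ h
  · rw [k1, Matrix.add_mulVec, Matrix.smul_mulVec, Matrix.smul_mulVec, c1, c2, smul_zero,
      smul_zero, add_zero]
  · rw [k1, Matrix.add_mulVec, Matrix.smul_mulVec, Matrix.smul_mulVec, c1, c2, smul_zero,
      smul_zero, add_zero]
  · rw [Matrix.add_mulVec, Matrix.smul_mulVec, Matrix.smul_mulVec, hw, hw', smul_zero,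
      smul_zero, add_zero]
  · rw [Matrix.add_mulVec, Matrix.smul_mulVec, Matrix.smul_mulVec, hw, hw', smul_zero,
      smul_zero, add_zero]
  · rw [k1, Matrix.vecMul_add, Matrix.vecMul_smul, Matrix.vecMul_smul, hζ, hζ', smul_zero,
      smul_zero, add_zero]
  · rw [k1, Matrix.vecMul_add, Matrix.vecMul_smul, Matrix.vecMul_smul, hζ, hζ', smul_zero,
      smul_zero, add_zero]
  · rw [k2, Matrix.vecMul_add, Matrix.vecMul_smul, Matrix.vecMul_smul, hθ, hθ', smul_zero,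
      smul_zero, add_zero]
  · rw [k2, Matrix.vecMul_add, Matrix.vecMul_smul, Matrix.vecMul_smul, hθ, hθ', smul_zero,
      smul_zero, add_zero]
  · intro h0
    apply hδ
    rw [k3, Matrix.vecMul_add, Matrix.vecMul_smul, Matrix.vecMul_smul] at h0
    have h4 := congrFun h0 0
    simp only [Pi.add_apply, Pi.smul_apply, smul_eq_mul, Pi.zero_apply] at h4
    rw [← hd, ← hd'] at h4
    linear_combination h4

theorem core [IsAlgClosed k] [CharZero k] (h3 : ρ 3 = 0)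
    (hmax : ∀ (Z Z' : Matrix (Fin 3 ⊕ Fin 1) (Fin 3 ⊕ Fin 1) k)
      (Th Th' : Matrix (Fin 3 ⊕ Fin 1) (Fin 1) k) (v v' : Matrix (Fin 1) (Fin 3) k)
      (D D' : Matrix (Fin 3 ⊕ Fin 1) (Fin 3) k),
      MaxR ρ ![JX k 3 1 1, XI Z Th v D, XI Z' Th' v' D'] →
        (Om Y Y' w w').rank < (Om Z Z' v v').rank → False)
    (hT' : MaxR ρ ![JX k 3 1 1, XI Y Th w D, XI Y' Th' w' D']) : False := by
  have : Infinite k := IsAlgClosed.instInfinite
  obtain ⟨Z, hZ, hT, hC⟩ := get_cok h3 hT'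
  have hOm : Om Y Y' w w' = Om Z Y' w w' := Om_congr hZ.symm rfl
  have h4 : ∀ (z : Fin 3 → k) (s s' t t' : Fin 1 → k), Om Z Y' w w' *ᵥ z = 0 →
      Sum.elim (Sum.elim s s') (Sum.elim t t') ᵥ* Om Z Y' w w' = 0 →
      Obs Z Y' Th Th' w w' z s s' t t' := by
    intro z s s' t t' hz hl
    rcases smooth_up hT hC hz hl with ⟨Y1, Y1', Th1, Th1', w1, w1', h, hr⟩ | h
    · exact (hmax _ _ _ _ _ _ _ _ h (by rw [hOm]; exact hr)).elim
    · exact h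
  obtain ⟨x, x', z, ζ, e1, e2, e3, e4, e5, e6, e7, e8, e9, e10, e11, e12, e13, e14⟩ :=
    lin311 (MaxR.relI hT) (h1_of hT) (h2_of h3 hT) hC h4
  have hone11 : ∀ (W : Matrix (Fin 3 ⊕ Fin 1) (Fin 3 ⊕ Fin 1) k) (x : k),
      (W - x • 1).toBlocks₁₁ = W.toBlocks₁₁ - x • 1 := by
    intro W x
    ext i j
    simp [toBlocks₁₁, Matrix.one_apply]
  have hone21 : ∀ (W : Matrix (Fin 3 ⊕ Fin 1) (Fin 3 ⊕ Fin 1) k) (x : k),
      (W - x • 1).toBlocks₂₁ = W.toBlocks₂₁ := by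
    intro W x
    ext i j
    simp [toBlocks₂₁]
  have hone12 : ∀ (W : Matrix (Fin 3 ⊕ Fin 1) (Fin 3 ⊕ Fin 1) k) (x : k),
      (W - x • 1).toBlocks₁₂ = W.toBlocks₁₂ := by
    intro W x
    ext i j
    simp [toBlocks₁₂]
  refine last h3 (shift hT x x') (z := z) (ζ := ζ) ?_ ?_ e3 e4 ?_ ?_ e7 e8 ?_ ?_ e11 e12 e13 ?_
  · rw [Matrix.sub_mulVec, e1, Matrix.smul_mulVec, Matrix.one_mulVec, sub_self]
  · rw [Matrix.sub_mulVec, e2, Matrix.smul_mulVec, Matrix.one_mulVec, sub_self]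
  · rw [hone21, e5]
  · rw [hone21, e6]
  · rw [hone11, Matrix.vecMul_sub, e9, Matrix.vecMul_smul, Matrix.vecMul_one, sub_self]
  · rw [hone11, Matrix.vecMul_sub, e10, Matrix.vecMul_smul, Matrix.vecMul_one, sub_self]
  · rw [hone12, hone12]
    simp only [Matrix.sub_apply, Matrix.smul_apply, Matrix.one_apply_eq, smul_eq_mul, mul_one]
    exact e14

end

end NoI311Aux

open NoI311Aux

theorem no_I311 {k : Type*} [Field k] [IsAlgClosed k] [CharZero k] {ρ : ℕ → ℕ} (h3 : ρ 3 = 0)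
    {Y Y' : Matrix (Fin 3 ⊕ Fin 1) (Fin 3 ⊕ Fin 1) k}
    {Th Th' : Matrix (Fin 3 ⊕ Fin 1) (Fin 1) k} {w w' : Matrix (Fin 1) (Fin 3) k}
    {D D' : Matrix (Fin 3 ⊕ Fin 1) (Fin 3) k}
    (hT : MaxR ρ ![JX k 3 1 1, XI Y Th w D, XI Y' Th' w' D']) : False := by
  have key : ∀ (m : ℕ) (Y Y' : Matrix (Fin 3 ⊕ Fin 1) (Fin 3 ⊕ Fin 1) k)
      (Th Th' : Matrix (Fin 3 ⊕ Fin 1) (Fin 1) k) (w w' : Matrix (Fin 1) (Fin 3) k)
      (D D' : Matrix (Fin 3 ⊕ Fin 1) (Fin 3) k), 3 - (Om Y Y' w w').rank ≤ m →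
      MaxR ρ ![JX k 3 1 1, XI Y Th w D, XI Y' Th' w' D'] → False := by
    intro m
    induction m with
    | zero =>
      intro Y Y' Th Th' w w' D D' hm hT
      refine core h3 ?_ hT
      intro Z Z' _ _ v v' _ _ _ hlt
      have h := Matrix.rank_le_card_width (Om Z Z' v v')
      rw [Fintype.card_fin] at h
      omega
    | succ m ih =>
      intro Y Y' Th Th' w w' D D' hm hT
      refine core h3 ?_ hT
      intro Z Z' T1 T1' v v' D1 D1' hM hlt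
      have h := Matrix.rank_le_card_width (Om Z Z' v v')
      rw [Fintype.card_fin] at h
      exact ih Z Z' T1 T1' v v' D1 D1' (by omega) hM
  exact key 3 Y Y' Th Th' w w' D D' (Nat.sub_le _ _) hT

end Pool.Agent.Lib.D12
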