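import Pool.Agent.Lib.D7.Api
import Pool.Agent.Lib.D12.Cyc

/-!
Module PairD (2.5h, black box exists_cyc). Commuting pairs of matrices deform to pairs of diagonal
matrices, the second with distinct entries.
PROOF of exists_diag. (1) `exists_cyc`: `R` commutes with `N` and has the cyclic vector `v`. Line
`N'(s) = (1 - s) N' + s R`, commutes with `N`; `det (Kry (N'(s)) v)` is a polynomial in `s`, nonzero
at `s = 1`, so it has finitely many zeros; by `deform` there is `s` with `B N (N'(s))` and
`det (Kry (N'(s)) v) ≠ 0`. So WLOG `det (Kry N' v) ≠ 0`.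
(2) Then `N = f(N')` for a polynomial `f`: `N v` is a linear combination of the `N' ^ j v` (Kry is
invertible): `N v = f(N') v`; both sides commute with `N'`, so `N N' ^ j v = f(N') N' ^ j v` for
all `j`, and so `N Kry = f(N') Kry`, `N = f(N')`.
(3) `D` = diagonal matrix with distinct entries (k infinite), `N'(s) = (1 - s) N' + s D`,
`N(s) = f(N'(s))`: commuting, polynomial in `s`. `Polynomial.resultant χ χ' e (e - 1)`, `χ` = the
characteristic polynomial of `N'(s)`, is a polynomial in `s` (determinant of the Sylvester matrix, whose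
entries are coefficients of `χ`), nonzero at `s = 1` (Polynomial.resultant_eq_zero_iff or
resultant_ne_zero: `χ` of `D` is separable). So for some `s`: `B (N(s)) (N'(s))` and `χ` of `N'(s)` is
separable (coprime to its derivative), so it has `e` different roots `d' i` (IsAlgClosed), eigenvectors for
them are linearly independent (Module.End.eigenvectors_linearIndependent), the matrix of the eigenvectors
diagonalises `N'(s)`, and `N(s) = f(N'(s))` too: `d i = f(d' i)`. Conclude with `conj`.
(Any other proof of exists_diag is fine.)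
-/

set_option autoImplicit false

namespace Pool.Agent.Lib.D12

open Matrix Pool.Agent.Lib.D7

/-- properties of commuting pairs stable under small commuting deformations and under conjugation -/
structure OpenPair {k : Type*} [Field k] {e : ℕ}
    (B : Matrix (Fin e) (Fin e) k → Matrix (Fin e) (Fin e) k → Prop) : Prop where
  comm : ∀ N N', B N N' → N * N' = N' * N
  deform : ∀ N N' : k → Matrix (Fin e) (Fin e) k, (∀ i j, IsPoly fun s => N s i j) →
    (∀ i j, IsPoly fun s => N' s i j) → (∀ s, N s * N' s = N' s * N s) → B (N 0) (N' 0) →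
    {s | ¬ B (N s) (N' s)}.Finite
  conj : ∀ N N' g g', g * g' = 1 → B N N' → B (g * N * g') (g * N' * g')

namespace PairDAux

variable {k : Type*} [Field k] {e : ℕ}

theorem isPoly_sum {ι : Type*} (s : Finset ι) {f : ι → k → k} (h : ∀ i ∈ s, IsPoly (f i)) :
    IsPoly fun t => ∑ i ∈ s, f i t := by
  classical
  induction s using Finset.induction_on with
  | empty => simpa using D7.IsPoly.const (0 : k)
  | insert a s ha ih =>
    have h1 : (fun t => ∑ i ∈ insert a s, f i t) = fun t => f a t + ∑ i ∈ s, f i t := by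
      funext t
      rw [Finset.sum_insert ha]
    rw [h1]
    exact (h a (Finset.mem_insert_self a s)).add
      (ih fun i hi => h i (Finset.mem_insert_of_mem hi))

theorem isPoly_det {M : k → Matrix (Fin e) (Fin e) k} (hM : ∀ i j, IsPoly fun s => M s i j) :
    IsPoly fun s => (M s).det := by
  choose P hP using hM
  refine ⟨(Matrix.of P).det, fun s => ?_⟩
  have h1 : M s = (Polynomial.evalRingHom s).mapMatrix (Matrix.of P) := by
    ext i j
    rw [RingHom.mapMatrix_apply, Matrix.map_apply, Matrix.of_apply, Polynomial.coe_evalRingHom]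
    exact hP i j s
  show (M s).det = _
  rw [h1, ← RingHom.map_det, Polynomial.coe_evalRingHom]

/-- a polynomial of a polynomial family of matrices is a polynomial family -/
theorem isPoly_aeval (f : Polynomial k) {M : k → Matrix (Fin e) (Fin e) k}
    (hM : ∀ i j, IsPoly fun s => M s i j) :
    ∀ i j, IsPoly fun s => (Polynomial.aeval (M s) f) i j := by
  intro i j
  have h1 : (fun s => (Polynomial.aeval (M s) f) i j) =
      fun s => ∑ l ∈ Finset.range (f.natDegree + 1), f.coeff l * (M s ^ l) i j := by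
    funext s
    rw [Polynomial.aeval_eq_sum_range, Matrix.sum_apply]
    rfl
  rw [h1]
  exact isPoly_sum _ fun l _ => (D7.IsPoly.const _).mul (isPoly_pow hM l i j)

theorem isPoly_kry {M : k → Matrix (Fin e) (Fin e) k} (hM : ∀ i j, IsPoly fun s => M s i j)
    (v : Fin e → k) : ∀ i j, IsPoly fun s => (Kry (M s) v) i j := by
  intro i j
  have h1 : (fun s => (Kry (M s) v) i j) = fun s => ∑ l, (M s ^ (j : ℕ)) i l * v l := by
    funext s
    rfl
  rw [h1]
  exact isPoly_sum _ fun l _ => (isPoly_pow hM (j : ℕ) i l).mul (D7.IsPoly.const _)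

theorem pow_inter {M W J : Matrix (Fin e) (Fin e) k} (h : M * W = W * J) (i : ℕ) :
    M ^ i * W = W * J ^ i := by
  induction i with
  | zero => simp
  | succ i ih => rw [pow_succ, Matrix.mul_assoc, h, ← Matrix.mul_assoc, ih, Matrix.mul_assoc,
      ← pow_succ]

theorem aeval_inter {M W J : Matrix (Fin e) (Fin e) k} (h : M * W = W * J) (f : Polynomial k) :
    Polynomial.aeval M f * W = W * Polynomial.aeval J f := by
  rw [Polynomial.aeval_eq_sum_range, Polynomial.aeval_eq_sum_range, Finset.sum_mul,
    Finset.mul_sum]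
  refine Finset.sum_congr rfl fun i _ => ?_
  rw [Matrix.smul_mul, Matrix.mul_smul, pow_inter h]

theorem aeval_comm (M : Matrix (Fin e) (Fin e) k) (f : Polynomial k) :
    Polynomial.aeval M f * M = M * Polynomial.aeval M f :=
  aeval_inter rfl f

/-- a matrix commuting with a cyclic matrix is a polynomial of it -/
theorem exists_poly {N M : Matrix (Fin e) (Fin e) k} {v : Fin e → k} (h : N * M = M * N)
    (hd : (Kry M v).det ≠ 0) : ∃ f : Polynomial k, N = Polynomial.aeval M f := by
  have hu : IsUnit (Kry M v).det := isUnit_iff_ne_zero.2 hd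
  set c : Fin e → k := (Kry M v)⁻¹ *ᵥ (N *ᵥ v) with hc
  refine ⟨∑ j : Fin e, Polynomial.C (c j) * Polynomial.X ^ (j : ℕ), ?_⟩
  set f : Polynomial k := ∑ j : Fin e, Polynomial.C (c j) * Polynomial.X ^ (j : ℕ) with hf
  have h1 : Polynomial.aeval M f *ᵥ v = N *ᵥ v := by
    have h2 : Kry M v *ᵥ c = N *ᵥ v := by
      rw [hc, Matrix.mulVec_mulVec, Matrix.mul_nonsing_inv _ hu, Matrix.one_mulVec]
    rw [← h2]
    have h3 : Polynomial.aeval M f = ∑ j : Fin e, c j • M ^ (j : ℕ) := by
      rw [hf, map_sum]
      refine Finset.sum_congr rfl fun j _ => ?_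
      rw [map_mul, map_pow, Polynomial.aeval_C, Polynomial.aeval_X, Algebra.algebraMap_eq_smul_one,
        smul_mul_assoc, one_mul]
    rw [h3, Matrix.sum_mulVec]
    ext i
    rw [Finset.sum_apply]
    show _ = ∑ j : Fin e, (M ^ (j : ℕ) *ᵥ v) i * c j
    refine Finset.sum_congr rfl fun j _ => ?_
    rw [Matrix.smul_mulVec, Pi.smul_apply, smul_eq_mul, mul_comm]
  have hpow : ∀ j : ℕ, N * M ^ j = M ^ j * N := fun j => (Commute.pow_right h j)
  have hpow' : ∀ j : ℕ, Polynomial.aeval M f * M ^ j = M ^ j * Polynomial.aeval M f :=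
    fun j => (Commute.pow_right (aeval_comm M f) j)
  have h4 : N * Kry M v = Polynomial.aeval M f * Kry M v := by
    have key : ∀ (A : Matrix (Fin e) (Fin e) k) (i j : Fin e),
        (A * Kry M v) i j = ((A * M ^ (j : ℕ)) *ᵥ v) i := by
      intro A i j
      rw [← Matrix.mulVec_mulVec]
      rfl
    ext i j
    rw [key, key, hpow, hpow', ← Matrix.mulVec_mulVec, ← Matrix.mulVec_mulVec, h1]
  calc N = N * Kry M v * (Kry M v)⁻¹ := by
        rw [Matrix.mul_assoc, Matrix.mul_nonsing_inv _ hu, Matrix.mul_one]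
    _ = Polynomial.aeval M f * Kry M v * (Kry M v)⁻¹ := by rw [h4]
    _ = _ := by rw [Matrix.mul_assoc, Matrix.mul_nonsing_inv _ hu, Matrix.mul_one]

/-- the lower bidiagonal matrix with diagonal `a` and entries `1` below the diagonal -/
def Jb (a : Fin e → k) : Matrix (Fin e) (Fin e) k :=
  Matrix.of fun i j => if i = j then a i else if (i : ℕ) = (j : ℕ) + 1 then 1 else 0

theorem jb_tri (a : Fin e → k) (c : k) (i j : Fin e) (h : i < j) : (Jb a - c • 1) i j = 0 := by
  have h1 : i ≠ j := ne_of_lt h
  have h2 : ¬ (i : ℕ) = (j : ℕ) + 1 := by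
    have := Fin.lt_def.1 h
    omega
  simp [Jb, h1, h2, Matrix.one_apply]

theorem exists_list (L : List k) (hl : L.length = e) :
    ∃ a : Fin e → k, (L.map fun a => Polynomial.X - Polynomial.C a).prod =
      ∏ i, (Polynomial.X - Polynomial.C (a i)) := by
  subst hl
  exact ⟨fun i => L.get i, (Fin.prod_univ_fun_getElem L _).symm⟩

/-- the characteristic polynomial is a product indexed by `Fin e` -/
theorem exists_roots [IsAlgClosed k] (M : Matrix (Fin e) (Fin e) k) :
    ∃ a : Fin e → k, M.charpoly = ∏ i, (Polynomial.X - Polynomial.C (a i)) := by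
  have hs : M.charpoly.Splits := IsAlgClosed.splits _
  have hc : Multiset.card M.charpoly.roots = e := by
    rw [← hs.natDegree_eq_card_roots, Matrix.charpoly_natDegree_eq_dim, Fintype.card_fin]
  have hl : M.charpoly.roots.toList.length = e := by
    rw [Multiset.length_toList, hc]
  have h1 := hs.eq_prod_roots_of_monic (Matrix.charpoly_monic M)
  have h2 : (M.charpoly.roots.map fun a => Polynomial.X - Polynomial.C a).prod =
      (M.charpoly.roots.toList.map fun a => Polynomial.X - Polynomial.C a).prod := by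
    conv_lhs => rw [← Multiset.coe_toList M.charpoly.roots]
    rw [Multiset.map_coe, Multiset.prod_coe]
  obtain ⟨a, ha⟩ := exists_list _ hl
  exact ⟨a, by rw [← ha, ← h2]; exact h1⟩

/-- `w j = (M - a (j-1)) ... (M - a 0) v` -/
def wv (M : Matrix (Fin e) (Fin e) k) (v : Fin e → k) (a : ℕ → k) : ℕ → (Fin e → k)
  | 0 => v
  | j + 1 => M *ᵥ (wv M v a j) - a j • wv M v a j

theorem wv_eq (M : Matrix (Fin e) (Fin e) k) (v : Fin e → k) (a : ℕ → k) (j : ℕ) :
    wv M v a j =
      (Polynomial.aeval M (∏ i ∈ Finset.range j, (Polynomial.X - Polynomial.C (a i)))) *ᵥ v := by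
  induction j with
  | zero => simp [wv]
  | succ j ih =>
    rw [Finset.prod_range_succ, mul_comm, map_mul, ← Matrix.mulVec_mulVec, ← ih, wv, map_sub,
      Polynomial.aeval_X, Polynomial.aeval_C, Matrix.sub_mulVec, Algebra.algebraMap_eq_smul_one,
      Matrix.smul_mulVec, Matrix.one_mulVec]

/-- a cyclic matrix is similar to a bidiagonal matrix -/
theorem exists_bidiag [IsAlgClosed k] {M : Matrix (Fin e) (Fin e) k} {v : Fin e → k}
    (hd : (Kry M v).det ≠ 0) :
    ∃ (a : Fin e → k) (W : Matrix (Fin e) (Fin e) k), W.det ≠ 0 ∧ M * W = W * Jb a := by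
  obtain ⟨a, ha⟩ := exists_roots M
  set b : ℕ → k := fun i => if h : i < e then a ⟨i, h⟩ else 0 with hb
  have hba : ∀ i : Fin e, b i = a i := by
    intro i
    simp [hb, i.2]
  set W : Matrix (Fin e) (Fin e) k := Matrix.of fun i j => wv M v b (j : ℕ) i with hW
  have h0 : wv M v b e = 0 := by
    rw [wv_eq, ← Fin.prod_univ_eq_prod_range (fun i => Polynomial.X - Polynomial.C (b i)) e]
    have h1 : ∏ i : Fin e, (Polynomial.X - Polynomial.C (b i)) = M.charpoly := by
      rw [ha]
      exact Finset.prod_congr rfl fun i _ => by rw [hba]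
    rw [h1, Matrix.aeval_self_charpoly, Matrix.zero_mulVec]
  have h2 : M * W = W * Jb a := by
    ext i j
    have hl : (M * W) i j = (M *ᵥ wv M v b (j : ℕ)) i := rfl
    have hstep : M *ᵥ wv M v b (j : ℕ) = wv M v b ((j : ℕ) + 1) + a j • wv M v b (j : ℕ) := by
      rw [wv, hba]
      abel
    rw [hl, hstep, Matrix.mul_apply]
    have hterm : ∀ l : Fin e, W i l * Jb a l j =
        (if l = j then wv M v b (l : ℕ) i * a l else 0) +
          (if (l : ℕ) = (j : ℕ) + 1 then wv M v b (l : ℕ) i else 0) := by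
      intro l
      by_cases h1 : l = j
      · subst h1
        simp [Jb, hW]
      · by_cases h2 : (l : ℕ) = (j : ℕ) + 1
        · simp [Jb, hW, h1, h2]
        · simp [Jb, hW, h1, h2]
    rw [Finset.sum_congr rfl fun l _ => hterm l, Finset.sum_add_distrib,
      Finset.sum_ite_eq' Finset.univ j]
    simp only [Finset.mem_univ, if_true]
    have hsum : ∑ l : Fin e, (if (l : ℕ) = (j : ℕ) + 1 then wv M v b (l : ℕ) i else 0) =
        wv M v b ((j : ℕ) + 1) i := by
      by_cases hj : (j : ℕ) + 1 < e
      · rw [Finset.sum_eq_single (⟨(j : ℕ) + 1, hj⟩ : Fin e)]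
        · simp
        · intro l _ hl
          have : ¬ (l : ℕ) = (j : ℕ) + 1 := fun h => hl (Fin.ext h)
          simp [this]
        · intro h
          exact absurd (Finset.mem_univ _) h
      · have he : (j : ℕ) + 1 = e := by
          have := j.2
          omega
        rw [he, h0]
        refine Finset.sum_eq_zero fun l _ => ?_
        have : ¬ (l : ℕ) = e := ne_of_lt l.2
        simp [this]
    rw [hsum, Pi.add_apply, Pi.smul_apply, smul_eq_mul]
    ring
  refine ⟨a, W, ?_, h2⟩
  intro hdet
  apply hd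
  rcases Nat.eq_zero_or_pos e with he | he
  · subst he
    simp [Matrix.det_isEmpty] at hdet
  · have h3 : Kry M v = W * Kry (Jb a) (Pi.single ⟨0, he⟩ 1) := by
      have hv : W *ᵥ (Pi.single ⟨0, he⟩ 1) = v := by
        rw [Matrix.mulVec_single_one]
        rfl
      ext i j
      have hl : (W * Kry (Jb a) (Pi.single ⟨0, he⟩ 1)) i j =
          (W *ᵥ ((Jb a ^ (j : ℕ)) *ᵥ (Pi.single ⟨0, he⟩ 1))) i := rfl
      rw [hl, Matrix.mulVec_mulVec, ← pow_inter h2, ← Matrix.mulVec_mulVec, hv]
      rfl
    rw [h3, Matrix.det_mul, hdet, zero_mul]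

/-- a bidiagonal matrix with distinct diagonal entries is diagonalisable -/
theorem exists_eig {a : Fin e → k} (ha : Function.Injective a) :
    ∃ U : Matrix (Fin e) (Fin e) k, U.det ≠ 0 ∧ Jb a * U = U * diagonal a := by
  have h1 : ∀ j : Fin e, ∃ u : Fin e → k, u ≠ 0 ∧ (Jb a - a j • 1) *ᵥ u = 0 := by
    intro j
    rw [Matrix.exists_mulVec_eq_zero_iff]
    rw [Matrix.det_of_lowerTriangular]
    · refine Finset.prod_eq_zero (Finset.mem_univ j) ?_
      simp [Jb]
    · intro i l h
      exact jb_tri a (a j) i l h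
  choose u hu0 hu using h1
  have h2 : ∀ j, Jb a *ᵥ u j = a j • u j := by
    intro j
    have := hu j
    rw [Matrix.sub_mulVec, Matrix.smul_mulVec, Matrix.one_mulVec, sub_eq_zero] at this
    exact this
  have h3 : LinearIndependent k u := by
    refine Module.End.eigenvectors_linearIndependent' (Matrix.toLin' (Jb a)) a ha u fun j => ?_
    rw [Module.End.hasEigenvector_iff, Module.End.mem_eigenspace_iff]
    exact ⟨by rw [Matrix.toLin'_apply]; exact h2 j, hu0 j⟩
  refine ⟨(Matrix.of u)ᵀ, ?_, ?_⟩
  · rw [Matrix.det_transpose]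
    have h4 : IsUnit (Matrix.of u) := Matrix.linearIndependent_rows_iff_isUnit.1 h3
    exact ((Matrix.isUnit_iff_isUnit_det _).1 h4).ne_zero
  · ext i j
    rw [Matrix.mul_diagonal]
    have hl : (Jb a * (Matrix.of u)ᵀ) i j = (Jb a *ᵥ u j) i := rfl
    rw [hl, h2, Pi.smul_apply, smul_eq_mul, Matrix.transpose_apply, Matrix.of_apply, mul_comm]

theorem aeval_diagonal (a : Fin e → k) (f : Polynomial k) :
    Polynomial.aeval (diagonal a : Matrix (Fin e) (Fin e) k) f =
      diagonal (Polynomial.aeval a f) := by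
  have := Polynomial.aeval_algHom_apply (Matrix.diagonalAlgHom k (n := Fin e) (α := k)) a f
  exact this

theorem conj_eq {M W J : Matrix (Fin e) (Fin e) k} (hW : W.det ≠ 0) (h : M * W = W * J) :
    W⁻¹ * M * W = J := by
  rw [Matrix.mul_assoc, h, ← Matrix.mul_assoc, Matrix.nonsing_inv_mul _ (isUnit_iff_ne_zero.2 hW),
    Matrix.one_mul]

/-- two finite sets do not cover an infinite field -/
theorem exists_not {α : Type*} [Infinite α] {p q : α → Prop} (hp : {s | ¬ p s}.Finite)
    (hq : {s | ¬ q s}.Finite) : ∃ s, p s ∧ q s := by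
  obtain ⟨s, hs⟩ := (hp.union hq).exists_notMem
  refine ⟨s, ?_, ?_⟩
  · by_contra h
    exact hs (Or.inl h)
  · by_contra h
    exact hs (Or.inr h)

theorem finite_inj [CharZero k] (a : Fin e → k) :
    {s : k | ¬ Function.Injective fun i : Fin e => a i + s * ((i : ℕ) : k)}.Finite := by
  classical
  have h1 : {s : k | ¬ Function.Injective fun i : Fin e => a i + s * ((i : ℕ) : k)} ⊆
      ((Finset.univ : Finset (Fin e × Fin e)).image fun p =>
        (a p.2 - a p.1) / (((p.1 : ℕ) : k) - ((p.2 : ℕ) : k)) : Finset k) := by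
    intro s hs
    rw [Set.mem_ofPred_eq] at hs
    unfold Function.Injective at hs
    push Not at hs
    obtain ⟨i, j, h, hij⟩ := hs
    rw [Finset.coe_image, Set.mem_image]
    refine ⟨(i, j), by simp, ?_⟩
    have h2 : ((i : ℕ) : k) - ((j : ℕ) : k) ≠ 0 := by
      rw [sub_ne_zero]
      intro h3
      exact hij (Fin.ext (Nat.cast_injective h3))
    show (a j - a i) / (((i : ℕ) : k) - ((j : ℕ) : k)) = s
    rw [div_eq_iff h2]
    linear_combination (-1 : k) * h
  exact (Finset.finite_toSet _).subset h1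

end PairDAux

open PairDAux

theorem OpenPair.exists_diag {k : Type*} [Field k] [IsAlgClosed k] [CharZero k] {e : ℕ}
    {B : Matrix (Fin e) (Fin e) k → Matrix (Fin e) (Fin e) k → Prop} (hB : OpenPair B)
    {N N' : Matrix (Fin e) (Fin e) k} (h : B N N') :
    ∃ d d' : Fin e → k, Function.Injective d' ∧ B (diagonal d) (diagonal d') := by
  obtain ⟨R, v, hR, hRv⟩ := exists_cyc N
  have hcomm := hB.comm _ _ h
  -- step 1: the second matrix becomes cyclic
  obtain ⟨M, hM, hMv⟩ : ∃ M, B N M ∧ (Kry M v).det ≠ 0 := by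
    have hp : ∀ i j, IsPoly fun s => (N' + s • (R - N')) i j := isPoly_line N' (R - N')
    have hf := hB.deform (fun _ => N) (fun s => N' + s • (R - N'))
      (fun i j => D7.IsPoly.const _) hp (fun s => by
        rw [Matrix.mul_add, Matrix.add_mul, hcomm, Matrix.mul_smul, Matrix.smul_mul,
          Matrix.mul_sub, Matrix.sub_mul, hcomm, hR]) (by simpa using h)
    have hq : {s : k | ¬ (Kry (N' + s • (R - N')) v).det ≠ 0}.Finite := by
      have h1 : IsPoly fun s => (Kry (N' + s • (R - N')) v).det := isPoly_det (isPoly_kry hp v)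
      have h2 : (fun s : k => (Kry (N' + s • (R - N')) v).det) 1 ≠ 0 := by
        simpa using hRv
      have h3 := D7.IsPoly.finite h1 h2
      simpa using h3
    obtain ⟨s, hs1, hs2⟩ := exists_not hf hq
    exact ⟨_, hs1, hs2⟩
  -- step 2: the first matrix is a polynomial of the second
  obtain ⟨f, rfl⟩ := exists_poly (hB.comm _ _ hM) hMv
  -- step 3: bidiagonal form
  obtain ⟨a, W, hW, hMW⟩ := exists_bidiag hMv
  have hJ : B (Polynomial.aeval (Jb a) f) (Jb a) := by
    have h1 := hB.conj _ _ W⁻¹ W (Matrix.nonsing_inv_mul _ (isUnit_iff_ne_zero.2 hW)) hM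
    rwa [conj_eq hW hMW, conj_eq hW (aeval_inter hMW f)] at h1
  -- step 4: distinct diagonal entries
  have hp : ∀ i j, IsPoly fun s => (Jb fun l : Fin e => a l + s * ((l : ℕ) : k)) i j := by
    intro i j
    by_cases h1 : i = j
    · subst h1
      have h2 : (fun s : k => (Jb fun l : Fin e => a l + s * ((l : ℕ) : k)) i i) =
          fun s => a i + s * ((i : ℕ) : k) := by
        funext s
        simp [Jb]
      rw [h2]
      exact (D7.IsPoly.const _).add (D7.IsPoly.id.mul (D7.IsPoly.const _))
    · have h2 : (fun s : k => (Jb fun l : Fin e => a l + s * ((l : ℕ) : k)) i j) =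
          fun _ => if (i : ℕ) = (j : ℕ) + 1 then 1 else 0 := by
        funext s
        simp [Jb, h1]
      rw [h2]
      exact D7.IsPoly.const _
  have hf := hB.deform
    (fun s => Polynomial.aeval (Jb fun l : Fin e => a l + s * ((l : ℕ) : k)) f)
    (fun s => Jb fun l : Fin e => a l + s * ((l : ℕ) : k)) (isPoly_aeval f hp) hp
    (fun s => aeval_comm _ f) (by simpa using hJ)
  obtain ⟨s, hs1, hs2⟩ := exists_not hf (finite_inj a)
  obtain ⟨U, hU, hJU⟩ := exists_eig hs2
  refine ⟨Polynomial.aeval (fun l : Fin e => a l + s * ((l : ℕ) : k)) f, _, hs2, ?_⟩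
  have h1 := hB.conj _ _ U⁻¹ U (Matrix.nonsing_inv_mul _ (isUnit_iff_ne_zero.2 hU)) hs1
  rwa [conj_eq hU hJU, conj_eq hU (aeval_inter hJU f), aeval_diagonal] at h1

end Pool.Agent.Lib.D12
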