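import Mathlib

/-!
Module Quad (2.5h). Quadruples `(N, N', Ψ, W)`, `N, N' : E → E`, `W : E → G`, `Ψ : G → E`, `N N' - N' N = Ψ W`,
`dim E = 3`, `dim G = 4`; pure linear algebra.
`OpenQuad B` : `B` is a set of such quadruples, stable under small linear deformations (`line`) and under
linear changes of `N, N', 1` (`lin`). THEOREM quad_four: if `B` is not empty and for all members `W` is not
injective and `Ψ` is not surjective then some member has `z ≠ 0`, `ζ ≠ 0` with `N z = N' z = 0`, `W z = 0`,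
`ζ N = ζ N' = 0`, `ζ Ψ = 0`. THEOREM quad_big: if `2 dim E ≤ dim G` and `B` is not empty then some member has
`W` injective.
PROOF. Call a member minimal if `dim ker W` is minimal.
(S1) minimal => `ker Ψ ⊆ im W` or `W` injective: let `Ψ x = 0`, `x` not in `im W`, `W z = 0`, `z ≠ 0`, `ν₀(z) = 1`.
  Line `W + s x ν₀` (`N, N', Ψ` constant): relation holds for all `s`, `ker (W + s x ν₀) = ker W ∩ ker ν₀` for
  `s ≠ 0` (x is not in im W) is smaller. Contradiction for some `s`. [quad_big: `dim ker Ψ ≥ dim G - dim E ≥ dim E > rank W`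
  if `W` is not injective.]
(S1') in quad_four: `rank W ≤ 2`, `rank Ψ ≤ 2`, `2 ≤ dim ker Ψ ≤ rank W ≤ 2`: `ker W = k z`, `im W = ker Ψ`, `Ψ W = 0`,
  `im Ψ = ker ζ` (dimension 2), `N N' = N' N`.
(BUMP) member with `ker W = k z`; matrices `n, n', C₁` with `(N + s n)(N' + s n') - (N' + s n')(N + s n) = (N N' - N' N) + s C₁`
  for all `s`, and `x` not in `im W` with `C₁ z = Ψ x`. Then some member has `W` injective: `ν₀(z) = 1`,
  `R = C₁ - (Ψ x) ν₀` kills `z`, so there is `Δ : G → E` with `Δ W = R`, `Δ x = 0` (x is not in im W, ker W = k z);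
  line `(N + s n, N' + s n', Ψ + s Δ, W + s x ν₀)`: `(Ψ + s Δ)(W + s x ν₀) = Ψ W + s ((Ψ x) ν₀ + R)`. For `s ≠ 0`
  `W + s x ν₀` is injective.
(S2) minimal member, not as in the hypothesis (W injective): `z` is an eigenvector of `N` and of `N'`. Otherwise e.g. `N' z ∉ k z`:
  `ν(z) = 0`, `ν(N' z) = 1`, `0 ≠ y = Ψ x` (x not in im W because Ψ W = 0), `n = y ν`, `n' = 0`, `C₁ = y ν N' - N' y ν`,
  `C₁ z = y`. If `N z ∉ k z`: `n' = y ν`, `C₁ z = - y = Ψ (-x)`.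
(S3) DUAL: `B* N N' Ψ W := B N'ᵀ Nᵀ Wᵀ Ψᵀ` is an OpenQuad (lemma OpenQuad.dual). The dual of a minimal member satisfies
  again `ker Wᵈ = k ζ`, `im Wᵈ = ker Ψᵈ` (`Wᵈ = Ψᵀ`, `Ψᵈ = Wᵀ`), so BUMP and (S2) apply to it: `ζ` is a left eigenvector
  of `N` and `N'`. (State BUMP and S2 for members with `ker W = k z`, `im W = ker Ψ` instead of minimal ones.)
(S4) `lin` : `N z = N' z = 0` (subtract scalars; `ker`, `im` conditions are preserved because `Γ` is invertible).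
  `ζ N = μ ζ`, `ζ N' = μ' ζ`. If `μ = μ' = 0`: done. Otherwise by `lin` `μ = 1, μ' = 0`. `ζ(z) = ζ(N z) = 0`.
  (a) `N' v ≠ 0` for some `v`: `ζ N' v = 0`, so `- N' v = Ψ x`, x not in im W; `n = v ν₀`, `n' = 0`, `C₁ = v ν₀ N' - N' v ν₀`,
      `C₁ z = - N' v`: BUMP.
  (b) `N' = 0`, `N v ≠ 0` for some `v` with `ζ(v) = 0`: `n' = v ν₀`, `C₁ = N v ν₀ - v ν₀ N`, `C₁ z = N v`, `ζ N v = ζ v = 0`: BUMP.
  (c) `N' = 0`, `N = 0` on `ker ζ` (rank N ≤ 1): dual BUMP: there is a row `ξ` with `ξ(z) = 0`, `ξ - ξ N ≠ 0` (rows with `ξ(z) = 0`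
      have dimension 2 > rank N). In the dual quadruple `(N'ᵀ, Nᵀ, Wᵀ, Ψᵀ) = (0, Nᵀ, ..)`, killed vector `ζ`, `ν*` with `ν*(ζ) = 1`:
      `n = ξᵀ ν*`, `C₁ = ξᵀ ν* Nᵀ - Nᵀ ξᵀ ν*`, `C₁ ζ = (ξ - ξ N)ᵀ`, and `(ξ - ξ N)(z) = 0`, so it is in `im Wᵀ` (= the rows that
      vanish on `z`): BUMP.
  Every BUMP contradicts the hypothesis of quad_four (for `B` or for the dual).
-/

set_option autoImplicit false
set_option linter.unusedSectionVars false

namespace Pool.Agent.Lib.D12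

open Matrix

/-- sets of quadruples `N N' - N' N = Ψ W` stable under linear deformations and linear changes -/
structure OpenQuad {k : Type*} [Field k] {e : ℕ} {G : Type} [Fintype G] [DecidableEq G]
    (B : Matrix (Fin e) (Fin e) k → Matrix (Fin e) (Fin e) k → Matrix (Fin e) G k →
      Matrix G (Fin e) k → Prop) : Prop where
  rel : ∀ N N' Ψ W, B N N' Ψ W → N * N' - N' * N = Ψ * W
  line : ∀ N N' Ψ W n n' ψ ω, (∀ s : k, (N + s • n) * (N' + s • n') - (N' + s • n') * (N + s • n) =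
    (Ψ + s • ψ) * (W + s • ω)) → B N N' Ψ W →
    {s : k | ¬ B (N + s • n) (N' + s • n') (Ψ + s • ψ) (W + s • ω)}.Finite
  lin : ∀ N N' Ψ W, ∀ a b c d x z : k, a * d - b * c ≠ 0 → B N N' Ψ W →
    ∃ Γ Γ' : Matrix G G k, Γ' * Γ = (a * d - b * c) • (1 : Matrix G G k) ∧
      B (a • N + b • N' + x • 1) (c • N + d • N' + z • 1) (Ψ * Γ') (Γ * W)


namespace QuadAux

variable {k : Type*} [Field k] {e : ℕ} {G : Type} [Fintype G] [DecidableEq G]

/-- the dual family of quadruples -/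
def dual (B : Matrix (Fin e) (Fin e) k → Matrix (Fin e) (Fin e) k → Matrix (Fin e) G k →
      Matrix G (Fin e) k → Prop) : Matrix (Fin e) (Fin e) k → Matrix (Fin e) (Fin e) k →
      Matrix (Fin e) G k → Matrix G (Fin e) k → Prop :=
  fun N N' Ψ W => B N'ᵀ Nᵀ Wᵀ Ψᵀ

theorem dual_open {B : Matrix (Fin e) (Fin e) k → Matrix (Fin e) (Fin e) k →
    Matrix (Fin e) G k → Matrix G (Fin e) k → Prop} (hB : OpenQuad B) : OpenQuad (dual B) where
  rel := by
    intro N N' Ψ W h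
    have h2 := congrArg Matrix.transpose (hB.rel _ _ _ _ h)
    simpa [Matrix.transpose_mul, Matrix.transpose_sub] using h2
  line := by
    intro N N' Ψ W n n' ψ ω hrel h
    have hr : ∀ s : k, (N'ᵀ + s • n'ᵀ) * (Nᵀ + s • nᵀ) - (Nᵀ + s • nᵀ) * (N'ᵀ + s • n'ᵀ) =
        (Wᵀ + s • ωᵀ) * (Ψᵀ + s • ψᵀ) := by
      intro s
      have h2 := congrArg Matrix.transpose (hrel s)
      simpa only [Matrix.transpose_mul, Matrix.transpose_sub, Matrix.transpose_add,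
        Matrix.transpose_smul] using h2
    have h3 := hB.line _ _ _ _ _ _ _ _ hr h
    simpa only [dual, Matrix.transpose_add, Matrix.transpose_smul] using h3
  lin := by
    intro N N' Ψ W a b c d x z hd h
    have hd' : d * a - c * b ≠ 0 := by
      intro h0; apply hd; rw [← h0]; ring
    obtain ⟨Γ, Γ', h1, h2⟩ := hB.lin _ _ _ _ d c b a z x hd' h
    refine ⟨Γ'ᵀ, Γᵀ, ?_, ?_⟩
    · rw [← Matrix.transpose_mul, h1, Matrix.transpose_smul, Matrix.transpose_one]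
      congr 1; ring
    · have e1 : (c • N + d • N' + z • (1 : Matrix (Fin e) (Fin e) k))ᵀ =
          d • N'ᵀ + c • Nᵀ + z • (1 : Matrix (Fin e) (Fin e) k) := by
        simp only [Matrix.transpose_add, Matrix.transpose_smul, Matrix.transpose_one]
        abel
      have e2 : (a • N + b • N' + x • (1 : Matrix (Fin e) (Fin e) k))ᵀ =
          b • N'ᵀ + a • Nᵀ + x • (1 : Matrix (Fin e) (Fin e) k) := by
        simp only [Matrix.transpose_add, Matrix.transpose_smul, Matrix.transpose_one]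
        abel
      show B _ _ _ _
      rw [e1, e2, Matrix.transpose_mul, Matrix.transpose_mul, Matrix.transpose_transpose,
        Matrix.transpose_transpose]
      exact h2

theorem exists_dot {z : Fin e → k} (hz : z ≠ 0) : ∃ ν : Fin e → k, ν ⬝ᵥ z = 1 := by
  obtain ⟨i, hi⟩ := Function.ne_iff.mp hz
  refine ⟨Pi.single i (z i)⁻¹, ?_⟩
  rw [single_dotProduct]
  exact inv_mul_cancel₀ hi

theorem add_mulVec' (W : Matrix G (Fin e) k) (x : G → k) (ν v : Fin e → k) (s : k) :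
    (W + s • vecMulVec x ν) *ᵥ v = W *ᵥ v + (s * (ν ⬝ᵥ v)) • x := by
  rw [Matrix.add_mulVec, Matrix.smul_mulVec, Matrix.vecMulVec_mulVec]
  ext i
  simp [mul_comm, mul_left_comm]

theorem ker_add {W : Matrix G (Fin e) k} {x : G → k} {ν v : Fin e → k} {s : k} (hs : s ≠ 0)
    (hx : ∀ v, W *ᵥ v ≠ x) (hv : (W + s • vecMulVec x ν) *ᵥ v = 0) :
    ν ⬝ᵥ v = 0 ∧ W *ᵥ v = 0 := by
  rw [add_mulVec'] at hv
  have h1 : ν ⬝ᵥ v = 0 := by
    by_contra h
    have hc : s * (ν ⬝ᵥ v) ≠ 0 := mul_ne_zero hs h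
    apply hx (-((s * (ν ⬝ᵥ v))⁻¹ • v))
    rw [Matrix.mulVec_neg, Matrix.mulVec_smul, eq_neg_of_add_eq_zero_left hv, smul_neg, neg_neg,
      smul_smul, inv_mul_cancel₀ hc, one_smul]
  refine ⟨h1, ?_⟩
  rw [h1, mul_zero, zero_smul, add_zero] at hv
  exact hv

theorem exists_left_inv {A : Matrix G (Fin e) k} (h : ∀ v, A *ᵥ v = 0 → v = 0) :
    ∃ L : Matrix (Fin e) G k, L * A = 1 := by
  have hk : LinearMap.ker (Matrix.toLin' A) = ⊥ := by
    rw [LinearMap.ker_eq_bot']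
    intro v hv
    exact h v (by simpa [Matrix.toLin'_apply] using hv)
  obtain ⟨g, hg⟩ := LinearMap.exists_leftInverse_of_injective _ hk
  refine ⟨LinearMap.toMatrix' g, ?_⟩
  have h2 : LinearMap.toMatrix' (g ∘ₗ Matrix.toLin' A) = 1 := by
    rw [hg, LinearMap.toMatrix'_id]
  rw [LinearMap.toMatrix'_comp, LinearMap.toMatrix'_toLin'] at h2
  exact h2

/-- from a cofinite set of parameters pick a nonzero one -/
theorem exists_ne [Infinite k] {S : Set k} (h : S.Finite) : ∃ s : k, s ≠ 0 ∧ s ∉ S := by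
  have h2 : (S ∪ {0}).Finite := h.union (Set.finite_singleton 0)
  obtain ⟨s, hs⟩ := h2.exists_notMem
  refine ⟨s, ?_, ?_⟩
  · intro h0; exact hs (Or.inr h0)
  · intro h0; exact hs (Or.inl h0)

variable {B : Matrix (Fin e) (Fin e) k → Matrix (Fin e) (Fin e) k → Matrix (Fin e) G k →
      Matrix G (Fin e) k → Prop}

theorem bump [Infinite k] (hB : OpenQuad B)
    (hW : ∀ N N' Ψ W, B N N' Ψ W → ∃ z : Fin e → k, z ≠ 0 ∧ W *ᵥ z = 0)
    {N N' : Matrix (Fin e) (Fin e) k} {Ψ : Matrix (Fin e) G k} {W : Matrix G (Fin e) k}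
    (h : B N N' Ψ W) {z : Fin e → k} (hz : z ≠ 0) (hWz : W *ᵥ z = 0)
    (hker : ∀ v, W *ᵥ v = 0 → ∃ c : k, v = c • z)
    (n n' : Matrix (Fin e) (Fin e) k) (hnn : n * n' = n' * n) (x : G → k)
    (hx : ∀ v, W *ᵥ v ≠ x)
    (hC : (n * N' - N' * n + (N * n' - n' * N)) *ᵥ z = Ψ *ᵥ x) : False := by
  obtain ⟨ν, hν⟩ := exists_dot hz
  have hinj : ∀ s : k, s ≠ 0 → ∀ v, (W + s • vecMulVec x ν) *ᵥ v = 0 → v = 0 := by
    intro s hs v hv
    obtain ⟨h1, h2⟩ := ker_add hs hx hv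
    obtain ⟨c, rfl⟩ := hker v h2
    rw [dotProduct_smul, hν, smul_eq_mul, mul_one] at h1
    rw [h1, zero_smul]
  obtain ⟨L, hL⟩ := exists_left_inv (hinj 1 one_ne_zero)
  rw [one_smul] at hL
  set C := n * N' - N' * n + (N * n' - n' * N) with hCdef
  set R := C - vecMulVec (Ψ *ᵥ x) ν with hR
  have hRz : R *ᵥ z = 0 := by
    rw [hR, Matrix.sub_mulVec, hC, Matrix.vecMulVec_mulVec, hν]
    simp
  set D := R * L with hD
  have h1 : D * (W + vecMulVec x ν) = R := by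
    rw [hD, Matrix.mul_assoc, hL, Matrix.mul_one]
  have h2 : D *ᵥ x = 0 := by
    have h3 := congrArg (fun M => M *ᵥ z) h1
    simp only [← Matrix.mulVec_mulVec, Matrix.add_mulVec, hWz, Matrix.vecMulVec_mulVec, hν,
      hRz] at h3
    simpa using h3
  have h3 : D * vecMulVec x ν = 0 := by
    rw [Matrix.mul_vecMulVec, h2]
    ext i j; simp [vecMulVec_apply]
  have h4 : D * W = R := by
    rw [Matrix.mul_add, h3, add_zero] at h1
    exact h1
  have h5 : Ψ * vecMulVec x ν = vecMulVec (Ψ *ᵥ x) ν := Matrix.mul_vecMulVec _ _ _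
  have hline : ∀ s : k, (N + s • n) * (N' + s • n') - (N' + s • n') * (N + s • n) =
      (Ψ + s • D) * (W + s • vecMulVec x ν) := by
    intro s
    have e1 : (N + s • n) * (N' + s • n') - (N' + s • n') * (N + s • n) =
        (N * N' - N' * N) + s • C := by
      rw [hCdef]
      simp only [Matrix.add_mul, Matrix.mul_add, Matrix.smul_mul, Matrix.mul_smul, smul_add,
        smul_sub, hnn]
      abel
    have e2 : (Ψ + s • D) * (W + s • vecMulVec x ν) = Ψ * W + s • C := by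
      simp only [Matrix.add_mul, Matrix.mul_add, Matrix.smul_mul, Matrix.mul_smul, h3, h4, h5,
        hR, smul_sub, smul_zero, add_zero]
      abel
    rw [e1, e2, hB.rel _ _ _ _ h]
  obtain ⟨s, hs, hsB⟩ := exists_ne (hB.line _ _ _ _ _ _ _ _ hline h)
  have hmem : B (N + s • n) (N' + s • n') (Ψ + s • D) (W + s • vecMulVec x ν) := by
    by_contra h0; exact hsB h0
  obtain ⟨v, hv, hv2⟩ := hW _ _ _ _ hmem
  exact hv (hinj s hs v hv2)

theorem rank_lt {A A' : Matrix G (Fin e) k} {z : Fin e → k} (hz : A *ᵥ z = 0)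
    (hz' : A' *ᵥ z ≠ 0) (h : ∀ v, A' *ᵥ v = 0 → A *ᵥ v = 0) : A.rank < A'.rank := by
  have hlt : LinearMap.ker A'.mulVecLin < LinearMap.ker A.mulVecLin := by
    refine lt_of_le_of_ne ?_ ?_
    · intro v hv
      rw [LinearMap.mem_ker, Matrix.mulVecLin_apply] at hv ⊢
      exact h v hv
    · intro h0
      apply hz'
      have : z ∈ LinearMap.ker A.mulVecLin := by
        rw [LinearMap.mem_ker, Matrix.mulVecLin_apply]; exact hz
      rw [← h0, LinearMap.mem_ker, Matrix.mulVecLin_apply] at this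
      exact this
  have h1 := Submodule.finrank_lt_finrank_of_lt hlt
  have h2 := A.mulVecLin.finrank_range_add_finrank_ker
  have h3 := A'.mulVecLin.finrank_range_add_finrank_ker
  rw [Matrix.rank, Matrix.rank]
  omega

theorem step [Infinite k] (hB : OpenQuad B)
    {N N' : Matrix (Fin e) (Fin e) k} {Ψ : Matrix (Fin e) G k} {W : Matrix G (Fin e) k}
    (h : B N N' Ψ W) {z : Fin e → k} (hz : z ≠ 0) (hWz : W *ᵥ z = 0) {x : G → k}
    (hx : ∀ v, W *ᵥ v ≠ x) (hΨx : Ψ *ᵥ x = 0) :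
    ∃ W', B N N' Ψ W' ∧ W.rank < W'.rank := by
  obtain ⟨ν, hν⟩ := exists_dot hz
  have hline : ∀ s : k, (N + s • (0 : Matrix (Fin e) (Fin e) k)) *
      (N' + s • (0 : Matrix (Fin e) (Fin e) k)) - (N' + s • (0 : Matrix (Fin e) (Fin e) k)) *
      (N + s • (0 : Matrix (Fin e) (Fin e) k)) =
      (Ψ + s • (0 : Matrix (Fin e) G k)) * (W + s • vecMulVec x ν) := by
    intro s
    have h5 : Ψ * vecMulVec x ν = 0 := by
      rw [Matrix.mul_vecMulVec, hΨx]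
      ext i j; simp [vecMulVec_apply]
    simp only [smul_zero, add_zero, Matrix.mul_add, Matrix.mul_smul, h5]
    exact hB.rel _ _ _ _ h
  obtain ⟨s, hs, hsB⟩ := exists_ne (hB.line _ _ _ _ _ _ _ _ hline h)
  have hmem : B N N' Ψ (W + s • vecMulVec x ν) := by
    by_contra h0; apply hsB
    show ¬ B _ _ _ _
    simpa only [smul_zero, add_zero] using h0
  refine ⟨_, hmem, rank_lt hWz ?_ ?_⟩
  · intro h0
    obtain ⟨h1, -⟩ := ker_add hs hx h0
    rw [hν] at h1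
    exact one_ne_zero h1
  · intro v hv
    exact (ker_add hs hx hv).2

/-- a member with `W` of maximal rank -/
theorem exists_max {N N' : Matrix (Fin e) (Fin e) k} {Ψ : Matrix (Fin e) G k}
    {W : Matrix G (Fin e) k} (h : B N N' Ψ W) :
    ∃ N N' Ψ W, B N N' Ψ W ∧ ∀ N2 N2' Ψ2 W2, B N2 N2' Ψ2 W2 → W2.rank ≤ W.rank := by
  classical
  have hex : ∃ m : ℕ, ∃ N N' Ψ W, B N N' Ψ W ∧ e - W.rank = m := ⟨_, N, N', Ψ, W, h, rfl⟩
  obtain ⟨N1, N1', Ψ1, W1, h1, h2⟩ := Nat.find_spec hex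
  refine ⟨N1, N1', Ψ1, W1, h1, ?_⟩
  intro N2 N2' Ψ2 W2 h3
  have h4 := Nat.find_min' hex ⟨N2, N2', Ψ2, W2, h3, rfl⟩
  have h5 : W2.rank ≤ e := by
    have := Matrix.rank_le_card_width W2
    simpa using this
  have h6 : W1.rank ≤ e := by
    have := Matrix.rank_le_card_width W1
    simpa using this
  omega

theorem rank_lt_of_ker {A : Matrix G (Fin e) k} {z : Fin e → k} (hz : z ≠ 0)
    (h : A *ᵥ z = 0) : A.rank < e := by
  have h2 := A.mulVecLin.finrank_range_add_finrank_ker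
  have h3 : 0 < Module.finrank k (LinearMap.ker A.mulVecLin) := by
    rw [Module.finrank_pos_iff_exists_ne_zero]
    exact ⟨⟨z, by rw [LinearMap.mem_ker, Matrix.mulVecLin_apply]; exact h⟩,
      fun h0 => hz (congrArg Subtype.val h0)⟩
  rw [Matrix.rank]
  simp at h2
  omega

/-- if `ker Ψ ⊆ im W` then `card G - rank Ψ ≤ rank W` -/
theorem card_le {Ψ : Matrix (Fin e) G k} {W : Matrix G (Fin e) k}
    (h : ∀ x, Ψ *ᵥ x = 0 → ∃ v, W *ᵥ v = x) : Fintype.card G ≤ Ψ.rank + W.rank := by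
  have h1 : LinearMap.ker Ψ.mulVecLin ≤ LinearMap.range W.mulVecLin := by
    intro x hx
    rw [LinearMap.mem_ker, Matrix.mulVecLin_apply] at hx
    obtain ⟨v, hv⟩ := h x hx
    exact ⟨v, by rw [Matrix.mulVecLin_apply]; exact hv⟩
  have h2 := Submodule.finrank_mono h1
  have h3 := Ψ.mulVecLin.finrank_range_add_finrank_ker
  rw [Matrix.rank, Matrix.rank]
  simp at h3
  omega

/-- the converse inclusion by dimension -/
theorem ker_sub_range {Ψ : Matrix (Fin e) G k} {W : Matrix G (Fin e) k} (hz : Ψ * W = 0)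
    (hc : Fintype.card G = Ψ.rank + W.rank) {x : G → k} (hx : Ψ *ᵥ x = 0) :
    ∃ v, W *ᵥ v = x := by
  have h1 : LinearMap.range W.mulVecLin ≤ LinearMap.ker Ψ.mulVecLin := by
    rintro _ ⟨v, rfl⟩
    rw [LinearMap.mem_ker, Matrix.mulVecLin_apply, Matrix.mulVecLin_apply, Matrix.mulVec_mulVec,
      hz, Matrix.zero_mulVec]
  have h3 := Ψ.mulVecLin.finrank_range_add_finrank_ker
  rw [Matrix.rank, Matrix.rank] at hc
  simp at h3
  have h2 := Submodule.eq_of_le_of_finrank_eq h1 (by omega)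
  have h4 : x ∈ LinearMap.ker Ψ.mulVecLin := by
    rw [LinearMap.mem_ker, Matrix.mulVecLin_apply]; exact hx
  rw [← h2] at h4
  obtain ⟨v, hv⟩ := h4
  exact ⟨v, by rw [← hv, Matrix.mulVecLin_apply]⟩

/-- `rank W = e - 1`: the kernel is a line -/
theorem ker_line {W : Matrix G (Fin e) k} (hr : W.rank + 1 = e) {z : Fin e → k} (hz : z ≠ 0)
    (hWz : W *ᵥ z = 0) {v : Fin e → k} (hv : W *ᵥ v = 0) : ∃ c : k, v = c • z := by
  have h3 := W.mulVecLin.finrank_range_add_finrank_ker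
  rw [Matrix.rank] at hr
  simp at h3
  have h1 : Module.finrank k (LinearMap.ker W.mulVecLin) = 1 := by omega
  have hz2 : z ∈ LinearMap.ker W.mulVecLin := by
    rw [LinearMap.mem_ker, Matrix.mulVecLin_apply]; exact hWz
  have hv2 : v ∈ LinearMap.ker W.mulVecLin := by
    rw [LinearMap.mem_ker, Matrix.mulVecLin_apply]; exact hv
  have hz3 : (⟨z, hz2⟩ : LinearMap.ker W.mulVecLin) ≠ 0 :=
    fun h0 => hz (congrArg Subtype.val h0)
  obtain ⟨c, hc⟩ := (finrank_eq_one_iff_of_nonzero' _ hz3).mp h1 ⟨v, hv2⟩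
  exact ⟨c, (congrArg Subtype.val hc).symm⟩

/-- `rank Ψ = e - 1`, `ζ Ψ = 0`: the image of `Ψ` is the kernel of `ζ` -/
theorem im_eq {Ψ : Matrix (Fin e) G k} (hr : Ψ.rank + 1 = e) {ζ : Fin e → k} (hζ : ζ ≠ 0)
    (hζΨ : ζ ᵥ* Ψ = 0) {y : Fin e → k} (hy : ζ ⬝ᵥ y = 0) : ∃ x, Ψ *ᵥ x = y := by
  let f : (Fin e → k) →ₗ[k] k := 
    { toFun := fun v => ζ ⬝ᵥ v
      map_add' := fun a b => dotProduct_add _ _ _
      map_smul' := fun c a => by rw [dotProduct_smul]; rfl }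
  have h1 : LinearMap.range Ψ.mulVecLin ≤ LinearMap.ker f := by
    rintro _ ⟨v, rfl⟩
    rw [LinearMap.mem_ker, Matrix.mulVecLin_apply]
    show ζ ⬝ᵥ (Ψ *ᵥ v) = 0
    rw [Matrix.dotProduct_mulVec, hζΨ, zero_dotProduct]
  have h3 := f.finrank_range_add_finrank_ker
  obtain ⟨w, hw⟩ := exists_dot hζ
  have hsurj : LinearMap.range f = ⊤ := by
    rw [LinearMap.range_eq_top]
    intro c
    refine ⟨c • w, ?_⟩
    show ζ ⬝ᵥ (c • w) = c
    rw [dotProduct_smul, dotProduct_comm, hw, smul_eq_mul, mul_one]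
  rw [hsurj] at h3
  simp at h3
  rw [Matrix.rank] at hr
  have h2 := Submodule.eq_of_le_of_finrank_eq h1 (by omega)
  have h4 : y ∈ LinearMap.ker f := by
    rw [LinearMap.mem_ker]; exact hy
  rw [← h2] at h4
  obtain ⟨v, hv⟩ := h4
  exact ⟨v, by rw [← hv, Matrix.mulVecLin_apply]⟩

/-- a good member: ranks two, `Ψ W = 0` -/
structure Good (B : Matrix (Fin 3) (Fin 3) k → Matrix (Fin 3) (Fin 3) k → Matrix (Fin 3) G k →
      Matrix G (Fin 3) k → Prop) (N N' : Matrix (Fin 3) (Fin 3) k) (Ψ : Matrix (Fin 3) G k)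
    (W : Matrix G (Fin 3) k) (z ζ : Fin 3 → k) : Prop where
  mem : B N N' Ψ W
  hz : z ≠ 0
  hζ : ζ ≠ 0
  Wz : W *ᵥ z = 0
  zΨ : ζ ᵥ* Ψ = 0
  rW : W.rank = 2
  rΨ : Ψ.rank = 2
  zero : Ψ * W = 0

end QuadAux

open QuadAux


namespace QuadAux

variable {k : Type*} [Field k] {G : Type} [Fintype G] [DecidableEq G]

variable {B : Matrix (Fin 3) (Fin 3) k → Matrix (Fin 3) (Fin 3) k → Matrix (Fin 3) G k →
      Matrix G (Fin 3) k → Prop}

theorem Good.dual {N N' : Matrix (Fin 3) (Fin 3) k} {Ψ : Matrix (Fin 3) G k}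
    {W : Matrix G (Fin 3) k} {z ζ : Fin 3 → k} (h : Good B N N' Ψ W z ζ) :
    Good (QuadAux.dual B) N'ᵀ Nᵀ Wᵀ Ψᵀ ζ z where
  mem := by
    show B _ _ _ _
    simpa only [Matrix.transpose_transpose] using h.mem
  hz := h.hζ
  hζ := h.hz
  Wz := by rw [Matrix.mulVec_transpose]; exact h.zΨ
  zΨ := by rw [Matrix.vecMul_transpose]; exact h.Wz
  rW := by rw [Matrix.rank_transpose]; exact h.rΨ
  rΨ := by rw [Matrix.rank_transpose]; exact h.rW
  zero := by rw [← Matrix.transpose_mul, h.zero, Matrix.transpose_zero]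

/-- `Ψ x ≠ 0` implies `x ∉ im W` -/
theorem Good.notMem {N N' : Matrix (Fin 3) (Fin 3) k} {Ψ : Matrix (Fin 3) G k}
    {W : Matrix G (Fin 3) k} {z ζ : Fin 3 → k} (h : Good B N N' Ψ W z ζ) {x : G → k}
    (hx : Ψ *ᵥ x ≠ 0) (v : Fin 3 → k) : W *ᵥ v ≠ x := by
  rintro rfl
  apply hx
  rw [Matrix.mulVec_mulVec, h.zero, Matrix.zero_mulVec]

theorem Good.bump [Infinite k] (hB : OpenQuad B)
    (hW : ∀ N N' Ψ W, B N N' Ψ W → ∃ z : Fin 3 → k, z ≠ 0 ∧ W *ᵥ z = 0)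
    {N N' : Matrix (Fin 3) (Fin 3) k} {Ψ : Matrix (Fin 3) G k}
    {W : Matrix G (Fin 3) k} {z ζ : Fin 3 → k} (h : Good B N N' Ψ W z ζ)
    (n n' : Matrix (Fin 3) (Fin 3) k) (hnn : n * n' = n' * n)
    (hne : (n * N' - N' * n + (N * n' - n' * N)) *ᵥ z ≠ 0)
    (hd : ζ ⬝ᵥ ((n * N' - N' * n + (N * n' - n' * N)) *ᵥ z) = 0) : False := by
  obtain ⟨x, hx⟩ := im_eq (by rw [h.rΨ]) h.hζ h.zΨ hd
  exact QuadAux.bump hB hW h.mem h.hz h.Wz
    (fun v hv => ker_line (by rw [h.rW]) h.hz h.Wz hv) n n' hnn x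
    (h.notMem (by rw [hx]; exact hne)) hx.symm

/-- a vector `y ≠ 0` killed by `ζ` -/
theorem exists_perp {ζ : Fin 3 → k} (hζ : ζ ≠ 0) : ∃ y : Fin 3 → k, y ≠ 0 ∧ ζ ⬝ᵥ y = 0 := by
  by_cases h0 : ζ 0 = 0
  · refine ⟨Pi.single 0 1, ?_, ?_⟩
    · intro h; have := congrFun h 0; simp at this
    · rw [dotProduct_single, h0, zero_mul]
  · refine ⟨Pi.single 0 (ζ 1) - Pi.single 1 (ζ 0), ?_, ?_⟩
    · intro h; have := congrFun h 1; simp at this; exact h0 this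
    · rw [dotProduct_sub, dotProduct_single, dotProduct_single]; ring

/-- a row that vanishes at `z`, with value one at a vector not proportional to `z` -/
theorem exists_row {z u : Fin 3 → k} (hz : z ≠ 0) (hu : ∀ c : k, u ≠ c • z) :
    ∃ ν : Fin 3 → k, ν ⬝ᵥ z = 0 ∧ ν ⬝ᵥ u = 1 := by
  obtain ⟨i, hi⟩ := Function.ne_iff.mp hz
  have hi' : z i ≠ 0 := hi
  obtain ⟨j, hj⟩ := Function.ne_iff.mp (hu (u i / z i))
  have hj' : u j - u i / z i * z j ≠ 0 := by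
    intro h0; apply hj
    simp only [Pi.smul_apply, smul_eq_mul]
    linear_combination h0
  refine ⟨(u j - u i / z i * z j)⁻¹ • (Pi.single j 1 - Pi.single i (z j / z i)), ?_, ?_⟩
  · rw [smul_dotProduct, sub_dotProduct, single_dotProduct, single_dotProduct]
    field_simp
    simp
  · rw [smul_dotProduct, sub_dotProduct, single_dotProduct, single_dotProduct, smul_eq_mul]
    have : 1 * u j - z j / z i * u i = u j - u i / z i * z j := by field_simp
    rw [this, inv_mul_cancel₀ hj']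

/-- (S2) `z` is an eigenvector of `N` and of `N'` -/
theorem Good.eig [Infinite k] (hB : OpenQuad B)
    (hW : ∀ N N' Ψ W, B N N' Ψ W → ∃ z : Fin 3 → k, z ≠ 0 ∧ W *ᵥ z = 0)
    {N N' : Matrix (Fin 3) (Fin 3) k} {Ψ : Matrix (Fin 3) G k}
    {W : Matrix G (Fin 3) k} {z ζ : Fin 3 → k} (h : Good B N N' Ψ W z ζ) :
    (∃ c : k, N *ᵥ z = c • z) ∧ (∃ c : k, N' *ᵥ z = c • z) := by
  obtain ⟨y, hy, hζy⟩ := exists_perp h.hζ
  constructor
  · by_contra hcon
    push Not at hcon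
    obtain ⟨ν, hν1, hν2⟩ := exists_row h.hz hcon
    have e1 : ((0 : Matrix (Fin 3) (Fin 3) k) * N' - N' * 0 + (N * vecMulVec y ν - vecMulVec y ν * N)) *ᵥ z = -y := by
      rw [zero_mul, mul_zero, sub_zero, zero_add, Matrix.sub_mulVec, ← Matrix.mulVec_mulVec,
        ← Matrix.mulVec_mulVec, Matrix.vecMulVec_mulVec, Matrix.vecMulVec_mulVec, hν1, hν2]
      simp
    refine h.bump hB hW 0 (vecMulVec y ν) (by rw [zero_mul, mul_zero]) ?_ ?_
    · rw [e1]; exact neg_ne_zero.mpr hy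
    · rw [e1, dotProduct_neg, hζy, neg_zero]
  · by_contra hcon
    push Not at hcon
    obtain ⟨ν, hν1, hν2⟩ := exists_row h.hz hcon
    have e1 : (vecMulVec y ν * N' - N' * vecMulVec y ν + (N * (0 : Matrix (Fin 3) (Fin 3) k) - 0 * N)) *ᵥ z = y := by
      rw [zero_mul, mul_zero, sub_zero, add_zero, Matrix.sub_mulVec, ← Matrix.mulVec_mulVec,
        ← Matrix.mulVec_mulVec, Matrix.vecMulVec_mulVec, Matrix.vecMulVec_mulVec, hν1, hν2]
      simp
    refine h.bump hB hW (vecMulVec y ν) 0 (by rw [zero_mul, mul_zero]) ?_ ?_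
    · rw [e1]; exact hy
    · rw [e1, hζy]

/-- linear changes -/
theorem Good.lin (hB : OpenQuad B)
    {N N' : Matrix (Fin 3) (Fin 3) k} {Ψ : Matrix (Fin 3) G k}
    {W : Matrix G (Fin 3) k} {z ζ : Fin 3 → k} (h : Good B N N' Ψ W z ζ)
    (a b c d x y : k) (hd : a * d - b * c ≠ 0) :
    ∃ Ψ' W', Good B (a • N + b • N' + x • 1) (c • N + d • N' + y • 1) Ψ' W' z ζ := by
  obtain ⟨Γ, Γ', h1, h2⟩ := hB.lin _ _ _ _ a b c d x y hd h.mem
  have hu : IsUnit Γ.det := by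
    have := congrArg Matrix.det h1
    rw [Matrix.det_mul, Matrix.det_smul, Matrix.det_one, mul_one] at this
    refine isUnit_iff_ne_zero.mpr ?_
    intro h0
    rw [h0, mul_zero] at this
    exact pow_ne_zero _ hd this.symm
  have hu' : IsUnit Γ'.det := by
    have := congrArg Matrix.det h1
    rw [Matrix.det_mul, Matrix.det_smul, Matrix.det_one, mul_one] at this
    refine isUnit_iff_ne_zero.mpr ?_
    intro h0
    rw [h0, zero_mul] at this
    exact pow_ne_zero _ hd this.symm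
  refine ⟨_, _, h2, h.hz, h.hζ, ?_, ?_, ?_, ?_, ?_⟩
  · rw [← Matrix.mulVec_mulVec, h.Wz, Matrix.mulVec_zero]
  · rw [← Matrix.vecMul_vecMul, h.zΨ, Matrix.zero_vecMul]
  · rw [Matrix.rank_mul_eq_right_of_isUnit_det _ _ hu]; exact h.rW
  · rw [Matrix.rank_mul_eq_left_of_isUnit_det _ _ hu']; exact h.rΨ
  · rw [Matrix.mul_assoc, ← Matrix.mul_assoc Γ', h1, Matrix.smul_mul, Matrix.one_mul,
      Matrix.mul_smul, h.zero, smul_zero]

/-- the last step: `N z = N' z = 0`, `ζ N = ζ`, `ζ N' = 0` is impossible -/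
theorem Good.last [Infinite k] (hB : OpenQuad B)
    (hW : ∀ N N' Ψ W, B N N' Ψ W → ∃ z : Fin 3 → k, z ≠ 0 ∧ W *ᵥ z = 0)
    (hΨ : ∀ N N' Ψ W, B N N' Ψ W → ∃ ζ : Fin 3 → k, ζ ≠ 0 ∧ ζ ᵥ* Ψ = 0)
    {N N' : Matrix (Fin 3) (Fin 3) k} {Ψ : Matrix (Fin 3) G k}
    {W : Matrix G (Fin 3) k} {z ζ : Fin 3 → k} (h : Good B N N' Ψ W z ζ)
    (hNz : N *ᵥ z = 0) (hNz' : N' *ᵥ z = 0) (hζN : ζ ᵥ* N = ζ) (hζN' : ζ ᵥ* N' = 0) : False := by
  have hζz : ζ ⬝ᵥ z = 0 := by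
    have h1 : ζ ᵥ* N ⬝ᵥ z = ζ ⬝ᵥ N *ᵥ z := (Matrix.dotProduct_mulVec _ _ _).symm
    rw [hζN, hNz, dotProduct_zero] at h1
    exact h1
  obtain ⟨ν, hν⟩ := exists_dot h.hz
  -- (a)
  have ha : ∀ v, N' *ᵥ v = 0 := by
    intro v
    by_contra hv
    have e1 : (vecMulVec v ν * N' - N' * vecMulVec v ν + (N * (0 : Matrix (Fin 3) (Fin 3) k) - 0 * N)) *ᵥ z =
        -(N' *ᵥ v) := by
      rw [zero_mul, mul_zero, sub_zero, add_zero, Matrix.sub_mulVec, ← Matrix.mulVec_mulVec,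
        ← Matrix.mulVec_mulVec, hNz', Matrix.mulVec_zero, Matrix.vecMulVec_mulVec, hν]
      simp
    refine h.bump hB hW (vecMulVec v ν) 0 (by rw [zero_mul, mul_zero]) ?_ ?_
    · rw [e1]; exact neg_ne_zero.mpr hv
    · rw [e1, dotProduct_neg, Matrix.dotProduct_mulVec, hζN', zero_dotProduct, neg_zero]
  have hN' : N' = 0 := by
    ext i j
    have := congrFun (ha (Pi.single j 1)) i
    simpa using this
  -- (b)
  have hb : ∀ v, ζ ⬝ᵥ v = 0 → N *ᵥ v = 0 := by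
    intro v hζv
    by_contra hv
    have e1 : ((0 : Matrix (Fin 3) (Fin 3) k) * N' - N' * 0 + (N * vecMulVec v ν - vecMulVec v ν * N)) *ᵥ z =
        N *ᵥ v := by
      rw [zero_mul, mul_zero, sub_zero, zero_add, Matrix.sub_mulVec, ← Matrix.mulVec_mulVec,
        ← Matrix.mulVec_mulVec, hNz, Matrix.mulVec_zero, Matrix.vecMulVec_mulVec, hν]
      simp
    refine h.bump hB hW 0 (vecMulVec v ν) (by rw [zero_mul, mul_zero]) ?_ ?_
    · rw [e1]; exact hv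
    · rw [e1, Matrix.dotProduct_mulVec, hζN, hζv]
  -- (c)
  have hd := h.dual
  obtain ⟨μ, hμ⟩ := exists_dot h.hζ
  have hdW : ∀ N N' Ψ W, QuadAux.dual B N N' Ψ W → ∃ z : Fin 3 → k, z ≠ 0 ∧ W *ᵥ z = 0 := by
    intro N N' Ψ W h0
    obtain ⟨ξ, hξ, hξ2⟩ := hΨ _ _ _ _ h0
    exact ⟨ξ, hξ, by rw [← Matrix.vecMul_transpose]; exact hξ2⟩
  -- a row `ξ` with `ξ z = 0` that is not a multiple of `ζ`
  have hrow : ∃ ξ : Fin 3 → k, ξ ⬝ᵥ z = 0 ∧ ξ - ξ ᵥ* N ≠ 0 := by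
    by_contra hcon
    push Not at hcon
    -- rank of N is one
    obtain ⟨w, hw⟩ := exists_dot h.hζ
    have hN : ∀ v, N *ᵥ v = (ζ ⬝ᵥ v) • (N *ᵥ w) := by
      intro v
      have h1 := hb (v - (ζ ⬝ᵥ v) • w) (by
        rw [dotProduct_sub, dotProduct_smul, dotProduct_comm ζ w, hw]; simp)
      rw [Matrix.mulVec_sub, Matrix.mulVec_smul, sub_eq_zero] at h1
      exact h1
    have hξ : ∀ ξ : Fin 3 → k, ξ ⬝ᵥ z = 0 → ∀ v, ξ ⬝ᵥ v = (ξ ⬝ᵥ (N *ᵥ w)) * (ζ ⬝ᵥ v) := by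
      intro ξ h0 v
      have h1 := hcon ξ h0
      rw [sub_eq_zero] at h1
      calc ξ ⬝ᵥ v = (ξ ᵥ* N) ⬝ᵥ v := by rw [← h1]
        _ = ξ ⬝ᵥ (N *ᵥ v) := (Matrix.dotProduct_mulVec _ _ _).symm
        _ = _ := by rw [hN, dotProduct_smul, smul_eq_mul, mul_comm]
    -- choose `u` with `ζ u = 0`, not a multiple of `z`
    have hu : ∃ u : Fin 3 → k, ζ ⬝ᵥ u = 0 ∧ ∀ c : k, u ≠ c • z := by
      by_contra hcon2
      push Not at hcon2
      -- three coordinate vectors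
      have hrk : ∀ u : Fin 3 → k, ∃ c d : k, u = c • z + d • w := by
        intro u
        obtain ⟨c, hc⟩ := hcon2 (u - (ζ ⬝ᵥ u) • w) (by
          rw [dotProduct_sub, dotProduct_smul, dotProduct_comm ζ w, hw]; simp)
        exact ⟨c, ζ ⬝ᵥ u, by rw [← hc]; simp⟩
      have hspan : (⊤ : Submodule k (Fin 3 → k)) ≤ Submodule.span k ({z, w} : Set (Fin 3 → k)) := by
        intro u _
        obtain ⟨c, d, rfl⟩ := hrk u
        exact Submodule.mem_span_pair.mpr ⟨c, d, rfl⟩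
      have h1 := Submodule.finrank_mono hspan
      rw [finrank_top] at h1
      have h2 : Module.finrank k (Submodule.span k ({z, w} : Set (Fin 3 → k))) ≤ 2 := by
        classical
        have := finrank_span_finset_le_card (R := k) ({z, w} : Finset (Fin 3 → k))
        have h3 := Finset.card_le_two (a := z) (b := w)
        simp only [Finset.coe_insert, Finset.coe_singleton] at this
        exact this.trans h3
      simp at h1
      omega
    obtain ⟨u, hu1, hu2⟩ := hu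
    obtain ⟨ξ, hξ1, hξ2⟩ := exists_row h.hz hu2
    have h1 := hξ ξ hξ1 u
    rw [hξ2, hu1, mul_zero] at h1
    exact one_ne_zero h1
  obtain ⟨ξ, hξ1, hξ2⟩ := hrow
  have e1 : (vecMulVec ξ μ * Nᵀ - Nᵀ * vecMulVec ξ μ +
      (N'ᵀ * (0 : Matrix (Fin 3) (Fin 3) k) - 0 * N'ᵀ)) *ᵥ ζ = ξ - ξ ᵥ* N := by
    rw [zero_mul, mul_zero, sub_zero, add_zero, Matrix.sub_mulVec, ← Matrix.mulVec_mulVec,
      ← Matrix.mulVec_mulVec, Matrix.mulVec_transpose, hζN, Matrix.vecMulVec_mulVec, hμ,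
      Matrix.mulVec_transpose]
    simp
  refine hd.bump (dual_open hB) hdW (vecMulVec ξ μ) 0 (by rw [zero_mul, mul_zero]) ?_ ?_
  · rw [e1]; exact hξ2
  · rw [e1, dotProduct_sub, dotProduct_comm z ξ, hξ1, dotProduct_comm, ← Matrix.dotProduct_mulVec, hNz, dotProduct_zero,
      sub_zero]

end QuadAux

theorem quad_four {k : Type*} [Field k] [Infinite k] {G : Type} [Fintype G] [DecidableEq G]
    (hG : Fintype.card G = 4)
    {B : Matrix (Fin 3) (Fin 3) k → Matrix (Fin 3) (Fin 3) k → Matrix (Fin 3) G k →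
      Matrix G (Fin 3) k → Prop} (hB : OpenQuad B)
    (hW : ∀ N N' Ψ W, B N N' Ψ W → ∃ z : Fin 3 → k, z ≠ 0 ∧ W *ᵥ z = 0)
    (hΨ : ∀ N N' Ψ W, B N N' Ψ W → ∃ ζ : Fin 3 → k, ζ ≠ 0 ∧ ζ ᵥ* Ψ = 0)
    {N N' : Matrix (Fin 3) (Fin 3) k} {Ψ : Matrix (Fin 3) G k} {W : Matrix G (Fin 3) k}
    (h : B N N' Ψ W) :
    ∃ N N' Ψ W, ∃ z ζ : Fin 3 → k, B N N' Ψ W ∧ z ≠ 0 ∧ ζ ≠ 0 ∧ N *ᵥ z = 0 ∧ N' *ᵥ z = 0 ∧
      W *ᵥ z = 0 ∧ ζ ᵥ* N = 0 ∧ ζ ᵥ* N' = 0 ∧ ζ ᵥ* Ψ = 0 := by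
  obtain ⟨M, M', Φ, V, hm, hmax⟩ := exists_max h
  obtain ⟨z, hz, hVz⟩ := hW _ _ _ _ hm
  obtain ⟨ζ, hζ, hζΦ⟩ := hΨ _ _ _ _ hm
  have hdW : ∀ N N' Ψ W, QuadAux.dual B N N' Ψ W → ∃ z : Fin 3 → k, z ≠ 0 ∧ W *ᵥ z = 0 := by
    intro N N' Ψ W h0
    obtain ⟨ξ, hξ, hξ2⟩ := hΨ _ _ _ _ h0
    exact ⟨ξ, hξ, by rw [← Matrix.vecMul_transpose]; exact hξ2⟩
  -- (S1)
  have hsub : ∀ x, Φ *ᵥ x = 0 → ∃ v, V *ᵥ v = x := by
    intro x hx
    by_contra hcon
    push Not at hcon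
    obtain ⟨W', h1, h2⟩ := step hB hm hz hVz hcon hx
    exact absurd (hmax _ _ _ _ h1) (by omega)
  have hcard := card_le hsub
  have hrV : V.rank < 3 := rank_lt_of_ker hz hVz
  have hrΦ : Φ.rank < 3 := by
    rw [← Matrix.rank_transpose]
    exact rank_lt_of_ker hζ (by rw [Matrix.mulVec_transpose]; exact hζΦ)
  have hV2 : V.rank = 2 := by omega
  have hΦ2 : Φ.rank = 2 := by omega
  -- `ker Φ = im V`
  have hzero : Φ * V = 0 := by
    have h1 : LinearMap.ker Φ.mulVecLin ≤ LinearMap.range V.mulVecLin := by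
      intro x hx
      rw [LinearMap.mem_ker, Matrix.mulVecLin_apply] at hx
      obtain ⟨v, hv⟩ := hsub x hx
      exact ⟨v, by rw [Matrix.mulVecLin_apply]; exact hv⟩
    have h3 := Φ.mulVecLin.finrank_range_add_finrank_ker
    have h4 := hΦ2
    have h5 := hV2
    rw [Matrix.rank] at h4 h5
    simp at h3
    have h2 := Submodule.eq_of_le_of_finrank_eq h1 (by omega)
    ext i j
    have h6 : V *ᵥ Pi.single j 1 ∈ LinearMap.ker Φ.mulVecLin := by
      rw [h2]; exact ⟨Pi.single j 1, by rw [Matrix.mulVecLin_apply]⟩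
    rw [LinearMap.mem_ker, Matrix.mulVecLin_apply, Matrix.mulVec_mulVec] at h6
    have h7 := congrFun h6 i
    simpa using h7
  have hg : Good B M M' Φ V z ζ := ⟨hm, hz, hζ, hVz, hζΦ, hV2, hΦ2, hzero⟩
  obtain ⟨⟨c, hc⟩, ⟨c', hc'⟩⟩ := hg.eig hB hW
  obtain ⟨Φ1, V1, hg1⟩ := hg.lin hB 1 0 0 1 (-c) (-c') (by norm_num)
  have hz1 : ((1 : k) • M + (0 : k) • M' + (-c) • (1 : Matrix (Fin 3) (Fin 3) k)) *ᵥ z = 0 := by
    rw [Matrix.add_mulVec, Matrix.add_mulVec, Matrix.smul_mulVec, Matrix.smul_mulVec,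
      Matrix.smul_mulVec, hc, Matrix.one_mulVec]
    simp
  have hz1' : ((0 : k) • M + (1 : k) • M' + (-c') • (1 : Matrix (Fin 3) (Fin 3) k)) *ᵥ z = 0 := by
    rw [Matrix.add_mulVec, Matrix.add_mulVec, Matrix.smul_mulVec, Matrix.smul_mulVec,
      Matrix.smul_mulVec, hc', Matrix.one_mulVec]
    simp
  generalize (1 : k) • M + (0 : k) • M' + (-c) • (1 : Matrix (Fin 3) (Fin 3) k) = N1 at hg1 hz1
  generalize (0 : k) • M + (1 : k) • M' + (-c') • (1 : Matrix (Fin 3) (Fin 3) k) = N1' at hg1 hz1'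
  obtain ⟨⟨m', hm'⟩, ⟨m, hmm⟩⟩ := hg1.dual.eig (dual_open hB) hdW
  rw [Matrix.mulVec_transpose] at hm' hmm
  by_cases h00 : m = 0 ∧ m' = 0
  · refine ⟨N1, N1', Φ1, V1, z, ζ, hg1.mem, hz, hζ, hz1, hz1', hg1.Wz, ?_, ?_, hg1.zΨ⟩
    · rw [hmm, h00.1, zero_smul]
    · rw [hm', h00.2, zero_smul]
  · exfalso
    obtain ⟨a, b, hab⟩ : ∃ a b : k, a * m + b * m' = 1 := by
      by_cases h1 : m = 0
      · have h2 : m' ≠ 0 := fun h2 => h00 ⟨h1, h2⟩
        exact ⟨0, m'⁻¹, by rw [inv_mul_cancel₀ h2]; ring⟩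
      · exact ⟨m⁻¹, 0, by rw [inv_mul_cancel₀ h1]; ring⟩
    obtain ⟨Φ2, V2, hg2⟩ := hg1.lin hB a b (-m') m 0 0 (by
      have : a * m - b * -m' = a * m + b * m' := by ring
      rw [this, hab]; exact one_ne_zero)
    refine hg2.last hB hW hΨ ?_ ?_ ?_ ?_
    · rw [Matrix.add_mulVec, Matrix.add_mulVec, Matrix.smul_mulVec, Matrix.smul_mulVec,
        Matrix.smul_mulVec, hz1, hz1']
      simp
    · rw [Matrix.add_mulVec, Matrix.add_mulVec, Matrix.smul_mulVec, Matrix.smul_mulVec,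
        Matrix.smul_mulVec, hz1, hz1']
      simp
    · rw [Matrix.vecMul_add, Matrix.vecMul_add, Matrix.vecMul_smul, Matrix.vecMul_smul,
        Matrix.vecMul_smul, hm', hmm, zero_smul, add_zero, smul_smul, smul_smul, ← add_smul, hab,
        one_smul]
    · rw [Matrix.vecMul_add, Matrix.vecMul_add, Matrix.vecMul_smul, Matrix.vecMul_smul,
        Matrix.vecMul_smul, hm', hmm, zero_smul, add_zero, smul_smul, smul_smul, ← add_smul]
      have : -m' * m + m * m' = 0 := by ring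
      rw [this, zero_smul]

theorem quad_big {k : Type*} [Field k] [Infinite k] {e : ℕ} {G : Type} [Fintype G] [DecidableEq G]
    (hG : 2 * e ≤ Fintype.card G)
    {B : Matrix (Fin e) (Fin e) k → Matrix (Fin e) (Fin e) k → Matrix (Fin e) G k →
      Matrix G (Fin e) k → Prop} (hB : OpenQuad B)
    {N N' : Matrix (Fin e) (Fin e) k} {Ψ : Matrix (Fin e) G k} {W : Matrix G (Fin e) k}
    (h : B N N' Ψ W) :
    ∃ N N' Ψ W, B N N' Ψ W ∧ ∀ z : Fin e → k, W *ᵥ z = 0 → z = 0 := by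
  obtain ⟨M, M', Φ, V, hm, hmax⟩ := exists_max h
  refine ⟨M, M', Φ, V, hm, ?_⟩
  intro z hVz
  by_contra hz
  have hsub : ∀ x, Φ *ᵥ x = 0 → ∃ v, V *ᵥ v = x := by
    intro x hx
    by_contra hcon
    push Not at hcon
    obtain ⟨W', h1, h2⟩ := step hB hm hz hVz hcon hx
    exact absurd (hmax _ _ _ _ h1) (by omega)
  have hcard := card_le hsub
  have hrV : V.rank < e := rank_lt_of_ker hz hVz
  have hrΦ : Φ.rank ≤ e := by
    have := Matrix.rank_le_card_height Φ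
    simpa using this
  omega

end Pool.Agent.Lib.D12
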