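import Pool.Agent.Lib.D12.Blk4

/-!
# MP_5dcbc3_ag: type (4, 4, 4), the raise lemma

Basis `v_i^(j) = x^j v_i`, `i = 1, 2, 3`, `j = 0, .., 3`. `X_1 = x E_11 + x^3 M`, `X_2 = x E_22 + x^3 M'`,
`M = m23 E_23 + m32 E_32`, `M' = x12 E_12 + x13 E_13 + x21 E_21 + x31 E_31`.
`K : v1 -> x31 v3, v1' -> x31 m23 v2''', v2 -> x13 m32 v1'', v3''' -> x13 v1'''` commutes with
`X_1, X_2`, and `(A + s K)^4 v3 = s x13 v1'''`.
-/

set_option autoImplicit false

namespace Pool.Agent.Lib.D12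

open Matrix Pool.Agent.Lib.Q5dc Pool.Agent.Lib.D7

namespace R444Aux

variable {k : Type*} [Field k]

/-- `K` -/
def KM (m23 m32 x13 x31 : k) : Matrix (I4 3) (I4 3) k :=
  Matrix.of fun i j => match i, j with
    | .inl i, .inl j => (!![0, 0, 0; 0, 0, 0; x31, 0, 0] : Matrix _ _ k) i j
    | .inr (.inr (.inr i)), .inr (.inl j) =>
      (!![0, 0, 0; x31 * m23, 0, 0; 0, 0, 0] : Matrix _ _ k) i j
    | .inr (.inr (.inl i)), .inl j =>
      (!![0, x13 * m32, 0; 0, 0, 0; 0, 0, 0] : Matrix _ _ k) i j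
    | .inr (.inr (.inr i)), .inr (.inr (.inr j)) =>
      (!![0, 0, x13; 0, 0, 0; 0, 0, 0] : Matrix _ _ k) i j
    | _, _ => 0

theorem KM_comm1 (m23 m32 x13 x31 : k) :
    KM m23 m32 x13 x31 *
        L4 !![1, 0, 0; 0, 0, 0; 0, 0, 0] 0 !![0, 0, 0; 0, 0, m23; 0, m32, 0] =
      L4 !![1, 0, 0; 0, 0, 0; 0, 0, 0] 0 !![0, 0, 0; 0, 0, m23; 0, m32, 0] *
        KM m23 m32 x13 x31 := by
  ext i j
  rcases i with i | i | i | i <;> rcases j with j | j | j | j <;> fin_cases i <;> fin_cases j <;>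
    simp [KM, L4, Matrix.mul_apply, Fintype.sum_sum_type, Fin.sum_univ_three]
  ring

theorem KM_comm2 (m23 m32 x12 x13 x21 x31 : k) :
    KM m23 m32 x13 x31 *
        L4 !![0, 0, 0; 0, 1, 0; 0, 0, 0] 0 !![0, x12, x13; x21, 0, 0; x31, 0, 0] =
      L4 !![0, 0, 0; 0, 1, 0; 0, 0, 0] 0 !![0, x12, x13; x21, 0, 0; x31, 0, 0] *
        KM m23 m32 x13 x31 := by
  ext i j
  rcases i with i | i | i | i <;> rcases j with j | j | j | j <;> fin_cases i <;> fin_cases j <;>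
    simp [KM, L4, Matrix.mul_apply, Fintype.sum_sum_type, Fin.sum_univ_three]

/-- weights of the basis vectors -/
def wt : I4 3 → ℕ
  | .inl i => ![0, 0, 1] i
  | .inr (.inl i) => ![1, 1, 2] i
  | .inr (.inr (.inl i)) => ![2, 2, 3] i
  | .inr (.inr (.inr i)) => ![6, 3, 4] i

theorem nilp (m23 m32 x13 x31 s : k) : IsNilpotent (J4 k 3 + s • KM m23 m32 x13 x31) := by
  refine isNilpotent_of_weight _ wt ?_
  intro i j h
  rcases i with i | i | i | i <;> rcases j with j | j | j | j <;> fin_cases i <;> fin_cases j <;>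
    simp [KM, J4, L4, wt] at h ⊢

theorem entry (m23 m32 x13 x31 s : k) :
    ((J4 k 3 + s • KM m23 m32 x13 x31) ^ 4) (.inr (.inr (.inr 0))) (.inl 2) = s * x13 := by
  have h0 : ∀ i, (J4 k 3 + s • KM m23 m32 x13 x31) i (.inl 2) =
      if i = .inr (.inl 2) then 1 else 0 := by
    intro i
    rcases i with i | i | i | i <;> fin_cases i <;> simp [KM, J4, L4]
  have h1 : ∀ i, ((J4 k 3 + s • KM m23 m32 x13 x31) ^ 2) i (.inl 2) =
      if i = .inr (.inr (.inl 2)) then 1 else 0 := by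
    intro i
    rw [pow_two, Matrix.mul_apply]
    simp only [h0, mul_ite, mul_one, mul_zero, Finset.sum_ite_eq', Finset.mem_univ, if_true]
    rcases i with i | i | i | i <;> fin_cases i <;> simp [KM, J4, L4]
  have h2 : ∀ i, ((J4 k 3 + s • KM m23 m32 x13 x31) ^ 3) i (.inl 2) =
      if i = .inr (.inr (.inr 2)) then 1 else 0 := by
    intro i
    rw [pow_succ', Matrix.mul_apply]
    simp only [h1, mul_ite, mul_one, mul_zero, Finset.sum_ite_eq', Finset.mem_univ, if_true]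
    rcases i with i | i | i | i <;> fin_cases i <;> simp [KM, J4, L4]
  rw [pow_succ', Matrix.mul_apply]
  simp only [h2, mul_ite, mul_one, mul_zero, Finset.sum_ite_eq', Finset.mem_univ, if_true]
  simp [KM, J4, L4]

end R444Aux

open R444Aux in
theorem no_444R {k : Type*} [Field k] [CharZero k] {ρ : ℕ → ℕ} (h4 : ρ 4 = 0)
    {m23 m32 x12 x13 x21 x31 : k} (hx : x13 ≠ 0)
    (hT : MaxR ρ ![J4 k 3,
      L4 !![1, 0, 0; 0, 0, 0; 0, 0, 0] 0 !![0, 0, 0; 0, 0, m23; 0, m32, 0],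
      L4 !![0, 0, 0; 0, 1, 0; 0, 0, 0] 0 !![0, x12, x13; x21, 0, 0; x31, 0, 0]]) :
    False := by
  have hinf : Infinite k := CharZero.infinite k
  refine Pool.Agent.Lib.D8.MaxR.raise0 hT (KM m23 m32 x13 x31) 0 0 (fun s => ?_) 4 h4 1 0 0 ?_
  · simp only [smul_zero, add_zero]
    have hc := hT.cn.1 1 2
    refine D8.cn3 ?_ ?_ hc (nilp _ _ _ _ _) (L4_nil ..) (L4_nil ..)
    · rw [add_mul, mul_add, smul_mul_assoc, mul_smul_comm, J4_comm, KM_comm1]
    · rw [add_mul, mul_add, smul_mul_assoc, mul_smul_comm, J4_comm, KM_comm2]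
  · refine (Set.finite_singleton (0 : k)).infinite_compl.mono fun s hs => ?_
    have hs0 : s ≠ 0 := hs
    intro h0
    simp only [one_smul, smul_zero, add_zero, zero_smul] at h0
    have h1 := congrFun (congrFun h0 (.inr (.inr (.inr 0)))) (.inl 2)
    rw [entry] at h1
    exact mul_ne_zero hs0 hx h1

end Pool.Agent.Lib.D12
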