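import Pool.Agent.Lib.D12.XI

/-!
Module RaiseI. Raise in case I with `K = δ ⊗ (φ, ψ)`, `δ = z` in `E_1`, `(φ, ψ)` a functional on
`V_1 = (E_1 + U_0) + P`. `X K = 0` and `K X = 0` for `X = XI Y Th w D`, `K K = 0`, `K A K = 0`,
`(A + s K) ^ 3 = s A K A ≠ 0`.
-/

set_option autoImplicit false

namespace Pool.Agent.Lib.D12

open Matrix Pool.Agent.Lib.Q5dc Pool.Agent.Lib.D7 Pool.Agent.Lib.D9

variable {k : Type*} [Field k] {e u p : ℕ} {ρ : ℕ → ℕ}
  {Y Y' : Matrix (Fin e ⊕ Fin u) (Fin e ⊕ Fin u) k}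
  {Th Th' : Matrix (Fin e ⊕ Fin u) (Fin p) k} {w w' : Matrix (Fin p) (Fin e) k}
  {D D' : Matrix (Fin e ⊕ Fin u) (Fin e) k}

namespace RaiseIAux

/-- a vector of `E_1` -/
def dv (e u p : ℕ) (z : Fin e → k) : Ix e u p → k := fun x => match x with
  | .inl (.inr (.inl i)) => z i
  | _ => 0

/-- a functional on `E_1 + U_0 + P` -/
def fv (φ : Fin e ⊕ Fin u → k) (ψ : Fin p → k) : Ix e u p → k := fun x => match x with
  | .inl (.inr (.inl i)) => φ (.inl i)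
  | .inr (.inl (.inl i)) => φ (.inr i)
  | .inr (.inr i) => ψ i
  | _ => 0

theorem io_mulVec (z : Fin e → k) : io k e u *ᵥ z = Sum.elim z 0 := by
  rw [io, Matrix.fromRows_mulVec, Matrix.one_mulVec, Matrix.zero_mulVec]

theorem vecMul_io (φ : Fin e ⊕ Fin u → k) : φ ᵥ* io k e u = fun i => φ (.inl i) := by
  ext j
  simp [io, Matrix.vecMul, dotProduct, Fintype.sum_sum_type, Matrix.one_apply]

theorem XI_dv {z : Fin e → k} (hz : Y *ᵥ (io k e u *ᵥ z) = 0) :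
    XI Y Th w D *ᵥ dv e u p z = 0 := by
  rw [io_mulVec] at hz
  ext x
  rcases x with (x | x | x) | ((x | x) | x)
  · simp [XI, BX, dv, Matrix.mulVec, dotProduct, Fintype.sum_sum_type]
  · simp [XI, BX, dv, Matrix.mulVec, dotProduct, Fintype.sum_sum_type]
  · have h := congrFun hz (.inl x)
    simp [Matrix.mulVec, dotProduct, Fintype.sum_sum_type] at h
    simpa [XI, BX, dv, Matrix.mulVec, dotProduct, Fintype.sum_sum_type, toBlocks₁₁, toBlocks₂₁] using h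
  · simp [XI, BX, dv, Matrix.mulVec, dotProduct, Fintype.sum_sum_type]
  · have h := congrFun hz (.inr x)
    simp [Matrix.mulVec, dotProduct, Fintype.sum_sum_type] at h
    simpa [XI, BX, dv, Matrix.mulVec, dotProduct, Fintype.sum_sum_type, toBlocks₁₁, toBlocks₂₁] using h
  · simp [XI, BX, dv, Matrix.mulVec, dotProduct, Fintype.sum_sum_type]

theorem fv_XI {φ : Fin e ⊕ Fin u → k} {ψ : Fin p → k}
    (h : φ ᵥ* (Y * io k e u) + ψ ᵥ* w = 0) : fv φ ψ ᵥ* XI Y Th w D = 0 := by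
  ext x
  rcases x with (x | x | x) | ((x | x) | x)
  · have h1 := congrFun h x
    rw [← Matrix.vecMul_vecMul, vecMul_io] at h1
    simp [Matrix.vecMul, dotProduct, Fintype.sum_sum_type] at h1
    simpa [XI, BX, fv, Matrix.vecMul, dotProduct, Fintype.sum_sum_type, add_assoc, toBlocks₁₁, toBlocks₂₁] using h1
  · simp [XI, BX, fv, Matrix.vecMul, dotProduct, Fintype.sum_sum_type]
  · simp [XI, BX, fv, Matrix.vecMul, dotProduct, Fintype.sum_sum_type]
  · simp [XI, BX, fv, Matrix.vecMul, dotProduct, Fintype.sum_sum_type]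
  · simp [XI, BX, fv, Matrix.vecMul, dotProduct, Fintype.sum_sum_type]
  · simp [XI, BX, fv, Matrix.vecMul, dotProduct, Fintype.sum_sum_type]

theorem JX_dv (z : Fin e → k) (i : Fin e) :
    (JX k e u p *ᵥ dv e u p z) (.inl (.inr (.inr i))) = z i := by
  simp [JX, BX, dv, Matrix.mulVec, dotProduct, Fintype.sum_sum_type, Matrix.one_apply]

theorem JX_dv2 (z : Fin e → k) : JX k e u p *ᵥ (JX k e u p *ᵥ dv e u p z) = 0 := by
  rw [Matrix.mulVec_mulVec, JX_sq]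
  ext x
  rcases x with (x | x | x) | ((x | x) | x) <;>
    simp [BX, dv, Matrix.mulVec, dotProduct, Fintype.sum_sum_type]

theorem fv_JX (φ : Fin e ⊕ Fin u → k) (ψ : Fin p → k) (i : Fin e) :
    (fv φ ψ ᵥ* JX k e u p) (.inl (.inl i)) = φ (.inl i) := by
  simp [JX, BX, fv, Matrix.vecMul, dotProduct, Fintype.sum_sum_type, Matrix.one_apply]

theorem fv_JX2 (φ : Fin e ⊕ Fin u → k) (ψ : Fin p → k) :
    (fv φ ψ ᵥ* JX k e u p) ᵥ* JX k e u p = 0 := by
  rw [Matrix.vecMul_vecMul, JX_sq]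
  ext x
  rcases x with (x | x | x) | ((x | x) | x) <;>
    simp [BX, fv, Matrix.vecMul, dotProduct, Fintype.sum_sum_type]

theorem fv_JX_dv (φ : Fin e ⊕ Fin u → k) (ψ : Fin p → k) (z : Fin e → k) :
    fv φ ψ ⬝ᵥ (JX k e u p *ᵥ dv e u p z) = 0 := by
  have h : ∀ x : Ix e u p, (∀ i, x ≠ .inl (.inr (.inr i))) →
      (JX k e u p *ᵥ dv e u p z) x = 0 := by
    intro x hx
    rcases x with (x | x | x) | ((x | x) | x)
    · simp [JX, BX, dv, Matrix.mulVec, dotProduct, Fintype.sum_sum_type]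
    · simp [JX, BX, dv, Matrix.mulVec, dotProduct, Fintype.sum_sum_type]
    · exact absurd rfl (hx x)
    · simp [JX, BX, dv, Matrix.mulVec, dotProduct, Fintype.sum_sum_type]
    · simp [JX, BX, dv, Matrix.mulVec, dotProduct, Fintype.sum_sum_type]
    · simp [JX, BX, dv, Matrix.mulVec, dotProduct, Fintype.sum_sum_type]
  refine Finset.sum_eq_zero fun x _ => ?_
  by_cases hx : ∃ i, x = .inl (.inr (.inr i))
  · obtain ⟨i, rfl⟩ := hx
    rw [show fv φ ψ (.inl (.inr (.inr i)) : Ix e u p) = 0 from rfl, zero_mul]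
  · rw [h x fun i hi => hx ⟨i, hi⟩, mul_zero]

theorem fv_dv (φ : Fin e ⊕ Fin u → k) (ψ : Fin p → k) (z : Fin e → k) :
    fv φ ψ ⬝ᵥ dv e u p z = φ ⬝ᵥ (io k e u *ᵥ z) := by
  rw [io_mulVec]
  simp [fv, dv, dotProduct, Fintype.sum_sum_type]

end RaiseIAux

open RaiseIAux

theorem no_dpI [Infinite k] (h3 : ρ 3 = 0) {z : Fin e → k} {φ : Fin e ⊕ Fin u → k} {ψ : Fin p → k}
    (hz : Y *ᵥ (io k e u *ᵥ z) = 0) (hz' : Y' *ᵥ (io k e u *ᵥ z) = 0)
    (h1 : φ ᵥ* (Y * io k e u) + ψ ᵥ* w = 0) (h2 : φ ᵥ* (Y' * io k e u) + ψ ᵥ* w' = 0)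
    (h0 : φ ⬝ᵥ (io k e u *ᵥ z) = 0) (hz0 : z ≠ 0) (hφ : φ ᵥ* io k e u ≠ 0)
    (hT : MaxR ρ ![JX k e u p, XI Y Th w D, XI Y' Th' w' D']) : False := by
  obtain ⟨B, hB⟩ : ∃ B, B = XI Y Th w D := ⟨_, rfl⟩
  obtain ⟨C, hC⟩ : ∃ C, C = XI Y' Th' w' D' := ⟨_, rfl⟩
  obtain ⟨A, hA⟩ : ∃ A, A = JX k e u p := ⟨_, rfl⟩
  obtain ⟨d, hd⟩ : ∃ d, d = dv e u p z := ⟨_, rfl⟩
  obtain ⟨f, hf⟩ : ∃ f, f = (fv φ ψ : Ix e u p → k) := ⟨_, rfl⟩
  have b1 : B *ᵥ d = 0 := by rw [hB, hd]; exact XI_dv hz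
  have b2 : C *ᵥ d = 0 := by rw [hC, hd]; exact XI_dv hz'
  have b3 : f ᵥ* B = 0 := by rw [hB, hf]; exact fv_XI h1
  have b4 : f ᵥ* C = 0 := by rw [hC, hf]; exact fv_XI h2
  have a1 : A *ᵥ (A *ᵥ d) = 0 := by rw [hA, hd]; exact JX_dv2 z
  have a2 : (f ᵥ* A) ᵥ* A = 0 := by rw [hA, hf]; exact fv_JX2 φ ψ
  have a3 : f ⬝ᵥ (A *ᵥ d) = 0 := by rw [hA, hd, hf]; exact fv_JX_dv φ ψ z
  have a4 : f ⬝ᵥ d = 0 := by rw [hd, hf, fv_dv, h0]
  have a5 : A *ᵥ d ≠ 0 := by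
    intro h
    apply hz0
    ext i
    have := congrFun h (.inl (.inr (.inr i)))
    rw [hA, hd, JX_dv] at this
    exact this
  have a6 : f ᵥ* A ≠ 0 := by
    intro h
    apply hφ
    rw [vecMul_io]
    ext i
    have := congrFun h (.inl (.inl i))
    rw [hA, hf, fv_JX] at this
    exact this
  have hA3 : A ^ 3 = 0 := by rw [hA, JX_cube]
  rw [← hA, ← hB, ← hC] at hT
  clear hA hB hC hd hf
  obtain ⟨K, hK⟩ : ∃ K, K = vecMulVec d f := ⟨_, rfl⟩
  have k1 : K * K = 0 := by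
    rw [hK, Matrix.vecMulVec_mul_vecMulVec, a4, zero_smul, Matrix.vecMulVec_zero]
  have k2 : K * B = 0 := by rw [hK, Matrix.vecMulVec_mul, b3, Matrix.vecMulVec_zero]
  have k3 : K * C = 0 := by rw [hK, Matrix.vecMulVec_mul, b4, Matrix.vecMulVec_zero]
  have k4 : B * K = 0 := by rw [hK, Matrix.mul_vecMulVec, b1, Matrix.zero_vecMulVec]
  have k5 : C * K = 0 := by rw [hK, Matrix.mul_vecMulVec, b2, Matrix.zero_vecMulVec]
  have k6 : A * (A * K) = 0 := by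
    rw [hK, Matrix.mul_vecMulVec, Matrix.mul_vecMulVec, a1, Matrix.zero_vecMulVec]
  have k7 : K * A * A = 0 := by
    rw [hK, Matrix.vecMulVec_mul, Matrix.vecMulVec_mul, a2, Matrix.vecMulVec_zero]
  have k8 : K * (A * K) = 0 := by
    rw [hK, Matrix.mul_vecMulVec, Matrix.vecMulVec_mul_vecMulVec, a3, zero_smul,
      Matrix.vecMulVec_zero]
  have k9 : A * K * A = vecMulVec (A *ᵥ d) (f ᵥ* A) := by
    rw [hK, Matrix.mul_vecMulVec, Matrix.vecMulVec_mul]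
  have k10 : A * K * A ≠ 0 := by
    rw [k9]
    intro h
    obtain ⟨x, hx⟩ := Function.ne_iff.1 a5
    obtain ⟨y, hy⟩ := Function.ne_iff.1 a6
    have := congrFun (congrFun h x) y
    rw [Matrix.vecMulVec_apply, Matrix.zero_apply] at this
    exact (mul_ne_zero hx hy) this
  have cube : ∀ s : k, (A + s • K) ^ 3 = s • (A * K * A) := by
    intro s
    have e : (A + s • K) ^ 3 = A ^ 3 + s • (A * (A * K)) + s • (A * K * A) + s • (K * A * A) +
        (s * s) • (A * (K * K)) + (s * s) • (K * (A * K)) + (s * s) • (K * K * A) +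
        (s * s * s) • (K * K * K) := by
      rw [pow_succ, pow_two, pow_succ, pow_two]
      simp only [add_mul, mul_add, smul_mul_assoc, mul_smul_comm, smul_add, smul_smul, mul_assoc]
      abel
    rw [e, hA3, k1, k6, k7, k8]
    simp
  have four : ∀ s : k, (A + s • K) ^ 4 = 0 := by
    intro s
    rw [pow_succ, cube, smul_mul_assoc, mul_add, mul_smul_comm]
    have e1 : A * K * A * A = 0 := by rw [mul_assoc A, mul_assoc A, k7, mul_zero]
    have e2 : A * K * A * K = 0 := by rw [mul_assoc A, mul_assoc A, mul_assoc K, k8, mul_zero]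
    rw [e1, e2, smul_zero, add_zero, smul_zero]
  have cAB : A * B = B * A := hT.cn.1 0 1
  have cAC : A * C = C * A := hT.cn.1 0 2
  have cBC : B * C = C * B := hT.cn.1 1 2
  have nB : IsNilpotent B := hT.cn.2 1
  have nC : IsNilpotent C := hT.cn.2 2
  refine D8.MaxR.raise0 hT K 0 0 (fun s => ?_) 3 h3 1 0 0 ?_
  · rw [smul_zero, add_zero, add_zero]
    refine D8.cn3 ?_ ?_ cBC ⟨4, four s⟩ nB nC
    · rw [add_mul, mul_add, smul_mul_assoc, mul_smul_comm, k2, k4, cAB]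
    · rw [add_mul, mul_add, smul_mul_assoc, mul_smul_comm, k3, k5, cAC]
  · refine (Set.finite_singleton (0 : k)).infinite_compl.mono fun s hs => ?_
    have hs0 : s ≠ 0 := hs
    show (1 • (A + s • K) + 0 • (B + s • 0) + 0 • (C + s • 0)) ^ 3 ≠ 0
    rw [one_smul, zero_smul, zero_smul, add_zero, add_zero, cube]
    exact smul_ne_zero hs0 k10

end Pool.Agent.Lib.D12
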