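import Pool.Agent.Lib.D9.Blk

/-!
Module SplitF (1h). Raise lemma for a split block of size 3, any type `(3^e, 2^u, 1^p)`:
if all blocks of `X`, `X'` but `M` vanish on the image of `F` and after `F`, `F M F = 0`, and
`M F + F M ≠ 0`, the triple is not maximal.
PROOF of no_splitF. `K = KF u p (F * M) (M * F)` commutes with `X` and `X'` by KF_mul_BX, BX_mul_KF below
(both products are `BX 0 (M F M) 0 ..`, for `X'` both are `0`). `T_s = (A + s K, X, X')` is CN for all `s`:
`A + s K` is nilpotent: `(A + s K) ^ 6 = 0`, because `(A + s K) = A + s K` where `K ^ 2 = 0` on `E_0` and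
`E_2` (`F M F M = 0`, `M F M F = 0`) and `A` maps `E_0 -> E_1 -> E_2` (block triangular with square
zero diagonal blocks; e.g. compute `(A + s K) ^ 2`, `^ 3` .. as block matrices; a general block matrix with
blocks in `E_0, E_1, E_2` helps). The block `E_0 -> E_2` of `(A + s K) ^ 3` is `s (F M + M F)`
(words `A A K`, `A K A = 0`, `K A A`; the words with more `K` have the wrong degree: exactly two factors `A`
go from `E_0` to `E_2`), so `(A + s K) ^ 3 ≠ 0` for `s ≠ 0`. MaxR.raise0 with `i = 3, a = 1, b = c = 0`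
(D8/UtilB.lean).
-/

set_option autoImplicit false

namespace Pool.Agent.Lib.D12

open Matrix Pool.Agent.Lib.Q5dc Pool.Agent.Lib.D7 Pool.Agent.Lib.D9

variable {k : Type*} [Field k] {e u p : ℕ} {ρ : ℕ → ℕ}

/-- `K_0` on `E_0`, `K_2` on `E_2` -/
def KF (u p : ℕ) (K0 K2 : Matrix (Fin e) (Fin e) k) : Matrix (Ix e u p) (Ix e u p) k :=
  Matrix.of fun i j => match i, j with
    | .inl (.inl i), .inl (.inl j) => K0 i j
    | .inl (.inr (.inr i)), .inl (.inr (.inr j)) => K2 i j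
    | _, _ => 0

theorem KF_mul_BX (K0 K2 N M : Matrix (Fin e) (Fin e) k) (a c : Matrix (Fin u) (Fin e) k)
    (w : Matrix (Fin p) (Fin e) k) (b d : Matrix (Fin e) (Fin u) k)
    (nu : Matrix (Fin u) (Fin u) k) (pi : Matrix (Fin p) (Fin u) k)
    (th : Matrix (Fin e) (Fin p) k) (et : Matrix (Fin u) (Fin p) k)
    (h1 : K2 * N = 0) (h2 : K2 * b = 0) (h3 : K2 * d = 0) (h4 : K2 * th = 0) :
    KF u p K0 K2 * BX N M a c w b d nu pi th et = BX 0 (K2 * M) 0 0 0 0 0 0 0 0 0 := by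
  have e1 : ∀ i j, ∑ x, K2 i x * N x j = 0 := fun i j => congrFun (congrFun h1 i) j
  have e2 : ∀ i j, ∑ x, K2 i x * b x j = 0 := fun i j => congrFun (congrFun h2 i) j
  have e3 : ∀ i j, ∑ x, K2 i x * d x j = 0 := fun i j => congrFun (congrFun h3 i) j
  have e4 : ∀ i j, ∑ x, K2 i x * th x j = 0 := fun i j => congrFun (congrFun h4 i) j
  ext i j
  rcases i with (i | i | i) | ((i | i) | i) <;> rcases j with (j | j | j) | ((j | j) | j) <;>
    simp [KF, BX, Matrix.mul_apply, Fintype.sum_sum_type, e1, e2, e3, e4]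

theorem BX_mul_KF (K0 K2 N M : Matrix (Fin e) (Fin e) k) (a c : Matrix (Fin u) (Fin e) k)
    (w : Matrix (Fin p) (Fin e) k) (b d : Matrix (Fin e) (Fin u) k)
    (nu : Matrix (Fin u) (Fin u) k) (pi : Matrix (Fin p) (Fin u) k)
    (th : Matrix (Fin e) (Fin p) k) (et : Matrix (Fin u) (Fin p) k)
    (h1 : N * K0 = 0) (h2 : a * K0 = 0) (h3 : c * K0 = 0) (h4 : w * K0 = 0) :
    BX N M a c w b d nu pi th et * KF u p K0 K2 = BX 0 (M * K0) 0 0 0 0 0 0 0 0 0 := by
  have e1 : ∀ i j, ∑ x, N i x * K0 x j = 0 := fun i j => congrFun (congrFun h1 i) j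
  have e2 : ∀ i j, ∑ x, a i x * K0 x j = 0 := fun i j => congrFun (congrFun h2 i) j
  have e3 : ∀ i j, ∑ x, c i x * K0 x j = 0 := fun i j => congrFun (congrFun h3 i) j
  have e4 : ∀ i j, ∑ x, w i x * K0 x j = 0 := fun i j => congrFun (congrFun h4 i) j
  ext i j
  rcases i with (i | i | i) | ((i | i) | i) <;> rcases j with (j | j | j) | ((j | j) | j) <;>
    simp [KF, BX, Matrix.mul_apply, Fintype.sum_sum_type, e1, e2, e3, e4]

namespace SplitFAux

/-- blocks `E_0 -> E_0`, `E_0 -> E_1`, `E_1 -> E_2`, `E_0 -> E_2`, `E_2 -> E_2`, `U_0 -> U_1` -/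
def ZB (p : ℕ) (a n m l c : Matrix (Fin e) (Fin e) k) (v : Matrix (Fin u) (Fin u) k) :
    Matrix (Ix e u p) (Ix e u p) k :=
  Matrix.of fun i j => match i, j with
    | .inl (.inl i), .inl (.inl j) => a i j
    | .inl (.inr (.inl i)), .inl (.inl j) => n i j
    | .inl (.inr (.inr i)), .inl (.inr (.inl j)) => m i j
    | .inl (.inr (.inr i)), .inl (.inl j) => l i j
    | .inl (.inr (.inr i)), .inl (.inr (.inr j)) => c i j
    | .inr (.inl (.inr i)), .inr (.inl (.inl j)) => v i j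
    | _, _ => 0

theorem ZB_mul (a n m l c a' n' m' l' c' : Matrix (Fin e) (Fin e) k)
    (v v' : Matrix (Fin u) (Fin u) k) :
    ZB p a n m l c v * ZB p a' n' m' l' c' v' =
      ZB p (a * a') (n * a') (c * m') (l * a' + m * n' + c * l') (c * c') 0 := by
  ext i j
  rcases i with (i | i | i) | ((i | i) | i) <;> rcases j with (j | j | j) | ((j | j) | j) <;>
    simp [ZB, Matrix.mul_apply, Fintype.sum_sum_type, add_assoc]

theorem ZB_zero : ZB p (0 : Matrix (Fin e) (Fin e) k) 0 0 0 0 (0 : Matrix (Fin u) (Fin u) k) = 0 := by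
  ext i j
  rcases i with (i | i | i) | ((i | i) | i) <;> rcases j with (j | j | j) | ((j | j) | j) <;>
    simp [ZB]

theorem ZB_l {l : Matrix (Fin e) (Fin e) k}
    (h : ZB p 0 0 0 l 0 (0 : Matrix (Fin u) (Fin u) k) = 0) : l = 0 := by
  ext i j
  exact congrFun (congrFun h (.inl (.inr (.inr i)))) (.inl (.inl j))

theorem add_KF (K0 K2 : Matrix (Fin e) (Fin e) k) (s : k) :
    JX k e u p + s • KF u p K0 K2 = ZB p (s • K0) 1 1 0 (s • K2) 1 := by
  ext i j
  rcases i with (i | i | i) | ((i | i) | i) <;> rcases j with (j | j | j) | ((j | j) | j) <;>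
    simp [JX, BX, KF, ZB]

theorem cube (a c : Matrix (Fin e) (Fin e) k) (ha : a * a = 0) (hc : c * c = 0) :
    ZB p a 1 1 0 c (1 : Matrix (Fin u) (Fin u) k) ^ 3 = ZB p 0 0 0 (a + c) 0 0 := by
  rw [pow_succ, pow_two, ZB_mul, ha, hc, ZB_mul]
  simp [ha]

theorem nil (a c : Matrix (Fin e) (Fin e) k) (ha : a * a = 0) (hc : c * c = 0) :
    IsNilpotent (ZB p a 1 1 0 c (1 : Matrix (Fin u) (Fin u) k)) := by
  refine ⟨5, ?_⟩
  rw [pow_succ, pow_succ, cube a c ha hc, ZB_mul, ZB_mul]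
  simp only [zero_mul, mul_zero, add_zero]
  rw [mul_assoc, ha, mul_zero, ZB_zero]

end SplitFAux

theorem no_splitF [Infinite k] (h3 : ρ 3 = 0)
    {N M N' M' F : Matrix (Fin e) (Fin e) k} {a c a' c' : Matrix (Fin u) (Fin e) k}
    {w w' : Matrix (Fin p) (Fin e) k} {b d b' d' : Matrix (Fin e) (Fin u) k}
    {nu nu' : Matrix (Fin u) (Fin u) k} {pi pi' : Matrix (Fin p) (Fin u) k}
    {th th' : Matrix (Fin e) (Fin p) k} {et et' : Matrix (Fin u) (Fin p) k}
    (hN : N * F = 0) (ha : a * F = 0) (hc : c * F = 0) (hw : w * F = 0)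
    (hN0 : F * N = 0) (hb : F * b = 0) (hd : F * d = 0) (hth : F * th = 0)
    (hN' : N' * F = 0) (ha' : a' * F = 0) (hc' : c' * F = 0) (hw' : w' * F = 0)
    (hN0' : F * N' = 0) (hb' : F * b' = 0) (hd' : F * d' = 0) (hth' : F * th' = 0)
    (hM' : M' * F = 0) (hM0' : F * M' = 0) (hM : F * M * F = 0) (hne : M * F + F * M ≠ 0)
    (hT : MaxR ρ ![JX k e u p, BX N M a c w b d nu pi th et,
      BX N' M' a' c' w' b' d' nu' pi' th' et']) : False := by
  have z0 : F * M * (F * M) = 0 := by rw [← mul_assoc, hM, zero_mul]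
  have z2 : M * F * (M * F) = 0 := by rw [mul_assoc, ← mul_assoc F, hM, mul_zero]
  have s0 : ∀ s : k, s • (F * M) * s • (F * M) = 0 := fun s => by
    rw [smul_mul_smul_comm, z0, smul_zero]
  have s2 : ∀ s : k, s • (M * F) * s • (M * F) = 0 := fun s => by
    rw [smul_mul_smul_comm, z2, smul_zero]
  have c1 : KF u p (F * M) (M * F) * BX N M a c w b d nu pi th et =
      BX N M a c w b d nu pi th et * KF u p (F * M) (M * F) := by
    rw [KF_mul_BX, BX_mul_KF, mul_assoc]
    · rw [← Matrix.mul_assoc, hN, Matrix.zero_mul]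
    · rw [← Matrix.mul_assoc, ha, Matrix.zero_mul]
    · rw [← Matrix.mul_assoc, hc, Matrix.zero_mul]
    · rw [← Matrix.mul_assoc, hw, Matrix.zero_mul]
    · rw [Matrix.mul_assoc, hN0, Matrix.mul_zero]
    · rw [Matrix.mul_assoc, hb, Matrix.mul_zero]
    · rw [Matrix.mul_assoc, hd, Matrix.mul_zero]
    · rw [Matrix.mul_assoc, hth, Matrix.mul_zero]
  have c2 : KF u p (F * M) (M * F) * BX N' M' a' c' w' b' d' nu' pi' th' et' =
      BX N' M' a' c' w' b' d' nu' pi' th' et' * KF u p (F * M) (M * F) := by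
    rw [KF_mul_BX, BX_mul_KF, mul_assoc M F, hM0', mul_zero, ← mul_assoc M', hM', zero_mul]
    · rw [← Matrix.mul_assoc, hN', Matrix.zero_mul]
    · rw [← Matrix.mul_assoc, ha', Matrix.zero_mul]
    · rw [← Matrix.mul_assoc, hc', Matrix.zero_mul]
    · rw [← Matrix.mul_assoc, hw', Matrix.zero_mul]
    · rw [Matrix.mul_assoc, hN0', Matrix.mul_zero]
    · rw [Matrix.mul_assoc, hb', Matrix.mul_zero]
    · rw [Matrix.mul_assoc, hd', Matrix.mul_zero]
    · rw [Matrix.mul_assoc, hth', Matrix.mul_zero]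
  have c3 : BX N M a c w b d nu pi th et * BX N' M' a' c' w' b' d' nu' pi' th' et' =
      BX N' M' a' c' w' b' d' nu' pi' th' et' * BX N M a c w b d nu pi th et :=
    hT.cn.comm (D8.mem1 _ _ _) (D8.mem2 _ _ _)
  refine D8.MaxR.raise0 hT (KF u p (F * M) (M * F)) 0 0 (fun s => ?_) 3 h3 1 0 0 ?_
  · rw [smul_zero, add_zero, add_zero]
    refine D8.cn3 ?_ ?_ c3 ?_ (BX_nil ..) (BX_nil ..)
    · rw [add_mul, mul_add, JX_comm, smul_mul_assoc, mul_smul_comm, c1]
    · rw [add_mul, mul_add, JX_comm, smul_mul_assoc, mul_smul_comm, c2]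
    · rw [SplitFAux.add_KF]
      exact SplitFAux.nil _ _ (s0 s) (s2 s)
  · refine (Set.Finite.infinite_compl (Set.finite_singleton (0 : k))).mono fun s hs h => hne ?_
    rw [Set.mem_compl_iff, Set.mem_singleton_iff] at hs
    rw [one_smul, zero_smul, zero_smul, add_zero, add_zero, SplitFAux.add_KF,
      SplitFAux.cube _ _ (s0 s) (s2 s)] at h
    have h' := SplitFAux.ZB_l h
    rw [← smul_add, add_comm] at h'
    exact (smul_eq_zero.1 h').resolve_left hs

end Pool.Agent.Lib.D12
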