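import Pool.Agent.Lib.D9.Blk
import Pool.Agent.Lib.D12.SplitF

/-!
Module RaiseK (1.5h, black box no_splitF). Two raise lemmas, `F = z ζ` (matrix of rank one).
(1) no_K1, any type `(3^e, 2^u, 1^p)`: `K = K₁` on `E_1` (0 elsewhere), `N K₁ = K₁ N = 0`, `a K₁ = 0`, `K₁ b = 0` (also for the primes):
`K` commutes with `X`, `X'` (all four products vanish); `K₁ ^ 2 = 0`, so `(A + s K) ^ 4 = 0` (only the word `A K A` from `E_0` to `E_2`
survives) and the block `E_0 → E_2` of `(A + s K) ^ 3` is `s K₁ ≠ 0`: MaxR.raise0, `i = 3`, `a = 1, b = c = 0`.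
(2) no_F, type `(3^e, 1^p)`: `z, ζ` with `ζ(z) = 1`, all blocks but `M, M'` killed by `z` and `ζ`, `e ≥ 2`. PROOF: `F = z ζ` (`F * F = F`,
`F * Y * F = (ζ Y z) • F`), `N F = F N = N' F = F N' = 0`, `w F = 0`, `F th = 0`, .. (a) deform `N' -> N' + s (1 - F)` (MaxR.line2 with
`BX (1 - F) 0 ..`; the relation is unchanged because `N F = F N`; others constant): for all but finitely many `s` the matrix
`N' + s (1 - F) + F` is invertible (its determinant is a polynomial in `s`; e.g. `det ((s + ..))`: use `X = N' + F` and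
`det (X + s (1 - F))`: nonzero polynomial because for `t = 1 / s` `det (t (N' + F) + (1 - F) ..)`; or: replace the family by
`(1 - s) N' + s (1 - F)`, which gives `(1 - F) + F = 1` at `s = 1`, and `N'` at `s = 0`: line `N' + s ((1 - F) - N')`, relation: also
`w', th'` must be scaled if `N` does not commute with `N'`: take the line `C + s (BX (1 - F) 0 .. - C)`, i.e. `(1 - s) C + s BX (1 - F) ..`: it commutes
with `B` for all `s`). So WLOG `N' + F` is invertible; `G := (1 - F) * (N' + F)⁻¹`: `G N' = N' G = 1 - F`, `G F = F G = 0`.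
(b) conjugation by `U = 1 + BX L 0 ..`, inverse `1 - BX L 0 .. + BX 0 (L * L) ..`, changes `M -> M + L N - N L`, `M' -> M' + L N' - N' L` and
nothing else (`u = 0`); `L = G M' F - F M' G`: then `F M' = M' F = m' F`, `m' = ζ M' z`. MaxR.lin (subtract `m' • A²`, `A² = BX 0 1 ..`):
`F M' = M' F = 0`; subtract `m • A²` from `X`: `F M F = 0`.
(c) MaxR.line2: `M -> M + s Y`, `Y = y ζ` with `ζ(y) = 0`, `y ≠ 0` (exists, e ≥ 2): CN for all `s`, `Y F + F Y = Y ≠ 0`, `F Y F = 0`: for some `s`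
`M F + F M ≠ 0`. no_splitF.
-/

set_option autoImplicit false

namespace Pool.Agent.Lib.D12

open Matrix Pool.Agent.Lib.Q5dc Pool.Agent.Lib.D7 Pool.Agent.Lib.D9

variable {k : Type*} [Field k] {e u p : ℕ} {ρ : ℕ → ℕ}

namespace RaiseKAux

/-- blocks `E_0 -> E_1`, `E_1 -> E_1`, `E_1 -> E_2`, `E_0 -> E_2`, `U_0 -> U_1` -/
def YB (p : ℕ) (n h m l : Matrix (Fin e) (Fin e) k) (v : Matrix (Fin u) (Fin u) k) :
    Matrix (Ix e u p) (Ix e u p) k :=
  Matrix.of fun i j => match i, j with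
    | .inl (.inr (.inl i)), .inl (.inl j) => n i j
    | .inl (.inr (.inl i)), .inl (.inr (.inl j)) => h i j
    | .inl (.inr (.inr i)), .inl (.inr (.inl j)) => m i j
    | .inl (.inr (.inr i)), .inl (.inl j) => l i j
    | .inr (.inl (.inr i)), .inr (.inl (.inl j)) => v i j
    | _, _ => 0

theorem YB_mul (n h m l n' h' m' l' : Matrix (Fin e) (Fin e) k)
    (v v' : Matrix (Fin u) (Fin u) k) :
    YB p n h m l v * YB p n' h' m' l' v' = YB p (h * n') (h * h') (m * h') (m * n') 0 := by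
  ext i j
  rcases i with (i | i | i) | ((i | i) | i) <;> rcases j with (j | j | j) | ((j | j) | j) <;>
    simp [YB, Matrix.mul_apply, Fintype.sum_sum_type]

theorem YB_l {l : Matrix (Fin e) (Fin e) k}
    (h : YB p 0 0 0 l (0 : Matrix (Fin u) (Fin u) k) = 0) : l = 0 := by
  ext i j
  exact congrFun (congrFun h (.inl (.inr (.inr i)))) (.inl (.inl j))

theorem YB_zero : YB p (0 : Matrix (Fin e) (Fin e) k) 0 0 0 (0 : Matrix (Fin u) (Fin u) k) = 0 := by
  ext i j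
  rcases i with (i | i | i) | ((i | i) | i) <;> rcases j with (j | j | j) | ((j | j) | j) <;>
    simp [YB]

theorem add_K (K : Matrix (Fin e) (Fin e) k) (s : k) :
    JX k e u p + s • YB p 0 K 0 0 0 = YB p 1 (s • K) 1 0 1 := by
  ext i j
  rcases i with (i | i | i) | ((i | i) | i) <;> rcases j with (j | j | j) | ((j | j) | j) <;>
    simp [JX, BX, YB]

theorem cube (K : Matrix (Fin e) (Fin e) k) (hK : K * K = 0) :
    YB p 1 K 1 0 (1 : Matrix (Fin u) (Fin u) k) ^ 3 = YB p 0 0 0 K 0 := by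
  rw [pow_succ, pow_two, YB_mul, YB_mul]
  simp [hK]

theorem nil (K : Matrix (Fin e) (Fin e) k) (hK : K * K = 0) :
    IsNilpotent (YB p 1 K 1 0 (1 : Matrix (Fin u) (Fin u) k)) := by
  refine ⟨4, ?_⟩
  rw [pow_succ, cube K hK, YB_mul]
  simp only [zero_mul]
  exact YB_zero

theorem mul_BX (K N M : Matrix (Fin e) (Fin e) k) (a c : Matrix (Fin u) (Fin e) k)
    (w : Matrix (Fin p) (Fin e) k) (b d : Matrix (Fin e) (Fin u) k)
    (nu : Matrix (Fin u) (Fin u) k) (pi : Matrix (Fin p) (Fin u) k)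
    (th : Matrix (Fin e) (Fin p) k) (et : Matrix (Fin u) (Fin p) k)
    (h1 : K * N = 0) (h2 : K * b = 0) :
    YB p 0 K 0 0 0 * BX N M a c w b d nu pi th et = 0 := by
  have e1 : ∀ i j, ∑ x, K i x * N x j = 0 := fun i j => congrFun (congrFun h1 i) j
  have e2 : ∀ i j, ∑ x, K i x * b x j = 0 := fun i j => congrFun (congrFun h2 i) j
  ext i j
  rcases i with (i | i | i) | ((i | i) | i) <;> rcases j with (j | j | j) | ((j | j) | j) <;>
    simp [YB, BX, Matrix.mul_apply, Fintype.sum_sum_type, e1, e2]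

theorem BX_mul' (K N M : Matrix (Fin e) (Fin e) k) (a c : Matrix (Fin u) (Fin e) k)
    (w : Matrix (Fin p) (Fin e) k) (b d : Matrix (Fin e) (Fin u) k)
    (nu : Matrix (Fin u) (Fin u) k) (pi : Matrix (Fin p) (Fin u) k)
    (th : Matrix (Fin e) (Fin p) k) (et : Matrix (Fin u) (Fin p) k)
    (h1 : N * K = 0) (h2 : a * K = 0) :
    BX N M a c w b d nu pi th et * YB p 0 K 0 0 0 = 0 := by
  have e1 : ∀ i j, ∑ x, N i x * K x j = 0 := fun i j => congrFun (congrFun h1 i) j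
  have e2 : ∀ i j, ∑ x, a i x * K x j = 0 := fun i j => congrFun (congrFun h2 i) j
  ext i j
  rcases i with (i | i | i) | ((i | i) | i) <;> rcases j with (j | j | j) | ((j | j) | j) <;>
    simp [YB, BX, Matrix.mul_apply, Fintype.sum_sum_type, e1, e2]

end RaiseKAux

open RaiseKAux in
theorem no_K1 [Infinite k] (h3 : ρ 3 = 0)
    {N M N' M' K : Matrix (Fin e) (Fin e) k} {a c a' c' : Matrix (Fin u) (Fin e) k}
    {w w' : Matrix (Fin p) (Fin e) k} {b d b' d' : Matrix (Fin e) (Fin u) k}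
    {nu nu' : Matrix (Fin u) (Fin u) k} {pi pi' : Matrix (Fin p) (Fin u) k}
    {th th' : Matrix (Fin e) (Fin p) k} {et et' : Matrix (Fin u) (Fin p) k}
    (hN : N * K = 0) (ha : a * K = 0) (hN0 : K * N = 0) (hb : K * b = 0)
    (hN' : N' * K = 0) (ha' : a' * K = 0) (hN0' : K * N' = 0) (hb' : K * b' = 0)
    (hK : K * K = 0) (hK0 : K ≠ 0)
    (hT : MaxR ρ ![JX k e u p, BX N M a c w b d nu pi th et,
      BX N' M' a' c' w' b' d' nu' pi' th' et']) : False := by
  have sK : ∀ s : k, s • K * s • K = 0 := fun s => by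
    rw [smul_mul_smul_comm, hK, smul_zero]
  refine Pool.Agent.Lib.D8.MaxR.raise0 hT (YB p 0 K 0 0 0) 0 0 (fun s => ?_) 3 h3 1 0 0 ?_
  · simp only [smul_zero, add_zero]
    refine D8.cn3 ?_ ?_ (hT.cn.1 1 2) ?_ (BX_nil ..) (BX_nil ..)
    · rw [add_mul, mul_add, smul_mul_assoc, mul_smul_comm, mul_BX _ _ _ _ _ _ _ _ _ _ _ _ hN0 hb,
        BX_mul' _ _ _ _ _ _ _ _ _ _ _ _ hN ha, JX_comm]
    · rw [add_mul, mul_add, smul_mul_assoc, mul_smul_comm, mul_BX _ _ _ _ _ _ _ _ _ _ _ _ hN0' hb',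
        BX_mul' _ _ _ _ _ _ _ _ _ _ _ _ hN' ha', JX_comm]
    · rw [add_K]
      exact nil _ (sK s)
  · refine (Set.finite_singleton (0 : k)).infinite_compl.mono fun s hs => ?_
    have hs0 : s ≠ 0 := hs
    intro h0
    simp only [one_smul, smul_zero, add_zero, zero_smul] at h0
    rw [add_K, cube _ (sK s)] at h0
    have h1 := YB_l h0
    rw [smul_eq_zero] at h1
    exact h1.elim hs0 hK0

namespace RaiseKAux

theorem rel (N M N' M' : Matrix (Fin e) (Fin e) k) (w w' : Matrix (Fin p) (Fin e) k)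
    (th th' : Matrix (Fin e) (Fin p) k) (h : N * N' + th * w' = N' * N + th' * w) :
    CN ![JX k e 0 p, BX N M 0 0 w 0 0 0 0 th 0, BX N' M' 0 0 w' 0 0 0 0 th' 0] := by
  refine cnX _ _ _ _ _ _ _ _ _ _ _ _ _ _ _ _ _ _ _ _ _ _ ?_ ?_ ?_ ?_ ?_ ?_ ?_ <;> simp [h]

theorem rel' {N M N' M' : Matrix (Fin e) (Fin e) k} {w w' : Matrix (Fin p) (Fin e) k}
    {th th' : Matrix (Fin e) (Fin p) k}
    (hT : MaxR ρ ![JX k e 0 p, BX N M 0 0 w 0 0 0 0 th 0, BX N' M' 0 0 w' 0 0 0 0 th' 0]) :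
    N * N' + th * w' = N' * N + th' * w := by
  have h := (BX_comm ..).1 (hT.cn.1 1 2)
  simpa using h.2.1

theorem unip_one (L : Matrix (Fin e) (Fin e) k) :
    (1 + BX L 0 0 0 0 0 0 0 0 0 0 : Matrix (Ix e 0 p) (Ix e 0 p) k) *
      (1 - BX L 0 0 0 0 0 0 0 0 0 0 + BX 0 (L * L) 0 0 0 0 0 0 0 0 0) = 1 ∧
    (1 - BX L 0 0 0 0 0 0 0 0 0 0 + BX 0 (L * L) 0 0 0 0 0 0 0 0 0 :
      Matrix (Ix e 0 p) (Ix e 0 p) k) * (1 + BX L 0 0 0 0 0 0 0 0 0 0) = 1 := by
  have h1 : (BX L 0 0 0 0 0 0 0 0 0 0 : Matrix (Ix e 0 p) (Ix e 0 p) k) *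
      BX L 0 0 0 0 0 0 0 0 0 0 = BX 0 (L * L) 0 0 0 0 0 0 0 0 0 := by
    rw [BX_mul]
    simp
  have h2 : (BX L 0 0 0 0 0 0 0 0 0 0 : Matrix (Ix e 0 p) (Ix e 0 p) k) *
      BX 0 (L * L) 0 0 0 0 0 0 0 0 0 = 0 := by
    rw [BX_mul]
    simp [BX_zero]
  have h3 : (BX 0 (L * L) 0 0 0 0 0 0 0 0 0 : Matrix (Ix e 0 p) (Ix e 0 p) k) *
      BX L 0 0 0 0 0 0 0 0 0 0 = 0 := by
    rw [BX_mul]
    simp [BX_zero]
  set P : Matrix (Ix e 0 p) (Ix e 0 p) k := BX L 0 0 0 0 0 0 0 0 0 0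
  set Q : Matrix (Ix e 0 p) (Ix e 0 p) k := BX 0 (L * L) 0 0 0 0 0 0 0 0 0
  constructor
  · have : (1 + P) * (1 - P + Q) = 1 + Q - P * P + P * Q := by noncomm_ring
    rw [this, h1, h2]
    abel
  · have : (1 - P + Q) * (1 + P) = 1 + Q - P * P + Q * P := by noncomm_ring
    rw [this, h1, h3]
    abel

theorem unip_conj (L N M : Matrix (Fin e) (Fin e) k) (w : Matrix (Fin p) (Fin e) k)
    (th : Matrix (Fin e) (Fin p) k) :
    (1 + BX L 0 0 0 0 0 0 0 0 0 0) * BX N M 0 0 w 0 0 0 0 th 0 *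
      (1 - BX L 0 0 0 0 0 0 0 0 0 0 + BX 0 (L * L) 0 0 0 0 0 0 0 0 0) =
      (BX N (M + L * N - N * L) 0 0 w 0 0 0 0 th 0 : Matrix (Ix e 0 p) (Ix e 0 p) k) := by
  have h : (1 + BX L 0 0 0 0 0 0 0 0 0 0) * BX N M 0 0 w 0 0 0 0 th 0 =
      (BX N (M + L * N - N * L) 0 0 w 0 0 0 0 th 0 : Matrix (Ix e 0 p) (Ix e 0 p) k) *
        (1 + BX L 0 0 0 0 0 0 0 0 0 0) := by
    rw [add_mul, mul_add, one_mul, mul_one, BX_mul, BX_mul, BX_add, BX_add]
    simp
  rw [h, mul_assoc, (unip_one L).1, mul_one]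

theorem max_unip (L : Matrix (Fin e) (Fin e) k) {N M N' M' : Matrix (Fin e) (Fin e) k}
    {w w' : Matrix (Fin p) (Fin e) k} {th th' : Matrix (Fin e) (Fin p) k}
    (hT : MaxR ρ ![JX k e 0 p, BX N M 0 0 w 0 0 0 0 th 0, BX N' M' 0 0 w' 0 0 0 0 th' 0]) :
    MaxR ρ ![JX k e 0 p, BX N (M + L * N - N * L) 0 0 w 0 0 0 0 th 0,
      BX N' (M' + L * N' - N' * L) 0 0 w' 0 0 0 0 th' 0] := by
  have h1 := hT.conj _ _ (unip_one L).1 (unip_one L).2
  have h2 : (fun i => (1 + BX L 0 0 0 0 0 0 0 0 0 0) *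
      (![JX k e 0 p, BX N M 0 0 w 0 0 0 0 th 0, BX N' M' 0 0 w' 0 0 0 0 th' 0] :
      Fin 3 → Matrix (Ix e 0 p) (Ix e 0 p) k) i *
      (1 - BX L 0 0 0 0 0 0 0 0 0 0 + BX 0 (L * L) 0 0 0 0 0 0 0 0 0)) =
      ![JX k e 0 p, BX N (M + L * N - N * L) 0 0 w 0 0 0 0 th 0,
      BX N' (M' + L * N' - N' * L) 0 0 w' 0 0 0 0 th' 0] := by
    funext i
    fin_cases i
    · change (1 + BX L 0 0 0 0 0 0 0 0 0 0) * JX k e 0 p *
        (1 - BX L 0 0 0 0 0 0 0 0 0 0 + BX 0 (L * L) 0 0 0 0 0 0 0 0 0) = JX k e 0 p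
      have hJ : JX k e 0 p = BX 1 0 0 0 0 0 0 0 0 0 0 := by
        unfold JX
        rw [Subsingleton.elim (1 : Matrix (Fin 0) (Fin 0) k) 0]
      rw [hJ, unip_conj]
      congr 1
      simp
    · exact unip_conj ..
    · exact unip_conj ..
  rwa [h2] at h1

theorem max_sub (x y : k) {N M N' M' : Matrix (Fin e) (Fin e) k}
    {w w' : Matrix (Fin p) (Fin e) k} {th th' : Matrix (Fin e) (Fin p) k}
    (hT : MaxR ρ ![JX k e 0 p, BX N M 0 0 w 0 0 0 0 th 0, BX N' M' 0 0 w' 0 0 0 0 th' 0]) :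
    MaxR ρ ![JX k e 0 p, BX N (M - x • 1) 0 0 w 0 0 0 0 th 0,
      BX N' (M' - y • 1) 0 0 w' 0 0 0 0 th' 0] := by
  have h := Pool.Agent.Lib.D8.MaxR.lin hT 1 0 0 1 0 (-x) 0 (-y) (by norm_num)
  have e1 : (1 : k) • BX N M 0 0 w 0 0 0 0 th 0 + (0 : k) • BX N' M' 0 0 w' 0 0 0 0 th' 0 +
      (0 : k) • JX k e 0 p + (-x) • (JX k e 0 p * JX k e 0 p) =
      BX N (M - x • 1) 0 0 w 0 0 0 0 th 0 := by
    rw [JX_sq, one_smul, zero_smul, zero_smul, add_zero, add_zero, BX_smul, BX_add]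
    simp [sub_eq_add_neg]
  have e2 : (0 : k) • BX N M 0 0 w 0 0 0 0 th 0 + (1 : k) • BX N' M' 0 0 w' 0 0 0 0 th' 0 +
      (0 : k) • JX k e 0 p + (-y) • (JX k e 0 p * JX k e 0 p) =
      BX N' (M' - y • 1) 0 0 w' 0 0 0 0 th' 0 := by
    rw [JX_sq, one_smul, zero_smul, zero_smul, add_zero, zero_add, BX_smul, BX_add]
    simp [sub_eq_add_neg]
  rw [e1, e2] at h
  exact h

theorem exists_perp (he : 2 ≤ e) (ζ : Fin e → k) : ∃ y : Fin e → k, y ≠ 0 ∧ ζ ⬝ᵥ y = 0 := by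
  set i : Fin e := ⟨0, by omega⟩ with hi
  set j : Fin e := ⟨1, by omega⟩ with hj
  have hij : i ≠ j := by
    rw [hi, hj]
    intro h
    exact absurd (congrArg Fin.val h) (by norm_num)
  by_cases h0 : ζ i = 0
  · refine ⟨Pi.single i 1, ?_, ?_⟩
    · intro h
      have := congrFun h i
      simp at this
    · rw [dotProduct_single, h0, zero_mul]
  · refine ⟨Pi.single i (ζ j) - Pi.single j (ζ i), ?_, ?_⟩
    · intro h
      have := congrFun h j
      simp [hij.symm, h0] at this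
    · rw [dotProduct_sub, dotProduct_single, dotProduct_single]
      ring

/-- the last part: `N' + F` is invertible -/
theorem no_F1 [Infinite k] (h3 : ρ 3 = 0) (he : 2 ≤ e) {z ζ : Fin e → k}
    {N M N' M' F : Matrix (Fin e) (Fin e) k}
    {w w' : Matrix (Fin p) (Fin e) k} {th th' : Matrix (Fin e) (Fin p) k}
    (hF : F = vecMulVec z ζ) (h1 : ζ ⬝ᵥ z = 1)
    (hN : N * F = 0) (hN0 : F * N = 0) (hN' : N' * F = 0) (hN0' : F * N' = 0)
    (hw : w * F = 0) (hw' : w' * F = 0) (hth : F * th = 0) (hth' : F * th' = 0)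
    (hdet : (N' + F).det ≠ 0)
    (hT : MaxR ρ ![JX k e 0 p, BX N M 0 0 w 0 0 0 0 th 0, BX N' M' 0 0 w' 0 0 0 0 th' 0]) :
    False := by
  have hFF : F * F = F := by
    rw [hF, Matrix.vecMulVec_mul_vecMulVec, h1, one_smul]
  have hFY : ∀ Y : Matrix (Fin e) (Fin e) k, F * Y * F = (ζ ⬝ᵥ (Y *ᵥ z)) • F := by
    intro Y
    rw [hF, mul_assoc, Matrix.mul_vecMulVec, Matrix.vecMulVec_mul_vecMulVec]
    ext i j
    simp [vecMulVec_apply]
    ring
  set R := (N' + F)⁻¹ with hR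
  have hR1 : (N' + F) * R = 1 := Matrix.mul_nonsing_inv _ (isUnit_iff_ne_zero.2 hdet)
  have hR2 : R * (N' + F) = 1 := Matrix.nonsing_inv_mul _ (isUnit_iff_ne_zero.2 hdet)
  have hFR : F * R = F := by
    have : F * (N' + F) = F := by rw [mul_add, hN0', hFF, zero_add]
    calc F * R = F * (N' + F) * R := by rw [this]
      _ = F := by rw [mul_assoc, hR1, mul_one]
  have hRF : R * F = F := by
    have : (N' + F) * F = F := by rw [add_mul, hN', hFF, zero_add]
    calc R * F = R * ((N' + F) * F) := by rw [this]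
      _ = F := by rw [← mul_assoc, hR2, one_mul]
  have hRN : R * N' = 1 - F := by
    have := hR2
    rw [mul_add, hRF] at this
    rw [← this, add_sub_cancel_right]
  have hNR : N' * R = 1 - F := by
    have := hR1
    rw [add_mul, hFR] at this
    rw [← this, add_sub_cancel_right]
  set G := R - F with hG
  have hGN : G * N' = 1 - F := by rw [hG, sub_mul, hRN, hN0', sub_zero]
  have hNG : N' * G = 1 - F := by rw [hG, mul_sub, hNR, hN', sub_zero]
  have hGF : G * F = 0 := by rw [hG, sub_mul, hRF, hFF, sub_self]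
  have hFG : F * G = 0 := by rw [hG, mul_sub, hFR, hFF, sub_self]
  have h := max_unip (G * M' * F - F * M' * G) hT
  set M1 := M + (G * M' * F - F * M' * G) * N - N * (G * M' * F - F * M' * G) with hM1
  set M1' := M' + (G * M' * F - F * M' * G) * N' - N' * (G * M' * F - F * M' * G) with hM1'
  have eM' : M1' = M' - F * M' - M' * F + (2 : k) • (F * M' * F) := by
    have a1 : (G * M' * F - F * M' * G) * N' = -(F * M') + F * M' * F := by
      have : (G * M' * F - F * M' * G) * N' = G * M' * (F * N') - F * M' * (G * N') := by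
        noncomm_ring
      rw [this, hN0', hGN, mul_zero, mul_sub, mul_one]
      abel
    have a2 : N' * (G * M' * F - F * M' * G) = M' * F - F * M' * F := by
      have : N' * (G * M' * F - F * M' * G) = N' * G * M' * F - N' * F * M' * G := by
        noncomm_ring
      rw [this, hNG, hN', sub_mul, sub_mul, one_mul]
      simp
    rw [hM1', a1, a2, two_smul]
    abel
  have b1 : M1' * F = F * M' * F := by
    rw [eM', add_mul, sub_mul, sub_mul, smul_mul_assoc, mul_assoc (F * M') F F, hFF,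
      mul_assoc M' F F, hFF, two_smul]
    abel
  have b2 : F * M1' = F * M' * F := by
    rw [eM', mul_add, mul_sub, mul_sub, mul_smul_comm, ← mul_assoc F F M', hFF,
      ← mul_assoc F M' F, ← mul_assoc F (F * M') F, ← mul_assoc F F M', hFF, two_smul]
    abel
  rw [hFY] at b1 b2
  set m' := ζ ⬝ᵥ (M' *ᵥ z)
  have h' := max_sub (ζ ⬝ᵥ (M1 *ᵥ z)) m' h
  set M2 := M1 - (ζ ⬝ᵥ (M1 *ᵥ z)) • (1 : Matrix (Fin e) (Fin e) k) with hM2
  set M2' := M1' - m' • (1 : Matrix (Fin e) (Fin e) k) with hM2'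
  have c1 : M2' * F = 0 := by rw [hM2', sub_mul, b1, smul_mul_assoc, one_mul, sub_self]
  have c2 : F * M2' = 0 := by rw [hM2', mul_sub, b2, mul_smul_comm, mul_one, sub_self]
  have c3 : F * M2 * F = 0 := by
    rw [hM2, mul_sub, sub_mul, hFY, mul_smul_comm, mul_one, smul_mul_assoc, hFF, sub_self]
  obtain ⟨y, hy, hζy⟩ := exists_perp he ζ
  set Y := vecMulVec y ζ with hY
  have hYF : Y * F = Y := by
    rw [hY, hF, Matrix.vecMulVec_mul_vecMulVec, h1, one_smul]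
  have hFYz : F * Y = 0 := by
    rw [hY, hF, Matrix.vecMulVec_mul_vecMulVec, hζy, zero_smul, Matrix.vecMulVec_zero]
  have hY0 : Y ≠ 0 := by
    intro h0
    obtain ⟨i, hi⟩ := Function.ne_iff.1 hy
    have hζ : ζ ≠ 0 := by
      rintro rfl
      rw [zero_dotProduct] at h1
      exact zero_ne_one h1
    obtain ⟨j, hj⟩ := Function.ne_iff.1 hζ
    have := congrFun (congrFun h0 i) j
    rw [hY, vecMulVec_apply, Matrix.zero_apply, mul_eq_zero] at this
    exact this.elim hi hj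
  have e1 : ∀ s : k, BX N M2 0 0 w 0 0 0 0 th 0 + s • (BX 0 Y 0 0 0 0 0 0 0 0 0 :
      Matrix (Ix e 0 p) (Ix e 0 p) k) = BX N (M2 + s • Y) 0 0 w 0 0 0 0 th 0 := by
    intro s
    rw [BX_smul, BX_add]
    simp
  have e2 : ∀ s : k, BX N' M2' 0 0 w' 0 0 0 0 th' 0 + s • (0 :
      Matrix (Ix e 0 p) (Ix e 0 p) k) = BX N' M2' 0 0 w' 0 0 0 0 th' 0 := by
    intro s
    rw [smul_zero, add_zero]
  obtain ⟨s, hs, h4⟩ := Pool.Agent.Lib.D8.MaxR.line2 h' (BX 0 Y 0 0 0 0 0 0 0 0 0) 0 (fun s => by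
    rw [e1, e2]
    exact rel _ _ _ _ _ _ _ _ (rel' h')) (F := {s : k | M2 * F + F * M2 + s • Y = 0}) (by
      refine Set.Subsingleton.finite ?_
      intro s hs t ht
      rw [Set.mem_ofPred_eq] at hs ht
      have e : (s - t) • Y = 0 := by
        have : (s - t) • Y = (M2 * F + F * M2 + s • Y) - (M2 * F + F * M2 + t • Y) := by
          rw [sub_smul]
          abel
        rw [this, hs, ht, sub_self]
      rw [smul_eq_zero] at e
      exact sub_eq_zero.1 (e.resolve_right hY0))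
  rw [e1, e2] at h4
  have hne : (M2 + s • Y) * F + F * (M2 + s • Y) ≠ 0 := by
    intro h0
    refine hs ?_
    rw [Set.mem_ofPred_eq, ← h0, add_mul, mul_add, smul_mul_assoc, mul_smul_comm, hYF, hFYz,
      smul_zero, add_zero]
    abel
  refine no_splitF (F := F) h3 hN (Subsingleton.elim _ _) (Subsingleton.elim _ _) hw hN0
    (Subsingleton.elim _ _) (Subsingleton.elim _ _) hth hN' (Subsingleton.elim _ _)
    (Subsingleton.elim _ _) hw' hN0' (Subsingleton.elim _ _) (Subsingleton.elim _ _) hth' c1 c2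
    ?_ hne h4
  rw [mul_add, add_mul, c3, mul_smul_comm, smul_mul_assoc, hFYz, zero_mul, smul_zero, add_zero]

end RaiseKAux

open RaiseKAux in
theorem no_F [Infinite k] (h3 : ρ 3 = 0) (he : 2 ≤ e) {z ζ : Fin e → k}
    {N M N' M' : Matrix (Fin e) (Fin e) k}
    {w w' : Matrix (Fin p) (Fin e) k} {th th' : Matrix (Fin e) (Fin p) k}
    (hz : N *ᵥ z = 0) (hz' : N' *ᵥ z = 0) (hw : w *ᵥ z = 0) (hw' : w' *ᵥ z = 0)
    (hζ : ζ ᵥ* N = 0) (hζ' : ζ ᵥ* N' = 0) (hth : ζ ᵥ* th = 0) (hth' : ζ ᵥ* th' = 0)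
    (h1 : ζ ⬝ᵥ z = 1)
    (hT : MaxR ρ ![JX k e 0 p, BX N M 0 0 w 0 0 0 0 th 0, BX N' M' 0 0 w' 0 0 0 0 th' 0]) :
    False := by
  set F := vecMulVec z ζ with hF
  have hFF : F * F = F := by
    rw [hF, Matrix.vecMulVec_mul_vecMulVec, h1, one_smul]
  have hNF : N * F = 0 := by rw [hF, Matrix.mul_vecMulVec, hz, Matrix.zero_vecMulVec]
  have hNF' : N' * F = 0 := by rw [hF, Matrix.mul_vecMulVec, hz', Matrix.zero_vecMulVec]
  have hFN : F * N = 0 := by rw [hF, Matrix.vecMulVec_mul, hζ, Matrix.vecMulVec_zero]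
  have hFN' : F * N' = 0 := by rw [hF, Matrix.vecMulVec_mul, hζ', Matrix.vecMulVec_zero]
  have hwF : w * F = 0 := by rw [hF, Matrix.mul_vecMulVec, hw, Matrix.zero_vecMulVec]
  have hwF' : w' * F = 0 := by rw [hF, Matrix.mul_vecMulVec, hw', Matrix.zero_vecMulVec]
  have htF : F * th = 0 := by
    rw [hF, Matrix.vecMulVec_mul, hth]
    ext i j
    simp [vecMulVec_apply]
  have htF' : F * th' = 0 := by
    rw [hF, Matrix.vecMulVec_mul, hth']
    ext i j
    simp [vecMulVec_apply]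
  have e1 : ∀ s : k, BX N M 0 0 w 0 0 0 0 th 0 + s • (0 : Matrix (Ix e 0 p) (Ix e 0 p) k) =
      BX N M 0 0 w 0 0 0 0 th 0 := by
    intro s
    rw [smul_zero, add_zero]
  have e2 : ∀ s : k, BX N' M' 0 0 w' 0 0 0 0 th' 0 +
      s • (BX (1 - F - N') (-M') 0 0 (-w') 0 0 0 0 (-th') 0 : Matrix (Ix e 0 p) (Ix e 0 p) k) =
      BX (N' + s • (1 - F - N')) (M' + s • (-M')) 0 0 (w' + s • (-w')) 0 0 0 0
        (th' + s • (-th')) 0 := by
    intro s
    rw [BX_smul, BX_add]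
    simp
  have hrel := rel' hT
  obtain ⟨s, hs, h⟩ := Pool.Agent.Lib.D8.MaxR.line2 hT 0
    (BX (1 - F - N') (-M') 0 0 (-w') 0 0 0 0 (-th') 0) (fun s => by
    rw [e1, e2]
    refine rel _ _ _ _ _ _ _ _ ?_
    have q1 : N * (N' + s • (1 - F - N')) + th * (w' + s • (-w')) =
        (1 - s) • (N * N' + th * w') + s • N := by
      simp only [mul_add, mul_sub, mul_smul_comm, mul_one, hNF]
      rw [Matrix.mul_add, Matrix.mul_smul, Matrix.mul_neg]
      module
    have q2 : (N' + s • (1 - F - N')) * N + (th' + s • (-th')) * w =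
        (1 - s) • (N' * N + th' * w) + s • N := by
      simp only [add_mul, sub_mul, smul_mul_assoc, one_mul, hFN]
      rw [Matrix.add_mul, Matrix.smul_mul, Matrix.neg_mul]
      module
    rw [q1, q2, hrel]) (F := {s : k | (N' + s • (1 - F - N') + F).det = 0}) (by
      have hp : D7.IsPoly fun s : k => (N' + s • (1 - F - N') + F).det := by
        have := PolyAux.det_poly (fun s : k => N' + s • (1 - F - N') + F) (fun x y =>
          ((D7.IsPoly.const (N' x y)).add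
            (D7.IsPoly.id.mul (D7.IsPoly.const ((1 - F - N') x y)))).add
            (D7.IsPoly.const (F x y))) id id
        simpa using this
      refine hp.finite (s₁ := 1) ?_
      have : N' + (1 : k) • (1 - F - N') + F = 1 := by
        rw [one_smul]
        abel
      rw [this, Matrix.det_one]
      exact one_ne_zero)
  rw [e1, e2] at h
  refine no_F1 h3 he hF h1 hNF hFN ?_ ?_ hwF ?_ htF ?_ hs h
  · rw [add_mul, smul_mul_assoc, sub_mul, sub_mul, one_mul, hFF, hNF']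
    simp
  · rw [mul_add, mul_smul_comm, mul_sub, mul_sub, mul_one, hFF, hFN']
    simp
  · rw [Matrix.add_mul, Matrix.smul_mul, Matrix.neg_mul, hwF']
    simp
  · rw [Matrix.mul_add, Matrix.mul_smul, Matrix.mul_neg, htF']
    simp

end Pool.Agent.Lib.D12
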