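import Pool.Agent.Lib.D12.XI
import Pool.Agent.Lib.D13.Krull

/-!
Module SmoothI (2.5h; tool: `smooth'` of D13/Krull.lean, see /team-store/D13_Krull.md). Case I, smooth points. `Om` = the map `Ω = (a; a'; w; w') : E → U + U + P + P`.
`Cok0` = the differential of the relation map is onto (its cokernel: R : F → E). THEOREM smooth_up: if the differential is onto, `Ω z = 0`, `λ Ω = 0`, `λ = (s, s', t, t')`, then either there is a MaxR triple of case I
with bigger rank of `Ω`, or `λ (δΩ) z` vanishes on all first order deformations, which means that `Z : F → E` exists with the five equations.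
PROOF. Parameters: `x = (Y, Y', Th, Th', w, w')` (index type ι := the disjoint sum of the six index products; `D, D'` constant), `c x := ![JX, XI Y Th w D, XI Y' Th' w' D']` (entries are coordinates: MP.coord / MP.const).
Equations (κ := (Fin e ⊕ Fin u) × Fin e): `F_j x` = the entry of `Y Y' ι + Th w' - Y' Y ι - Th' w`; F x = 0 => CN (cnI). Derivative at x in direction `v = (y, y', th, th', ω, ω')` (HasD; the relation is quadratic, `F(x + s v) = F(x) + s L(v) + s^2 F(v)`,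
so HasD with R = constant F(v)): `L(v) = (Y y' + y Y' - Y' y - y' Y) ι + Th ω' + th w' - Th' ω - th' w`.
(1) `L` is onto `Hom(E, F)`: otherwise some `R : F → E`, `R ≠ 0` with `tr (R L(v)) = 0` for all v (a proper subspace is killed by a nonzero functional; functionals on matrices are `X ↦ tr (R X)`): taking `v` with one nonzero part gives
`ι R Y' .. `: `tr (R (y Y' - Y' y) ι) = tr (y (Y' ι R - ι R Y'))` so `Y' (ι R) = (ι R) Y'`; `y'`: `(ι R) Y = Y (ι R)`; `th`: `w' R = 0`; `th'`: `w R = 0`; `ω`: `R Th' = 0`; `ω'`: `R Th = 0`: contradiction to Cok0.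
(2) Let `ℓ(v) = λ (δΩ(v) z)` `= s (y z)_U + s' (y' z)_U + t ω z + t' ω' z`. If `ℓ` vanishes on `ker L`, then `ℓ = (X ↦ tr (Z X)) ∘ L` for some `Z` (a functional vanishing on ker L factors through L), and comparing the parts: `y`: `Y' (ι Z) - (ι Z) Y' = (ι z) (0, s)`; `y'`: `(ι Z) Y - Y (ι Z) = (ι z) (0, s')`;
`th`: `w' Z = 0`; `th'`: `w Z = 0`; `ω'`: `Z Th = z t'`; `ω`: `Z Th' = - z t`: second alternative.
(3) Otherwise choose `v` in `ker L` with `ℓ(v) ≠ 0`. `r := rank Ω`. Choose rows `i_1..i_r` and columns `j_1..j_r` with nonzero minor of `Ω` (e.g. D7.PolyAux.exists_minor, or: choose matrices `P : r × ..`, `Q : .. × r` with `det (P Ω Q) ≠ 0`). Bordered minor: `g(x) = det [[P Ω(x) Q, P Ω(x) z], [λ Ω(x) Q, λ Ω(x) z]]`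
is polynomial, `g(x0) = 0` (`Ω z = 0`), and its derivative in direction `v` is `det (P Ω Q) * ℓ(v) ≠ 0` (at x0 the last column and the last row vanish: expand along the last column). smooth' (with q = 1, hs from (1)) gives a MaxR point x with `F x = 0`, `g(x) ≠ 0`, so rank Ω(x) ≥ r + 1.
(smooth' needs `HasD (g) x0 v d`: MP.hasD gives some derivative; compute it with HasD for `1 + small` .. or: HasD of a product / of det by HasD.congr; simplest: `g(x) = det(PΩQ) * λ Ω z - (λ Ω Q) adj(PΩQ) (P Ω z)` (Schur complement form, polynomial), whose derivative at x0 is clear: use THIS as the definition of g; if g(x) ≠ 0 then rank Ω(x) > r because the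
bordered matrix has determinant g(x) (Matrix.det_fromBlocks₁₁ if det (PΩ(x)Q) ≠ 0; require also det (PΩ(x)Q) ≠ 0 through the function q of smooth').)
-/

set_option autoImplicit false

namespace Pool.Agent.Lib.D12

open Matrix Pool.Agent.Lib.Q5dc Pool.Agent.Lib.D7 Pool.Agent.Lib.D9

variable {k : Type*} [Field k] {e u p : ℕ} {ρ : ℕ → ℕ}

/-- the map `(a; a'; w; w')` -/
def Om (Y Y' : Matrix (Fin e ⊕ Fin u) (Fin e ⊕ Fin u) k) (w w' : Matrix (Fin p) (Fin e) k) :
    Matrix ((Fin u ⊕ Fin u) ⊕ (Fin p ⊕ Fin p)) (Fin e) k :=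
  fromRows (fromRows Y.toBlocks₂₁ Y'.toBlocks₂₁) (fromRows w w')

/-- the differential of the relation map is onto -/
def Cok0 (Y Y' : Matrix (Fin e ⊕ Fin u) (Fin e ⊕ Fin u) k)
    (Th Th' : Matrix (Fin e ⊕ Fin u) (Fin p) k) (w w' : Matrix (Fin p) (Fin e) k) : Prop :=
  ∀ R : Matrix (Fin e) (Fin e ⊕ Fin u) k, io k e u * R * Y = Y * (io k e u * R) →
    io k e u * R * Y' = Y' * (io k e u * R) → R * Th = 0 → R * Th' = 0 → w * R = 0 →
    w' * R = 0 → R = 0

/-- second alternative of `smooth_up` -/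
def Obs (Y Y' : Matrix (Fin e ⊕ Fin u) (Fin e ⊕ Fin u) k)
    (Th Th' : Matrix (Fin e ⊕ Fin u) (Fin p) k) (w w' : Matrix (Fin p) (Fin e) k)
    (z : Fin e → k) (s s' : Fin u → k) (t t' : Fin p → k) : Prop :=
  ∃ Z : Matrix (Fin e) (Fin e ⊕ Fin u) k,
    Y' * (io k e u * Z) - io k e u * Z * Y' = vecMulVec (io k e u *ᵥ z) (Sum.elim 0 s) ∧
    io k e u * Z * Y - Y * (io k e u * Z) = vecMulVec (io k e u *ᵥ z) (Sum.elim 0 s') ∧
    w * Z = 0 ∧ w' * Z = 0 ∧ Z * Th = vecMulVec z t' ∧ Z * Th' = - vecMulVec z t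

set_option linter.unusedSectionVars false

namespace SmoothIAux

/-- index type of the parameters -/
abbrev PI (e u p : ℕ) : Type :=
  (((Fin e ⊕ Fin u) × (Fin e ⊕ Fin u)) ⊕ ((Fin e ⊕ Fin u) × (Fin e ⊕ Fin u))) ⊕
    ((((Fin e ⊕ Fin u) × Fin p) ⊕ ((Fin e ⊕ Fin u) × Fin p)) ⊕
      ((Fin p × Fin e) ⊕ (Fin p × Fin e)))

def gY (x : PI e u p → k) : Matrix (Fin e ⊕ Fin u) (Fin e ⊕ Fin u) k :=
  Matrix.of fun i j => x (.inl (.inl (i, j)))

def gY' (x : PI e u p → k) : Matrix (Fin e ⊕ Fin u) (Fin e ⊕ Fin u) k :=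
  Matrix.of fun i j => x (.inl (.inr (i, j)))

def gT (x : PI e u p → k) : Matrix (Fin e ⊕ Fin u) (Fin p) k :=
  Matrix.of fun i j => x (.inr (.inl (.inl (i, j))))

def gT' (x : PI e u p → k) : Matrix (Fin e ⊕ Fin u) (Fin p) k :=
  Matrix.of fun i j => x (.inr (.inl (.inr (i, j))))

def gw (x : PI e u p → k) : Matrix (Fin p) (Fin e) k :=
  Matrix.of fun i j => x (.inr (.inr (.inl (i, j))))

def gw' (x : PI e u p → k) : Matrix (Fin p) (Fin e) k :=
  Matrix.of fun i j => x (.inr (.inr (.inr (i, j))))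

def mk (Y Y' : Matrix (Fin e ⊕ Fin u) (Fin e ⊕ Fin u) k)
    (Th Th' : Matrix (Fin e ⊕ Fin u) (Fin p) k) (w w' : Matrix (Fin p) (Fin e) k) :
    PI e u p → k :=
  Sum.elim (Sum.elim (fun a => Y a.1 a.2) (fun a => Y' a.1 a.2))
    (Sum.elim (Sum.elim (fun a => Th a.1 a.2) (fun a => Th' a.1 a.2))
      (Sum.elim (fun a => w a.1 a.2) (fun a => w' a.1 a.2)))

section

variable (Y Y' : Matrix (Fin e ⊕ Fin u) (Fin e ⊕ Fin u) k)
  (Th Th' : Matrix (Fin e ⊕ Fin u) (Fin p) k) (w w' : Matrix (Fin p) (Fin e) k)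

theorem gY_mk : gY (mk Y Y' Th Th' w w') = Y := rfl
theorem gY'_mk : gY' (mk Y Y' Th Th' w w') = Y' := rfl
theorem gT_mk : gT (mk Y Y' Th Th' w w') = Th := rfl
theorem gT'_mk : gT' (mk Y Y' Th Th' w w') = Th' := rfl
theorem gw_mk : gw (mk Y Y' Th Th' w w') = w := rfl
theorem gw'_mk : gw' (mk Y Y' Th Th' w w') = w' := rfl

end

section

variable (x v : PI e u p → k) (s : k)

theorem gY_add : gY (x + v) = gY x + gY v := rfl
theorem gY'_add : gY' (x + v) = gY' x + gY' v := rfl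
theorem gT_add : gT (x + v) = gT x + gT v := rfl
theorem gT'_add : gT' (x + v) = gT' x + gT' v := rfl
theorem gw_add : gw (x + v) = gw x + gw v := rfl
theorem gw'_add : gw' (x + v) = gw' x + gw' v := rfl
theorem gY_smul : gY (s • x) = s • gY x := rfl
theorem gY'_smul : gY' (s • x) = s • gY' x := rfl
theorem gT_smul : gT (s • x) = s • gT x := rfl
theorem gT'_smul : gT' (s • x) = s • gT' x := rfl
theorem gw_smul : gw (s • x) = s • gw x := rfl
theorem gw'_smul : gw' (s • x) = s • gw' x := rfl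

end

/-- the relation -/
def Rl (x : PI e u p → k) : Matrix (Fin e ⊕ Fin u) (Fin e) k :=
  gY x * gY' x * io k e u + gT x * gw' x - (gY' x * gY x * io k e u + gT' x * gw x)

/-- its differential -/
def Ld (x v : PI e u p → k) : Matrix (Fin e ⊕ Fin u) (Fin e) k :=
  (gY x * gY' v + gY v * gY' x) * io k e u + (gT x * gw' v + gT v * gw' x) -
    ((gY' x * gY v + gY' v * gY x) * io k e u + (gT' x * gw v + gT' v * gw x))

theorem Rl_line (x v : PI e u p → k) (s : k) :
    Rl (x + s • v) = Rl x + s • Ld x v + (s ^ 2) • Rl v := by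
  simp only [Rl, Ld, gY_add, gY'_add, gT_add, gT'_add, gw_add, gw'_add, gY_smul, gY'_smul,
    gT_smul, gT'_smul, gw_smul, gw'_smul, Matrix.add_mul, Matrix.mul_add, Matrix.smul_mul,
    Matrix.mul_smul, smul_add, smul_sub, smul_smul, pow_two]
  abel

theorem Ld_add (x v v' : PI e u p → k) : Ld x (v + v') = Ld x v + Ld x v' := by
  simp only [Ld, gY_add, gY'_add, gT_add, gT'_add, gw_add, gw'_add, Matrix.add_mul,
    Matrix.mul_add]
  abel

theorem Ld_smul (x v : PI e u p → k) (s : k) : Ld x (s • v) = s • Ld x v := by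
  simp only [Ld, gY_smul, gY'_smul, gT_smul, gT'_smul, gw_smul, gw'_smul, Matrix.add_mul,
    Matrix.smul_mul, Matrix.mul_smul, smul_add, smul_sub]

/-- the differential as a linear map -/
def Lm (x : PI e u p → k) : (PI e u p → k) →ₗ[k] Matrix (Fin e ⊕ Fin u) (Fin e) k where
  toFun := Ld x
  map_add' := Ld_add x
  map_smul' := fun s v => Ld_smul x v s

theorem hasD_Rl (x v : PI e u p → k) (i : Fin e ⊕ Fin u) (j : Fin e) :
    D13.HasD (fun y => Rl y i j) x v (Ld x v i j) :=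
  ⟨fun _ => Rl v i j, D7.IsPoly.const _, fun s => by
    show Rl (x + s • v) i j = _
    rw [Rl_line]
    simp only [Matrix.add_apply, Matrix.smul_apply, smul_eq_mul]⟩

/-- `Om` of a parameter -/
def Og (x : PI e u p → k) : Matrix ((Fin u ⊕ Fin u) ⊕ (Fin p ⊕ Fin p)) (Fin e) k :=
  Om (gY x) (gY' x) (gw x) (gw' x)

theorem Og_add (x v : PI e u p → k) : Og (x + v) = Og x + Og v := by
  ext i j
  rcases i with (i | i) | (i | i) <;> rfl

theorem Og_smul (s : k) (x : PI e u p → k) : Og (s • x) = s • Og x := by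
  ext i j
  rcases i with (i | i) | (i | i) <;> rfl

/-! ### polynomial functions -/

theorem mp_mul {ι a b c : Type*} [Fintype b] {M : (ι → k) → Matrix a b k}
    {N : (ι → k) → Matrix b c k} (hM : ∀ i j, D13.MP fun x => M x i j)
    (hN : ∀ i j, D13.MP fun x => N x i j) (i : a) (j : c) : D13.MP fun x => (M x * N x) i j := by
  simp only [Matrix.mul_apply]
  exact D13.MP.sum _ fun l _ => (hM _ _).mul (hN _ _)

theorem mp_gY (i j) : D13.MP fun x : PI e u p → k => gY x i j := D13.MP.coord _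
theorem mp_gY' (i j) : D13.MP fun x : PI e u p → k => gY' x i j := D13.MP.coord _
theorem mp_gT (i j) : D13.MP fun x : PI e u p → k => gT x i j := D13.MP.coord _
theorem mp_gT' (i j) : D13.MP fun x : PI e u p → k => gT' x i j := D13.MP.coord _
theorem mp_gw (i j) : D13.MP fun x : PI e u p → k => gw x i j := D13.MP.coord _
theorem mp_gw' (i j) : D13.MP fun x : PI e u p → k => gw' x i j := D13.MP.coord _

theorem mp_Rl (i j) : D13.MP fun x : PI e u p → k => Rl x i j := by
  have h1 : ∀ i j, D13.MP fun x : PI e u p → k => io k e u i j := fun i j => D13.MP.const _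
  exact ((mp_mul (mp_mul mp_gY mp_gY') h1 i j).add (mp_mul mp_gT mp_gw' i j)).sub
    ((mp_mul (mp_mul mp_gY' mp_gY) h1 i j).add (mp_mul mp_gT' mp_gw i j))

theorem mp_Og (i j) : D13.MP fun x : PI e u p → k => Og x i j := by
  rcases i with (i | i) | (i | i)
  · exact D13.MP.coord (ι := PI e u p) (Sum.inl (Sum.inl (Sum.inr i, Sum.inl j)))
  · exact D13.MP.coord (ι := PI e u p) (Sum.inl (Sum.inr (Sum.inr i, Sum.inl j)))
  · exact D13.MP.coord (ι := PI e u p) (Sum.inr (Sum.inr (Sum.inl (i, j))))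
  · exact D13.MP.coord (ι := PI e u p) (Sum.inr (Sum.inr (Sum.inr (i, j))))

/-- the family of triples -/
def cI (D D' : Matrix (Fin e ⊕ Fin u) (Fin e) k) (x : PI e u p → k) :
    Fin 3 → Matrix (Ix e u p) (Ix e u p) k :=
  ![JX k e u p, XI (gY x) (gT x) (gw x) D, XI (gY' x) (gT' x) (gw' x) D']

theorem mp_BX {ι : Type*} {N M : (ι → k) → Matrix (Fin e) (Fin e) k}
    {a c : (ι → k) → Matrix (Fin u) (Fin e) k} {w : (ι → k) → Matrix (Fin p) (Fin e) k}
    {b d : (ι → k) → Matrix (Fin e) (Fin u) k} {nu : (ι → k) → Matrix (Fin u) (Fin u) k}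
    {pi : (ι → k) → Matrix (Fin p) (Fin u) k} {th : (ι → k) → Matrix (Fin e) (Fin p) k}
    {et : (ι → k) → Matrix (Fin u) (Fin p) k}
    (h1 : ∀ i j, D13.MP fun x => N x i j) (h2 : ∀ i j, D13.MP fun x => M x i j)
    (h3 : ∀ i j, D13.MP fun x => a x i j) (h4 : ∀ i j, D13.MP fun x => c x i j)
    (h5 : ∀ i j, D13.MP fun x => w x i j) (h6 : ∀ i j, D13.MP fun x => b x i j)
    (h7 : ∀ i j, D13.MP fun x => d x i j) (h8 : ∀ i j, D13.MP fun x => nu x i j)
    (h9 : ∀ i j, D13.MP fun x => pi x i j) (h10 : ∀ i j, D13.MP fun x => th x i j)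
    (h11 : ∀ i j, D13.MP fun x => et x i j) (i j : Ix e u p) :
    D13.MP fun x => BX (N x) (M x) (a x) (c x) (w x) (b x) (d x) (nu x) (pi x) (th x) (et x)
      i j := by
  rcases i with (i | i | i) | ((i | i) | i) <;> rcases j with (j | j | j) | ((j | j) | j) <;>
    first
      | exact h1 _ _
      | exact h2 _ _
      | exact h3 _ _
      | exact h4 _ _
      | exact h5 _ _
      | exact h6 _ _
      | exact h7 _ _
      | exact h8 _ _
      | exact h9 _ _
      | exact h10 _ _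
      | exact h11 _ _
      | exact D13.MP.const 0

theorem mp_XI {ι : Type*} {Y : (ι → k) → Matrix (Fin e ⊕ Fin u) (Fin e ⊕ Fin u) k}
    {Th : (ι → k) → Matrix (Fin e ⊕ Fin u) (Fin p) k} {w : (ι → k) → Matrix (Fin p) (Fin e) k}
    (D : Matrix (Fin e ⊕ Fin u) (Fin e) k)
    (h1 : ∀ i j, D13.MP fun x => Y x i j) (h2 : ∀ i j, D13.MP fun x => Th x i j)
    (h3 : ∀ i j, D13.MP fun x => w x i j) (i j : Ix e u p) :
    D13.MP fun x => XI (Y x) (Th x) (w x) D i j :=
  mp_BX (N := fun x => (Y x).toBlocks₁₁) (M := fun _ => D.toRows₁)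
    (a := fun x => (Y x).toBlocks₂₁) (c := fun _ => D.toRows₂) (w := w) (b := fun _ => 0)
    (d := fun x => (Y x).toBlocks₁₂) (nu := fun x => (Y x).toBlocks₂₂) (pi := fun _ => 0)
    (th := fun x => (Th x).toRows₁) (et := fun x => (Th x).toRows₂)
    (fun _ _ => h1 _ _) (fun _ _ => D13.MP.const _) (fun _ _ => h1 _ _)
    (fun _ _ => D13.MP.const _) h3 (fun _ _ => D13.MP.const _) (fun _ _ => h1 _ _)
    (fun _ _ => h1 _ _) (fun _ _ => D13.MP.const _) (fun _ _ => h2 _ _) (fun _ _ => h2 _ _) i j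

theorem mp_cI (D D' : Matrix (Fin e ⊕ Fin u) (Fin e) k) (l : Fin 3) (i j : Ix e u p) :
    D13.MP fun x => cI D D' x l i j := by
  fin_cases l
  · exact D13.MP.const (JX k e u p i j)
  · exact mp_XI D mp_gY mp_gT mp_gw i j
  · exact mp_XI D' mp_gY' mp_gT' mp_gw' i j

theorem cn_cI (D D' : Matrix (Fin e ⊕ Fin u) (Fin e) k) (x : PI e u p → k) (h : Rl x = 0) :
    CN (cI D D' x) :=
  cnI _ _ _ _ _ _ _ _ (sub_eq_zero.1 h)

/-! ### functionals -/

/-- functionals on matrices are traces -/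
theorem exists_trace {a b : Type*} [Fintype a] [Fintype b]
    (φ : Module.Dual k (Matrix a b k)) :
    ∃ Z : Matrix b a k, ∀ X, φ X = trace (Z * X) := by
  classical
  refine ⟨Matrix.of fun j i => φ (Matrix.single i j 1), fun X => ?_⟩
  conv_lhs => rw [Matrix.matrix_eq_sum_single X]
  simp only [map_sum, trace, diag, Matrix.mul_apply, Matrix.of_apply]
  rw [Finset.sum_comm]
  refine Finset.sum_congr rfl fun j _ => Finset.sum_congr rfl fun i _ => ?_
  have h1 : (Matrix.single i j (X i j) : Matrix a b k) = X i j • Matrix.single i j 1 := by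
    rw [Matrix.smul_single, smul_eq_mul, mul_one]
  rw [h1, map_smul, smul_eq_mul, mul_comm]

theorem dot_tr {a b : Type*} [Fintype a] [Fintype b] (y : Matrix a b k) (s : a → k) (z : b → k) :
    s ⬝ᵥ (y *ᵥ z) = trace (y * vecMulVec z s) := by
  rw [Matrix.mul_vecMulVec, trace_vecMulVec, dotProduct_comm]

theorem parts {Y Y' : Matrix (Fin e ⊕ Fin u) (Fin e ⊕ Fin u) k}
    {Th Th' : Matrix (Fin e ⊕ Fin u) (Fin p) k} {w w' : Matrix (Fin p) (Fin e) k}
    (Z : Matrix (Fin e) (Fin e ⊕ Fin u) k) {z : Fin e → k} {s s' : Fin u → k}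
    {t t' : Fin p → k}
    (h : ∀ v, trace (Z * Ld (mk Y Y' Th Th' w w') v) =
      Sum.elim (Sum.elim s s') (Sum.elim t t') ⬝ᵥ (Og v *ᵥ z)) :
    Y' * (io k e u * Z) - io k e u * Z * Y' = vecMulVec (io k e u *ᵥ z) (Sum.elim 0 s) ∧
    io k e u * Z * Y - Y * (io k e u * Z) = vecMulVec (io k e u *ᵥ z) (Sum.elim 0 s') ∧
    w * Z = 0 ∧ w' * Z = 0 ∧ Z * Th = vecMulVec z t' ∧ Z * Th' = - vecMulVec z t := by
  have hlow : ∀ (y : Matrix (Fin e ⊕ Fin u) (Fin e ⊕ Fin u) k) (s : Fin u → k),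
      s ⬝ᵥ (y.toBlocks₂₁ *ᵥ z) = trace (y * vecMulVec (io k e u *ᵥ z) (Sum.elim 0 s)) := by
    intro y s
    rw [← dot_tr]
    have h1 : y *ᵥ (io k e u *ᵥ z) = (y * io k e u) *ᵥ z := by rw [Matrix.mulVec_mulVec]
    rw [h1]
    simp only [dotProduct, Fintype.sum_sum_type, Sum.elim_inl, Sum.elim_inr, Pi.zero_apply,
      zero_mul, Finset.sum_const_zero, zero_add]
    refine Finset.sum_congr rfl fun i _ => ?_
    congr 1
    simp only [Matrix.mulVec, dotProduct]
    refine Finset.sum_congr rfl fun j _ => ?_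
    congr 1
    simp [io, toBlocks₂₁, Matrix.mul_apply, Fintype.sum_sum_type, Matrix.one_apply]
  have hO : ∀ (y y' : Matrix (Fin e ⊕ Fin u) (Fin e ⊕ Fin u) k)
      (th th' : Matrix (Fin e ⊕ Fin u) (Fin p) k) (ω ω' : Matrix (Fin p) (Fin e) k),
      Sum.elim (Sum.elim s s') (Sum.elim t t') ⬝ᵥ (Og (mk y y' th th' ω ω') *ᵥ z) =
        (s ⬝ᵥ (y.toBlocks₂₁ *ᵥ z) + s' ⬝ᵥ (y'.toBlocks₂₁ *ᵥ z)) +
          (t ⬝ᵥ (ω *ᵥ z) + t' ⬝ᵥ (ω' *ᵥ z)) := by
    intro y y' th th' ω ω'
    simp only [dotProduct, Fintype.sum_sum_type, Sum.elim_inl, Sum.elim_inr]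
    rfl
  have hc : ∀ (y y' : Matrix (Fin e ⊕ Fin u) (Fin e ⊕ Fin u) k)
      (th th' : Matrix (Fin e ⊕ Fin u) (Fin p) k) (ω ω' : Matrix (Fin p) (Fin e) k), _ :=
    fun y y' th th' ω ω' => (h (mk y y' th th' ω ω')).trans (hO y y' th th' ω ω')
  simp only [Ld, gY_mk, gY'_mk, gT_mk, gT'_mk, gw_mk, gw'_mk] at hc
  refine ⟨?_, ?_, ?_, ?_, ?_, ?_⟩
  · rw [ext_iff_trace_mul_left]
    intro y
    have h1 := hc y 0 0 0 0 0
    have e0 : (0 : Matrix (Fin e ⊕ Fin u) (Fin e ⊕ Fin u) k).toBlocks₂₁ = 0 := rfl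
    simp only [Matrix.mul_zero, Matrix.zero_mul, zero_add, add_zero, e0, Matrix.zero_mulVec,
      dotProduct_zero] at h1
    rw [hlow] at h1
    rw [← h1, Matrix.mul_sub, Matrix.mul_sub, trace_sub, trace_sub]
    congr 1
    · rw [trace_mul_comm Z]
      simp only [Matrix.mul_assoc]
    · rw [trace_mul_comm Z, ← Matrix.mul_assoc y, trace_mul_comm _ Y']
      simp only [Matrix.mul_assoc]
  · rw [ext_iff_trace_mul_left]
    intro y
    have h1 := hc 0 y 0 0 0 0
    have e0 : (0 : Matrix (Fin e ⊕ Fin u) (Fin e ⊕ Fin u) k).toBlocks₂₁ = 0 := rfl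
    simp only [Matrix.mul_zero, Matrix.zero_mul, zero_add, add_zero, e0, Matrix.zero_mulVec,
      dotProduct_zero] at h1
    rw [hlow] at h1
    rw [← h1, Matrix.mul_sub, Matrix.mul_sub, trace_sub, trace_sub]
    congr 1
    · rw [trace_mul_comm Z, ← Matrix.mul_assoc y, trace_mul_comm _ Y]
      simp only [Matrix.mul_assoc]
    · rw [trace_mul_comm Z]
      simp only [Matrix.mul_assoc]
  · rw [ext_iff_trace_mul_left]
    intro y
    have h1 := hc 0 0 0 y 0 0
    have e0 : (0 : Matrix (Fin e ⊕ Fin u) (Fin e ⊕ Fin u) k).toBlocks₂₁ = 0 := rfl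
    simp only [Matrix.mul_zero, Matrix.zero_mul, zero_add, add_zero, e0, Matrix.zero_mulVec,
      dotProduct_zero, zero_sub, Matrix.mul_neg, trace_neg, neg_eq_zero] at h1
    rw [Matrix.mul_zero, trace_zero, ← h1, trace_mul_comm Z, Matrix.mul_assoc]
  · rw [ext_iff_trace_mul_left]
    intro y
    have h1 := hc 0 0 y 0 0 0
    have e0 : (0 : Matrix (Fin e ⊕ Fin u) (Fin e ⊕ Fin u) k).toBlocks₂₁ = 0 := rfl
    simp only [Matrix.mul_zero, Matrix.zero_mul, zero_add, add_zero, e0, Matrix.zero_mulVec,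
      dotProduct_zero, sub_zero] at h1
    rw [Matrix.mul_zero, trace_zero, ← h1, trace_mul_comm Z, Matrix.mul_assoc]
  · rw [ext_iff_trace_mul_left]
    intro y
    have h1 := hc 0 0 0 0 0 y
    have e0 : (0 : Matrix (Fin e ⊕ Fin u) (Fin e ⊕ Fin u) k).toBlocks₂₁ = 0 := rfl
    simp only [Matrix.mul_zero, Matrix.zero_mul, zero_add, add_zero, e0, Matrix.zero_mulVec,
      dotProduct_zero, sub_zero] at h1
    rw [← dot_tr, ← h1, ← Matrix.mul_assoc, trace_mul_comm, trace_mul_comm Z, Matrix.mul_assoc]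
  · rw [ext_iff_trace_mul_left]
    intro y
    have h1 := hc 0 0 0 0 y 0
    have e0 : (0 : Matrix (Fin e ⊕ Fin u) (Fin e ⊕ Fin u) k).toBlocks₂₁ = 0 := rfl
    simp only [Matrix.mul_zero, Matrix.zero_mul, zero_add, add_zero, e0, Matrix.zero_mulVec,
      dotProduct_zero, zero_sub, Matrix.mul_neg, trace_neg] at h1
    rw [Matrix.mul_neg, trace_neg, ← dot_tr, ← h1, neg_neg, ← Matrix.mul_assoc, trace_mul_comm,
      trace_mul_comm Z, Matrix.mul_assoc]

/-! ### minors -/

theorem exists_minor {a b : Type*} [Fintype a] [Fintype b] (M : Matrix a b k) :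
    ∃ (f : Fin M.rank → a) (g : Fin M.rank → b), (M.submatrix f g).det ≠ 0 := by
  classical
  obtain ⟨f, hf⟩ := PolyAux.exists_sub (k := k) M.row M.rank M.rank_eq_finrank_span_row.symm
  have hN : (M.submatrix f id).rank = M.rank := by
    have h1 : LinearIndependent k (M.submatrix f id).row := hf
    rw [h1.rank_matrix, Fintype.card_fin]
  obtain ⟨g, hg⟩ := PolyAux.exists_sub (k := k) (M.submatrix f id).col M.rank
    ((M.submatrix f id).rank_eq_finrank_span_cols.symm.trans hN)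
  refine ⟨f, g, ?_⟩
  have h2 : LinearIndependent k (M.submatrix f g).col := hg
  exact isUnit_iff_ne_zero.1 ((Matrix.isUnit_iff_isUnit_det _).1
    (linearIndependent_cols_iff_isUnit.1 h2))

theorem isPoly_det {n : Type*} [Fintype n] [DecidableEq n] {M : k → Matrix n n k}
    (hM : ∀ i j, D7.IsPoly fun s => M s i j) : D7.IsPoly fun s => (M s).det := by
  choose p hp using hM
  refine ⟨(Matrix.of fun i j => p i j).det, fun s => ?_⟩
  rw [← Polynomial.coe_evalRingHom, RingHom.map_det]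
  have e : M s = (Polynomial.evalRingHom s).mapMatrix (Matrix.of fun i j => p i j) := by
    ext i j
    exact hp i j s
  rw [← e]

theorem isPoly_div {h : k → k} (hh : D7.IsPoly h) :
    ∃ R, D7.IsPoly R ∧ ∀ s, h s = h 0 + s * R s := by
  obtain ⟨p, hp⟩ := hh
  refine ⟨fun s => p.divX.eval s, ⟨_, fun _ => rfl⟩, fun s => ?_⟩
  rw [hp, hp]
  have h8 : p.eval s = p.divX.eval s * s + p.coeff 0 := by
    conv_lhs => rw [← Polynomial.divX_mul_X_add p]
    simp
  rw [h8, ← Polynomial.coeff_zero_eq_eval_zero]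
  ring

/-- the determinant of a bordered matrix, first order -/
theorem det_border {r : ℕ} (B0 B1 : Matrix (Fin r ⊕ Unit) (Fin r ⊕ Unit) k)
    (h12 : B0.toBlocks₁₂ = 0) (h21 : B0.toBlocks₂₁ = 0) (h22 : B0.toBlocks₂₂ = 0) :
    ∃ R : k → k, D7.IsPoly R ∧ ∀ s, (B0 + s • B1).det =
      s * (B0.toBlocks₁₁.det * B1 (.inr ()) (.inr ())) + s ^ 2 * R s := by
  have h1 : ∀ s : k, B0 + s • B1 = fromBlocks (B0.toBlocks₁₁ + s • B1.toBlocks₁₁)
      B1.toBlocks₁₂ (s • B1.toBlocks₂₁) B1.toBlocks₂₂ * fromBlocks 1 0 0 (s • 1) := by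
    intro s
    rw [fromBlocks_multiply]
    simp only [Matrix.mul_one, Matrix.mul_zero, add_zero, zero_add, Matrix.mul_smul]
    conv_lhs => rw [← fromBlocks_toBlocks B0, ← fromBlocks_toBlocks B1, h12, h21, h22,
      fromBlocks_smul, fromBlocks_add]
    simp only [zero_add]
  have h2 : D7.IsPoly fun s : k => (fromBlocks (B0.toBlocks₁₁ + s • B1.toBlocks₁₁)
      B1.toBlocks₁₂ (s • B1.toBlocks₂₁) B1.toBlocks₂₂).det := by
    refine isPoly_det ?_
    rintro (i | i) (j | j)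
    · exact (D7.IsPoly.const _).add (D7.IsPoly.id.mul (D7.IsPoly.const _))
    · exact D7.IsPoly.const _
    · exact D7.IsPoly.id.mul (D7.IsPoly.const _)
    · exact D7.IsPoly.const _
  obtain ⟨R, hR, h3⟩ := isPoly_div h2
  refine ⟨R, hR, fun s => ?_⟩
  rw [h1, det_mul, h3 s]
  have h4 : (fromBlocks (B0.toBlocks₁₁ + (0 : k) • B1.toBlocks₁₁)
      B1.toBlocks₁₂ ((0 : k) • B1.toBlocks₂₁) B1.toBlocks₂₂).det =
      B0.toBlocks₁₁.det * B1 (.inr ()) (.inr ()) := by
    rw [zero_smul, zero_smul, add_zero, det_fromBlocks_zero₂₁, det_unique (B1.toBlocks₂₂)]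
    rfl
  have h5 : (fromBlocks 1 0 0 (s • 1) : Matrix (Fin r ⊕ Unit) (Fin r ⊕ Unit) k).det = s := by
    rw [det_fromBlocks_zero₂₁, det_one, det_unique]
    simp
  rw [h4, h5]
  ring

end SmoothIAux

open SmoothIAux

theorem smooth_up [IsAlgClosed k] {Y Y' : Matrix (Fin e ⊕ Fin u) (Fin e ⊕ Fin u) k}
    {Th Th' : Matrix (Fin e ⊕ Fin u) (Fin p) k} {w w' : Matrix (Fin p) (Fin e) k}
    {D D' : Matrix (Fin e ⊕ Fin u) (Fin e) k}
    (hT : MaxR ρ ![JX k e u p, XI Y Th w D, XI Y' Th' w' D'])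
    (h0 : Cok0 Y Y' Th Th' w w') {z : Fin e → k} {s s' : Fin u → k} {t t' : Fin p → k}
    (hz : Om Y Y' w w' *ᵥ z = 0)
    (hl : Sum.elim (Sum.elim s s') (Sum.elim t t') ᵥ* Om Y Y' w w' = 0) :
    (∃ (Y1 Y1' : Matrix (Fin e ⊕ Fin u) (Fin e ⊕ Fin u) k)
      (Th1 Th1' : Matrix (Fin e ⊕ Fin u) (Fin p) k) (w1 w1' : Matrix (Fin p) (Fin e) k),
      MaxR ρ ![JX k e u p, XI Y1 Th1 w1 D, XI Y1' Th1' w1' D'] ∧
        (Om Y Y' w w').rank < (Om Y1 Y1' w1 w1').rank) ∨
      Obs Y Y' Th Th' w w' z s s' t t' := by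
  classical
  set x₀ : PI e u p → k := mk Y Y' Th Th' w w' with hx₀
  set lam : (Fin u ⊕ Fin u) ⊕ (Fin p ⊕ Fin p) → k :=
    Sum.elim (Sum.elim s s') (Sum.elim t t') with hlam
  have hrel : Rl x₀ = 0 := sub_eq_zero.2 (MaxR.relI hT)
  have hO : Og x₀ = Om Y Y' w w' := rfl
  -- the differential is onto
  have hsurj : Function.Surjective (Lm x₀) := by
    rw [← LinearMap.dualMap_injective_iff, injective_iff_map_eq_zero]
    intro φ hφ
    obtain ⟨Z, hZ⟩ := exists_trace φ
    have h1 : ∀ v, trace (Z * Ld x₀ v) =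
        Sum.elim (Sum.elim s s') (Sum.elim t t') ⬝ᵥ (Og v *ᵥ (0 : Fin e → k)) := by
      intro v
      rw [Matrix.mulVec_zero, dotProduct_zero, ← hZ]
      exact LinearMap.congr_fun hφ v
    obtain ⟨e1, e2, e3, e4, e5, e6⟩ := parts Z h1
    rw [Matrix.mulVec_zero, zero_vecMulVec, sub_eq_zero] at e1 e2
    rw [zero_vecMulVec] at e5 e6
    rw [neg_zero] at e6
    have h2 := h0 Z e2 e1.symm e5 e6 e3 e4
    ext X
    rw [hZ, h2, Matrix.zero_mul, trace_zero]
    rfl
  by_cases hker : ∀ v, Ld x₀ v = 0 → lam ⬝ᵥ (Og v *ᵥ z) = 0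
  · -- the functional factors through the differential
    right
    let l : Module.Dual k (PI e u p → k) :=
      { toFun := fun v => lam ⬝ᵥ (Og v *ᵥ z)
        map_add' := fun v v' => by rw [Og_add, Matrix.add_mulVec, dotProduct_add]
        map_smul' := fun a v => by
          rw [Og_smul, Matrix.smul_mulVec, dotProduct_smul, RingHom.id_apply] }
    have h1 : l ∈ LinearMap.range (Lm x₀).dualMap := by
      rw [LinearMap.range_dualMap_eq_dualAnnihilator_ker, Submodule.mem_dualAnnihilator]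
      intro v hv
      exact hker v hv
    obtain ⟨φ, hφ⟩ := h1
    obtain ⟨Z, hZ⟩ := exists_trace φ
    refine ⟨Z, parts Z fun v => ?_⟩
    rw [← hZ]
    exact LinearMap.congr_fun hφ v
  · left
    push Not at hker
    obtain ⟨v, hv, hlv⟩ := hker
    obtain ⟨f, g, hfg⟩ := exists_minor (Og x₀)
    set P : Matrix (Fin (Og x₀).rank ⊕ Unit) ((Fin u ⊕ Fin u) ⊕ (Fin p ⊕ Fin p)) k :=
      fromRows ((1 : Matrix ((Fin u ⊕ Fin u) ⊕ (Fin p ⊕ Fin p))
        ((Fin u ⊕ Fin u) ⊕ (Fin p ⊕ Fin p)) k).submatrix f id) (replicateRow Unit lam) with hP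
    set Q : Matrix (Fin e) (Fin (Og x₀).rank ⊕ Unit) k :=
      fromCols ((1 : Matrix (Fin e) (Fin e) k).submatrix id g) (replicateCol Unit z) with hQ
    have hB : ∀ x : PI e u p → k, P * Og x * Q = fromBlocks ((Og x).submatrix f g)
        (replicateCol Unit ((Og x *ᵥ z) ∘ f)) (replicateRow Unit ((lam ᵥ* Og x) ∘ g))
        (Matrix.of fun _ _ => lam ⬝ᵥ (Og x *ᵥ z)) := by
      intro x
      rw [hP, hQ, fromRows_mul, fromRows_mul_fromCols]
      congr 1
      · ext i j
        simp [Matrix.mul_apply, Matrix.one_apply]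
      · ext i j
        simp [Matrix.mul_apply, Matrix.one_apply, Matrix.mulVec, dotProduct]
      · ext i j
        simp [Matrix.mul_apply, Matrix.one_apply, Matrix.vecMul, dotProduct]
      · ext i j
        rw [Matrix.mul_assoc]
        simp [Matrix.mul_apply, Matrix.mulVec, dotProduct]
    set B : (PI e u p → k) → Matrix (Fin (Og x₀).rank ⊕ Unit) (Fin (Og x₀).rank ⊕ Unit) k :=
      fun x => P * Og x * Q with hBdef
    have hBp : ∀ i j, D13.MP fun x => B x i j := by
      intro i j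
      exact mp_mul (M := fun x => P * Og x) (N := fun _ => Q)
        (mp_mul (M := fun _ => P) (fun _ _ => D13.MP.const _) mp_Og)
        (fun _ _ => D13.MP.const _) i j
    have hB0 : B x₀ = fromBlocks ((Og x₀).submatrix f g) 0 0 0 := by
      rw [hBdef]
      simp only [hB]
      have hz' : Og x₀ *ᵥ z = 0 := hz
      have hl' : lam ᵥ* Og x₀ = 0 := hl
      rw [hz', hl', dotProduct_zero]
      rfl
    have hBl : ∀ s : k, B (x₀ + s • v) = B x₀ + s • B v := by
      intro s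
      simp only [hBdef, Og_add, Og_smul, Matrix.mul_add, Matrix.add_mul, Matrix.mul_smul,
        Matrix.smul_mul]
    have hB22 : B v (.inr ()) (.inr ()) = lam ⬝ᵥ (Og v *ᵥ z) := by
      rw [hBdef]
      simp only [hB]
      rfl
    obtain ⟨R, hR, hdet⟩ := det_border (B x₀) (B v) (by rw [hB0]; rfl) (by rw [hB0]; rfl)
      (by rw [hB0]; rfl)
    have hD : D13.HasD (fun x => (B x).det) x₀ v
        (((Og x₀).submatrix f g).det * (lam ⬝ᵥ (Og v *ᵥ z))) := by
      refine ⟨R, hR, fun s => ?_⟩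
      show (B (x₀ + s • v)).det = (B x₀).det + _ + _
      rw [hBl, hdet, hB22, hB0]
      rw [det_fromBlocks_zero₂₁]
      have : (0 : Matrix Unit Unit k).det = 0 := by rw [det_unique]; rfl
      rw [this, mul_zero, zero_add]
      rfl
    obtain ⟨x, hx1, -, hx2, hx3⟩ := D13.smooth' (κ := (Fin e ⊕ Fin u) × Fin e) (μ := Unit)
      (cI D D') (mp_cI D D') (fun a x => Rl x a.1 a.2) (fun a => mp_Rl a.1 a.2)
      (fun _ => 1) (D13.MP.const 1)
      (fun x hx _ => cn_cI D D' x (by ext i j; exact hx (i, j))) (x₀ := x₀)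
      (fun a => by rw [hrel]; rfl) one_ne_zero hT
      (fun a => by
        obtain ⟨r, hr⟩ := hsurj (Matrix.single a.1 a.2 1)
        refine ⟨r, fun b => ?_⟩
        have h1 := hasD_Rl x₀ r b.1 b.2
        have h2 : Ld x₀ r b.1 b.2 = if b = a then 1 else 0 := by
          have : Ld x₀ r = Matrix.single a.1 a.2 1 := hr
          rw [this, Matrix.single_apply]
          refine if_congr ?_ rfl rfl
          constructor
          · rintro ⟨h1, h2⟩
            exact Prod.ext h1.symm h2.symm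
          · rintro rfl
            exact ⟨rfl, rfl⟩
        rwa [h2] at h1)
      v (fun a => by
        have h1 := hasD_Rl x₀ v a.1 a.2
        rwa [hv] at h1)
      (fun _ x => (B x).det) (fun _ => D13.MP.det hBp)
      (fun _ => by
        show (B x₀).det = 0
        rw [hB0, det_fromBlocks_zero₂₁]
        have : (0 : Matrix Unit Unit k).det = 0 := by rw [det_unique]; rfl
        rw [this, mul_zero])
      _ (fun _ => hD) (fun _ => mul_ne_zero hfg hlv)
    refine ⟨gY x, gY' x, gT x, gT' x, gw x, gw' x, hx3, ?_⟩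
    have h1 : (B x).rank = (Og x₀).rank + 1 := by
      rw [rank_of_isUnit _ ((Matrix.isUnit_iff_isUnit_det _).2 (isUnit_iff_ne_zero.2 (hx2 ()))),
        Fintype.card_sum, Fintype.card_fin, Fintype.card_unit]
    have h2 : (B x).rank ≤ (Og x).rank :=
      (rank_mul_le_left _ _).trans (rank_mul_le_right _ _)
    show (Og x₀).rank < (Og x).rank
    omega

end Pool.Agent.Lib.D12
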