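import Pool.Agent.Lib.D9.BlkShape
import Pool.Agent.Lib.D12.Quad
import Pool.Agent.Lib.D12.RaiseK
import Pool.Agent.Lib.D12.Cl353
import Pool.Agent.Lib.D12.Cl363

/-!
Module T333p. Types (3,3,3,1,1) and (3,3,3,1,1,1).
PROOF. shapeX: `T = (A, BX N M 0 0 w 0 0 0 0 th 0, BX N' M' 0 0 w' 0 0 0 0 th' 0)` (the blocks with `u = 0` are empty: Subsingleton.elim);
relation `N N' + th w' = N' N + th' w`, i.e. `N N' - N' N = Ψ W` with `G = Fin p ⊕ Fin p`, `Ψ = fromCols th' (-th)`, `W = fromRows w w'`.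
`B N N' Ψ W := ∃ M M', MaxR ρ ![JX k 3 0 p, BX N M 0 0 W.toRows₁ 0 0 0 0 (-Ψ.toCols₂) 0, BX N' M' 0 0 W.toRows₂ 0 0 0 0 Ψ.toCols₁ 0]` is an OpenQuad:
rel: BX_comm (relation 2); line: MaxR.deform along the line (CN by cnX: only relation 2); lin: MaxR.lin with `y = w = 0`: the new `W` is `Γ W`,
`Γ = fromBlocks (a • 1) (b • 1) (c • 1) (d • 1)`, the new `Ψ` is `Ψ Γ'`, `Γ' = fromBlocks (d • 1) (-b • 1) (-c • 1) (a • 1)`
(new `th = a th + b th'`, new `th' = c th + d th'`; `Ψ Γ' = (d th' + c th, - b th' - a th)`), `Γ' Γ = (a d - b c) • 1`.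
p = 3: quad_big (`2 * 3 ≤ 6`) gives a member with `W` injective: Cl by cl_363, contradiction to MaxR.ncl.
p = 2: hW: a member with `W` injective is Cl by cl_353. hΨ: if `Ψ` is surjective (no `ζ ≠ 0` with `ζ Ψ = 0`) apply cl_353 to the dual triple
(MaxR.dualX: `(A, BX Nᵀ Mᵀ 0 0 thᵀ 0 0 0 0 wᵀ 0, BX N'ᵀ ..)`, `thᵀ z = 0`, `th'ᵀ z = 0` => `z = 0`). quad_four gives `z, ζ`: if `ζ(z) = 0`:
no_K1 with `K = z ζ` (vecMulVec z ζ) (u = 0: a, b empty). If `ζ(z) ≠ 0`, scale `ζ`: no_F (`W z = 0` means `w z = w' z = 0`, `ζ Ψ = 0` means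
`ζ th = ζ th' = 0`). `ρ 3 = 0` from JX_cube.
-/

set_option autoImplicit false

namespace Pool.Agent.Lib.D12

open Matrix Pool.Agent.Lib.Q5dc Pool.Agent.Lib.D7 Pool.Agent.Lib.D9

namespace T333pAux

variable {k : Type*} [Field k] {e p : ℕ} {ρ : ℕ → ℕ}

/-- the matrices commuting with `A`, type `(3^e, 1^p)` -/
def XP (N M : Matrix (Fin e) (Fin e) k) (w : Matrix (Fin p) (Fin e) k)
    (th : Matrix (Fin e) (Fin p) k) : Matrix (Ix e 0 p) (Ix e 0 p) k :=
  BX N M 0 0 w 0 0 0 0 th 0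

theorem JX_eq : JX k e 0 p = XP 1 0 0 0 := by
  rw [JX, XP]
  congr 1
  exact Subsingleton.elim _ _

theorem XP_mul (N M N' M' : Matrix (Fin e) (Fin e) k) (w w' : Matrix (Fin p) (Fin e) k)
    (th th' : Matrix (Fin e) (Fin p) k) :
    XP N M w th * XP N' M' w' th' = XP 0 (N * N' + th * w') 0 0 := by
  rw [XP, XP, XP, BX_mul]
  simp

theorem XP_add (N M N' M' : Matrix (Fin e) (Fin e) k) (w w' : Matrix (Fin p) (Fin e) k)
    (th th' : Matrix (Fin e) (Fin p) k) :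
    XP N M w th + XP N' M' w' th' = XP (N + N') (M + M') (w + w') (th + th') := by
  rw [XP, XP, XP, BX_add]
  simp

theorem XP_smul (s : k) (N M : Matrix (Fin e) (Fin e) k) (w : Matrix (Fin p) (Fin e) k)
    (th : Matrix (Fin e) (Fin p) k) :
    s • XP N M w th = XP (s • N) (s • M) (s • w) (s • th) := by
  rw [XP, XP, BX_smul]
  simp

theorem XP_inj {N M N' M' : Matrix (Fin e) (Fin e) k} {w w' : Matrix (Fin p) (Fin e) k}
    {th th' : Matrix (Fin e) (Fin p) k} (h : XP N M w th = XP N' M' w' th') :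
    N = N' ∧ M = M' := by
  rw [XP, XP, BX_inj] at h
  exact ⟨h.1, h.2.1⟩

theorem cn (N M N' M' : Matrix (Fin e) (Fin e) k) (w w' : Matrix (Fin p) (Fin e) k)
    (th th' : Matrix (Fin e) (Fin p) k) (h : N * N' + th * w' = N' * N + th' * w) :
    CN ![JX k e 0 p, XP N M w th, XP N' M' w' th'] := by
  rw [XP, XP]
  exact cnX _ _ _ _ _ _ _ _ _ _ _ _ _ _ _ _ _ _ _ _ _ _ (by simp) (by simpa using h) (by simp)
    (by simp) (by simp) (by simp) (by simp)

theorem comm_of {N M N' M' : Matrix (Fin e) (Fin e) k} {w w' : Matrix (Fin p) (Fin e) k}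
    {th th' : Matrix (Fin e) (Fin p) k}
    (h : MaxR ρ ![JX k e 0 p, XP N M w th, XP N' M' w' th']) :
    N * N' + th * w' = N' * N + th' * w := by
  have h1 : XP N M w th * XP N' M' w' th' = XP N' M' w' th' * XP N M w th := h.cn.1 1 2
  rw [XP_mul, XP_mul] at h1
  exact (XP_inj h1).2

/-- the quadruples of maximal triples -/
def Qr (ρ : ℕ → ℕ) (N N' : Matrix (Fin e) (Fin e) k) (Ψ : Matrix (Fin e) (Fin p ⊕ Fin p) k)
    (W : Matrix (Fin p ⊕ Fin p) (Fin e) k) : Prop :=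
  ∃ M M', MaxR ρ ![JX k e 0 p, XP N M W.toRows₁ (-Ψ.toCols₂), XP N' M' W.toRows₂ Ψ.toCols₁]

theorem mul_split (Ψ : Matrix (Fin e) (Fin p ⊕ Fin p) k) (W : Matrix (Fin p ⊕ Fin p) (Fin e) k) :
    Ψ * W = Ψ.toCols₁ * W.toRows₁ + Ψ.toCols₂ * W.toRows₂ := by
  conv_lhs => rw [← fromCols_toCols Ψ, ← fromRows_toRows W]
  rw [fromCols_mul_fromRows]

theorem rel_iff (N N' : Matrix (Fin e) (Fin e) k) (Ψ : Matrix (Fin e) (Fin p ⊕ Fin p) k)
    (W : Matrix (Fin p ⊕ Fin p) (Fin e) k) :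
    N * N' - N' * N = Ψ * W ↔
      N * N' + -Ψ.toCols₂ * W.toRows₂ = N' * N + Ψ.toCols₁ * W.toRows₁ := by
  rw [mul_split, sub_eq_iff_eq_add, Matrix.neg_mul, ← sub_eq_add_neg, sub_eq_iff_eq_add]
  constructor
  · intro h
    rw [h]
    abel
  · intro h
    rw [h]
    abel

theorem dualP {N M N' M' : Matrix (Fin e) (Fin e) k} {w w' : Matrix (Fin p) (Fin e) k}
    {th th' : Matrix (Fin e) (Fin p) k}
    (h : MaxR ρ ![JX k e 0 p, XP N M w th, XP N' M' w' th']) :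
    MaxR ρ ![JX k e 0 p, XP Nᵀ Mᵀ thᵀ wᵀ, XP N'ᵀ M'ᵀ th'ᵀ w'ᵀ] := by
  have h1 := MaxR.dualX (h : MaxR ρ ![JX k e 0 p, BX N M 0 0 w 0 0 0 0 th 0,
    BX N' M' 0 0 w' 0 0 0 0 th' 0])
  simp only [Matrix.transpose_zero] at h1
  exact h1

theorem smul_one_mul' (c : k) (X : Matrix (Fin p) (Fin e) k) :
    (c • (1 : Matrix (Fin p) (Fin p) k)) * X = c • X := by
  rw [Matrix.smul_mul, Matrix.one_mul]

theorem mul_smul_one' (c : k) (X : Matrix (Fin e) (Fin p) k) :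
    X * (c • (1 : Matrix (Fin p) (Fin p) k)) = c • X := by
  rw [Matrix.mul_smul, Matrix.mul_one]

theorem openQuad [Infinite k] : OpenQuad (Qr (k := k) (e := e) (p := p) ρ) where
  rel := by
    rintro N N' Ψ W ⟨M, M', h⟩
    exact (rel_iff N N' Ψ W).2 (comm_of h)
  line := by
    rintro N N' Ψ W n n' ψ ω hc ⟨M, M', h⟩
    have e1 : ∀ s : k, (![JX k e 0 p, XP N M W.toRows₁ (-Ψ.toCols₂),
        XP N' M' W.toRows₂ Ψ.toCols₁] : Fin 3 → Matrix (Ix e 0 p) (Ix e 0 p) k) +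
        s • ![0, XP n 0 ω.toRows₁ (-ψ.toCols₂), XP n' 0 ω.toRows₂ ψ.toCols₁] =
        ![JX k e 0 p, XP (N + s • n) M (W + s • ω).toRows₁ (-(Ψ + s • ψ).toCols₂),
          XP (N' + s • n') M' (W + s • ω).toRows₂ (Ψ + s • ψ).toCols₁] := by
      intro s
      have a1 : (W + s • ω).toRows₁ = W.toRows₁ + s • ω.toRows₁ := rfl
      have a2 : (W + s • ω).toRows₂ = W.toRows₂ + s • ω.toRows₂ := rfl
      have a3 : (Ψ + s • ψ).toCols₁ = Ψ.toCols₁ + s • ψ.toCols₁ := rfl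
      have a4 : -(Ψ + s • ψ).toCols₂ = -Ψ.toCols₂ + s • -ψ.toCols₂ := by
        have : (Ψ + s • ψ).toCols₂ = Ψ.toCols₂ + s • ψ.toCols₂ := rfl
        rw [this, smul_neg]
        abel
      rw [D8.line3_eq, XP_smul, XP_smul, XP_add, XP_add, a1, a2, a3, a4]
      simp
    obtain ⟨E', hE', h1⟩ := h.deform (fun s => (![JX k e 0 p, XP N M W.toRows₁ (-Ψ.toCols₂),
        XP N' M' W.toRows₂ Ψ.toCols₁] : Fin 3 → Matrix (Ix e 0 p) (Ix e 0 p) k) +
        s • ![0, XP n 0 ω.toRows₁ (-ψ.toCols₂), XP n' 0 ω.toRows₂ ψ.toCols₁])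
      (PolyFam.line _ _) (by simp) Set.finite_empty (fun s _ => by
        show CN (_ + s • _)
        rw [e1]
        exact cn _ _ _ _ _ _ _ _ ((rel_iff _ _ _ _).1 (hc s)))
    refine hE'.subset fun s hs => ?_
    by_contra hne
    refine hs ⟨M, M', ?_⟩
    have h2 := h1 s hne
    rw [← e1]
    exact h2
  lin := by
    rintro N N' Ψ W a b c d x z hdet ⟨M, M', h⟩
    let I : Matrix (Fin p) (Fin p) k := 1
    refine ⟨fromBlocks (a • I) (b • I) (c • I) (d • I),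
      fromBlocks (d • I) ((-b) • I) ((-c) • I) (a • I), ?_, a • M + b • M', c • M + d • M', ?_⟩
    · show fromBlocks (d • (1 : Matrix (Fin p) (Fin p) k)) ((-b) • 1) ((-c) • 1) (a • 1) *
        fromBlocks (a • 1) (b • 1) (c • 1) (d • 1) = _
      rw [fromBlocks_multiply, ← fromBlocks_one, fromBlocks_smul]
      simp only [Matrix.smul_mul, Matrix.one_mul, smul_smul, ← add_smul]
      congr 1
      · congr 1
        ring
      · rw [smul_zero]
        have : d * b + -b * d = 0 := by ring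
        rw [this, zero_smul]
      · rw [smul_zero]
        have : -c * a + a * c = 0 := by ring
        rw [this, zero_smul]
      · congr 1
        ring
    · have h1 := D8.MaxR.lin h a b c d x 0 z 0 hdet
      rw [zero_smul, add_zero, add_zero, JX_eq] at h1
      rw [JX_eq]
      simp only [XP_smul, XP_add] at h1
      have w1 : (fromBlocks (a • I) (b • I) (c • I) (d • I) * W).toRows₁ =
          a • W.toRows₁ + b • W.toRows₂ := by
        conv_lhs => rw [← fromRows_toRows W, fromBlocks_mul_fromRows, toRows₁_fromRows,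
          smul_one_mul', smul_one_mul']
      have w2 : (fromBlocks (a • I) (b • I) (c • I) (d • I) * W).toRows₂ =
          c • W.toRows₁ + d • W.toRows₂ := by
        conv_lhs => rw [← fromRows_toRows W, fromBlocks_mul_fromRows, toRows₂_fromRows,
          smul_one_mul', smul_one_mul']
      have t1 : (Ψ * fromBlocks (d • I) ((-b) • I) ((-c) • I) (a • I)).toCols₁ =
          d • Ψ.toCols₁ + (-c) • Ψ.toCols₂ := by
        conv_lhs => rw [← fromCols_toCols Ψ, fromCols_mul_fromBlocks, toCols₁_fromCols,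
          mul_smul_one', mul_smul_one']
      have t2 : (Ψ * fromBlocks (d • I) ((-b) • I) ((-c) • I) (a • I)).toCols₂ =
          (-b) • Ψ.toCols₁ + a • Ψ.toCols₂ := by
        conv_lhs => rw [← fromCols_toCols Ψ, fromCols_mul_fromBlocks, toCols₂_fromCols,
          mul_smul_one', mul_smul_one']
      rw [w1, w2, t1, t2]
      have f1 : -((-b) • Ψ.toCols₁ + a • Ψ.toCols₂) = a • -Ψ.toCols₂ + b • Ψ.toCols₁ := by module
      have f2 : d • Ψ.toCols₁ + (-c) • Ψ.toCols₂ = c • -Ψ.toCols₂ + d • Ψ.toCols₁ := by module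
      rw [f1, f2]
      simpa only [smul_zero, add_zero] using h1

theorem shapeP [CharZero k] {T : Fin 3 → Matrix (Ix e 0 p) (Ix e 0 p) k} (hT : MaxR ρ T)
    (hρ : ∀ i, ρ i = (JX k e 0 p ^ i).rank) (h0 : T 0 = JX k e 0 p) :
    ∃ (N M : Matrix (Fin e) (Fin e) k) (w : Matrix (Fin p) (Fin e) k)
      (th : Matrix (Fin e) (Fin p) k) (N' M' : Matrix (Fin e) (Fin e) k)
      (w' : Matrix (Fin p) (Fin e) k) (th' : Matrix (Fin e) (Fin p) k),
      MaxR ρ ![JX k e 0 p, XP N M w th, XP N' M' w' th'] := by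
  obtain ⟨N, M, a, c, w, b, d, nu, pi, th, et, N', M', a', c', w', b', d', nu', pi', th', et',
    hX⟩ := shapeX hT hρ h0
  refine ⟨N, M, w, th, N', M', w', th', ?_⟩
  have e1 : ∀ x y : Matrix (Fin 0) (Fin e) k, x = y := fun x y => Subsingleton.elim x y
  have e2 : ∀ x y : Matrix (Fin e) (Fin 0) k, x = y := fun x y => Subsingleton.elim x y
  have e3 : ∀ x y : Matrix (Fin 0) (Fin 0) k, x = y := fun x y => Subsingleton.elim x y
  have e4 : ∀ x y : Matrix (Fin p) (Fin 0) k, x = y := fun x y => Subsingleton.elim x y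
  have e5 : ∀ x y : Matrix (Fin 0) (Fin p) k, x = y := fun x y => Subsingleton.elim x y
  rw [e1 a 0, e1 c 0, e2 b 0, e2 d 0, e3 nu 0, e4 pi 0, e5 et 0, e1 a' 0,
    e1 c' 0, e2 b' 0, e2 d' 0, e3 nu' 0, e4 pi' 0, e5 et' 0] at hX
  exact hX

theorem toQr {N M N' M' : Matrix (Fin e) (Fin e) k} {w w' : Matrix (Fin p) (Fin e) k}
    {th th' : Matrix (Fin e) (Fin p) k}
    (h : MaxR ρ ![JX k e 0 p, XP N M w th, XP N' M' w' th']) :
    Qr ρ N N' (fromCols th' (-th)) (fromRows w w') := by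
  refine ⟨M, M', ?_⟩
  rw [toRows₁_fromRows, toRows₂_fromRows, toCols₁_fromCols, toCols₂_fromCols, neg_neg]
  exact h

theorem W_mulVec {W : Matrix (Fin p ⊕ Fin p) (Fin e) k} {z : Fin e → k}
    (h1 : W.toRows₁ *ᵥ z = 0) (h2 : W.toRows₂ *ᵥ z = 0) : W *ᵥ z = 0 := by
  funext i
  rcases i with i | i
  · exact congrFun h1 i
  · exact congrFun h2 i

theorem vecMul_Ψ {Ψ : Matrix (Fin e) (Fin p ⊕ Fin p) k} {ζ : Fin e → k}
    (h1 : ζ ᵥ* Ψ.toCols₁ = 0) (h2 : ζ ᵥ* Ψ.toCols₂ = 0) : ζ ᵥ* Ψ = 0 := by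
  funext i
  rcases i with i | i
  · exact congrFun h1 i
  · exact congrFun h2 i

end T333pAux

open T333pAux

theorem no_33311 {k : Type*} [Field k] [IsAlgClosed k] [CharZero k] {ρ : ℕ → ℕ}
    {T : Fin 3 → Matrix (Ix 3 0 2) (Ix 3 0 2) k} (hT : MaxR ρ T)
    (hρ : ∀ i, ρ i = (JX k 3 0 2 ^ i).rank) (h0 : T 0 = JX k 3 0 2) : False := by
  have hinf : Infinite k := IsAlgClosed.instInfinite
  have h3 : ρ 3 = 0 := by
    rw [hρ, JX_cube, Matrix.rank_zero]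
  obtain ⟨N₀, M₀, w₀, th₀, N₀', M₀', w₀', th₀', hX⟩ := shapeP hT hρ h0
  have hB := toQr hX
  obtain ⟨N, N', Ψ, W, z, ζ, ⟨M, M', h⟩, hz, hζ, hNz, hNz', hWz, hζN, hζN', hζΨ⟩ :=
    quad_four (by simp) (openQuad (k := k) (e := 3) (p := 2) (ρ := ρ)) (by
      rintro N N' Ψ W ⟨M, M', h⟩
      by_contra hc
      push Not at hc
      refine h.ncl (cl_353 (comm_of h) fun z h1 h2 => ?_)
      by_contra hz
      exact hc z hz (W_mulVec h1 h2)) (by
      rintro N N' Ψ W ⟨M, M', h⟩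
      by_contra hc
      push Not at hc
      refine (dualP h).ncl (cl_353 (comm_of (dualP h)) fun ζ h1 h2 => ?_)
      by_contra hz
      refine hc ζ hz (vecMul_Ψ ?_ ?_)
      · rwa [← mulVec_transpose]
      · rw [transpose_neg, neg_mulVec, neg_eq_zero] at h1
        rwa [← mulVec_transpose]) hB
  have hw : W.toRows₁ *ᵥ z = 0 := funext fun i => congrFun hWz (.inl i)
  have hw' : W.toRows₂ *ᵥ z = 0 := funext fun i => congrFun hWz (.inr i)
  have hth' : ζ ᵥ* Ψ.toCols₁ = 0 := funext fun i => congrFun hζΨ (.inl i)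
  have hth : ζ ᵥ* (-Ψ.toCols₂) = 0 := by
    rw [vecMul_neg, neg_eq_zero]
    exact funext fun i => congrFun hζΨ (.inr i)
  by_cases h1 : ζ ⬝ᵥ z = 0
  · refine no_K1 (K := vecMulVec z ζ) h3 ?_ ?_ ?_ ?_ ?_ ?_ ?_ ?_ ?_ ?_ h
    · rw [mul_vecMulVec, hNz, zero_vecMulVec]
    · exact Subsingleton.elim _ _
    · rw [vecMulVec_mul, hζN, vecMulVec_zero]
    · exact Subsingleton.elim _ _
    · rw [mul_vecMulVec, hNz', zero_vecMulVec]
    · exact Subsingleton.elim _ _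
    · rw [vecMulVec_mul, hζN', vecMulVec_zero]
    · exact Subsingleton.elim _ _
    · rw [vecMulVec_mul_vecMulVec, h1, zero_smul, vecMulVec_zero]
    · intro h0
      obtain ⟨i, hi⟩ := Function.ne_iff.1 hz
      obtain ⟨j, hj⟩ := Function.ne_iff.1 hζ
      have h4 := congrFun (congrFun h0 i) j
      rw [vecMulVec_apply] at h4
      exact (mul_ne_zero hi hj) h4
  · have hs : ∀ {m : Type} (X : Matrix (Fin 3) m k), ζ ᵥ* X = 0 →
        ((ζ ⬝ᵥ z)⁻¹ • ζ) ᵥ* X = 0 := by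
      intro m X hX
      rw [smul_vecMul, hX, smul_zero]
    refine no_F (ζ := (ζ ⬝ᵥ z)⁻¹ • ζ) h3 (by norm_num) hNz hNz' hw hw' (hs _ hζN) (hs _ hζN')
      (hs _ hth) (hs _ hth') ?_ h
    rw [smul_dotProduct, smul_eq_mul, inv_mul_cancel₀ h1]

theorem no_333111 {k : Type*} [Field k] [IsAlgClosed k] [CharZero k] {ρ : ℕ → ℕ}
    {T : Fin 3 → Matrix (Ix 3 0 3) (Ix 3 0 3) k} (hT : MaxR ρ T)
    (hρ : ∀ i, ρ i = (JX k 3 0 3 ^ i).rank) (h0 : T 0 = JX k 3 0 3) : False := by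
  have hinf : Infinite k := IsAlgClosed.instInfinite
  obtain ⟨N₀, M₀, w₀, th₀, N₀', M₀', w₀', th₀', hX⟩ := shapeP hT hρ h0
  obtain ⟨N, N', Ψ, W, ⟨M, M', h⟩, hinj⟩ :=
    quad_big (by simp) (openQuad (k := k) (e := 3) (p := 3) (ρ := ρ)) (toQr hX)
  refine h.ncl (cl_363 (comm_of h) fun z h1 h2 => hinj z (W_mulVec h1 h2))

end Pool.Agent.Lib.D12
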