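import Pool.Agent.Lib.D9.BlkShape
import Pool.Agent.Lib.D12.PairD
import Pool.Agent.Lib.D12.SplitF

/-!
Module T3e. Type `(3^e)`, `e ≥ 2`, all `e` at once.
PROOF. (0) conjU: conjugation by `U = 1 + BX L 0 ..` (inverse `1 - BX L 0 .. + BX 0 (L * L) ..`):
`U X U⁻¹ = X + (S X - X S)`, `S = BX L 0 ..`, because `S X - X S = BX 0 (L N - N L) 0 (- a L) 0 0 (L b) 0 0 0 0`
and (this) * S = 0 for `u = 0` (in general state it for u = p = 0 only).
(1) shapeX: `T = (A, BX N M 0 .., BX N' M' 0 ..)` (the other blocks are empty, Subsingleton).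
`B N N' := ∃ M M', MaxR ρ ![JX, BX N M .., BX N' M' ..]` is an OpenPair: comm from BX_comm (relation 2),
deform from MaxR.deform with `M`, `M'` constant, conj from MaxR.conjX.
(2) exists_diag: WLOG `N = diagonal d`, `N' = diagonal d'`, `d'` injective. `c := 0 : Fin e`. MaxR.lin
(subtract `d c • A` and `d' c • A`): `d c = d' c = 0`, `d' i ≠ 0` for `i ≠ c`.
`F = diagonal (1 at c, 0 elsewhere)`, `G = diagonal (0 at c, (d' i)⁻¹ elsewhere)`: `N F = F N = N' F = F N' = 0`,
`G F = F G = 0`, `G N' = N' G = 1 - F`.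
(3) conjU with `L = G M' F - F M' G`: `M'' = M' + L N' - N' L` satisfies `F M'' = M'' F = F M' F = m' F`
with the scalar `m' = M' c c`. MaxR.lin (subtract `m' • A²`, `A² = BX 0 1 ..`): `F M' = M' F = 0`; subtract
`m • A²` from `X`: `F M F = 0`.
(4) MaxR.line2: `M -> M + s E`, `E` = the matrix with one entry 1 at `(j, c)`, `j ≠ c` (e ≥ 2): all these are CN
(only `N N' = N' N` is needed: cnX); `F E F = 0`, `E F + F E = E ≠ 0`: for some `s`
`M F + F M ≠ 0`. no_splitF.
-/

set_option autoImplicit false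

namespace Pool.Agent.Lib.D12

open Matrix Pool.Agent.Lib.Q5dc Pool.Agent.Lib.D7 Pool.Agent.Lib.D9

namespace T3eAux

variable {k : Type*} [Field k] {e : ℕ} {ρ : ℕ → ℕ}

/-- the matrices commuting with `A`, type `(3^e)` -/
def X3 (N M : Matrix (Fin e) (Fin e) k) : Matrix (Ix e 0 0) (Ix e 0 0) k :=
  BX N M 0 0 0 0 0 0 0 0 0

theorem JX_eq : JX k e 0 0 = X3 1 0 := by
  rw [JX, X3]
  congr 1
  exact Subsingleton.elim _ _

theorem X3_mul (N M N' M' : Matrix (Fin e) (Fin e) k) : X3 N M * X3 N' M' = X3 0 (N * N') := by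
  rw [X3, X3, X3, BX_mul]
  simp

theorem X3_add (N M N' M' : Matrix (Fin e) (Fin e) k) :
    X3 N M + X3 N' M' = X3 (N + N') (M + M') := by
  rw [X3, X3, X3, BX_add]
  simp

theorem X3_smul (s : k) (N M : Matrix (Fin e) (Fin e) k) :
    s • X3 N M = X3 (s • N) (s • M) := by
  rw [X3, X3, BX_smul]
  simp

theorem X3_zero : (X3 0 0 : Matrix (Ix e 0 0) (Ix e 0 0) k) = 0 := by
  rw [X3, BX_zero]

theorem X3_neg (N M : Matrix (Fin e) (Fin e) k) : -X3 N M = X3 (-N) (-M) := by
  rw [neg_eq_iff_add_eq_zero, X3_add]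
  simp [X3_zero]

theorem X3_sub (N M N' M' : Matrix (Fin e) (Fin e) k) :
    X3 N M - X3 N' M' = X3 (N - N') (M - M') := by
  rw [sub_eq_add_neg, X3_neg, X3_add, sub_eq_add_neg, sub_eq_add_neg]

theorem X3_inj {N M N' M' : Matrix (Fin e) (Fin e) k} (h : X3 N M = X3 N' M') :
    N = N' ∧ M = M' := by
  rw [X3, X3, BX_inj] at h
  exact ⟨h.1, h.2.1⟩

theorem cn (N M N' M' : Matrix (Fin e) (Fin e) k) (h : N * N' = N' * N) :
    CN ![JX k e 0 0, X3 N M, X3 N' M'] := by
  rw [X3, X3]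
  exact cnX _ _ _ _ _ _ _ _ _ _ _ _ _ _ _ _ _ _ _ _ _ _ (by simp) (by simp [h]) (by simp)
    (by simp) (by simp) (by simp) (by simp)

theorem isPoly_X3 {N M : k → Matrix (Fin e) (Fin e) k} (hN : ∀ i j, IsPoly fun s => N s i j)
    (hM : ∀ i j, IsPoly fun s => M s i j) (x y : Ix e 0 0) :
    IsPoly fun s => X3 (N s) (M s) x y := by
  have h0 : IsPoly fun _ : k => (0 : k) := D7.IsPoly.const 0
  rcases x with (x | x | x) | ((x | x) | x) <;> rcases y with (y | y | y) | ((y | y) | y) <;>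
    first
      | exact h0
      | exact hN x y
      | exact hM x y

theorem comm_of {N M N' M' : Matrix (Fin e) (Fin e) k}
    (h : MaxR ρ ![JX k e 0 0, X3 N M, X3 N' M']) : N * N' = N' * N := by
  have h1 : X3 N M * X3 N' M' = X3 N' M' * X3 N M := h.cn.1 1 2
  rw [X3_mul, X3_mul] at h1
  exact (X3_inj h1).2

/-- conjugation by `1 + X3 L 0` -/
theorem conjU {N M N' M' : Matrix (Fin e) (Fin e) k}
    (h : MaxR ρ ![JX k e 0 0, X3 N M, X3 N' M']) (L : Matrix (Fin e) (Fin e) k) :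
    MaxR ρ ![JX k e 0 0, X3 N (M + (L * N - N * L)), X3 N' (M' + (L * N' - N' * L))] := by
  have e3 : X3 L 0 * X3 0 (L * L) = 0 := by rw [X3_mul, mul_zero, X3_zero]
  have e3' : X3 0 (L * L) * X3 L 0 = 0 := by rw [X3_mul, zero_mul, X3_zero]
  have e2 : X3 L 0 * X3 L 0 = X3 0 (L * L) := X3_mul _ _ _ _
  have u1 : (1 + X3 L 0) * (1 - X3 L 0 + X3 0 (L * L)) = 1 := by
    have : (1 + X3 L 0) * (1 - X3 L 0 + X3 0 (L * L)) =
        1 - X3 L 0 * X3 L 0 + X3 0 (L * L) + X3 L 0 * X3 0 (L * L) := by noncomm_ring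
    rw [this, e2, e3]
    abel
  have u2 : (1 - X3 L 0 + X3 0 (L * L)) * (1 + X3 L 0) = 1 := by
    have : (1 - X3 L 0 + X3 0 (L * L)) * (1 + X3 L 0) =
        1 - X3 L 0 * X3 L 0 + X3 0 (L * L) + X3 0 (L * L) * X3 L 0 := by noncomm_ring
    rw [this, e2, e3']
    abel
  have key : ∀ N M : Matrix (Fin e) (Fin e) k,
      (1 + X3 L 0) * X3 N M * (1 - X3 L 0 + X3 0 (L * L)) = X3 N (M + (L * N - N * L)) := by
    intro N M
    have h1 : (1 + X3 L 0) * X3 N M = X3 N (M + L * N) := by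
      rw [add_mul, one_mul, X3_mul, X3_add, add_zero]
    have h2 : X3 N (M + L * N) * (1 - X3 L 0 + X3 0 (L * L)) =
        X3 N (M + L * N) - X3 N (M + L * N) * X3 L 0 + X3 N (M + L * N) * X3 0 (L * L) := by
      noncomm_ring
    rw [h1, h2, X3_mul, X3_mul, mul_zero, X3_zero, add_zero, X3_sub, sub_zero, add_sub_assoc]
  have h1 := h.conj _ _ u1 u2
  have h2 : (fun i => (1 + X3 L 0) * (![JX k e 0 0, X3 N M, X3 N' M'] :
      Fin 3 → Matrix (Ix e 0 0) (Ix e 0 0) k) i * (1 - X3 L 0 + X3 0 (L * L))) =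
      ![JX k e 0 0, X3 N (M + (L * N - N * L)), X3 N' (M' + (L * N' - N' * L))] := by
    funext i
    fin_cases i
    · show (1 + X3 L 0) * JX k e 0 0 * (1 - X3 L 0 + X3 0 (L * L)) = JX k e 0 0
      rw [JX_eq, key]
      simp
    · exact key _ _
    · exact key _ _
  rwa [h2] at h1

/-- the pairs `(N, N')` of maximal triples -/
def Pr (ρ : ℕ → ℕ) (N N' : Matrix (Fin e) (Fin e) k) : Prop :=
  ∃ M M', MaxR ρ ![JX k e 0 0, X3 N M, X3 N' M']

theorem openPair [Infinite k] : OpenPair (Pr (k := k) (e := e) ρ) where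
  comm := by
    rintro N N' ⟨M, M', h⟩
    exact comm_of h
  deform := by
    rintro N N' hN hN' hc ⟨M, M', h⟩
    obtain ⟨E', hE', h1⟩ := h.deform (fun s => ![JX k e 0 0, X3 (N s) M, X3 (N' s) M']) (by
      intro i x y
      fin_cases i
      · exact D7.IsPoly.const _
      · exact isPoly_X3 (M := fun _ => M) hN (fun i j => D7.IsPoly.const (M i j)) x y
      · exact isPoly_X3 (M := fun _ => M') hN' (fun i j => D7.IsPoly.const (M' i j)) x y) rfl
      Set.finite_empty
      (fun s _ => cn _ _ _ _ (hc s))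
    refine hE'.subset fun s hs => ?_
    by_contra hne
    exact hs ⟨M, M', h1 s hne⟩
  conj := by
    rintro N N' g g' hg ⟨M, M', h⟩
    refine ⟨g * M * g', g * M' * g', ?_⟩
    have h1 := MaxR.conjX (g := g) (g' := g') (h := 1) (h' := 1) (l := 1) (l' := 1) h hg
      (one_mul 1) (one_mul 1)
    simpa [X3] using h1

theorem lin [Infinite k] {N M N' M' : Matrix (Fin e) (Fin e) k}
    (h : MaxR ρ ![JX k e 0 0, X3 N M, X3 N' M']) (x y z w : k) :
    MaxR ρ ![JX k e 0 0, X3 (N + x • 1) (M + y • 1), X3 (N' + z • 1) (M' + w • 1)] := by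
  have h1 := Pool.Agent.Lib.D8.MaxR.lin h 1 0 0 1 x y z w (by simp)
  have e1 : JX k e 0 0 * JX k e 0 0 = X3 0 1 := by
    rw [JX_eq, X3_mul, one_mul]
  rw [e1] at h1
  have e2 : (1 : k) • X3 N M + (0 : k) • X3 N' M' + x • JX k e 0 0 + y • X3 0 1 =
      X3 (N + x • 1) (M + y • 1) := by
    rw [JX_eq]
    simp [X3_smul, X3_add]
  have e3 : (0 : k) • X3 N M + (1 : k) • X3 N' M' + z • JX k e 0 0 + w • X3 0 1 =
      X3 (N' + z • 1) (M' + w • 1) := by
    rw [JX_eq]
    simp [X3_smul, X3_add]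
  rwa [e2, e3] at h1

end T3eAux

open T3eAux in
theorem no_3e {k : Type*} [Field k] [IsAlgClosed k] [CharZero k] {ρ : ℕ → ℕ} {e : ℕ} (he : 2 ≤ e)
    {T : Fin 3 → Matrix (Ix e 0 0) (Ix e 0 0) k} (hT : MaxR ρ T)
    (hρ : ∀ i, ρ i = (JX k e 0 0 ^ i).rank) (h0 : T 0 = JX k e 0 0) : False := by
  have hinf : Infinite k := IsAlgClosed.instInfinite
  have h3 : ρ 3 = 0 := by
    rw [hρ, JX_cube, Matrix.rank_zero]
  obtain ⟨N, M, a, c, w, b, d, nu, pi, th, et, N', M', a', c', w', b', d', nu', pi', th', et',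
    hX⟩ := shapeX hT hρ h0
  have hX1 : MaxR ρ ![JX k e 0 0, X3 N M, X3 N' M'] := by
    have e1 : ∀ x y : Matrix (Fin 0) (Fin e) k, x = y := fun x y => Subsingleton.elim x y
    have e2 : ∀ x y : Matrix (Fin e) (Fin 0) k, x = y := fun x y => Subsingleton.elim x y
    have e3 : ∀ x y : Matrix (Fin 0) (Fin 0) k, x = y := fun x y => Subsingleton.elim x y
    rw [e1 a 0, e1 c 0, e1 w 0, e2 b 0, e2 d 0, e3 nu 0, e3 pi 0, e2 th 0, e3 et 0, e1 a' 0,
      e1 c' 0, e1 w' 0, e2 b' 0, e2 d' 0, e3 nu' 0, e3 pi' 0, e2 th' 0, e3 et' 0] at hX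
    exact hX
  obtain ⟨dN, dN', hinj, M₁, M₁', h1⟩ := openPair.exists_diag (B := Pr ρ) ⟨M, M', hX1⟩
  clear hX hX1 hT h0
  set c₀ : Fin e := ⟨0, by omega⟩ with hc₀
  set j₀ : Fin e := ⟨1, by omega⟩ with hj₀
  have hjc : j₀ ≠ c₀ := by
    intro h
    have := congrArg Fin.val h
    simp [hj₀, hc₀] at this
  have h2 := lin h1 (-dN c₀) 0 (-dN' c₀) 0
  have eN : ∀ f : Fin e → k, diagonal f + (-f c₀) • (1 : Matrix (Fin e) (Fin e) k) =
      diagonal fun i => f i - f c₀ := by
    intro f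
    ext i j
    by_cases hij : i = j
    · subst hij
      simp [sub_eq_add_neg]
    · simp [hij]
  simp only [eN, zero_smul, add_zero] at h2
  set D : Matrix (Fin e) (Fin e) k := diagonal fun i => dN i - dN c₀ with hD
  set D' : Matrix (Fin e) (Fin e) k := diagonal fun i => dN' i - dN' c₀ with hD'
  set F : Matrix (Fin e) (Fin e) k := diagonal fun i => if i = c₀ then 1 else 0 with hF
  set G : Matrix (Fin e) (Fin e) k :=
    diagonal fun i => if i = c₀ then 0 else (dN' i - dN' c₀)⁻¹ with hG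
  have hDF : D * F = 0 := by
    rw [hD, hF, diagonal_mul_diagonal, ← diagonal_zero]
    congr 1
    funext i
    by_cases hi : i = c₀ <;> simp [hi]
  have hFD : F * D = 0 := by
    rw [hD, hF, diagonal_mul_diagonal, ← diagonal_zero]
    congr 1
    funext i
    by_cases hi : i = c₀ <;> simp [hi]
  have hDF' : D' * F = 0 := by
    rw [hD', hF, diagonal_mul_diagonal, ← diagonal_zero]
    congr 1
    funext i
    by_cases hi : i = c₀ <;> simp [hi]
  have hFD' : F * D' = 0 := by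
    rw [hD', hF, diagonal_mul_diagonal, ← diagonal_zero]
    congr 1
    funext i
    by_cases hi : i = c₀ <;> simp [hi]
  have hFF : F * F = F := by
    rw [hF, diagonal_mul_diagonal]
    congr 1
    funext i
    by_cases hi : i = c₀ <;> simp [hi]
  have hFG : F * G = 0 := by
    rw [hG, hF, diagonal_mul_diagonal, ← diagonal_zero]
    congr 1
    funext i
    by_cases hi : i = c₀ <;> simp [hi]
  have hGF : G * F = 0 := by
    rw [hG, hF, diagonal_mul_diagonal, ← diagonal_zero]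
    congr 1
    funext i
    by_cases hi : i = c₀ <;> simp [hi]
  have h1F : (1 : Matrix (Fin e) (Fin e) k) - F = diagonal fun i => if i = c₀ then 0 else 1 := by
    rw [hF, ← diagonal_one, diagonal_sub]
    congr 1
    funext i
    by_cases hi : i = c₀ <;> simp [hi]
  have hne : ∀ i, i ≠ c₀ → dN' i - dN' c₀ ≠ 0 := fun i hi h =>
    hi (hinj (sub_eq_zero.1 h))
  have hGD : G * D' = 1 - F := by
    rw [hG, hD', diagonal_mul_diagonal, h1F]
    congr 1
    funext i
    by_cases hi : i = c₀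
    · simp [hi]
    · simp [hi, hne i hi]
  have hDG : D' * G = 1 - F := by
    rw [hG, hD', diagonal_mul_diagonal, h1F]
    congr 1
    funext i
    by_cases hi : i = c₀
    · simp [hi]
    · simp [hi, hne i hi]
  have hFMF : ∀ Q : Matrix (Fin e) (Fin e) k, F * Q * F = Q c₀ c₀ • F := by
    intro Q
    ext i j
    rw [hF, mul_diagonal, diagonal_mul, Matrix.smul_apply, diagonal_apply]
    by_cases hi : i = c₀
    · by_cases hj : j = c₀
      · rw [hi, hj]
        simp
      · rw [if_neg hj, if_neg (show ¬ i = j from fun h => hj (h.symm.trans hi))]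
        simp
    · rw [if_neg hi]
      simp
  clear_value D D' G
  -- conjugation
  have h4 := conjU h2 (G * M₁' * F - F * M₁' * G)
  have hcN : D * D' = D' * D := comm_of h4
  set L := G * M₁' * F - F * M₁' * G with hL
  set M₂ := M₁ + (L * D - D * L) with hM₂
  have eM : M₁' + (L * D' - D' * L) = M₁' - F * M₁' - M₁' * F + (2 : k) • (F * M₁' * F) := by
    have a1 : L * D' = - (F * M₁' * (1 - F)) := by
      rw [hL, sub_mul, mul_assoc (G * M₁') F, hFD', mul_zero, zero_sub, mul_assoc (F * M₁') G, hGD]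
    have a2 : D' * L = (1 - F) * M₁' * F := by
      rw [hL, mul_sub, ← mul_assoc D' (G * M₁') F, ← mul_assoc D' G M₁', hDG,
        ← mul_assoc D' (F * M₁') G, ← mul_assoc D' F M₁', hDF', zero_mul, zero_mul, sub_zero]
    rw [a1, a2, two_smul]
    noncomm_ring
  rw [eM] at h4
  set M₂' := M₁' - F * M₁' - M₁' * F + (2 : k) • (F * M₁' * F) with hM₂'
  have b1 : F * M₂' = M₁' c₀ c₀ • F := by
    rw [← hFMF, hM₂', two_smul]
    have : F * (M₁' - F * M₁' - M₁' * F + (F * M₁' * F + F * M₁' * F)) =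
        F * M₁' - (F * F) * M₁' - F * M₁' * F + ((F * F) * M₁' * F + (F * F) * M₁' * F) := by
      noncomm_ring
    rw [this, hFF]
    abel
  have b2 : M₂' * F = M₁' c₀ c₀ • F := by
    rw [← hFMF, hM₂', two_smul]
    have : (M₁' - F * M₁' - M₁' * F + (F * M₁' * F + F * M₁' * F)) * F =
        M₁' * F - F * M₁' * F - M₁' * (F * F) + (F * M₁' * (F * F) + F * M₁' * (F * F)) := by
      noncomm_ring
    rw [this, hFF]
    abel
  have h5 := lin h4 0 (-M₂ c₀ c₀) 0 (-M₁' c₀ c₀)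
  simp only [zero_smul, add_zero] at h5
  set M₃ := M₂ + (-M₂ c₀ c₀) • (1 : Matrix (Fin e) (Fin e) k) with hM₃
  set M₃' := M₂' + (-M₁' c₀ c₀) • (1 : Matrix (Fin e) (Fin e) k) with hM₃'
  have c1 : F * M₃' = 0 := by
    rw [hM₃', mul_add, b1, Matrix.mul_smul, mul_one, neg_smul, add_neg_cancel]
  have c2 : M₃' * F = 0 := by
    rw [hM₃', add_mul, b2, Matrix.smul_mul, one_mul, neg_smul, add_neg_cancel]
  have c3 : F * M₃ * F = 0 := by
    rw [hFMF, hM₃]
    simp
  -- the line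
  have hFE : F * Matrix.single j₀ c₀ (1 : k) = 0 := by
    ext i j
    rw [hF, diagonal_mul, Matrix.single_apply]
    by_cases hi : i = c₀
    · simp [hi, hjc]
    · simp [hi]
  obtain ⟨s, hs, h6⟩ := Pool.Agent.Lib.D8.MaxR.line2 h5 (X3 0 (Matrix.single j₀ c₀ 1)) 0
    (fun s => by
      rw [X3_smul, smul_zero, smul_zero, add_zero, X3_add]
      exact cn _ _ _ _ (by rw [add_zero]; exact hcN)) (Set.finite_singleton (-M₃ j₀ c₀))
  rw [X3_smul, smul_zero, smul_zero, add_zero, X3_add, add_zero] at h6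
  rw [X3, X3] at h6
  refine no_splitF (F := F) h3 hDF (by simp) (by simp) (by simp) hFD (by simp) (by simp)
    (by simp) hDF' (by simp) (by simp) (by simp) hFD' (by simp) (by simp) (by simp) c2 c1 ?_ ?_ h6
  · rw [mul_add, add_mul, c3, Matrix.mul_smul, hFE, smul_zero, zero_mul, add_zero]
  · intro h
    have h7 := congrFun (congrFun h j₀) c₀
    rw [mul_add F, Matrix.mul_smul, hFE, smul_zero, add_zero, hF, Matrix.add_apply, mul_diagonal,
      diagonal_mul] at h7
    simp [hjc] at h7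
    exact hs (by rw [Set.mem_singleton_iff]; linear_combination h7)

end Pool.Agent.Lib.D12
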