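import Pool.Agent.Lib.D12.T444C
import Pool.Agent.Lib.D9.T333

/-!
# MP_5dcbc3_ag: type (4, 4, 4), reduction of the regular case to three axes
-/

set_option autoImplicit false

namespace Pool.Agent.Lib.D12

namespace T444Aux

open Matrix Pool.Agent.Lib.Q5dc Pool.Agent.Lib.D7 Pool.Agent.Lib.D8
open Pool.Agent.Lib.D9.T333Aux (comp vander_comp isPoly_comp exists_roots comm_comp Cyc D3)

variable {k : Type*} [Field k] {ρ : ℕ → ℕ}

theorem step6 [CharZero k] (h4 : ρ 4 = 0) {w l0 l1 l2 : k} (hw : w ≠ 0) (h01 : l0 ≠ l1)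
    (h02 : l0 ≠ l2) (h12 : l1 ≠ l2) {M Q M' Q' : Matrix (Fin 3) (Fin 3) k}
    (hT : MaxR ρ ![J4 k 3, L4 !![w * l0 ^ 2, 0, 0; 0, w * l1 ^ 2, 0; 0, 0, w * l2 ^ 2] M Q,
      L4 !![l0, 0, 0; 0, l1, 0; 0, 0, l2] M' Q']) : False := by
  have e01 : l0 - l1 ≠ 0 := sub_ne_zero.2 h01
  have e02 : l0 - l2 ≠ 0 := sub_ne_zero.2 h02
  have e12 : l1 - l2 ≠ 0 := sub_ne_zero.2 h12
  have e10 : l1 - l0 ≠ 0 := sub_ne_zero.2 h01.symm
  have h := max_lin (1 / (w * ((l0 - l1) * (l0 - l2)))) (-(l1 + l2) / ((l0 - l1) * (l0 - l2)))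
    (1 / (w * ((l1 - l0) * (l1 - l2)))) (-(l0 + l2) / ((l1 - l0) * (l1 - l2)))
    (l1 * l2 / ((l0 - l1) * (l0 - l2))) (l0 * l2 / ((l1 - l0) * (l1 - l2))) (by
      have e : 1 / (w * ((l0 - l1) * (l0 - l2))) * (-(l0 + l2) / ((l1 - l0) * (l1 - l2))) -
          -(l1 + l2) / ((l0 - l1) * (l0 - l2)) * (1 / (w * ((l1 - l0) * (l1 - l2)))) =
          (l1 - l0) / (w * ((l0 - l1) * (l0 - l2)) * ((l1 - l0) * (l1 - l2))) := by
        field_simp
        ring
      rw [e]
      exact div_ne_zero e10 (mul_ne_zero (mul_ne_zero hw (mul_ne_zero e01 e02))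
        (mul_ne_zero e10 e12))) hT
  have a1 : (1 / (w * ((l0 - l1) * (l0 - l2)))) •
      !![w * l0 ^ 2, 0, 0; 0, w * l1 ^ 2, 0; 0, 0, w * l2 ^ 2] +
      (-(l1 + l2) / ((l0 - l1) * (l0 - l2))) • !![l0, 0, 0; 0, l1, 0; 0, 0, l2] +
      (l1 * l2 / ((l0 - l1) * (l0 - l2))) • (1 : Matrix (Fin 3) (Fin 3) k) =
      !![1, 0, 0; 0, 0, 0; 0, 0, 0] := by
    ext i j
    fin_cases i <;> fin_cases j <;> simp <;> field_simp <;> ring
  have a2 : (1 / (w * ((l1 - l0) * (l1 - l2)))) •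
      !![w * l0 ^ 2, 0, 0; 0, w * l1 ^ 2, 0; 0, 0, w * l2 ^ 2] +
      (-(l0 + l2) / ((l1 - l0) * (l1 - l2))) • !![l0, 0, 0; 0, l1, 0; 0, 0, l2] +
      (l0 * l2 / ((l1 - l0) * (l1 - l2))) • (1 : Matrix (Fin 3) (Fin 3) k) =
      !![0, 0, 0; 0, 1, 0; 0, 0, 0] := by
    ext i j
    fin_cases i <;> fin_cases j <;> simp <;> field_simp <;> ring
  rw [a1, a2] at h
  exact step7 h4 h

theorem step5' [CharZero k] (h4 : ρ 4 = 0) {w l0 l1 l2 : k} (hw : w ≠ 0) (h01 : l0 ≠ l1)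
    (h02 : l0 ≠ l2) (h12 : l1 ≠ l2) {M Q M' Q' : Matrix (Fin 3) (Fin 3) k}
    (hT : MaxR ρ ![J4 k 3, L4 (w • (comp l0 l1 l2 * comp l0 l1 l2)) M Q,
      L4 (comp l0 l1 l2) M' Q']) : False := by
  set V : Matrix (Fin 3) (Fin 3) k := !![1, l0, l0 ^ 2; 1, l1, l1 ^ 2; 1, l2, l2 ^ 2] with hV
  have hdet : V.det ≠ 0 := by
    have e : V.det = (l1 - l0) * (l2 - l0) * (l2 - l1) := by
      rw [hV, Matrix.det_fin_three]
      simp
      ring
    rw [e]
    exact mul_ne_zero (mul_ne_zero (sub_ne_zero.2 h01.symm) (sub_ne_zero.2 h02.symm))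
      (sub_ne_zero.2 h12.symm)
  have hg : V * V⁻¹ = 1 := Matrix.mul_nonsing_inv _ (isUnit_iff_ne_zero.2 hdet)
  have hg' : V⁻¹ * V = 1 := mul_eq_one_comm.1 hg
  have hc : V * comp l0 l1 l2 * V⁻¹ = !![l0, 0, 0; 0, l1, 0; 0, 0, l2] := by
    rw [hV, vander_comp, ← hV, mul_assoc, hg, mul_one]
  have hc2 : V * (w • (comp l0 l1 l2 * comp l0 l1 l2)) * V⁻¹ =
      !![w * l0 ^ 2, 0, 0; 0, w * l1 ^ 2, 0; 0, 0, w * l2 ^ 2] := by
    have e : V * (w • (comp l0 l1 l2 * comp l0 l1 l2)) * V⁻¹ =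
        w • ((V * comp l0 l1 l2 * V⁻¹) * (V * comp l0 l1 l2 * V⁻¹)) := by
      have e1 : (V * comp l0 l1 l2 * V⁻¹) * (V * comp l0 l1 l2 * V⁻¹) =
          V * comp l0 l1 l2 * (V⁻¹ * V) * comp l0 l1 l2 * V⁻¹ := by noncomm_ring
      rw [e1, hg', mul_one, mul_smul_comm, smul_mul_assoc]
      congr 1
      noncomm_ring
    rw [e, hc]
    ext i j
    fin_cases i <;> fin_cases j <;> simp [pow_two]
  have h := max_conj hg hT
  rw [hc, hc2] at h
  exact step6 h4 hw h01 h02 h12 h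

theorem isPoly_L4 {e : ℕ} {N M Q : k → Matrix (Fin e) (Fin e) k}
    (hN : ∀ i j, IsPoly fun s => N s i j) (hM : ∀ i j, IsPoly fun s => M s i j)
    (hQ : ∀ i j, IsPoly fun s => Q s i j) : ∀ x y, IsPoly fun s => L4 (N s) (M s) (Q s) x y := by
  intro x y
  rcases x with x | x | x | x <;> rcases y with y | y | y | y <;>
    first
    | exact hN _ _
    | exact hM _ _
    | exact hQ _ _
    | exact D7.IsPoly.const _

/-- the second coefficient of `z C ^ 2 + ..` -/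
def sec (z g0 g1 g2 : k) (C D : Matrix (Fin 3) (Fin 3) k) : Matrix (Fin 3) (Fin 3) k :=
  z • (C * D + D * C) + (g0 • 1 + g1 • C + g2 • (C * C))

theorem sec_rel (z g0 g1 g2 : k) (C D : Matrix (Fin 3) (Fin 3) k) :
    z • (C * C) * D + sec z g0 g1 g2 C D * C = C * sec z g0 g1 g2 C D + D * (z • (C * C)) := by
  unfold sec
  simp only [add_mul, mul_add, smul_mul_assoc, mul_smul_comm, smul_add, mul_assoc, one_mul,
    mul_one]
  abel

theorem isPoly_sec {z : k → k} (hz : IsPoly z) (g0 g1 g2 : k)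
    {C : k → Matrix (Fin 3) (Fin 3) k} (hC : ∀ i j, IsPoly fun s => C s i j)
    (D : Matrix (Fin 3) (Fin 3) k) : ∀ i j, IsPoly fun s => sec (z s) g0 g1 g2 (C s) D i j := by
  intro i j
  have hD : ∀ i j, IsPoly fun _ : k => D i j := fun i j => D7.IsPoly.const _
  have h1 := isPoly_mul hC hD i j
  have h2 := isPoly_mul hD hC i j
  have h3 := isPoly_mul hC hC i j
  exact (hz.mul (h1.add h2)).add ((((D7.IsPoly.const g0).mul (D7.IsPoly.const _)).add
    ((D7.IsPoly.const g1).mul (hC i j))).add ((D7.IsPoly.const g2).mul h3))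

theorem step5 [CharZero k] (h4 : ρ 4 = 0) {z g0 g1 g2 a b c : k}
    {Q M' Q' : Matrix (Fin 3) (Fin 3) k}
    (hT : MaxR ρ ![J4 k 3, L4 (z • (comp a b c * comp a b c)) (sec z g0 g1 g2 (comp a b c) M') Q,
      L4 (comp a b c) M' Q']) : False := by
  have hinf : Infinite k := CharZero.infinite k
  have hz : IsPoly fun s : k => z + s := (D7.IsPoly.const z).add D7.IsPoly.id
  have hQ : ∀ (Q : Matrix (Fin 3) (Fin 3) k) (i j : Fin 3), IsPoly fun _ : k => Q i j :=
    fun Q i j => D7.IsPoly.const _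
  obtain ⟨E, hE, h⟩ := hT.deform (fun s => ![J4 k 3,
    L4 ((z + s) • (comp (a + s) b (c - s) * comp (a + s) b (c - s)))
      (sec (z + s) g0 g1 g2 (comp (a + s) b (c - s)) M') Q,
    L4 (comp (a + s) b (c - s)) M' Q']) (by
      intro i
      fin_cases i
      · exact fun x y => D7.IsPoly.const _
      · refine isPoly_L4 ?_ ?_ (hQ Q)
        · intro i j
          exact hz.mul (isPoly_mul (isPoly_comp a b c) (isPoly_comp a b c) i j)
        · exact isPoly_sec hz g0 g1 g2 (isPoly_comp a b c) M'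
      · exact isPoly_L4 (isPoly_comp a b c) (hQ M') (hQ Q')) (by simp) Set.finite_empty (by
      intro s _
      refine cn4 _ _ _ _ _ _ ?_ (sec_rel ..)
      rw [smul_mul_assoc, mul_smul_comm, mul_assoc])
  obtain ⟨s, hs⟩ := ((((hE.union (Set.finite_singleton (-z))).union
    (Set.finite_singleton (b - a))).union (Set.finite_singleton (c - b))).union
    (Set.finite_singleton ((c - a) / 2))).infinite_compl.nonempty
  simp only [Set.mem_compl_iff, Set.mem_union, Set.mem_singleton_iff, not_or] at hs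
  obtain ⟨⟨⟨⟨hs0, hs1⟩, hs2⟩, hs3⟩, hs4⟩ := hs
  refine step5' h4 (w := z + s) (l0 := a + s) (l1 := b) (l2 := c - s) ?_ ?_ ?_ ?_ (h s hs0)
  · intro h0
    exact hs1 (by linear_combination h0)
  · intro h0
    exact hs2 (by linear_combination h0)
  · intro h0
    refine hs4 ?_
    rw [eq_div_iff two_ne_zero]
    linear_combination h0
  · intro h0
    exact hs3 (by linear_combination h0)

theorem step4 [CharZero k] [IsAlgClosed k] (h4 : ρ 4 = 0)
    {N M Q X M' Q' : Matrix (Fin 3) (Fin 3) k}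
    {v : Fin 3 → k} (hv : Cyc X v) (hT : MaxR ρ ![J4 k 3, L4 N M Q, L4 X M' Q']) : False := by
  let K : Matrix (Fin 3) (Fin 3) k := Matrix.of fun i j => ![v i, (X *ᵥ v) i, (X *ᵥ (X *ᵥ v)) i] j
  have hK : K.det ≠ 0 := by
    have e : K.det = D3 v (X *ᵥ v) (X *ᵥ (X *ᵥ v)) := by
      rw [Matrix.det_fin_three]
      simp [K, D3]
      ring
    rw [e]
    exact hv
  have hg : K⁻¹ * K = 1 := Matrix.nonsing_inv_mul _ (isUnit_iff_ne_zero.2 hK)
  have h := max_conj hg hT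
  have c0 : ∀ i, (X * K) i 0 = K i 1 := by
    intro i
    simp [K, Matrix.mul_apply, Matrix.mulVec, dotProduct]
  have c1 : ∀ i, (X * K) i 1 = K i 2 := by
    intro i
    simp [K, Matrix.mul_apply, Matrix.mulVec, dotProduct]
  have d0 : ∀ i, (K⁻¹ * X * K) i 0 = (1 : Matrix (Fin 3) (Fin 3) k) i 1 := by
    intro i
    rw [mul_assoc, Matrix.mul_apply, ← hg, Matrix.mul_apply]
    exact Finset.sum_congr rfl fun j _ => by rw [c0]
  have d1 : ∀ i, (K⁻¹ * X * K) i 1 = (1 : Matrix (Fin 3) (Fin 3) k) i 2 := by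
    intro i
    rw [mul_assoc, Matrix.mul_apply, ← hg, Matrix.mul_apply]
    exact Finset.sum_congr rfl fun j _ => by rw [c1]
  obtain ⟨a, b, c, ha, hb, hc⟩ := exists_roots ((K⁻¹ * X * K) 0 2) ((K⁻¹ * X * K) 1 2)
    ((K⁻¹ * X * K) 2 2)
  have hX : K⁻¹ * X * K = comp a b c := by
    ext i j
    fin_cases j
    · fin_cases i
      · exact (d0 0).trans rfl
      · exact (d0 1).trans rfl
      · exact (d0 2).trans rfl
    · fin_cases i
      · exact (d1 0).trans rfl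
      · exact (d1 1).trans rfl
      · exact (d1 2).trans rfl
    · fin_cases i
      · exact ha
      · exact hb
      · exact hc
  rw [hX] at h
  generalize K⁻¹ * N * K = N1 at h
  generalize K⁻¹ * M * K = M1 at h
  generalize K⁻¹ * Q * K = Q1 at h
  generalize K⁻¹ * M' * K = M1' at h
  generalize K⁻¹ * Q' * K = Q1' at h
  have hN := comm_comp (max_rel h).1
  have h' := max_lin 1 (-N1 1 0) 0 1 (-N1 0 0) 0 (by norm_num) h
  simp only [zero_smul, zero_add, add_zero, one_smul] at h'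
  have e : N1 + -N1 1 0 • comp a b c + -N1 0 0 • (1 : Matrix (Fin 3) (Fin 3) k) =
      N1 2 0 • (comp a b c * comp a b c) := by
    nth_rewrite 1 [hN]
    unfold Pool.Agent.Lib.D9.T333Aux.comp
    module
  rw [e] at h'
  generalize N1 2 0 = z at h'
  generalize M1 + _ = M2 at h'
  generalize Q1 + _ = Q2 at h'
  have hrel := (max_rel h').2
  have hW : (M2 - z • (comp a b c * M1' + M1' * comp a b c)) * comp a b c =
      comp a b c * (M2 - z • (comp a b c * M1' + M1' * comp a b c)) := by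
    have e1 : M2 * comp a b c = comp a b c * M2 + M1' * (z • (comp a b c * comp a b c)) -
        z • (comp a b c * comp a b c) * M1' := by
      rw [← hrel]
      abel
    rw [sub_mul, mul_sub, e1]
    simp only [add_mul, mul_add, smul_mul_assoc, mul_smul_comm, smul_add, mul_assoc]
    abel
  have hW' := comm_comp hW
  set W := M2 - z • (comp a b c * M1' + M1' * comp a b c) with hWdef
  have hM2 : M2 = sec z (W 0 0) (W 1 0) (W 2 0) (comp a b c) M1' := by
    unfold sec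
    have e2 : M2 = z • (comp a b c * M1' + M1' * comp a b c) + W := by
      rw [hWdef]
      abel
    rw [e2]
    congr 1
  rw [hM2] at h'
  exact step5 h4 h'

end T444Aux

end Pool.Agent.Lib.D12
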