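import Pool.Agent.Lib.D12.T444B
import Pool.Agent.Lib.D12.T444D

/-!
# MP_5dcbc3_ag: type (4, 4, 4)

`no_444`: in type `(4, 4, 4)` (basis: four levels `Fin 3`, Jordan matrix `J4 k 3`) there is no triple
of maximal ranks.
-/

set_option autoImplicit false

namespace Pool.Agent.Lib.D12

namespace T444Aux

open Matrix Pool.Agent.Lib.Q5dc Pool.Agent.Lib.D7 Pool.Agent.Lib.D8
open Pool.Agent.Lib.D9.T333Aux (good_all finite_cyc Cyc D3)

variable {k : Type*} [Field k] {ρ : ℕ → ℕ}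

theorem stepR [CharZero k] [IsAlgClosed k] (h4 : ρ 4 = 0)
    {N M Q N' M' Q' : Matrix (Fin 3) (Fin 3) k} {p q : k} {v : Fin 3 → k}
    (hv : Cyc (p • N + q • N') v) (hT : MaxR ρ ![J4 k 3, L4 N M Q, L4 N' M' Q']) : False := by
  by_cases hq : q = 0
  · by_cases hp : p = 0
    · rw [hp, hq, zero_smul, zero_smul, add_zero] at hv
      refine hv ?_
      simp [D3]
    · have h := max_lin 0 1 p q 0 0 (by simpa using hp) hT
      refine step4 h4 (v := v) ?_ h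
      rw [zero_smul, add_zero]
      exact hv
  · have h := max_lin 1 0 p q 0 0 (by simpa using hq) hT
    refine step4 h4 (v := v) ?_ h
    rw [zero_smul, add_zero]
    exact hv

/-- `C_1 = 0` -/
theorem step3 [CharZero k] [IsAlgClosed k] (h4 : ρ 4 = 0)
    {N M Q M' Q' : Matrix (Fin 3) (Fin 3) k}
    (hT : MaxR ρ ![J4 k 3, L4 N M Q, L4 0 M' Q']) : False := by
  have hinf : Infinite k := CharZero.infinite k
  obtain ⟨R, v, hc, hv⟩ := good_all N
  have hrel := (max_rel hT).2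
  rw [mul_zero, zero_mul, add_zero, zero_add] at hrel
  have e1 : ∀ s : k, L4 N M Q + s • L4 0 0 0 = L4 N M Q := by
    intro s
    rw [L4_zero, smul_zero, add_zero]
  have e2 : ∀ s : k, L4 0 M' Q' + s • L4 0 R 0 = L4 0 (M' + s • R) Q' := by
    intro s
    rw [L4_smul, L4_add, smul_zero, add_zero, add_zero]
  obtain ⟨s, hs, h⟩ := MaxR.line2 hT (L4 0 0 0) (L4 0 R 0) (fun s => by
    rw [e1, e2]
    refine cn4 _ _ _ _ _ _ (by simp) ?_
    rw [mul_zero, zero_mul, add_zero, zero_add, mul_add, add_mul, hrel, mul_smul_comm,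
      smul_mul_assoc, hc]) (finite_cyc (X := M') hv)
  rw [e1, e2] at h
  have hs' : Cyc (M' + s • R) v := not_not.1 hs
  have hrel' := (max_rel h).2
  rw [mul_zero, zero_mul, add_zero, zero_add] at hrel'
  generalize M' + s • R = M1 at h hs' hrel'
  have e3 : ∀ t : k, L4 N M Q + t • L4 M1 0 0 = L4 (N + t • M1) M Q := by
    intro t
    rw [L4_smul, L4_add, smul_zero, add_zero, add_zero]
  have e4 : ∀ t : k, L4 0 M1 Q' + t • L4 0 0 0 = L4 0 M1 Q' := by
    intro t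
    rw [L4_zero, smul_zero, add_zero]
  obtain ⟨t, ht, h'⟩ := MaxR.line2 h (L4 M1 0 0) (L4 0 0 0) (fun t => by
    rw [e3, e4]
    refine cn4 _ _ _ _ _ _ (by simp) ?_
    rw [mul_zero, zero_mul, add_zero, zero_add, mul_add, add_mul, hrel', mul_smul_comm,
      smul_mul_assoc]) (finite_cyc (X := N) hs')
  rw [e3, e4] at h'
  exact step4 h4 (not_not.1 ht) (MaxR.swap h')

/-- some combination is scalar -/
theorem stepS [CharZero k] [IsAlgClosed k] (h4 : ρ 4 = 0)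
    {N M Q N' M' Q' : Matrix (Fin 3) (Fin 3) k} {p q l : k} (hpq : p ≠ 0 ∨ q ≠ 0)
    (hl : p • N + q • N' = l • 1) (hT : MaxR ρ ![J4 k 3, L4 N M Q, L4 N' M' Q']) : False := by
  have e : p • N + q • N' + -l • (1 : Matrix (Fin 3) (Fin 3) k) = 0 := by
    rw [hl]
    module
  rcases hpq with hp | hq
  · have h := max_lin 0 1 p q 0 (-l) (by simpa using hp) hT
    rw [e] at h
    exact step3 h4 h
  · have h := max_lin 1 0 p q 0 (-l) (by simpa using hq) hT
    rw [e] at h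
    exact step3 h4 h

/-- the pair `(E_12, E_13)` -/
theorem stepB [CharZero k] [IsAlgClosed k] (h4 : ρ 4 = 0)
    {M Q M' Q' : Matrix (Fin 3) (Fin 3) k}
    (hT : MaxR ρ ![J4 k 3, L4 !![0, 1, 0; 0, 0, 0; 0, 0, 0] M Q,
      L4 !![0, 0, 1; 0, 0, 0; 0, 0, 0] M' Q']) : False := by
  have hinf : Infinite k := CharZero.infinite k
  have hrel := (max_rel hT).2
  have H := fun i j => congrFun (congrFun hrel i) j
  have h00 := H 0 0
  have h01 := H 0 1
  have h02 := H 0 2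
  have h11 := H 1 1
  have h12 := H 1 2
  have h21 := H 2 1
  have h22 := H 2 2
  simp only [Matrix.add_apply, Matrix.mul_apply, Fin.sum_univ_three, Matrix.of_apply,
    Matrix.cons_val, zero_mul, mul_zero, one_mul, mul_one, add_zero, zero_add] at h00 h01 h02 h11 h12 h21 h22
  have hM : M = !![M 0 0, M 0 1, M 0 2; 0, M 1 1, M 1 2; 0, M 2 1, M 0 0 + M' 1 2] := by
    ext i j
    fin_cases i <;> fin_cases j <;> simp
    · linear_combination h12
    · linear_combination h22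
    · linear_combination -h02
  have hM' : M' = !![M' 0 0, M' 0 1, M' 0 2; 0, M' 0 0 + M 2 1, M' 1 2; 0, M' 2 1, M' 2 2] := by
    ext i j
    fin_cases i <;> fin_cases j <;> simp
    · linear_combination -h11
    · linear_combination h01
    · linear_combination -h21
  generalize M 0 0 = b at hM
  generalize M 0 1 = b2 at hM
  generalize M 0 2 = b3 at hM
  generalize M 1 1 = b4 at hM
  generalize M 1 2 = g at hM
  generalize M 2 1 = p at hM hM'
  generalize M' 0 0 = c at hM'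
  generalize M' 0 1 = c2 at hM'
  generalize M' 0 2 = c3 at hM'
  generalize M' 1 2 = q at hM hM'
  generalize M' 2 1 = r at hM'
  generalize M' 2 2 = c4 at hM'
  rw [hM, hM'] at hT
  have e1 : ∀ s : k, L4 !![0, 1, 0; 0, 0, 0; 0, 0, 0] !![b, b2, b3; 0, b4, g; 0, p, b + q] Q +
      s • L4 !![0, 0, 0; 0, 1, 0; 0, 0, 0] !![-b3, 0, 0; -(q + g), 0, 0; 0, 0, 0] 0 =
      L4 !![0, 1, 0; 0, s, 0; 0, 0, 0]
        !![b - s * b3, b2, b3; -(s * (q + g)), b4, g; 0, p, b + q] Q := by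
    intro s
    rw [L4_smul, L4_add, smul_zero, add_zero]
    congr 1
    · ext i j
      fin_cases i <;> fin_cases j <;> simp
    · ext i j
      fin_cases i <;> fin_cases j <;> simp <;> ring
  have e2 : ∀ s : k, L4 !![0, 0, 1; 0, 0, 0; 0, 0, 0] !![c, c2, c3; 0, c + p, q; 0, r, c4] Q' +
      s • L4 !![0, 0, 0; 0, 0, 0; 0, 0, 1] !![0, 0, 0; 0, c2, 0; -(r + p), 0, 0] 0 =
      L4 !![0, 0, 1; 0, 0, 0; 0, 0, s]
        !![c, c2, c3; 0, c + p + s * c2, q; -(s * (r + p)), r, c4] Q' := by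
    intro s
    rw [L4_smul, L4_add, smul_zero, add_zero]
    congr 1
    · ext i j
      fin_cases i <;> fin_cases j <;> simp
    · ext i j
      fin_cases i <;> fin_cases j <;> simp
      ring
  obtain ⟨s, hs, h⟩ := MaxR.line2 hT
    (L4 !![0, 0, 0; 0, 1, 0; 0, 0, 0] !![-b3, 0, 0; -(q + g), 0, 0; 0, 0, 0] 0)
    (L4 !![0, 0, 0; 0, 0, 0; 0, 0, 1] !![0, 0, 0; 0, c2, 0; -(r + p), 0, 0] 0) (fun s => by
    rw [e1, e2]
    refine cn4 _ _ _ _ _ _ ?_ ?_
    · ext i j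
      fin_cases i <;> fin_cases j <;> simp [Matrix.mul_apply, Fin.sum_univ_three]
    · ext i j
      fin_cases i <;> fin_cases j <;> simp [Matrix.mul_apply, Fin.sum_univ_three] <;> ring)
    (Set.finite_singleton (0 : k))
  rw [e1, e2] at h
  have hs0 : s ≠ 0 := hs
  refine stepR h4 (p := 1) (q := 2) (v := ![0, 1, 1]) ?_ h
  have e : (1 : k) • !![0, 1, 0; 0, s, 0; 0, 0, 0] + (2 : k) • !![0, 0, 1; 0, 0, 0; 0, 0, s] =
      !![0, 1, 2; 0, s, 0; 0, 0, 2 * s] := by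
    ext i j
    fin_cases i <;> fin_cases j <;> simp
  rw [e]
  have e' : D3 ![0, 1, 1] (!![0, 1, 2; 0, s, 0; 0, 0, 2 * s] *ᵥ ![0, 1, 1])
      (!![0, 1, 2; 0, s, 0; 0, 0, 2 * s] *ᵥ (!![0, 1, 2; 0, s, 0; 0, 0, 2 * s] *ᵥ ![0, 1, 1])) =
      -4 * s ^ 2 := by
    simp [D3, Matrix.mulVec, dotProduct, Fin.sum_univ_three]
    ring
  unfold Pool.Agent.Lib.D9.T333Aux.Cyc
  rw [e']
  exact mul_ne_zero (by norm_num) (pow_ne_zero 2 hs0)

theorem stepB' [CharZero k] [IsAlgClosed k] (h4 : ρ 4 = 0)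
    {N M Q N' M' Q' : Matrix (Fin 3) (Fin 3) k} {g g' : Matrix (Fin 3) (Fin 3) k} {l m : k}
    (hg : g * g' = 1) (h1 : g * N * g' = l • 1 + !![0, 1, 0; 0, 0, 0; 0, 0, 0])
    (h2 : g * N' * g' = m • 1 + !![0, 0, 1; 0, 0, 0; 0, 0, 0])
    (hT : MaxR ρ ![J4 k 3, L4 N M Q, L4 N' M' Q']) : False := by
  have h := max_conj hg hT
  rw [h1, h2] at h
  have h' := max_lin 1 0 0 1 (-l) (-m) (by norm_num) h
  have e1 : (1 : k) • (l • 1 + !![0, 1, 0; 0, 0, 0; 0, 0, 0]) +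
      (0 : k) • (m • 1 + !![0, 0, 1; 0, 0, 0; 0, 0, 0]) + -l • (1 : Matrix (Fin 3) (Fin 3) k) =
      !![0, 1, 0; 0, 0, 0; 0, 0, 0] := by
    module
  have e2 : (0 : k) • (l • 1 + !![0, 1, 0; 0, 0, 0; 0, 0, 0]) +
      (1 : k) • (m • 1 + !![0, 0, 1; 0, 0, 0; 0, 0, 0]) + -m • (1 : Matrix (Fin 3) (Fin 3) k) =
      !![0, 0, 1; 0, 0, 0; 0, 0, 0] := by
    module
  rw [e1, e2] at h'
  exact stepB h4 h'

end T444Aux

open Pool.Agent.Lib.D7 T444Aux in
theorem no_444 {k : Type*} [Field k] [IsAlgClosed k] [CharZero k] {ρ : ℕ → ℕ}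
    {T : Fin 3 → Matrix (I4 3) (I4 3) k} (hT : MaxR ρ T)
    (hρ : ∀ i, ρ i = (J4 k 3 ^ i).rank) (h0 : T 0 = J4 k 3) : False := by
  have h4 : ρ 4 = 0 := by rw [hρ, J4_four, Matrix.rank_zero]
  obtain ⟨N, M, Q, N', M', Q', h⟩ := shape4' hT h4 h0
  rcases pair_cases (max_rel h).1 with ⟨p, q, v, hv⟩ | ⟨p, q, l, hpq, hl⟩ |
    ⟨g, g', l, m, hg, h1, h2⟩ | ⟨g, g', l, m, hg, h1, h2⟩
  · exact stepR h4 hv h
  · exact stepS h4 hpq hl h
  · exact stepB' h4 hg h1 h2 h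
  · exact stepB' h4 hg h1 h2 (max_dual h)

end Pool.Agent.Lib.D12
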