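import Pool.Agent.Lib.D9.T333X

/-!
# MP_5dcbc3_ag: commuting pairs of 3 x 3 matrices without a regular combination
-/

set_option autoImplicit false

namespace Pool.Agent.Lib.D12

namespace T444Aux

open Matrix Pool.Agent.Lib.D9.T333Aux

variable {k : Type*} [Field k]

/-- a matrix with vanishing first row and singular lower block has a cyclic vector or rank one -/
theorem cyc_row (r1 r2 a b c d : k) :
    (∃ v, Cyc (!![0, 0, 0; r1, a, b; r2, c, d] : Matrix (Fin 3) (Fin 3) k) v) ∨
      ∃ (l : k) (x y : Fin 3 → k), (!![0, 0, 0; r1, a, b; r2, c, d] : Matrix (Fin 3) (Fin 3) k) =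
        l • 1 + vecMulVec x y := by
  -- the determinant of `v, N v, N ^ 2 v` for `v = (1, v1, v2)`
  have key : ∀ v1 v2 : k, D3 ![1, v1, v2] (!![0, 0, 0; r1, a, b; r2, c, d] *ᵥ ![1, v1, v2])
      (!![0, 0, 0; r1, a, b; r2, c, d] *ᵥ
        (!![0, 0, 0; r1, a, b; r2, c, d] *ᵥ ![1, v1, v2])) =
      c * (r1 + a * v1 + b * v2) ^ 2 + (d - a) * (r1 + a * v1 + b * v2) *
        (r2 + c * v1 + d * v2) - b * (r2 + c * v1 + d * v2) ^ 2 := by
    intro v1 v2
    simp [D3, Matrix.mulVec, dotProduct, Fin.sum_univ_three]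
    ring
  have self : ∀ v1 v2 : k, c * (r1 + a * v1 + b * v2) ^ 2 + (d - a) * (r1 + a * v1 + b * v2) *
        (r2 + c * v1 + d * v2) - b * (r2 + c * v1 + d * v2) ^ 2 ≠ 0 →
      ∃ v, Cyc (!![0, 0, 0; r1, a, b; r2, c, d] : Matrix (Fin 3) (Fin 3) k) v := by
    intro v1 v2 h
    refine ⟨![1, v1, v2], ?_⟩
    unfold Cyc
    rw [key]
    exact h
  by_cases hs : b = 0 ∧ c = 0 ∧ a = d
  · obtain ⟨rfl, rfl, rfl⟩ := hs
    refine Or.inr ⟨a, ![-a, r1, r2], ![1, 0, 0], ?_⟩
    ext i j
    fin_cases i <;> fin_cases j <;> simp [vecMulVec_apply]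
  by_cases hd : a * d - b * c = 0
  · -- `N` is cyclic or of rank one
    by_contra hN
    rw [not_or] at hN
    have hq : ∀ v1 v2 : k, c * (r1 + a * v1 + b * v2) ^ 2 + (d - a) * (r1 + a * v1 + b * v2) *
        (r2 + c * v1 + d * v2) - b * (r2 + c * v1 + d * v2) ^ 2 = 0 := by
      intro v1 v2
      by_contra h
      exact hN.1 (self v1 v2 h)
    have q0 := hq 0 0
    have q1 := hq 1 0
    have q2 := hq 0 1
    simp only [mul_zero, add_zero, mul_one] at q0 q1 q2
    have hA' : (r1 * c - r2 * a) * (a + d) = 0 := by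
      linear_combination q1 - q0 - (2 * r2 + c) * hd
    have hB' : (r1 * d - r2 * b) * (a + d) = 0 := by
      linear_combination q2 - q0 + (2 * r1 + b) * hd
    have hA : r1 * c - r2 * a = 0 := by
      have h : (r1 * c - r2 * a) * (r1 * c - r2 * a) = 0 := by
        linear_combination c * q0 - r2 * hA' - r2 ^ 2 * hd
      exact mul_self_eq_zero.1 h
    have hB : r1 * d - r2 * b = 0 := by
      have h : (r1 * d - r2 * b) * (r1 * d - r2 * b) = 0 := by
        linear_combination r1 * hB' - r1 ^ 2 * hd - b * q0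
      exact mul_self_eq_zero.1 h
    have fin : ∀ x y : Fin 3 → k, (!![0, 0, 0; r1, a, b; r2, c, d] : Matrix (Fin 3) (Fin 3) k) =
        vecMulVec x y → False := by
      intro x y h
      exact hN.2 ⟨0, x, y, by rw [zero_smul, zero_add]; exact h⟩
    by_cases ha : a = 0
    · by_cases hb : b = 0
      · by_cases hr : r1 = 0
        · refine fin ![0, 0, 1] ![r2, c, d] ?_
          ext i j
          fin_cases i <;> fin_cases j <;> simp [vecMulVec_apply, ha, hb, hr]
        · refine fin ![0, 1, r2 / r1] ![r1, a, b] ?_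
          have e1 : r2 / r1 * r1 = r2 := div_mul_cancel₀ _ hr
          have e2 : r2 / r1 * a = c := by
            rw [div_mul_eq_mul_div, div_eq_iff hr]
            linear_combination -hA
          have e3 : r2 / r1 * b = d := by
            rw [div_mul_eq_mul_div, div_eq_iff hr]
            linear_combination -hB
          ext i j
          fin_cases i <;> fin_cases j <;> simp [vecMulVec_apply, e1, e2, e3]
      · refine fin ![0, 1, d / b] ![r1, a, b] ?_
        have e1 : d / b * r1 = r2 := by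
          rw [div_mul_eq_mul_div, div_eq_iff hb]
          linear_combination hB
        have e2 : d / b * a = c := by
          rw [div_mul_eq_mul_div, div_eq_iff hb]
          linear_combination hd
        have e3 : d / b * b = d := div_mul_cancel₀ _ hb
        ext i j
        fin_cases i <;> fin_cases j <;> simp [vecMulVec_apply, e1, e2, e3]
    · refine fin ![0, 1, c / a] ![r1, a, b] ?_
      have e1 : c / a * r1 = r2 := by
        rw [div_mul_eq_mul_div, div_eq_iff ha]
        linear_combination hA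
      have e2 : c / a * a = c := div_mul_cancel₀ _ ha
      have e3 : c / a * b = d := by
        rw [div_mul_eq_mul_div, div_eq_iff ha]
        linear_combination -hd
      ext i j
      fin_cases i <;> fin_cases j <;> simp [vecMulVec_apply, e1, e2, e3]
  · -- the lower block is invertible and not scalar
    have hz : ∃ z1 z2 : k, c * z1 ^ 2 + (d - a) * z1 * z2 - b * z2 ^ 2 ≠ 0 := by
      by_contra h
      push Not at h
      have h1 := h 1 0
      have h2 := h 0 1
      have h3 := h 1 1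
      simp at h1 h2 h3
      refine hs ⟨h2, h1, ?_⟩
      rw [h1, h2] at h3
      linear_combination -h3
    obtain ⟨z1, z2, hz⟩ := hz
    refine Or.inl (self ((d * (z1 - r1) - b * (z2 - r2)) / (a * d - b * c))
      ((a * (z2 - r2) - c * (z1 - r1)) / (a * d - b * c)) ?_)
    have e1 : r1 + a * ((d * (z1 - r1) - b * (z2 - r2)) / (a * d - b * c)) +
        b * ((a * (z2 - r2) - c * (z1 - r1)) / (a * d - b * c)) = z1 := by
      have e : r1 + a * ((d * (z1 - r1) - b * (z2 - r2)) / (a * d - b * c)) +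
        b * ((a * (z2 - r2) - c * (z1 - r1)) / (a * d - b * c)) =
          r1 + (a * d - b * c) * (z1 - r1) / (a * d - b * c) := by ring
      rw [e, mul_div_cancel_left₀ _ hd]
      ring
    have e2 : r2 + c * ((d * (z1 - r1) - b * (z2 - r2)) / (a * d - b * c)) +
        d * ((a * (z2 - r2) - c * (z1 - r1)) / (a * d - b * c)) = z2 := by
      have e : r2 + c * ((d * (z1 - r1) - b * (z2 - r2)) / (a * d - b * c)) +
        d * ((a * (z2 - r2) - c * (z1 - r1)) / (a * d - b * c)) =
          r2 + (a * d - b * c) * (z2 - r2) / (a * d - b * c) := by ring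
      rw [e, mul_div_cancel_left₀ _ hd]
      ring
    rw [e1, e2]
    exact hz

/-- cyclic vectors and conjugation -/
theorem cyc_conj {N g g' : Matrix (Fin 3) (Fin 3) k} (h : g * g' = 1) {v : Fin 3 → k}
    (hv : Cyc (g * N * g') v) : Cyc N (g' *ᵥ v) := by
  have h' : g' * g = 1 := mul_eq_one_comm.1 h
  have e1 : ∀ w : Fin 3 → k, N *ᵥ (g' *ᵥ w) = g' *ᵥ ((g * N * g') *ᵥ w) := by
    intro w
    rw [Matrix.mulVec_mulVec, Matrix.mulVec_mulVec, mul_assoc g, ← mul_assoc g', h', one_mul]
  unfold Cyc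
  rw [e1, e1, D3_mulVec]
  refine mul_ne_zero ?_ hv
  intro h0
  have h1 := congrArg Matrix.det h
  rw [Matrix.det_mul, h0, mul_zero, Matrix.det_one] at h1
  exact zero_ne_one h1

theorem cyc_add {N : Matrix (Fin 3) (Fin 3) k} (l : k) {v : Fin 3 → k}
    (hv : Cyc (N + l • (1 : Matrix (Fin 3) (Fin 3) k)) v) : Cyc N v := by
  unfold Cyc at hv ⊢
  refine fun h0 => hv ?_
  rw [← h0]
  simp only [Matrix.add_mulVec, Matrix.mulVec_add, Matrix.smul_mulVec, Matrix.mulVec_smul, D3,
    Pi.add_apply, Pi.smul_apply, smul_eq_mul, Matrix.one_mulVec]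
  ring

theorem cyc_smul {N : Matrix (Fin 3) (Fin 3) k} (l : k) {v : Fin 3 → k}
    (hv : Cyc (l • N) v) : Cyc N v := by
  unfold Cyc at hv ⊢
  refine fun h0 => hv ?_
  have : D3 v ((l • N) *ᵥ v) ((l • N) *ᵥ ((l • N) *ᵥ v)) =
      l ^ 3 * D3 v (N *ᵥ v) (N *ᵥ (N *ᵥ v)) := by
    simp only [Matrix.mulVec_smul, Matrix.smul_mulVec, D3, Pi.smul_apply, smul_eq_mul]
    ring
  rw [this, h0, mul_zero]

/-- every matrix has a cyclic vector or is a scalar plus a matrix of rank one -/
theorem cyc_or [IsAlgClosed k] (N : Matrix (Fin 3) (Fin 3) k) :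
    (∃ v, Cyc N v) ∨ ∃ (l : k) (x y : Fin 3 → k), N = l • 1 + vecMulVec x y := by
  obtain ⟨l, hl⟩ : ∃ l : k, (N - l • (1 : Matrix (Fin 3) (Fin 3) k)).det = 0 := by
    obtain ⟨l, hl⟩ := IsAlgClosed.exists_root N.charpoly (by
      rw [Matrix.charpoly_degree_eq_dim]
      simp)
    refine ⟨l, ?_⟩
    rw [Polynomial.IsRoot.def, Matrix.eval_charpoly] at hl
    have e : N - l • (1 : Matrix (Fin 3) (Fin 3) k) = -(Matrix.scalar (Fin 3) l - N) := by
      rw [neg_sub]
      congr 1
      ext i j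
      fin_cases i <;> fin_cases j <;> simp
    rw [e, Matrix.det_neg, hl, mul_zero]
  obtain ⟨y, hy, hy'⟩ := Matrix.exists_vecMul_eq_zero_iff.2 hl
  obtain ⟨g, g', hg, hr⟩ := exists_row hy
  have h0 : ∀ j, (g * (N - l • 1) * g') 0 j = 0 := by
    intro j
    rw [mul_assoc, Matrix.mul_apply]
    have e : ∑ i, g 0 i * ((N - l • 1) * g') i j = (y ᵥ* ((N - l • 1) * g')) j := by
      simp [Matrix.vecMul, dotProduct, hr]
    rw [e, ← Matrix.vecMul_vecMul, hy', Matrix.zero_vecMul]
    rfl
  have e : g * (N - l • 1) * g' = !![0, 0, 0;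
      (g * (N - l • 1) * g') 1 0, (g * (N - l • 1) * g') 1 1, (g * (N - l • 1) * g') 1 2;
      (g * (N - l • 1) * g') 2 0, (g * (N - l • 1) * g') 2 1, (g * (N - l • 1) * g') 2 2] := by
    ext i j
    fin_cases i
    · rw [show ((⟨0, by decide⟩ : Fin 3)) = 0 from rfl, h0]
      fin_cases j <;> rfl
    · fin_cases j <;> rfl
    · fin_cases j <;> rfl
  have hg' : g' * g = 1 := mul_eq_one_comm.1 hg
  rcases cyc_row ((g * (N - l • 1) * g') 1 0) ((g * (N - l • 1) * g') 2 0)
    ((g * (N - l • 1) * g') 1 1) ((g * (N - l • 1) * g') 1 2)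
    ((g * (N - l • 1) * g') 2 1) ((g * (N - l • 1) * g') 2 2) with ⟨v, hv⟩ | ⟨l', x, y', hl'⟩
  · left
    rw [← e] at hv
    have h1 := cyc_conj hg hv
    refine ⟨g' *ᵥ v, ?_⟩
    refine cyc_add (-l) ?_
    rw [neg_smul, ← sub_eq_add_neg]
    exact h1
  · right
    rw [← e] at hl'
    refine ⟨l' + l, g' *ᵥ x, y' ᵥ* g, ?_⟩
    have h2 : N - l • (1 : Matrix (Fin 3) (Fin 3) k) = g' * (g * (N - l • 1) * g') * g := by
      calc N - l • (1 : Matrix (Fin 3) (Fin 3) k) = (g' * g) * (N - l • 1) * (g' * g) := by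
            rw [hg', one_mul, mul_one]
        _ = g' * (g * (N - l • 1) * g') * g := by noncomm_ring
    rw [hl', mul_add, add_mul, mul_smul_comm, mul_one, smul_mul_assoc, hg',
      Matrix.mul_vecMulVec, Matrix.vecMulVec_mul] at h2
    rw [add_smul, sub_eq_iff_eq_add.1 h2]
    abel

end T444Aux

end Pool.Agent.Lib.D12
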