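import Pool.Agent.Lib.D12.T444A

/-!
# MP_5dcbc3_ag: commuting pairs of 3 x 3 matrices without a regular combination (2)
-/

set_option autoImplicit false

namespace Pool.Agent.Lib.D12

namespace T444Aux

open Matrix Pool.Agent.Lib.D9.T333Aux

variable {k : Type*} [Field k]

/-- the cross product -/
def cr (a b : Fin 3 → k) : Fin 3 → k :=
  ![a 1 * b 2 - a 2 * b 1, a 2 * b 0 - a 0 * b 2, a 0 * b 1 - a 1 * b 0]

theorem cr_par {a b : Fin 3 → k} (ha : a ≠ 0) (h : cr a b = 0) : ∃ t : k, b = t • a := by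
  have h0 : a 1 * b 2 - a 2 * b 1 = 0 := congrFun h 0
  have h1 : a 2 * b 0 - a 0 * b 2 = 0 := congrFun h 1
  have h2 : a 0 * b 1 - a 1 * b 0 = 0 := congrFun h 2
  obtain ⟨i, hi⟩ := Function.ne_iff.1 ha
  refine ⟨b i / a i, ?_⟩
  funext j
  rw [Pi.smul_apply, smul_eq_mul, div_mul_eq_mul_div, eq_div_iff hi]
  fin_cases i <;> fin_cases j <;> simp
  · linear_combination h2
  · linear_combination -h1
  · linear_combination -h2
  · linear_combination h0
  · linear_combination h1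
  · linear_combination -h0

theorem cr_orth {x y w : Fin 3 → k} (hy : y ⬝ᵥ x = 0) (hw : w ⬝ᵥ x = 0) :
    cr (cr y w) x = 0 := by
  simp only [dotProduct, Fin.sum_univ_three] at hy hw
  funext i
  fin_cases i <;> simp [cr]
  · linear_combination w 0 * hy - y 0 * hw
  · linear_combination w 1 * hy - y 1 * hw
  · linear_combination w 2 * hy - y 2 * hw

theorem D3_cr (r y w : Fin 3 → k) : D3 r y w = r ⬝ᵥ cr y w := by
  simp [D3, cr, dotProduct, Fin.sum_univ_three]
  ring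

theorem exists_vec [Infinite k] {a b c : Fin 3 → k} (ha : a ≠ 0) (hb : b ≠ 0) (hc : c ≠ 0) :
    ∃ v : Fin 3 → k, a ⬝ᵥ v ≠ 0 ∧ b ⬝ᵥ v ≠ 0 ∧ c ⬝ᵥ v ≠ 0 := by
  let P : (Fin 3 → k) → Polynomial k := fun a => Polynomial.C (a 0) +
    Polynomial.C (a 1) * Polynomial.X + Polynomial.C (a 2) * Polynomial.X ^ 2
  have hP : ∀ a, a ≠ 0 → P a ≠ 0 := by
    intro a ha h0
    refine ha ?_
    have c0 := congrArg (fun p => Polynomial.coeff p 0) h0
    have c1 := congrArg (fun p => Polynomial.coeff p 1) h0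
    have c2 := congrArg (fun p => Polynomial.coeff p 2) h0
    simp [P, Polynomial.coeff_X, Polynomial.coeff_X_pow, Polynomial.coeff_C] at c0 c1 c2
    funext i
    fin_cases i
    · exact c0
    · exact c1
    · exact c2
  have hprod : P a * P b * P c ≠ 0 := mul_ne_zero (mul_ne_zero (hP a ha) (hP b hb)) (hP c hc)
  obtain ⟨t, ht⟩ : ∃ t, Polynomial.eval t (P a * P b * P c) ≠ 0 := by
    by_contra h
    push Not at h
    exact hprod (Polynomial.funext fun t => by rw [h t, Polynomial.eval_zero])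
  rw [Polynomial.eval_mul, Polynomial.eval_mul, mul_ne_zero_iff, mul_ne_zero_iff] at ht
  have hev : ∀ a, Polynomial.eval t (P a) = a ⬝ᵥ ![1, t, t ^ 2] := by
    intro a
    simp [P, dotProduct, Fin.sum_univ_three]
  rw [hev, hev, hev] at ht
  exact ⟨_, ht.1.1, ht.1.2, ht.2⟩

/-- common image -/
theorem pair_img {x y w : Fin 3 → k} (hy : y ⬝ᵥ x = 0) (hw : w ⬝ᵥ x = 0) (hx : x ≠ 0)
    (hyw : cr y w ≠ 0) : ∃ g g' : Matrix (Fin 3) (Fin 3) k, g * g' = 1 ∧
      g * vecMulVec x y * g' = !![0, 1, 0; 0, 0, 0; 0, 0, 0] ∧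
      g * vecMulVec x w * g' = !![0, 0, 1; 0, 0, 0; 0, 0, 0] := by
  obtain ⟨i, hi⟩ := Function.ne_iff.1 hx
  set r : Fin 3 → k := Pi.single i (x i)⁻¹ with hr
  have hrx : r ⬝ᵥ x = 1 := by
    rw [hr, single_dotProduct, inv_mul_cancel₀ hi]
  obtain ⟨t, ht⟩ := cr_par hyw (cr_orth hy hw)
  have ht0 : t ≠ 0 := by
    rintro rfl
    rw [zero_smul] at ht
    exact hx ht
  set g : Matrix (Fin 3) (Fin 3) k := Matrix.of ![r, y, w] with hg
  have hdet : g.det ≠ 0 := by
    have e : g.det = D3 r y w := by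
      rw [Matrix.det_fin_three]
      simp [hg, D3]
      ring
    rw [e, D3_cr]
    intro h0
    rw [ht, dotProduct_smul, h0, smul_zero] at hrx
    exact zero_ne_one hrx
  have hgg : g * g⁻¹ = 1 := Matrix.mul_nonsing_inv _ (isUnit_iff_ne_zero.2 hdet)
  have gx : g *ᵥ x = ![1, 0, 0] := by
    funext i
    fin_cases i
    · exact hrx
    · exact hy
    · exact hw
  have gy : y ᵥ* g⁻¹ = fun j => (1 : Matrix (Fin 3) (Fin 3) k) 1 j := by
    funext j
    rw [← hgg, Matrix.mul_apply]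
    simp [Matrix.vecMul, dotProduct, hg]
  have gw : w ᵥ* g⁻¹ = fun j => (1 : Matrix (Fin 3) (Fin 3) k) 2 j := by
    funext j
    rw [← hgg, Matrix.mul_apply]
    simp [Matrix.vecMul, dotProduct, hg]
  refine ⟨g, g⁻¹, hgg, ?_, ?_⟩
  · rw [Matrix.mul_vecMulVec, Matrix.vecMulVec_mul, gx, gy]
    ext i j
    fin_cases i <;> fin_cases j <;> simp [vecMulVec_apply]
  · rw [Matrix.mul_vecMulVec, Matrix.vecMulVec_mul, gx, gw]
    ext i j
    fin_cases i <;> fin_cases j <;> simp [vecMulVec_apply]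

/-- the characteristic determinant of a combination of two orthogonal matrices of rank one -/
theorem D3_pair {x y z w : Fin 3 → k} (hyz : y ⬝ᵥ z = 0) (hwx : w ⬝ᵥ x = 0) (p q : k)
    (v : Fin 3 → k) :
    D3 v ((p • vecMulVec x y + q • vecMulVec z w) *ᵥ v)
      ((p • vecMulVec x y + q • vecMulVec z w) *ᵥ
        ((p • vecMulVec x y + q • vecMulVec z w) *ᵥ v)) =
      p * q * (y ⬝ᵥ v) * (w ⬝ᵥ v) * (cr x z ⬝ᵥ v) * (q * (w ⬝ᵥ z) - p * (y ⬝ᵥ x)) := by
  have e : ∀ u : Fin 3 → k, (p • vecMulVec x y + q • vecMulVec z w) *ᵥ u =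
      (p * (y ⬝ᵥ u)) • x + (q * (w ⬝ᵥ u)) • z := by
    intro u
    rw [Matrix.add_mulVec, Matrix.smul_mulVec, Matrix.smul_mulVec]
    funext i
    simp [vecMulVec_apply, Matrix.mulVec, dotProduct, Fin.sum_univ_three]
    ring
  rw [e, e]
  have e1 : y ⬝ᵥ ((p * (y ⬝ᵥ v)) • x + (q * (w ⬝ᵥ v)) • z) = p * (y ⬝ᵥ v) * (y ⬝ᵥ x) := by
    rw [dotProduct_add, dotProduct_smul, dotProduct_smul, hyz]
    simp
  have e2 : w ⬝ᵥ ((p * (y ⬝ᵥ v)) • x + (q * (w ⬝ᵥ v)) • z) = q * (w ⬝ᵥ v) * (w ⬝ᵥ z) := by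
    rw [dotProduct_add, dotProduct_smul, dotProduct_smul, hwx]
    simp
  rw [e1, e2]
  generalize y ⬝ᵥ v = a
  generalize w ⬝ᵥ v = b
  generalize y ⬝ᵥ x = c
  generalize w ⬝ᵥ z = d
  simp [D3, cr, dotProduct, Fin.sum_univ_three]
  ring

/-- classification of commuting pairs of 3 x 3 matrices without a regular combination -/
theorem pair_cases [CharZero k] [IsAlgClosed k] {B C : Matrix (Fin 3) (Fin 3) k}
    (h : B * C = C * B) :
    (∃ (p q : k) (v : Fin 3 → k), Cyc (p • B + q • C) v) ∨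
    (∃ p q l : k, (p ≠ 0 ∨ q ≠ 0) ∧ p • B + q • C = l • 1) ∨
    (∃ (g g' : Matrix (Fin 3) (Fin 3) k) (l m : k), g * g' = 1 ∧
      g * B * g' = l • 1 + !![0, 1, 0; 0, 0, 0; 0, 0, 0] ∧
      g * C * g' = m • 1 + !![0, 0, 1; 0, 0, 0; 0, 0, 0]) ∨
    (∃ (g g' : Matrix (Fin 3) (Fin 3) k) (l m : k), g * g' = 1 ∧
      g * Bᵀ * g' = l • 1 + !![0, 1, 0; 0, 0, 0; 0, 0, 0] ∧
      g * Cᵀ * g' = m • 1 + !![0, 0, 1; 0, 0, 0; 0, 0, 0]) := by
  have hinf : Infinite k := CharZero.infinite k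
  by_cases h1 : ∃ (p q : k) (v : Fin 3 → k), Cyc (p • B + q • C) v
  · exact Or.inl h1
  right
  by_cases h2 : ∃ p q l : k, (p ≠ 0 ∨ q ≠ 0) ∧ p • B + q • C = l • 1
  · exact Or.inl h2
  right
  rcases cyc_or B with ⟨v, hv⟩ | ⟨l, x, y, hB⟩
  · exact absurd ⟨1, 0, v, by rw [one_smul, zero_smul, add_zero]; exact hv⟩ h1
  rcases cyc_or C with ⟨v, hv⟩ | ⟨m, z, w, hC⟩
  · exact absurd ⟨0, 1, v, by rw [one_smul, zero_smul, zero_add]; exact hv⟩ h1
  have vz : ∀ x y : Fin 3 → k, x = 0 ∨ y = 0 → vecMulVec x y = 0 := by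
    rintro x y (rfl | rfl)
    · ext i j
      simp [vecMulVec_apply]
    · ext i j
      simp [vecMulVec_apply]
  have hx : x ≠ 0 := by
    intro h0
    refine h2 ⟨1, 0, l, Or.inl one_ne_zero, ?_⟩
    rw [hB, vz x y (Or.inl h0)]
    simp
  have hy : y ≠ 0 := by
    intro h0
    refine h2 ⟨1, 0, l, Or.inl one_ne_zero, ?_⟩
    rw [hB, vz x y (Or.inr h0)]
    simp
  have hz : z ≠ 0 := by
    intro h0
    refine h2 ⟨0, 1, m, Or.inr one_ne_zero, ?_⟩
    rw [hC, vz z w (Or.inl h0)]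
    simp
  have hw : w ≠ 0 := by
    intro h0
    refine h2 ⟨0, 1, m, Or.inr one_ne_zero, ?_⟩
    rw [hC, vz z w (Or.inr h0)]
    simp
  -- the commutation relation
  have hcomm : ∀ i j, (y ⬝ᵥ z) * (x i * w j) = (w ⬝ᵥ x) * (z i * y j) := by
    intro i j
    have e : vecMulVec x y * vecMulVec z w = vecMulVec z w * vecMulVec x y := by
      rw [hB, hC] at h
      simp only [add_mul, mul_add, smul_mul_assoc, mul_smul_comm, one_mul, mul_one,
        smul_add] at h
      have h' := congrArg (fun M => M - (l • (m • (1 : Matrix (Fin 3) (Fin 3) k)) +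
        m • vecMulVec x y + l • vecMulVec z w)) h
      have a1 : m • l • (1 : Matrix (Fin 3) (Fin 3) k) + m • vecMulVec x y +
          (l • vecMulVec z w + vecMulVec x y * vecMulVec z w) -
          (l • (m • (1 : Matrix (Fin 3) (Fin 3) k)) +
        m • vecMulVec x y + l • vecMulVec z w) = vecMulVec x y * vecMulVec z w := by
        rw [smul_comm m l]
        abel
      have a2 : l • m • (1 : Matrix (Fin 3) (Fin 3) k) + l • vecMulVec z w +
          (m • vecMulVec x y + vecMulVec z w * vecMulVec x y) -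
          (l • (m • (1 : Matrix (Fin 3) (Fin 3) k)) +
        m • vecMulVec x y + l • vecMulVec z w) = vecMulVec z w * vecMulVec x y := by
        abel
      rw [a1, a2] at h'
      exact h'
    have e' := congrFun (congrFun e i) j
    rw [Matrix.vecMulVec_mul_vecMulVec, Matrix.vecMulVec_mul_vecMulVec] at e'
    simp [vecMulVec_apply] at e'
    linear_combination e'
  have hyz : y ⬝ᵥ z = 0 := by
    by_contra ha
    obtain ⟨i0, hi0⟩ := Function.ne_iff.1 hx
    obtain ⟨j0, hj0⟩ := Function.ne_iff.1 hw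
    rw [Pi.zero_apply] at hi0 hj0
    have hb : (w ⬝ᵥ x) * (z i0 * y j0) ≠ 0 := by
      rw [← hcomm]
      exact mul_ne_zero ha (mul_ne_zero hi0 hj0)
    have hb1 : w ⬝ᵥ x ≠ 0 := left_ne_zero_of_mul hb
    have hz0 : z i0 ≠ 0 := left_ne_zero_of_mul (right_ne_zero_of_mul hb)
    have hy0 : y j0 ≠ 0 := right_ne_zero_of_mul (right_ne_zero_of_mul hb)
    -- `a w_j0 x = b y_j0 z`, `a x_i0 w = b z_i0 y`
    refine h2 ⟨(w ⬝ᵥ x) * z i0 * (y ⬝ᵥ z) * w j0, -((w ⬝ᵥ x) * y j0 * (y ⬝ᵥ z) * x i0),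
      (w ⬝ᵥ x) * z i0 * (y ⬝ᵥ z) * w j0 * l - ((w ⬝ᵥ x) * y j0 * (y ⬝ᵥ z) * x i0) * m,
      Or.inl (mul_ne_zero (mul_ne_zero (mul_ne_zero hb1 hz0) ha) hj0), ?_⟩
    rw [hB, hC]
    ext i j
    have c1 := hcomm i j0
    have c2 := hcomm i0 j
    simp only [Matrix.add_apply, Matrix.smul_apply, vecMulVec_apply, smul_eq_mul]
    linear_combination (w ⬝ᵥ x) * z i0 * y j * c1 - (w ⬝ᵥ x) * y j0 * z i * c2
  have hwx : w ⬝ᵥ x = 0 := by
    obtain ⟨i0, hi0⟩ := Function.ne_iff.1 hz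
    obtain ⟨j0, hj0⟩ := Function.ne_iff.1 hy
    have h0 := hcomm i0 j0
    rw [hyz, zero_mul] at h0
    exact (mul_eq_zero.1 h0.symm).resolve_right (mul_ne_zero hi0 hj0)
  have hreg : ∀ (p q : k) (v : Fin 3 → k),
      p * q * (y ⬝ᵥ v) * (w ⬝ᵥ v) * (cr x z ⬝ᵥ v) * (q * (w ⬝ᵥ z) - p * (y ⬝ᵥ x)) = 0 := by
    intro p q v
    rw [← D3_pair hyz hwx]
    by_contra hne
    refine h1 ⟨p, q, v, ?_⟩
    have e : p • B + q • C + (-(p * l + q * m)) • (1 : Matrix (Fin 3) (Fin 3) k) =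
        p • vecMulVec x y + q • vecMulVec z w := by
      rw [hB, hC]
      module
    refine cyc_add (-(p * l + q * m)) ?_
    rw [e]
    exact hne
  by_cases hxz : cr x z = 0
  · -- common image
    left
    obtain ⟨t, ht⟩ := cr_par hx hxz
    have ht0 : t ≠ 0 := by
      rintro rfl
      rw [zero_smul] at ht
      exact hz ht
    have hyx : y ⬝ᵥ x = 0 := by
      rw [ht, dotProduct_smul, smul_eq_mul] at hyz
      exact (mul_eq_zero.1 hyz).resolve_left ht0
    have hC' : vecMulVec z w = vecMulVec x (t • w) := by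
      rw [ht]
      ext i j
      simp [vecMulVec_apply]
      ring
    have hyw : cr y (t • w) ≠ 0 := by
      intro h0
      obtain ⟨u, hu⟩ := cr_par hy h0
      refine h2 ⟨u, -1, u * l - m, Or.inr (by norm_num), ?_⟩
      rw [hB, hC, hC', hu]
      ext i j
      simp only [Matrix.add_apply, Matrix.smul_apply, vecMulVec_apply, smul_eq_mul,
        Pi.smul_apply]
      ring
    obtain ⟨g, g', hg, g1, g2⟩ := pair_img hyx (w := t • w)
      (by rw [smul_dotProduct, hwx, smul_zero]) hx hyw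
    refine ⟨g, g', l, m, hg, ?_, ?_⟩
    · rw [hB, mul_add, add_mul, mul_smul_comm, mul_one, smul_mul_assoc, hg, g1]
    · rw [hC, hC', mul_add, add_mul, mul_smul_comm, mul_one, smul_mul_assoc, hg, g2]
  right
  by_cases hyw : cr y w = 0
  · -- common kernel
    obtain ⟨t, ht⟩ := cr_par hy hyw
    have ht0 : t ≠ 0 := by
      rintro rfl
      rw [zero_smul] at ht
      exact hw ht
    have hxy : x ⬝ᵥ y = 0 := by
      rw [ht, smul_dotProduct, smul_eq_mul] at hwx
      rw [dotProduct_comm]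
      exact (mul_eq_zero.1 hwx).resolve_left ht0
    have hC' : vecMulVec w z = vecMulVec y (t • z) := by
      rw [ht]
      ext i j
      simp [vecMulVec_apply]
      ring
    have hxz' : cr x (t • z) ≠ 0 := by
      intro h0
      refine hxz ?_
      have e : cr x (t • z) = t • cr x z := by
        funext i
        fin_cases i <;> simp [cr] <;> ring
      rw [e, smul_eq_zero] at h0
      exact h0.resolve_left ht0
    obtain ⟨g, g', hg, g1, g2⟩ := pair_img hxy (w := t • z)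
      (by rw [smul_dotProduct, dotProduct_comm, hyz, smul_zero]) hy hxz'
    refine ⟨g, g', l, m, hg, ?_, ?_⟩
    · rw [hB, Matrix.transpose_add, Matrix.transpose_smul, Matrix.transpose_one,
        Matrix.transpose_vecMulVec, mul_add, add_mul, mul_smul_comm, mul_one, smul_mul_assoc, hg,
        g1]
    · rw [hC, Matrix.transpose_add, Matrix.transpose_smul, Matrix.transpose_one,
        Matrix.transpose_vecMulVec, hC', mul_add, add_mul, mul_smul_comm, mul_one,
        smul_mul_assoc, hg, g2]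
  · exfalso
    obtain ⟨v, v1, v2, v3⟩ := exists_vec hy hw hxz
    have hv : ∀ p q : k, p ≠ 0 → q ≠ 0 → q * (w ⬝ᵥ z) - p * (y ⬝ᵥ x) = 0 := by
      intro p q hp hq
      exact (mul_eq_zero.1 (hreg p q v)).resolve_left
        (mul_ne_zero (mul_ne_zero (mul_ne_zero (mul_ne_zero hp hq) v1) v2) v3)
    have a1 := hv 1 1 one_ne_zero one_ne_zero
    have a2 := hv 1 2 one_ne_zero two_ne_zero
    have hwz : w ⬝ᵥ z = 0 := by linear_combination a2 - a1
    have hyx : y ⬝ᵥ x = 0 := by linear_combination a2 - 2 * a1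
    obtain ⟨t, ht⟩ := cr_par hyw (cr_orth hyx hwx)
    obtain ⟨u, hu⟩ := cr_par hyw (cr_orth hyz hwz)
    refine hxz ?_
    rw [ht, hu]
    funext i
    fin_cases i <;> simp [cr] <;> ring

end T444Aux

end Pool.Agent.Lib.D12
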