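import Pool.Agent.Lib.D12.R444

/-!
# MP_5dcbc3_ag: type (4, 4, 4), three axes
-/

set_option autoImplicit false

namespace Pool.Agent.Lib.D12

namespace T444Aux

open Matrix Pool.Agent.Lib.Q5dc Pool.Agent.Lib.D7 Pool.Agent.Lib.D8

variable {k : Type*} [Field k] {ρ : ℕ → ℕ}

/-! ### the last step -/

theorem step8 [CharZero k] (h4 : ρ 4 = 0) {m23 m32 x12 x13 x21 x31 : k}
    (hT : MaxR ρ ![J4 k 3,
      L4 !![1, 0, 0; 0, 0, 0; 0, 0, 0] 0 !![0, 0, 0; 0, 0, m23; 0, m32, 0],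
      L4 !![0, 0, 0; 0, 1, 0; 0, 0, 0] 0 !![0, x12, x13; x21, 0, 0; x31, 0, 0]]) : False := by
  have hinf : Infinite k := CharZero.infinite k
  have e1 : ∀ s : k, L4 !![1, 0, 0; 0, 0, 0; 0, 0, 0] 0 !![0, 0, 0; 0, 0, m23; 0, m32, 0] +
      s • L4 0 0 0 = L4 !![1, 0, 0; 0, 0, 0; 0, 0, 0] 0 !![0, 0, 0; 0, 0, m23; 0, m32, 0] := by
    intro s
    rw [L4_zero, smul_zero, add_zero]
  have e2 : ∀ s : k, L4 !![0, 0, 0; 0, 1, 0; 0, 0, 0] 0 !![0, x12, x13; x21, 0, 0; x31, 0, 0] +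
      s • L4 0 0 !![0, 0, 1; 0, 0, 0; 0, 0, 0] =
      L4 !![0, 0, 0; 0, 1, 0; 0, 0, 0] 0 !![0, x12, x13 + s; x21, 0, 0; x31, 0, 0] := by
    intro s
    rw [L4_smul, L4_add]
    congr 1
    · simp
    · simp
    · ext i j
      fin_cases i <;> fin_cases j <;> simp
  obtain ⟨s, hs, h⟩ := MaxR.line2 hT (L4 0 0 0) (L4 0 0 !![0, 0, 1; 0, 0, 0; 0, 0, 0]) (fun s => by
    rw [e1, e2]
    refine cn4 _ _ _ _ _ _ ?_ (by simp)
    ext i j
    fin_cases i <;> fin_cases j <;> simp [Matrix.mul_apply, Fin.sum_univ_three])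
    (Set.finite_singleton (-x13))
  rw [e1, e2] at h
  exact no_444R h4 (fun h0 => hs (by
    rw [Set.mem_singleton_iff]
    linear_combination h0)) h

/-! ### unipotent changes of basis -/

section

variable {e : ℕ}

theorem unip_one (G H K : Matrix (Fin e) (Fin e) k) :
    (1 + L4 G H K) * (1 - L4 G H K + L4 G H K * L4 G H K - L4 G H K * L4 G H K * L4 G H K) = 1 ∧
    (1 - L4 G H K + L4 G H K * L4 G H K - L4 G H K * L4 G H K * L4 G H K) * (1 + L4 G H K) = 1 := by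
  have h4 : L4 G H K * L4 G H K * L4 G H K * L4 G H K = 0 := by
    rw [L4_mul, L4_mul, L4_mul]
    simp [L4_zero]
  set P := L4 G H K
  constructor
  · have : (1 + P) * (1 - P + P * P - P * P * P) = 1 - P * P * P * P := by noncomm_ring
    rw [this, h4, sub_zero]
  · have : (1 - P + P * P - P * P * P) * (1 + P) = 1 - P * P * P * P := by noncomm_ring
    rw [this, h4, sub_zero]

theorem max_unip (G H K : Matrix (Fin e) (Fin e) k)
    {N M Q N' M' Q' R S R' S' : Matrix (Fin e) (Fin e) k}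
    (h0 : J4 k e * L4 G H K = L4 G H K * J4 k e)
    (h1 : L4 N M Q + L4 G H K * L4 N M Q = L4 N R S + L4 N R S * L4 G H K)
    (h2 : L4 N' M' Q' + L4 G H K * L4 N' M' Q' = L4 N' R' S' + L4 N' R' S' * L4 G H K)
    (hT : MaxR ρ ![J4 k e, L4 N M Q, L4 N' M' Q']) :
    MaxR ρ ![J4 k e, L4 N R S, L4 N' R' S'] := by
  have h := hT.conj _ _ (unip_one G H K).1 (unip_one G H K).2
  have key : ∀ {X Y : Matrix (I4 e) (I4 e) k}, X + L4 G H K * X = Y + Y * L4 G H K →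
      (1 + L4 G H K) * X *
        (1 - L4 G H K + L4 G H K * L4 G H K - L4 G H K * L4 G H K * L4 G H K) = Y := by
    intro X Y hXY
    rw [add_mul, one_mul, hXY]
    nth_rewrite 1 [← mul_one Y]
    rw [← mul_add, mul_assoc, (unip_one G H K).1, mul_one]
  have h2' : (fun i => (1 + L4 G H K) * (![J4 k e, L4 N M Q, L4 N' M' Q'] :
      Fin 3 → Matrix (I4 e) (I4 e) k) i *
      (1 - L4 G H K + L4 G H K * L4 G H K - L4 G H K * L4 G H K * L4 G H K)) =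
      ![J4 k e, L4 N R S, L4 N' R' S'] := by
    funext i
    fin_cases i
    · refine key ?_
      change J4 k e + L4 G H K * J4 k e = J4 k e + J4 k e * L4 G H K
      rw [h0]
    · exact key h1
    · exact key h2
  rwa [h2'] at h

theorem max_unip1 (G : Matrix (Fin e) (Fin e) k) {N M Q N' M' Q' : Matrix (Fin e) (Fin e) k}
    (hT : MaxR ρ ![J4 k e, L4 N M Q, L4 N' M' Q']) :
    MaxR ρ ![J4 k e, L4 N (M + G * N - N * G) (Q + G * M - (M + G * N - N * G) * G),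
      L4 N' (M' + G * N' - N' * G) (Q' + G * M' - (M' + G * N' - N' * G) * G)] := by
  refine max_unip G 0 0 (J4_comm ..) ?_ ?_ hT
  · rw [L4_mul, L4_mul, L4_add, L4_add]
    simp
  · rw [L4_mul, L4_mul, L4_add, L4_add]
    simp

theorem max_unip2 (H : Matrix (Fin e) (Fin e) k) {N M Q N' M' Q' : Matrix (Fin e) (Fin e) k}
    (hT : MaxR ρ ![J4 k e, L4 N M Q, L4 N' M' Q']) :
    MaxR ρ ![J4 k e, L4 N M (Q + H * N - N * H), L4 N' M' (Q' + H * N' - N' * H)] := by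
  refine max_unip 0 H 0 (J4_comm ..) ?_ ?_ hT
  · rw [L4_mul, L4_mul, L4_add, L4_add]
    simp
  · rw [L4_mul, L4_mul, L4_add, L4_add]
    simp

theorem mem_sub (x y z u v w : k) (N M Q N' M' Q' : Matrix (Fin e) (Fin e) k) :
    L4 0 (x • 1 + y • N + z • N') (y • M + z • M' + (u • 1 + v • N + w • N')) ∈
      adj ![J4 k e, L4 N M Q, L4 N' M' Q'] := by
  have sm : ∀ {T : Fin 3 → Matrix (I4 e) (I4 e) k} {M : Matrix (I4 e) (I4 e) k}
      (s : k), M ∈ adj T → s • M ∈ adj T := fun s hM => SMulMemClass.smul_mem s hM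
  have m0 := mem0 (J4 k e) (L4 N M Q) (L4 N' M' Q')
  have m1 := mem1 (J4 k e) (L4 N M Q) (L4 N' M' Q')
  have m2 := mem2 (J4 k e) (L4 N M Q) (L4 N' M' Q')
  have e : L4 0 (x • 1 + y • N + z • N') (y • M + z • M' + (u • 1 + v • N + w • N')) =
      x • (J4 k e * J4 k e) + y • (J4 k e * L4 N M Q) + z • (J4 k e * L4 N' M' Q') +
      (u • (J4 k e * (J4 k e * J4 k e)) + v • (J4 k e * (J4 k e * L4 N M Q)) +
        w • (J4 k e * (J4 k e * L4 N' M' Q'))) := by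
    rw [J4_sq, J4_mul_L4, J4_mul_L4, J4_mul_L4, J4_mul_L4, J4_mul_L4]
    simp only [L4_smul, L4_add, smul_zero, zero_add, add_zero]
  rw [e]
  exact add_mem (add_mem (add_mem (sm x (mul_mem m0 m0)) (sm y (mul_mem m0 m1)))
    (sm z (mul_mem m0 m2))) (add_mem (add_mem (sm u (mul_mem m0 (mul_mem m0 m0)))
    (sm v (mul_mem m0 (mul_mem m0 m1)))) (sm w (mul_mem m0 (mul_mem m0 m2))))

/-- subtracting multiples of `A ^ 2`, `A B`, `A C`, `A ^ 3`, `A ^ 2 B`, `A ^ 2 C` -/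
theorem max_sub (x y z u v w x' y' z' u' v' w' : k)
    {N M Q N' M' Q' : Matrix (Fin e) (Fin e) k}
    (hT : MaxR ρ ![J4 k e, L4 N M Q, L4 N' M' Q']) :
    MaxR ρ ![J4 k e, L4 N (M - (x • 1 + y • N + z • N'))
        (Q - (y • M + z • M' + (u • 1 + v • N + w • N'))),
      L4 N' (M' - (x' • 1 + y' • N + z' • N'))
        (Q' - (y' • M + z' • M' + (u' • 1 + v' • N + w' • N')))] := by
  have e1 : ∀ (N M Q S T : Matrix (Fin e) (Fin e) k),
      L4 N (M - S) (Q - T) = L4 N M Q - L4 0 S T := by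
    intro N M Q S T
    rw [L4_sub, sub_zero]
  have e2 : ∀ (N M Q S T : Matrix (Fin e) (Fin e) k),
      L4 N M Q = L4 N (M - S) (Q - T) + L4 0 S T := by
    intro N M Q S T
    rw [L4_add, add_zero, sub_add_cancel, sub_add_cancel]
  refine MaxR.change3 hT ?_ ?_ ?_ ?_
  · rw [e1]
    exact sub_mem (mem1 _ _ _) (mem_sub x y z u v w N M Q N' M' Q')
  · rw [e1]
    exact sub_mem (mem2 _ _ _) (mem_sub x' y' z' u' v' w' N M Q N' M' Q')
  · rw [e2 N M Q (x • 1 + y • N + z • N') (y • M + z • M' + (u • 1 + v • N + w • N'))]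
    refine add_mem (mem1 _ _ _) ?_
    have e : y • M + z • M' + (u • (1 : Matrix (Fin e) (Fin e) k) + v • N + w • N') =
      y • (M - (x • 1 + y • N + z • N')) + z • (M' - (x' • 1 + y' • N + z' • N')) +
      ((u + y * x + z * x') • 1 + (v + y * y + z * y') • N + (w + y * z + z * z') • N') := by
      module
    have hm := mem_sub x y z (u + y * x + z * x') (v + y * y + z * y') (w + y * z + z * z') N
      (M - (x • 1 + y • N + z • N')) (Q - (y • M + z • M' + (u • 1 + v • N + w • N'))) N'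
      (M' - (x' • 1 + y' • N + z' • N')) (Q' - (y' • M + z' • M' + (u' • 1 + v' • N + w' • N')))
    rw [← e] at hm
    exact hm
  · rw [e2 N' M' Q' (x' • 1 + y' • N + z' • N')
      (y' • M + z' • M' + (u' • 1 + v' • N + w' • N'))]
    refine add_mem (mem2 _ _ _) ?_
    have e : y' • M + z' • M' + (u' • (1 : Matrix (Fin e) (Fin e) k) + v' • N + w' • N') =
      y' • (M - (x • 1 + y • N + z • N')) + z' • (M' - (x' • 1 + y' • N + z' • N')) +
      ((u' + y' * x + z' * x') • 1 + (v' + y' * y + z' * y') • N +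
        (w' + y' * z + z' * z') • N') := by
      module
    have hm := mem_sub x' y' z' (u' + y' * x + z' * x') (v' + y' * y + z' * y')
      (w' + y' * z + z' * z') N
      (M - (x • 1 + y • N + z • N')) (Q - (y • M + z • M' + (u • 1 + v • N + w • N'))) N'
      (M' - (x' • 1 + y' • N + z' • N')) (Q' - (y' • M + z' • M' + (u' • 1 + v' • N + w' • N')))
    rw [← e] at hm
    exact hm

end

/-! ### two idempotents -/

theorem step7 [CharZero k] (h4 : ρ 4 = 0) {M Q M' Q' : Matrix (Fin 3) (Fin 3) k}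
    (hT : MaxR ρ ![J4 k 3, L4 !![1, 0, 0; 0, 0, 0; 0, 0, 0] M Q,
      L4 !![0, 0, 0; 0, 1, 0; 0, 0, 0] M' Q']) : False := by
  have hrel := (max_rel hT).2
  have H := fun i j => congrFun (congrFun hrel i) j
  have h01 := H 0 1
  have h02 := H 0 2
  have h10 := H 1 0
  have h12 := H 1 2
  have h20 := H 2 0
  have h21 := H 2 1
  simp only [Matrix.add_apply, Matrix.mul_apply, Fin.sum_univ_three, Matrix.of_apply,
    Matrix.cons_val] at h01 h02 h10 h12 h20 h21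
  have h1 := max_unip1 !![0, M 0 1, M 0 2; -M 1 0, 0, M' 1 2; -M 2 0, -M' 2 1, 0] hT
  generalize Q + _ - _ = Q1 at h1
  generalize Q' + _ - _ = Q1' at h1
  have e1 : M + !![0, M 0 1, M 0 2; -M 1 0, 0, M' 1 2; -M 2 0, -M' 2 1, 0] *
      !![1, 0, 0; 0, 0, 0; 0, 0, 0] - !![1, 0, 0; 0, 0, 0; 0, 0, 0] *
      !![0, M 0 1, M 0 2; -M 1 0, 0, M' 1 2; -M 2 0, -M' 2 1, 0] =
      !![M 0 0, 0, 0; 0, M 1 1, 0; 0, 0, M 2 2] := by
    ext i j
    fin_cases i <;> fin_cases j <;>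
      simp [Matrix.mul_apply, Fin.sum_univ_three]
    · linear_combination -h12
    · linear_combination h21
  have e2 : M' + !![0, M 0 1, M 0 2; -M 1 0, 0, M' 1 2; -M 2 0, -M' 2 1, 0] *
      !![0, 0, 0; 0, 1, 0; 0, 0, 0] - !![0, 0, 0; 0, 1, 0; 0, 0, 0] *
      !![0, M 0 1, M 0 2; -M 1 0, 0, M' 1 2; -M 2 0, -M' 2 1, 0] =
      !![M' 0 0, 0, 0; 0, M' 1 1, 0; 0, 0, M' 2 2] := by
    ext i j
    fin_cases i <;> fin_cases j <;>
      simp [Matrix.mul_apply, Fin.sum_univ_three]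
    · linear_combination h01
    · linear_combination h02
    · linear_combination -h10
    · linear_combination -h20
  rw [e1, e2] at h1
  have h2 := max_sub (M 2 2) (M 0 0 - M 2 2) (M 1 1 - M 2 2) 0 0 0 (M' 2 2) (M' 0 0 - M' 2 2)
    (M' 1 1 - M' 2 2) 0 0 0 h1
  generalize Q1 - _ = Q2 at h2
  generalize Q1' - _ = Q2' at h2
  have e3 : ∀ a b c : k, !![a, 0, 0; 0, b, 0; 0, 0, c] -
      (c • (1 : Matrix (Fin 3) (Fin 3) k) + (a - c) • !![1, 0, 0; 0, 0, 0; 0, 0, 0] +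
        (b - c) • !![0, 0, 0; 0, 1, 0; 0, 0, 0]) = 0 := by
    intro a b c
    ext i j
    fin_cases i <;> fin_cases j <;> simp
  rw [e3, e3] at h2
  have h3 := max_unip2 !![0, Q2 0 1, Q2 0 2; -Q2 1 0, 0, Q2' 1 2; -Q2 2 0, -Q2' 2 1, 0] h2
  have h5 := max_sub 0 0 0 (Q2 2 2) (Q2 0 0 - Q2 2 2) (Q2 1 1 - Q2 2 2) 0 0 0 (Q2' 2 2)
    (Q2' 0 0 - Q2' 2 2) (Q2' 1 1 - Q2' 2 2) h3
  have e4 : (0 : Matrix (Fin 3) (Fin 3) k) - ((0 : k) • (1 : Matrix (Fin 3) (Fin 3) k) +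
      (0 : k) • !![1, 0, 0; 0, 0, 0; 0, 0, 0] + (0 : k) • !![0, 0, 0; 0, 1, 0; 0, 0, 0]) = 0 := by
    simp
  rw [e4] at h5
  have e5 : Q2 + !![0, Q2 0 1, Q2 0 2; -Q2 1 0, 0, Q2' 1 2; -Q2 2 0, -Q2' 2 1, 0] *
      !![1, 0, 0; 0, 0, 0; 0, 0, 0] - !![1, 0, 0; 0, 0, 0; 0, 0, 0] *
      !![0, Q2 0 1, Q2 0 2; -Q2 1 0, 0, Q2' 1 2; -Q2 2 0, -Q2' 2 1, 0] -
      ((0 : k) • (0 : Matrix (Fin 3) (Fin 3) k) + (0 : k) • (0 : Matrix (Fin 3) (Fin 3) k) +
      (Q2 2 2 • 1 + (Q2 0 0 - Q2 2 2) • !![1, 0, 0; 0, 0, 0; 0, 0, 0] +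
        (Q2 1 1 - Q2 2 2) • !![0, 0, 0; 0, 1, 0; 0, 0, 0])) =
      !![0, 0, 0; 0, 0, Q2 1 2; 0, Q2 2 1, 0] := by
    ext i j
    fin_cases i <;> fin_cases j <;>
      simp [Matrix.mul_apply, Fin.sum_univ_three]
  have e6 : Q2' + !![0, Q2 0 1, Q2 0 2; -Q2 1 0, 0, Q2' 1 2; -Q2 2 0, -Q2' 2 1, 0] *
      !![0, 0, 0; 0, 1, 0; 0, 0, 0] - !![0, 0, 0; 0, 1, 0; 0, 0, 0] *
      !![0, Q2 0 1, Q2 0 2; -Q2 1 0, 0, Q2' 1 2; -Q2 2 0, -Q2' 2 1, 0] -
      ((0 : k) • (0 : Matrix (Fin 3) (Fin 3) k) + (0 : k) • (0 : Matrix (Fin 3) (Fin 3) k) +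
      (Q2' 2 2 • 1 + (Q2' 0 0 - Q2' 2 2) • !![1, 0, 0; 0, 0, 0; 0, 0, 0] +
        (Q2' 1 1 - Q2' 2 2) • !![0, 0, 0; 0, 1, 0; 0, 0, 0])) =
      !![0, Q2' 0 1 + Q2 0 1, Q2' 0 2; Q2' 1 0 + Q2 1 0, 0, 0; Q2' 2 0, 0, 0] := by
    ext i j
    fin_cases i <;> fin_cases j <;>
      simp [Matrix.mul_apply, Fin.sum_univ_three]
  rw [e5, e6] at h5
  exact step8 h4 h5

end T444Aux

end Pool.Agent.Lib.D12
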