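import Pool.Agent.Lib.D9.Blk

/-!
# MP_5dcbc3_ag: case I (`b = 0`, `pi = 0`) of type `(3^e, 2^u, 1^p)`

`F = E + U`; `V_1 = E_1 + U_0 + P`, `V_2 = E_2 + U_1`, both `E_1 + U_0` and `V_2` are copies of `F`.
`XI Y Th w D` : `E_0 → E_1 + U_0` by `Y ι`, `E_0 → P` by `w`, `E_0 → V_2` by `D`, `E_1 + U_0 → V_2` by `Y`,
`P → V_2` by `Th`; `ι : E → F`.
-/

set_option autoImplicit false

namespace Pool.Agent.Lib.D12

open Matrix Pool.Agent.Lib.Q5dc Pool.Agent.Lib.D7 Pool.Agent.Lib.D9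

variable {k : Type*} [Field k] {e u p : ℕ}

/-- the inclusion `E → F = E + U` -/
def io (k : Type*) [Field k] (e u : ℕ) : Matrix (Fin e ⊕ Fin u) (Fin e) k := fromRows 1 0

/-- matrices of case I -/
def XI (Y : Matrix (Fin e ⊕ Fin u) (Fin e ⊕ Fin u) k) (Th : Matrix (Fin e ⊕ Fin u) (Fin p) k)
    (w : Matrix (Fin p) (Fin e) k) (D : Matrix (Fin e ⊕ Fin u) (Fin e) k) :
    Matrix (Ix e u p) (Ix e u p) k :=
  BX Y.toBlocks₁₁ D.toRows₁ Y.toBlocks₂₁ D.toRows₂ w 0 Y.toBlocks₁₂ Y.toBlocks₂₂ 0 Th.toRows₁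
    Th.toRows₂

section

variable (Y Y' : Matrix (Fin e ⊕ Fin u) (Fin e ⊕ Fin u) k)
  (Th Th' : Matrix (Fin e ⊕ Fin u) (Fin p) k) (w w' : Matrix (Fin p) (Fin e) k)
  (D D' : Matrix (Fin e ⊕ Fin u) (Fin e) k) (s : k)

theorem XI_add : XI Y Th w D + XI Y' Th' w' D' = XI (Y + Y') (Th + Th') (w + w') (D + D') := by
  rw [XI, XI, BX_add, XI]
  congr 1 <;> first | rfl | simp

theorem XI_smul : s • XI Y Th w D = XI (s • Y) (s • Th) (s • w) (s • D) := by
  rw [XI, BX_smul, XI]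
  congr 1 <;> first | rfl | simp

theorem XI_zero : (XI 0 0 0 0 : Matrix (Ix e u p) (Ix e u p) k) = 0 := by
  rw [XI, ← BX_zero]
  congr 1

theorem JX_eq : JX k e u p = XI 1 0 0 0 := by
  rw [XI, JX]
  congr 1
  · ext i j
    simp [toBlocks₁₁, Matrix.one_apply]
  · ext i j
    simp [toBlocks₂₂, Matrix.one_apply]

/-- products of matrices of case I -/
theorem XI_mul : XI Y Th w D * XI Y' Th' w' D' = XI 0 0 0 (Y * Y' * io k e u + Th * w') := by
  rw [XI, XI, BX_mul, XI, BX_inj]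
  refine ⟨?_, ?_, ?_, ?_, ?_, ?_, ?_, ?_, ?_, ?_, ?_⟩
  · rw [Matrix.zero_mul]; rfl
  · ext i j
    simp [io, toBlocks₁₁, toBlocks₁₂, toBlocks₂₁, toRows₁, Matrix.mul_apply,
      Matrix.one_apply, Fintype.sum_sum_type]
  · rfl
  · ext i j
    simp [io, toBlocks₁₁, toBlocks₂₂, toBlocks₂₁, toRows₂, Matrix.mul_apply,
      Matrix.one_apply, Fintype.sum_sum_type]
  · rw [Matrix.zero_mul]
  · rfl
  · simp only [Matrix.mul_zero, Matrix.zero_mul, add_zero]; rfl
  · simp only [Matrix.mul_zero, add_zero]; rfl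
  · rfl
  · rw [Matrix.zero_mul]; rfl
  · rfl

theorem XI_inj : XI Y Th w D = XI Y' Th' w' D' ↔ Y = Y' ∧ Th = Th' ∧ w = w' ∧ D = D' := by
  constructor
  · intro h
    rw [XI, XI, BX_inj] at h
    obtain ⟨h1, h2, h3, h4, h5, -, h6, h7, -, h8, h9⟩ := h
    refine ⟨?_, ?_, h5, ?_⟩
    · rw [← fromBlocks_toBlocks Y, ← fromBlocks_toBlocks Y', h1, h3, h6, h7]
    · rw [← fromRows_toRows Th, ← fromRows_toRows Th', h8, h9]
    · rw [← fromRows_toRows D, ← fromRows_toRows D', h2, h4]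
  · rintro ⟨rfl, rfl, rfl, rfl⟩
    rfl

/-- the only relation of case I -/
theorem XI_comm : XI Y Th w D * XI Y' Th' w' D' = XI Y' Th' w' D' * XI Y Th w D ↔
    Y * Y' * io k e u + Th * w' = Y' * Y * io k e u + Th' * w := by
  rw [XI_mul, XI_mul, XI_inj]
  simp

theorem JX_sqI : JX k e u p * JX k e u p = XI 0 0 0 (io k e u) := by
  rw [JX_eq, XI_mul]
  simp

theorem JX_mul_XI : JX k e u p * XI Y Th w D = XI 0 0 0 (Y * io k e u) := by
  rw [JX_eq, XI_mul]
  simp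

theorem cnI (h : Y * Y' * io k e u + Th * w' = Y' * Y * io k e u + Th' * w) :
    CN ![JX k e u p, XI Y Th w D, XI Y' Th' w' D'] :=
  D8.cn3 (JX_comm ..) (JX_comm ..) ((XI_comm ..).2 h) JX_nil (BX_nil ..) (BX_nil ..)

end

section

variable {Y Y' : Matrix (Fin e ⊕ Fin u) (Fin e ⊕ Fin u) k}
  {Th Th' : Matrix (Fin e ⊕ Fin u) (Fin p) k} {w w' : Matrix (Fin p) (Fin e) k}
  {D D' : Matrix (Fin e ⊕ Fin u) (Fin e) k} {ρ : ℕ → ℕ}

theorem MaxR.relI (hT : MaxR ρ ![JX k e u p, XI Y Th w D, XI Y' Th' w' D']) :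
    Y * Y' * io k e u + Th * w' = Y' * Y * io k e u + Th' * w :=
  (XI_comm ..).1 (hT.cn.1 1 2)

/-- linear changes, multiples of `A` and `A ^ 2` -/
theorem MaxR.linI (hT : MaxR ρ ![JX k e u p, XI Y Th w D, XI Y' Th' w' D'])
    (a b c d x y z t : k) (h : a * d - b * c ≠ 0) :
    MaxR ρ ![JX k e u p,
      XI (a • Y + b • Y' + x • 1) (a • Th + b • Th') (a • w + b • w')
        (a • D + b • D' + y • io k e u),
      XI (c • Y + d • Y' + z • 1) (c • Th + d • Th') (c • w + d • w')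
        (c • D + d • D' + t • io k e u)] := by
  have h1 := D8.MaxR.lin hT a b c d x y z t h
  rw [JX_sqI] at h1
  have e : ∀ a b x y : k, a • XI Y Th w D + b • XI Y' Th' w' D' + x • JX k e u p +
      y • (XI 0 0 0 (io k e u) : Matrix (Ix e u p) (Ix e u p) k) =
      XI (a • Y + b • Y' + x • 1) (a • Th + b • Th') (a • w + b • w')
        (a • D + b • D' + y • io k e u) := by
    intro a b x y
    rw [JX_eq, XI_smul, XI_smul, XI_smul, XI_smul, XI_add, XI_add, XI_add]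
    simp only [smul_zero, add_zero]
  rw [e, e] at h1
  exact h1

/-- deformation along a line in case I -/
theorem MaxR.lineI [Infinite k] (hT : MaxR ρ ![JX k e u p, XI Y Th w D, XI Y' Th' w' D'])
    (y y' : Matrix (Fin e ⊕ Fin u) (Fin e ⊕ Fin u) k)
    (th th' : Matrix (Fin e ⊕ Fin u) (Fin p) k) (v v' : Matrix (Fin p) (Fin e) k)
    (δ δ' : Matrix (Fin e ⊕ Fin u) (Fin e) k)
    (h : ∀ s : k, (Y + s • y) * (Y' + s • y') * io k e u + (Th + s • th) * (w' + s • v') =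
      (Y' + s • y') * (Y + s • y) * io k e u + (Th' + s • th') * (w + s • v))
    {S : Set k} (hS : S.Finite) :
    ∃ s, s ∉ S ∧ MaxR ρ ![JX k e u p, XI (Y + s • y) (Th + s • th) (w + s • v) (D + s • δ),
      XI (Y' + s • y') (Th' + s • th') (w' + s • v') (D' + s • δ')] := by
  obtain ⟨s, hs, h1⟩ := D8.MaxR.line2 hT (XI y th v δ) (XI y' th' v' δ') (fun s => by
    rw [XI_smul, XI_smul, XI_add, XI_add]
    exact cnI _ _ _ _ _ _ _ _ (h s)) hS
  refine ⟨s, hs, ?_⟩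
  rw [XI_smul, XI_smul, XI_add, XI_add] at h1
  exact h1

/-- conjugation by `1 + XI L τ ω 0` changes only `D, D'` -/
theorem MaxR.conjI (hT : MaxR ρ ![JX k e u p, XI Y Th w D, XI Y' Th' w' D'])
    (L : Matrix (Fin e ⊕ Fin u) (Fin e ⊕ Fin u) k) (τ : Matrix (Fin e ⊕ Fin u) (Fin p) k)
    (ω : Matrix (Fin p) (Fin e) k) :
    MaxR ρ ![JX k e u p,
      XI Y Th w (D + (L * Y * io k e u + τ * w) - (Y * L * io k e u + Th * ω)),
      XI Y' Th' w' (D' + (L * Y' * io k e u + τ * w') - (Y' * L * io k e u + Th' * ω))] := by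
  set S : Matrix (Ix e u p) (Ix e u p) k := XI L τ ω 0 with hS
  have hSSS : S * S * S = 0 := by
    rw [hS, XI_mul, XI_mul]
    simp [XI_zero]
  have e1 : (1 + S) * (1 - S + S * S) = 1 := by
    have : (1 + S) * (1 - S + S * S) = 1 + S * S * S := by noncomm_ring
    rw [this, hSSS, add_zero]
  have e2 : (1 - S + S * S) * (1 + S) = 1 := mul_eq_one_comm.1 e1
  have h1 := hT.conj _ _ e1 e2
  have key : ∀ (Y : Matrix (Fin e ⊕ Fin u) (Fin e ⊕ Fin u) k)
      (Th : Matrix (Fin e ⊕ Fin u) (Fin p) k) (w : Matrix (Fin p) (Fin e) k)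
      (D : Matrix (Fin e ⊕ Fin u) (Fin e) k),
      (1 + S) * XI Y Th w D * (1 - S + S * S) =
        XI Y Th w (D + (L * Y * io k e u + τ * w) - (Y * L * io k e u + Th * ω)) := by
    intro Y Th w D
    have a1 : S * XI Y Th w D = XI 0 0 0 (L * Y * io k e u + τ * w) := by rw [hS, XI_mul]
    have a2 : XI Y Th w D * S = XI 0 0 0 (Y * L * io k e u + Th * ω) := by rw [hS, XI_mul]
    have a3 : (XI Y Th w D * S) * S = 0 := by
      rw [a2, hS, XI_mul]
      simp [XI_zero]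
    have a4 : (S * XI Y Th w D) * S = 0 := by
      rw [a1, hS, XI_mul]
      simp [XI_zero]
    have : (1 + S) * XI Y Th w D * (1 - S + S * S) = XI Y Th w D + S * XI Y Th w D -
        XI Y Th w D * S + (XI Y Th w D * S) * S - (S * XI Y Th w D) * S +
        (S * XI Y Th w D) * S * S := by noncomm_ring
    rw [this, a3, a4, a1, a2, zero_mul, add_zero, sub_zero, add_zero, XI_add]
    rw [sub_eq_iff_eq_add, XI_add]
    congr 1 <;> simp
  have h2 : (fun i => (1 + S) * (![JX k e u p, XI Y Th w D, XI Y' Th' w' D'] :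
      Fin 3 → Matrix (Ix e u p) (Ix e u p) k) i * (1 - S + S * S)) =
      ![JX k e u p,
      XI Y Th w (D + (L * Y * io k e u + τ * w) - (Y * L * io k e u + Th * ω)),
      XI Y' Th' w' (D' + (L * Y' * io k e u + τ * w') - (Y' * L * io k e u + Th' * ω))] := by
    funext i
    fin_cases i
    · show (1 + S) * JX k e u p * (1 - S + S * S) = JX k e u p
      rw [JX_eq, key]
      simp
    · exact key ..
    · exact key ..
  rwa [h2] at h1

end

end Pool.Agent.Lib.D12
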